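import Pool.Agent.helper90.PK.GenSum

/-!
# PK-A5: bounds for `P`

Proof sketch. (i) `‖P q‖ ≤ ∏ (1 - ‖q‖^(n+1))⁻¹ ≤ exp (π²/(6x))`: `‖1 - q^m‖ ≥ 1 - r^m`,
`r = ‖q‖ ≤ e^(-x)`; for real `r`: `-log (1 - r^m) = ∑_{j≥1} r^(m j)/j`, sum over `m ≥ 1`:
`∑_j (1/j) r^j/(1-r^j) ≤ ∑_j 1/(j² x) = π²/(6x)` by `e^(-jx)/(1-e^(-jx)) = 1/(e^(jx)-1) ≤ 1/(jx)`
(`hasSum_zeta_two`). It suffices to bound all finite products `∏_{m<M}` uniformly and pass to the
limit (`Multipliable...tendsto_prod_nat`), so only finite sums over `m` are needed: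
`∑_{m=1}^{M} r^(mj) ≤ r^j/(1-r^j)`. Monotone in `r`, so take `r = e^(-x)`. (The case `q = 0` is
trivial or included.)
(ii) from `hasSum_P`: `P q - 1 = ∑_{n ≥ 1} pp n q^n`, so
`‖P q - 1‖ ≤ ‖q‖ ∑_{n≥0} pp (n+1) e^(-n)` for `‖q‖ ≤ e^(-1)` (`pp 0 = 1`, `summable_pp`).
-/

namespace PK

open Filter

/-- the geometric sum -/
lemma geom_bound {t y : ℝ} (ht : 0 < t) (hy0 : 0 ≤ y) (hy : y ≤ Real.exp (-t)) (M : ℕ) :
    ∑ m ∈ Finset.range M, y ^ (m + 1) ≤ 1 / t := by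
  have h1 : y * (1 + t) ≤ 1 := by
    have h2 : 1 + t ≤ Real.exp t := by linarith [Real.add_one_le_exp t]
    calc y * (1 + t) ≤ Real.exp (-t) * Real.exp t := by gcongr
      _ = 1 := by rw [← Real.exp_add]; simp
  have hy1 : y < 1 := by
    have : Real.exp (-t) < 1 := by rw [Real.exp_lt_one_iff]; linarith
    linarith
  have h3 : (∑ m ∈ Finset.range M, y ^ (m + 1)) * (1 - y) = y * (1 - y ^ M) := by
    have h4 := geom_sum_mul_neg y M
    have e1 : ∑ m ∈ Finset.range M, y ^ (m + 1) = y * ∑ m ∈ Finset.range M, y ^ m := by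
      rw [Finset.mul_sum]
      exact Finset.sum_congr rfl fun m _ => by ring
    rw [e1, mul_assoc, h4]
  have h5 : 0 ≤ y ^ M := by positivity
  have h6 : (∑ m ∈ Finset.range M, y ^ (m + 1)) * (1 - y) ≤ y := by
    rw [h3]; nlinarith
  rw [le_div_iff₀ ht]
  have h7 : 0 < 1 - y := by linarith
  have h8 : (∑ m ∈ Finset.range M, y ^ (m + 1)) ≤ y / (1 - y) := by
    rw [le_div_iff₀ h7]; exact h6
  calc (∑ m ∈ Finset.range M, y ^ (m + 1)) * t ≤ y / (1 - y) * t := by gcongr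
    _ ≤ 1 := by
      rw [div_mul_eq_mul_div, div_le_one h7]
      linarith

lemma hasSum_zeta : HasSum (fun n : ℕ => (1 : ℝ) / ((n : ℝ) + 1) ^ 2) (Real.pi ^ 2 / 6) := by
  have h := hasSum_zeta_two
  have h1 := (hasSum_nat_add_iff' 1).2 h
  simpa using h1

/-- lower bound for the finite products -/
lemma prod_lower {x r : ℝ} (hx : 0 < x) (hr0 : 0 ≤ r) (hr : r ≤ Real.exp (-x)) (M : ℕ) :
    Real.exp (-(Real.pi ^ 2 / (6 * x))) ≤ ∏ m ∈ Finset.range M, (1 - r ^ (m + 1)) := by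
  have hr1 : r < 1 := by
    have : Real.exp (-x) < 1 := by rw [Real.exp_lt_one_iff]; linarith
    linarith
  have hpos : ∀ m : ℕ, 0 < 1 - r ^ (m + 1) := by
    intro m
    have : r ^ (m + 1) < 1 := pow_lt_one₀ hr0 hr1 (by omega)
    linarith
  rw [← Real.exp_log (Finset.prod_pos fun m _ => hpos m), Real.exp_le_exp,
    Real.log_prod (fun m _ => (hpos m).ne')]
  have h1 : HasSum (fun j : ℕ => ∑ m ∈ Finset.range M, (r ^ (m + 1)) ^ (j + 1) / ((j : ℝ) + 1))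
      (∑ m ∈ Finset.range M, -Real.log (1 - r ^ (m + 1))) := by
    refine hasSum_sum fun m _ => ?_
    refine Real.hasSum_pow_div_log_of_abs_lt_one ?_
    rw [abs_of_nonneg (by positivity)]
    exact pow_lt_one₀ hr0 hr1 (by omega)
  have h2 : HasSum (fun n : ℕ => 1 / x * ((1 : ℝ) / ((n : ℝ) + 1) ^ 2))
      (1 / x * (Real.pi ^ 2 / 6)) := hasSum_zeta.mul_left _
  have h3 : ∑ m ∈ Finset.range M, -Real.log (1 - r ^ (m + 1)) ≤ 1 / x * (Real.pi ^ 2 / 6) := by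
    refine hasSum_le (fun j => ?_) h1 h2
    have hj : (0 : ℝ) < (j : ℝ) + 1 := by positivity
    have e1 : ∑ m ∈ Finset.range M, (r ^ (m + 1)) ^ (j + 1) / ((j : ℝ) + 1) =
        (∑ m ∈ Finset.range M, (r ^ (j + 1)) ^ (m + 1)) / ((j : ℝ) + 1) := by
      rw [Finset.sum_div]
      refine Finset.sum_congr rfl fun m _ => ?_
      rw [← pow_mul, ← pow_mul, mul_comm (m + 1)]
    have h4 : r ^ (j + 1) ≤ Real.exp (-(((j : ℝ) + 1) * x)) := by
      calc r ^ (j + 1) ≤ Real.exp (-x) ^ (j + 1) := by gcongr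
        _ = _ := by
          rw [← Real.exp_nat_mul]
          congr 1
          push_cast
          ring
    have h5 := geom_bound (t := ((j : ℝ) + 1) * x) (by positivity) (by positivity) h4 M
    rw [e1, div_le_iff₀ hj]
    refine h5.trans (le_of_eq ?_)
    field_simp
  rw [Finset.sum_neg_distrib] at h3
  have e2 : Real.pi ^ 2 / (6 * x) = 1 / x * (Real.pi ^ 2 / 6) := by field_simp
  rw [e2]
  linarith

theorem norm_P_le {q : ℂ} {x : ℝ} (hx : 0 < x) (hq : ‖q‖ ≤ Real.exp (-x)) :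
    ‖P q‖ ≤ Real.exp (Real.pi ^ 2 / (6 * x)) := by
  have hq1 : ‖q‖ < 1 := by
    have : Real.exp (-x) < 1 := by rw [Real.exp_lt_one_iff]; linarith
    linarith
  have hm : Multipliable fun n : ℕ => (1 - q ^ (n + 1)) :=
    ModularForm.multipliable_one_sub_pow hq1
  have h1 : Tendsto (fun M => ‖∏ m ∈ Finset.range M, (1 - q ^ (m + 1))‖) atTop
      (nhds ‖∏' n : ℕ, (1 - q ^ (n + 1))‖) :=
    (hm.hasProd.tendsto_prod_nat).norm
  have h2 : ∀ M, Real.exp (-(Real.pi ^ 2 / (6 * x))) ≤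
      ‖∏ m ∈ Finset.range M, (1 - q ^ (m + 1))‖ := by
    intro M
    rw [norm_prod]
    refine (prod_lower hx (norm_nonneg q) hq M).trans ?_
    refine Finset.prod_le_prod (fun m _ => ?_) (fun m _ => ?_)
    · have : ‖q‖ ^ (m + 1) ≤ 1 := pow_le_one₀ (norm_nonneg _) hq1.le
      linarith
    · have h3 := norm_sub_norm_le (1 : ℂ) (q ^ (m + 1))
      rw [norm_one, norm_pow] at h3
      exact h3
  have h3 := ge_of_tendsto' h1 h2
  rw [P, norm_inv]
  have h4 : Real.exp (Real.pi ^ 2 / (6 * x)) = (Real.exp (-(Real.pi ^ 2 / (6 * x))))⁻¹ := by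
    rw [Real.exp_neg, inv_inv]
  rw [h4]
  exact inv_anti₀ (Real.exp_pos _) h3

theorem norm_P_sub_one_le :
    ∃ K : ℝ, 0 < K ∧ ∀ q : ℂ, ‖q‖ ≤ Real.exp (-1) → ‖P q - 1‖ ≤ K * ‖q‖ := by
  have he1 : Real.exp (-1) < 1 := by rw [Real.exp_lt_one_iff]; norm_num
  have hs0 := summable_pp (Real.exp_pos (-1)).le he1
  have hs1 : Summable fun n : ℕ => (pp (n + 1) : ℝ) * Real.exp (-1) ^ (n + 1) :=
    (summable_nat_add_iff 1).2 hs0
  have hs : Summable fun n : ℕ => (pp (n + 1) : ℝ) * Real.exp (-1) ^ n := by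
    have := hs1.mul_left (Real.exp (-1))⁻¹
    refine this.congr fun n => ?_
    rw [pow_succ]
    field_simp
  refine ⟨(∑' n : ℕ, (pp (n + 1) : ℝ) * Real.exp (-1) ^ n) + 1, ?_, fun q hq => ?_⟩
  · have : 0 ≤ ∑' n : ℕ, (pp (n + 1) : ℝ) * Real.exp (-1) ^ n :=
      tsum_nonneg fun n => by positivity
    linarith
  · have hq1 : ‖q‖ < 1 := lt_of_le_of_lt hq he1
    have h1 := hasSum_P hq1
    have h2 := (hasSum_nat_add_iff' 1).2 h1
    have hpp0 : (pp 0 : ℂ) = 1 := by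
      have : pp 0 = 1 := by
        rw [pp]
        exact Fintype.card_unique
      rw [this]; norm_num
    simp only [Finset.range_one, Finset.sum_singleton, pow_zero, mul_one, hpp0] at h2
    rw [← h2.tsum_eq]
    have hb : ∀ n : ℕ, ‖(pp (n + 1) : ℂ) * q ^ (n + 1)‖ ≤
        ‖q‖ * ((pp (n + 1) : ℝ) * Real.exp (-1) ^ n) := by
      intro n
      rw [norm_mul, norm_pow, Complex.norm_natCast, pow_succ]
      calc (pp (n + 1) : ℝ) * (‖q‖ ^ n * ‖q‖) = ‖q‖ * ((pp (n + 1) : ℝ) * ‖q‖ ^ n) := by ring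
        _ ≤ _ := by gcongr
    have h3 := tsum_of_norm_bounded (hs.mul_left ‖q‖).hasSum hb
    rw [tsum_mul_left] at h3
    refine h3.trans ?_
    rw [mul_comm]
    gcongr
    linarith

end PK
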