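import Pool.Agent.helper90.PK.EtaNeg
import Pool.Agent.helper90.PK.PBound

/-!
# PK-A6: `P` on the two arcs

Proof sketch of `arc1` (`s = y - iθ`, `w = 4π²/s`, `Re w = 4π² y/‖s‖²`). By `P_S`,
`P(e^(-s)) - M = M (P(e^(-w)) - 1)`, `M = (s/2π)^(1/2) exp(π²/(6s) - s/24)`,
`‖M‖ ≤ (‖s‖/2π)^(1/2) exp(Re w/24)` as `Re(π²/(6s)) = π² y/(6‖s‖²) = Re w/24`, `Re(-s/24) ≤ 0`, and
`‖s‖ ≤ y + |θ| ≤ 1 + 2π/3` is bounded.
Case `Re w ≥ 1`: `‖P(e^(-w)) - 1‖ ≤ K₀ e^(-Re w)` (`norm_P_sub_one_le`), so the product is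
`≤ K e^(Re w/24 - Re w) ≤ K`. Case `Re w < 1`: `‖M‖ ≤ K`, `‖P(e^(-w))‖ ≤ exp(π²/(6 Re w)) =
exp(‖s‖²/(24 y)) ≤ exp((4π²/9 + y²)/(24 y)) = exp(π²/(54 y) + y/24)` (`norm_P_le` with `x = Re w`).
`arc2` is the same with `w = π²/s`, `M = (s/π)^(1/2) exp(π²/(24 s) - s/24)`, `Re(π²/(24 s)) =
Re w/24`, `‖P(-e^(-w))‖ ≤ exp(π²/(6 Re w)) = exp(‖s‖²/(6y)) ≤ exp((π²/9+y²)/(6y))
= exp(π²/(54 y) + y/6)`.
-/

namespace PK

theorem sp_re (y θ : ℝ) : (sp y θ).re = y := by simp [sp]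

theorem sp_im (y θ : ℝ) : (sp y θ).im = -θ := by simp [sp]

theorem sp_ne_zero {y θ : ℝ} (hy : 0 < y) : sp y θ ≠ 0 := by
  intro h
  have := congrArg Complex.re h
  rw [sp_re] at this
  simp at this
  linarith

theorem normSq_sp (y θ : ℝ) : Complex.normSq (sp y θ) = y ^ 2 + θ ^ 2 := by
  rw [Complex.normSq_apply, sp_re, sp_im]; ring

theorem norm_sp_le {y θ : ℝ} (hy : 0 < y) : ‖sp y θ‖ ≤ y + |θ| := by
  have h := Complex.norm_le_abs_re_add_abs_im (sp y θ)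
  rw [sp_re, sp_im, abs_neg, abs_of_pos hy] at h
  exact h

theorem re_div_sp (c : ℝ) {y θ : ℝ} :
    ((c : ℂ) / sp y θ).re = c * y / (y ^ 2 + θ ^ 2) := by
  rw [Complex.div_re, normSq_sp, sp_re, sp_im]
  simp

/-- the common estimate -/
theorem arc_core {K0 c d θ0 y θ : ℝ} (hK0 : 0 < K0) (hc : 1 ≤ c) (hθ0 : 1 + θ0 ≤ d)
    (hy : 0 < y) (hy1 : y ≤ 1) (hθ : |θ| ≤ θ0) (hcθ : θ0 ^ 2 / (6 * c) = Real.pi ^ 2 / 54)
    {w X : ℂ} (hw : w = ((c * Real.pi ^ 2 : ℝ) : ℂ) / sp y θ)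
    (h1 : ‖Complex.exp (-w)‖ ≤ Real.exp (-1) → ‖X - 1‖ ≤ K0 * ‖Complex.exp (-w)‖)
    (h2 : ‖X‖ ≤ Real.exp (Real.pi ^ 2 / (6 * w.re))) :
    ‖(sp y θ / (d : ℂ)) ^ (1 / 2 : ℂ) * Complex.exp (w / 24 - sp y θ / 24) * X -
      (sp y θ / (d : ℂ)) ^ (1 / 2 : ℂ) * Complex.exp (w / 24 - sp y θ / 24)‖ ≤
      (K0 + 2 * Real.exp 1) * Real.exp (Real.pi ^ 2 / (54 * y)) := by
  have hs0 : sp y θ ≠ 0 := sp_ne_zero hy
  have hθ00 : 0 ≤ θ0 := le_trans (abs_nonneg _) hθ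
  have hd : 0 < d := by linarith
  have hden : 0 < y ^ 2 + θ ^ 2 := by positivity
  have hwre : w.re = c * Real.pi ^ 2 * y / (y ^ 2 + θ ^ 2) := by
    rw [hw, re_div_sp]
  have hwpos : 0 < w.re := by rw [hwre]; positivity
  have hM1 : ‖(sp y θ / (d : ℂ)) ^ (1 / 2 : ℂ)‖ ≤ 1 := by
    have hne : sp y θ / (d : ℂ) ≠ 0 := div_ne_zero hs0 (by exact_mod_cast hd.ne')
    rw [Complex.norm_cpow_of_ne_zero hne]
    have : (1 / 2 : ℂ).im = 0 := by norm_num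
    rw [this, mul_zero, Real.exp_zero, div_one]
    have : (1 / 2 : ℂ).re = 1 / 2 := by norm_num
    rw [this]
    apply Real.rpow_le_one (norm_nonneg _) _ (by norm_num)
    rw [norm_div, Complex.norm_real, Real.norm_of_nonneg hd.le, div_le_one hd]
    have := norm_sp_le (θ := θ) hy
    linarith
  have hM2 : ‖Complex.exp (w / 24 - sp y θ / 24)‖ ≤ Real.exp (w.re / 24) := by
    rw [Complex.norm_exp]
    apply Real.exp_le_exp.mpr
    have e1 : (w / 24 - sp y θ / 24).re = w.re / 24 - y / 24 := by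
      rw [Complex.sub_re, show (24 : ℂ) = ((24 : ℝ) : ℂ) by norm_num, Complex.div_ofReal_re,
        Complex.div_ofReal_re, sp_re]
    rw [e1]
    linarith
  have hM : ‖(sp y θ / (d : ℂ)) ^ (1 / 2 : ℂ) * Complex.exp (w / 24 - sp y θ / 24)‖ ≤
      Real.exp (w.re / 24) := by
    rw [norm_mul]
    calc _ ≤ 1 * Real.exp (w.re / 24) := mul_le_mul hM1 hM2 (norm_nonneg _) zero_le_one
      _ = _ := one_mul _
  have hE : 1 ≤ Real.exp (Real.pi ^ 2 / (54 * y)) := by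
    apply Real.one_le_exp; positivity
  have hrew : ‖(sp y θ / (d : ℂ)) ^ (1 / 2 : ℂ) * Complex.exp (w / 24 - sp y θ / 24) * X -
      (sp y θ / (d : ℂ)) ^ (1 / 2 : ℂ) * Complex.exp (w / 24 - sp y θ / 24)‖ =
      ‖(sp y θ / (d : ℂ)) ^ (1 / 2 : ℂ) * Complex.exp (w / 24 - sp y θ / 24)‖ * ‖X - 1‖ := by
    rw [← norm_mul]; congr 1; ring
  rw [hrew]
  by_cases hc1 : 1 ≤ w.re
  · have hexp : ‖Complex.exp (-w)‖ = Real.exp (-w.re) := by
      rw [Complex.norm_exp, Complex.neg_re]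
    have hX := h1 (by rw [hexp]; exact Real.exp_le_exp.mpr (by linarith))
    rw [hexp] at hX
    calc _ ≤ Real.exp (w.re / 24) * (K0 * Real.exp (-w.re)) :=
          mul_le_mul hM hX (norm_nonneg _) (Real.exp_pos _).le
      _ = K0 * Real.exp (w.re / 24 - w.re) := by
          rw [sub_eq_add_neg, Real.exp_add]; ring
      _ ≤ K0 * 1 := by
          apply mul_le_mul_of_nonneg_left _ hK0.le
          rw [Real.exp_le_one_iff]; linarith
      _ ≤ (K0 + 2 * Real.exp 1) * 1 := by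
          have := Real.exp_pos 1
          linarith
      _ ≤ _ := mul_le_mul_of_nonneg_left hE (by positivity)
  · push Not at hc1
    have hX : ‖X - 1‖ ≤ 2 * Real.exp (Real.pi ^ 2 / (6 * w.re)) := by
      have : 1 ≤ Real.exp (Real.pi ^ 2 / (6 * w.re)) := by
        apply Real.one_le_exp; positivity
      calc ‖X - 1‖ ≤ ‖X‖ + ‖(1 : ℂ)‖ := norm_sub_le _ _
        _ ≤ _ := by rw [norm_one]; linarith
    have hexpo : Real.pi ^ 2 / (6 * w.re) ≤ Real.pi ^ 2 / (54 * y) + 1 / 6 := by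
      have hpi := Real.pi_pos
      have e1 : Real.pi ^ 2 / (6 * w.re) = (y ^ 2 + θ ^ 2) / (6 * c * y) := by
        rw [hwre]
        have : c ≠ 0 := by positivity
        field_simp
      have hθ2 : θ ^ 2 ≤ θ0 ^ 2 := by
        rw [← sq_abs θ]
        exact pow_le_pow_left₀ (abs_nonneg _) hθ 2
      have e2 : (y ^ 2 + θ ^ 2) / (6 * c * y) ≤ (y ^ 2 + θ0 ^ 2) / (6 * c * y) := by
        apply div_le_div_of_nonneg_right _ (by positivity)
        linarith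
      have e3 : (y ^ 2 + θ0 ^ 2) / (6 * c * y) = y / (6 * c) + (θ0 ^ 2 / (6 * c)) / y := by
        have : c ≠ 0 := by positivity
        field_simp
      have e4 : (θ0 ^ 2 / (6 * c)) / y = Real.pi ^ 2 / (54 * y) := by
        rw [hcθ]
        field_simp
      have e5 : y / (6 * c) ≤ 1 / 6 := by
        rw [div_le_div_iff₀ (by positivity) (by norm_num)]
        nlinarith
      rw [e1]
      calc _ ≤ _ := e2
        _ = _ := e3
        _ ≤ _ := by rw [e4]; linarith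
    calc _ ≤ Real.exp (w.re / 24) * (2 * Real.exp (Real.pi ^ 2 / (6 * w.re))) :=
          mul_le_mul hM hX (norm_nonneg _) (Real.exp_pos _).le
      _ = 2 * Real.exp (w.re / 24 + Real.pi ^ 2 / (6 * w.re)) := by
          rw [Real.exp_add]; ring
      _ ≤ 2 * Real.exp (1 + Real.pi ^ 2 / (54 * y)) := by
          apply mul_le_mul_of_nonneg_left _ (by norm_num)
          apply Real.exp_le_exp.mpr
          linarith
      _ = (2 * Real.exp 1) * Real.exp (Real.pi ^ 2 / (54 * y)) := by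
          rw [Real.exp_add]; ring
      _ ≤ _ := by
          apply mul_le_mul_of_nonneg_right _ (Real.exp_pos _).le
          linarith

theorem norm_exp_neg_lt_one {w : ℂ} (hw : 0 < w.re) : ‖Complex.exp (-w)‖ < 1 := by
  rw [Complex.norm_exp, Complex.neg_re, Real.exp_lt_one_iff]
  linarith

theorem arc1 : ∃ K : ℝ, 0 < K ∧ ∀ y θ : ℝ, 0 < y → y ≤ 1 → |θ| ≤ 2 * Real.pi / 3 →
    ‖P (Complex.exp (-(sp y θ))) - (sp y θ / (2 * Real.pi)) ^ (1 / 2 : ℂ) *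
      Complex.exp ((Real.pi : ℂ) ^ 2 / (6 * sp y θ) - sp y θ / 24)‖ ≤
      K * Real.exp (Real.pi ^ 2 / (54 * y)) := by
  obtain ⟨K0, hK0, h0⟩ := norm_P_sub_one_le
  refine ⟨K0 + 2 * Real.exp 1, by positivity, fun y θ hy hy1 hθ => ?_⟩
  have hs0 : sp y θ ≠ 0 := sp_ne_zero hy
  have hsre : 0 < (sp y θ).re := by rw [sp_re]; exact hy
  have hpi := Real.pi_gt_three
  set w : ℂ := 4 * (Real.pi : ℂ) ^ 2 / sp y θ with hw
  have hw' : w = ((4 * Real.pi ^ 2 : ℝ) : ℂ) / sp y θ := by rw [hw]; push_cast; ring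
  have hwre : 0 < w.re := by
    rw [hw', re_div_sp]; positivity
  have key := arc_core (K0 := K0) (c := 4) (d := 2 * Real.pi) (θ0 := 2 * Real.pi / 3) (y := y)
    (θ := θ) (w := w) (X := P (Complex.exp (-w))) hK0 (by norm_num) (by linarith) hy hy1 hθ
    (by ring) hw' (fun h => h0 _ h)
    (norm_P_le hwre (by rw [Complex.norm_exp, Complex.neg_re]))
  have e1 : (Real.pi : ℂ) ^ 2 / (6 * sp y θ) - sp y θ / 24 = w / 24 - sp y θ / 24 := by
    rw [hw]; field_simp; ring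
  rw [P_S hsre, e1]
  push_cast at key
  exact key

theorem arc2 : ∃ K : ℝ, 0 < K ∧ ∀ y θ : ℝ, 0 < y → y ≤ 1 → |θ| ≤ Real.pi / 3 →
    ‖P (-Complex.exp (-(sp y θ))) - (sp y θ / Real.pi) ^ (1 / 2 : ℂ) *
      Complex.exp ((Real.pi : ℂ) ^ 2 / (24 * sp y θ) - sp y θ / 24)‖ ≤
      K * Real.exp (Real.pi ^ 2 / (54 * y)) := by
  obtain ⟨K0, hK0, h0⟩ := norm_P_sub_one_le
  refine ⟨K0 + 2 * Real.exp 1, by positivity, fun y θ hy hy1 hθ => ?_⟩
  have hs0 : sp y θ ≠ 0 := sp_ne_zero hy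
  have hsre : 0 < (sp y θ).re := by rw [sp_re]; exact hy
  have hpi := Real.pi_gt_three
  set w : ℂ := (Real.pi : ℂ) ^ 2 / sp y θ with hw
  have hw' : w = ((1 * Real.pi ^ 2 : ℝ) : ℂ) / sp y θ := by rw [hw]; push_cast; ring
  have hwre : 0 < w.re := by
    rw [hw', re_div_sp]; positivity
  have key := arc_core (K0 := K0) (c := 1) (d := Real.pi) (θ0 := Real.pi / 3) (y := y)
    (θ := θ) (w := w) (X := P (-Complex.exp (-w))) hK0 (by norm_num) (by linarith) hy hy1 hθ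
    (by ring) hw' (fun h => by
      have := h0 (-Complex.exp (-w)) (by rw [norm_neg]; exact h)
      rwa [norm_neg] at this)
    (norm_P_le hwre (by rw [norm_neg, Complex.norm_exp, Complex.neg_re]))
  have e1 : (Real.pi : ℂ) ^ 2 / (24 * sp y θ) - sp y θ / 24 = w / 24 - sp y θ / 24 := by
    rw [hw]; field_simp
  rw [P_S_neg hsre, e1]
  exact key

end PK
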