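import Pool.Agent.helper90.PK.GenSum

/-!
# PK-A2: Cauchy integral for `pp n` on two arcs
-/

namespace PK

lemma norm_exp_neg_sp (y θ : ℝ) : ‖Complex.exp (-(sp y θ))‖ = Real.exp (-y) := by
  rw [Complex.norm_exp]
  congr 1
  simp [sp]

lemma norm_exp_nat_sp (n : ℕ) (y θ : ℝ) :
    ‖Complex.exp ((n : ℂ) * sp y θ)‖ = Real.exp (n * y) := by
  rw [Complex.norm_exp]
  congr 1
  simp [sp]

lemma exp_neg_lt_one {y : ℝ} (hy : 0 < y) : Real.exp (-y) < 1 := by
  rw [Real.exp_lt_one_iff]
  linarith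

lemma continuous_sp (y : ℝ) : Continuous fun θ : ℝ => sp y θ := by
  unfold sp
  fun_prop

lemma continuous_P_comp {y : ℝ} (hy : 0 < y) {q : ℝ → ℂ} (hq : Continuous q)
    (hn : ∀ θ, ‖q θ‖ = Real.exp (-y)) : Continuous fun θ : ℝ => P (q θ) := by
  have h1 := exp_neg_lt_one hy
  have e : (fun θ : ℝ => P (q θ)) = fun θ : ℝ => ∑' n : ℕ, (pp n : ℂ) * q θ ^ n := by
    funext θ
    exact (hasSum_P (q := q θ) (by rw [hn]; exact h1)).tsum_eq.symm
  rw [e]
  refine continuous_tsum (u := fun n : ℕ => (pp n : ℝ) * Real.exp (-y) ^ n) (fun n => ?_)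
    (summable_pp (Real.exp_pos _).le h1) fun n θ => ?_
  · exact continuous_const.mul (hq.pow n)
  · rw [norm_mul, norm_pow, hn, Complex.norm_natCast]

/-- `θ ↦ P(e^(-s)) e^(n s)` is continuous -/
theorem continuous_arc (n : ℕ) {y : ℝ} (hy : 0 < y) :
    Continuous fun θ : ℝ => P (Complex.exp (-(sp y θ))) * Complex.exp ((n : ℂ) * sp y θ) := by
  refine (continuous_P_comp hy ?_ fun θ => norm_exp_neg_sp y θ).mul ?_
  · exact Complex.continuous_exp.comp (continuous_sp y).neg
  · exact Complex.continuous_exp.comp (continuous_const.mul (continuous_sp y))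

theorem continuous_arc_neg (n : ℕ) {y : ℝ} (hy : 0 < y) :
    Continuous fun θ : ℝ => P (-Complex.exp (-(sp y θ))) * Complex.exp ((n : ℂ) * sp y θ) := by
  refine (continuous_P_comp hy ?_ fun θ => ?_).mul ?_
  · exact (Complex.continuous_exp.comp (continuous_sp y).neg).neg
  · rw [norm_neg, norm_exp_neg_sp]
  · exact Complex.continuous_exp.comp (continuous_const.mul (continuous_sp y))

/-- orthogonality -/
lemma integral_term (n m : ℕ) (y : ℝ) :
    ∫ θ in (-(2 * Real.pi / 3))..(4 * Real.pi / 3),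
      Complex.exp (-(sp y θ)) ^ m * Complex.exp ((n : ℂ) * sp y θ) =
      if m = n then (2 * Real.pi : ℂ) else 0 := by
  have e1 : ∀ θ : ℝ, Complex.exp (-(sp y θ)) ^ m * Complex.exp ((n : ℂ) * sp y θ) =
      Complex.exp (((n : ℂ) - m) * y) * Complex.exp ((((m : ℂ) - n) * Complex.I) * θ) := by
    intro θ
    rw [← Complex.exp_nat_mul, ← Complex.exp_add, ← Complex.exp_add, sp]
    congr 1
    ring
  simp only [e1]
  rw [intervalIntegral.integral_const_mul]
  split_ifs with h
  · subst h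
    simp only [sub_self, zero_mul, Complex.exp_zero, one_mul, intervalIntegral.integral_const]
    rw [Complex.real_smul]
    push_cast
    ring
  · have hc : (((m : ℂ) - n) * Complex.I) ≠ 0 := by
      refine mul_ne_zero (sub_ne_zero.2 ?_) Complex.I_ne_zero
      exact_mod_cast h
    rw [integral_exp_mul_complex hc]
    have e2 : Complex.exp ((((m : ℂ) - n) * Complex.I) * ((4 * Real.pi / 3 : ℝ) : ℂ)) =
        Complex.exp ((((m : ℂ) - n) * Complex.I) * ((-(2 * Real.pi / 3) : ℝ) : ℂ)) := by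
      have e3 : (((m : ℂ) - n) * Complex.I) * ((4 * Real.pi / 3 : ℝ) : ℂ) =
          (((m : ℂ) - n) * Complex.I) * ((-(2 * Real.pi / 3) : ℝ) : ℂ) +
            (((m : ℤ) - (n : ℤ) : ℤ) : ℂ) * (2 * Real.pi * Complex.I) := by
        push_cast
        ring
      rw [e3, Complex.exp_add, Complex.exp_int_mul_two_pi_mul_I, mul_one]
    rw [e2, sub_self, zero_div, mul_zero]

lemma integral_full (n : ℕ) {y : ℝ} (hy : 0 < y) :
    ∫ θ in (-(2 * Real.pi / 3))..(4 * Real.pi / 3),
      P (Complex.exp (-(sp y θ))) * Complex.exp ((n : ℂ) * sp y θ) =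
      (2 * Real.pi : ℂ) * (pp n : ℂ) := by
  have h1 := exp_neg_lt_one hy
  have hs : HasSum (fun m : ℕ => ∫ θ in (-(2 * Real.pi / 3))..(4 * Real.pi / 3),
      (pp m : ℂ) * Complex.exp (-(sp y θ)) ^ m * Complex.exp ((n : ℂ) * sp y θ))
      (∫ θ in (-(2 * Real.pi / 3))..(4 * Real.pi / 3),
        P (Complex.exp (-(sp y θ))) * Complex.exp ((n : ℂ) * sp y θ)) := by
    refine intervalIntegral.hasSum_integral_of_dominated_convergence
      (fun m _ => (pp m : ℝ) * Real.exp (-y) ^ m * Real.exp (n * y)) (fun m => ?_) (fun m => ?_)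
      ?_ ?_ ?_
    · refine Continuous.aestronglyMeasurable ?_
      refine (continuous_const.mul ?_).mul ?_
      · exact (Complex.continuous_exp.comp (continuous_sp y).neg).pow m
      · exact Complex.continuous_exp.comp (continuous_const.mul (continuous_sp y))
    · refine Filter.Eventually.of_forall fun θ _ => ?_
      rw [norm_mul, norm_mul, norm_pow, norm_exp_neg_sp, norm_exp_nat_sp, Complex.norm_natCast]
    · refine Filter.Eventually.of_forall fun θ _ => ?_
      exact (summable_pp (Real.exp_pos _).le h1).mul_right _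
    · exact intervalIntegrable_const
    · refine Filter.Eventually.of_forall fun θ _ => ?_
      exact (hasSum_P (by rw [norm_exp_neg_sp]; exact h1)).mul_right _
  have e1 : ∀ m : ℕ, (∫ θ in (-(2 * Real.pi / 3))..(4 * Real.pi / 3),
      (pp m : ℂ) * Complex.exp (-(sp y θ)) ^ m * Complex.exp ((n : ℂ) * sp y θ)) =
      if m = n then (2 * Real.pi : ℂ) * (pp n : ℂ) else 0 := by
    intro m
    simp only [mul_assoc (pp m : ℂ)]
    rw [intervalIntegral.integral_const_mul, integral_term]
    split_ifs with h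
    · rw [h, mul_comm]
    · rw [mul_zero]
  simp only [e1] at hs
  have h2 := hasSum_ite_eq n ((2 * Real.pi : ℂ) * (pp n : ℂ))
  exact hs.unique h2

theorem pp_eq_arcs (n : ℕ) {y : ℝ} (hy : 0 < y) :
    (2 * Real.pi : ℂ) * (pp n : ℂ) =
      (∫ θ in (-(2 * Real.pi / 3))..(2 * Real.pi / 3),
        P (Complex.exp (-(sp y θ))) * Complex.exp ((n : ℂ) * sp y θ)) +
      (-1 : ℂ) ^ n * ∫ θ in (-(Real.pi / 3))..(Real.pi / 3),
        P (-Complex.exp (-(sp y θ))) * Complex.exp ((n : ℂ) * sp y θ) := by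
  have hc := continuous_arc n hy
  rw [← integral_full n hy, ← intervalIntegral.integral_add_adjacent_intervals
    (hc.intervalIntegrable _ (2 * Real.pi / 3)) (hc.intervalIntegrable _ _)]
  congr 1
  have e1 := intervalIntegral.integral_comp_add_right (a := -(Real.pi / 3)) (b := Real.pi / 3)
    (fun θ : ℝ => P (Complex.exp (-(sp y θ))) * Complex.exp ((n : ℂ) * sp y θ)) Real.pi
  have e2 : -(Real.pi / 3) + Real.pi = 2 * Real.pi / 3 := by ring
  have e3 : Real.pi / 3 + Real.pi = 4 * Real.pi / 3 := by ring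
  rw [e2, e3] at e1
  rw [← e1, ← intervalIntegral.integral_const_mul]
  congr 1
  funext θ
  have e4 : sp y (θ + Real.pi) = sp y θ - Real.pi * Complex.I := by
    rw [sp, sp]
    push_cast
    ring
  have e5 : Complex.exp (-(sp y (θ + Real.pi))) = -Complex.exp (-(sp y θ)) := by
    rw [e4, show -(sp y θ - Real.pi * Complex.I) = -(sp y θ) + Real.pi * Complex.I by ring,
      Complex.exp_add, Complex.exp_pi_mul_I]
    ring
  have e6 : Complex.exp ((n : ℂ) * sp y (θ + Real.pi)) =
      (-1 : ℂ) ^ n * Complex.exp ((n : ℂ) * sp y θ) := by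
    rw [e4, mul_sub, sub_eq_add_neg, Complex.exp_add, mul_comm]
    congr 1
    rw [← mul_neg, Complex.exp_nat_mul, Complex.exp_neg, Complex.exp_pi_mul_I]
    norm_num
  rw [e5, e6]
  ring

end PK
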