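import Pool.Agent.helper90.PK.NumBase

/-!
# PK-B14: from intervals to `O(x^(1-ν'))`

For `N ≥ N0` (and `log N ≥ 1`), `cI s1 N ≤ s1 √N + 1`. Let `x ≥ 1`, `y = max N1 ⌈x^(1-ν)⌉`,
`h = ⌊y^(1/2+ν)⌋ + 1`. Cover `[y, x]` by the blocks `[y + j h, y + (j+1) h)`, `j ≤ x/h`.
-/

namespace PK

theorem cI_le_sqrt {s1 : ℝ} (hs1 : 0 < s1) {N x : ℕ} (hN : 3 ≤ N) (hNx : N ≤ x) :
    (cI s1 N : ℝ) ≤ s1 * Real.sqrt x + 1 := by
  have hN3 : (3 : ℝ) ≤ N := by exact_mod_cast hN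
  have hlog : 1 ≤ Real.log N := by
    rw [Real.le_log_iff_exp_le (by linarith)]
    have := Real.exp_one_lt_d9
    linarith
  have h0 : 0 ≤ s1 * Real.sqrt N := by positivity
  have h1 : s1 * Real.sqrt N / Real.log N ≤ s1 * Real.sqrt N :=
    div_le_self h0 hlog
  have h2 : (cI s1 N : ℝ) < s1 * Real.sqrt N / Real.log N + 1 :=
    Nat.ceil_lt_add_one (by positivity)
  have h3 : Real.sqrt N ≤ Real.sqrt x := Real.sqrt_le_sqrt (by exact_mod_cast hNx)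
  have h4 : s1 * Real.sqrt N ≤ s1 * Real.sqrt x := mul_le_mul_of_nonneg_left h3 hs1.le
  linarith

theorem cover {S : Set ℕ} {ν s1 : ℝ} (hν : 0 < ν) (hν8 : ν ≤ 1 / 8) (hs1 : 0 < s1) (N0 : ℕ)
    (hT : ∀ N : ℕ, N0 ≤ N → ∀ T : Finset ℕ,
      (∀ n ∈ T, n ∈ S ∧ N ≤ n ∧ (n : ℝ) ≤ N + (N : ℝ) ^ (1 / 2 + ν)) → T.card ≤ cI s1 N) :
    ∃ ν' : ℝ, 0 < ν' ∧ ν' ≤ 1 ∧ ∃ C : ℝ, 0 < C ∧ ∀ x : ℕ, 1 ≤ x →
      (({n : ℕ | n ∈ S ∧ n ≤ x}.ncard : ℕ) : ℝ) ≤ C * (x : ℝ) ^ (1 - ν') := by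
  classical
  set N1 : ℕ := max N0 3 with hN1
  refine ⟨ν / 4, by linarith, by linarith, (N1 : ℝ) + 2 + 2 * (s1 + 1), by positivity, ?_⟩
  intro x hx
  have hx1 : (1 : ℝ) ≤ x := by exact_mod_cast hx
  have hx0 : (0 : ℝ) < x := by linarith
  set y : ℕ := max N1 ⌈(x : ℝ) ^ (1 - ν)⌉₊ with hy
  set h : ℕ := ⌊(y : ℝ) ^ (1 / 2 + ν)⌋₊ + 1 with hh
  have hyN1 : N1 ≤ y := le_max_left _ _
  have hy3 : 3 ≤ y := le_trans (le_max_right _ _) hyN1
  have hyN0 : N0 ≤ y := le_trans (le_max_left _ _) hyN1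
  have hy0 : (0 : ℝ) < y := by
    have : (3 : ℝ) ≤ y := by exact_mod_cast hy3
    linarith
  have hhpos : 0 < h := Nat.succ_pos _
  -- the blocks
  set B : ℕ → Finset ℕ := fun j =>
    (Finset.range (x + 1)).filter (fun n => n ∈ S ∧ y + j * h ≤ n ∧ n < y + (j + 1) * h) with hB
  have hBcard : ∀ j, ((B j).card : ℝ) ≤ s1 * Real.sqrt x + 1 := by
    intro j
    by_cases hne : (B j).Nonempty
    · obtain ⟨n0, hn0⟩ := hne
      have hn0' := hn0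
      simp only [hB, Finset.mem_filter, Finset.mem_range] at hn0'
      have hle : y + j * h ≤ x := by omega
      have hcard := hT (y + j * h) (by omega) (B j) (by
        intro n hn
        simp only [hB, Finset.mem_filter, Finset.mem_range] at hn
        obtain ⟨_, hnS, hn1, hn2⟩ := hn
        refine ⟨hnS, hn1, ?_⟩
        have h1 : n ≤ (y + j * h) + ⌊(y : ℝ) ^ (1 / 2 + ν)⌋₊ := by
          have : (j + 1) * h = j * h + h := by ring
          omega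
        have h2 : (n : ℝ) ≤ ((y + j * h : ℕ) : ℝ) + (⌊(y : ℝ) ^ (1 / 2 + ν)⌋₊ : ℝ) := by
          exact_mod_cast h1
        have h3 : (⌊(y : ℝ) ^ (1 / 2 + ν)⌋₊ : ℝ) ≤ (y : ℝ) ^ (1 / 2 + ν) :=
          Nat.floor_le (by positivity)
        have h4 : (y : ℝ) ^ (1 / 2 + ν) ≤ ((y + j * h : ℕ) : ℝ) ^ (1 / 2 + ν) := by
          apply Real.rpow_le_rpow (by positivity) _ (by linarith)
          push_cast
          have : (0 : ℝ) ≤ (j : ℝ) * h := by positivity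
          linarith
        linarith)
      have h5 := cI_le_sqrt hs1 (N := y + j * h) (x := x) (by omega) hle
      have h6 : ((B j).card : ℝ) ≤ (cI s1 (y + j * h) : ℝ) := by exact_mod_cast hcard
      linarith
    · rw [Finset.not_nonempty_iff_eq_empty] at hne
      rw [hne, Finset.card_empty]
      push_cast
      positivity
  have hsub : {n : ℕ | n ∈ S ∧ n ≤ x} ⊆
      ((Finset.range y ∪ (Finset.range (x / h + 1)).biUnion B : Finset ℕ) : Set ℕ) := by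
    intro n hn
    obtain ⟨hnS, hnx⟩ := hn
    simp only [Finset.coe_union, Finset.coe_range, Set.mem_union, Set.mem_Iio, Finset.coe_biUnion,
      Set.mem_iUnion, Finset.mem_coe, exists_prop]
    by_cases hny : n < y
    · exact Or.inl hny
    · right
      refine ⟨(n - y) / h, ?_, ?_⟩
      · have : (n - y) / h ≤ x / h := Nat.div_le_div_right (by omega)
        omega
      · simp only [hB, Finset.mem_filter, Finset.mem_range]
        have h1 := Nat.div_mul_le_self (n - y) h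
        have h2 := Nat.lt_div_mul_add (a := n - y) hhpos
        have h3 : ((n - y) / h + 1) * h = (n - y) / h * h + h := by ring
        refine ⟨by omega, hnS, by omega, ?_⟩
        omega
  have hcard : (({n : ℕ | n ∈ S ∧ n ≤ x}.ncard : ℕ) : ℝ) ≤
      (y : ℝ) + ((x / h + 1 : ℕ) : ℝ) * (s1 * Real.sqrt x + 1) := by
    have h1 := Set.ncard_le_ncard hsub (Finset.finite_toSet _)
    rw [Set.ncard_coe_finset] at h1
    have h2 := Finset.card_union_le (Finset.range y) ((Finset.range (x / h + 1)).biUnion B)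
    have h3 : (((Finset.range (x / h + 1)).biUnion B).card : ℝ) ≤
        ((x / h + 1 : ℕ) : ℝ) * (s1 * Real.sqrt x + 1) := by
      have h4 := Finset.card_biUnion_le (s := Finset.range (x / h + 1)) (t := B)
      have h5 : (((Finset.range (x / h + 1)).biUnion B).card : ℝ) ≤
          ∑ j ∈ Finset.range (x / h + 1), ((B j).card : ℝ) := by exact_mod_cast h4
      have h6 := Finset.sum_le_card_nsmul (Finset.range (x / h + 1))
        (fun j => ((B j).card : ℝ)) (s1 * Real.sqrt x + 1) (fun j _ => hBcard j)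
      rw [Finset.card_range, nsmul_eq_mul] at h6
      linarith
    rw [Finset.card_range] at h2
    have h7 : (({n : ℕ | n ∈ S ∧ n ≤ x}.ncard : ℕ) : ℝ) ≤
        (y : ℝ) + (((Finset.range (x / h + 1)).biUnion B).card : ℝ) := by
      exact_mod_cast h1.trans h2
    linarith
  -- the exponents
  have hyle : (y : ℝ) ≤ ((N1 : ℝ) + 2) * (x : ℝ) ^ (1 - ν / 4) := by
    have h1 : (y : ℝ) ≤ (N1 : ℝ) + ((x : ℝ) ^ (1 - ν) + 1) := by
      have h2 : (y : ℝ) = max (N1 : ℝ) (⌈(x : ℝ) ^ (1 - ν)⌉₊ : ℝ) := by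
        rw [hy]
        push_cast
        rfl
      have h3 : ((⌈(x : ℝ) ^ (1 - ν)⌉₊ : ℕ) : ℝ) < (x : ℝ) ^ (1 - ν) + 1 :=
        Nat.ceil_lt_add_one (by positivity)
      have h4 : (0 : ℝ) ≤ N1 := by positivity
      have h5 : (0 : ℝ) ≤ (x : ℝ) ^ (1 - ν) := by positivity
      rw [h2]
      apply max_le <;> linarith
    have h2 : (x : ℝ) ^ (1 - ν) ≤ (x : ℝ) ^ (1 - ν / 4) :=
      Real.rpow_le_rpow_of_exponent_le hx1 (by linarith)
    have h3 : (1 : ℝ) ≤ (x : ℝ) ^ (1 - ν / 4) := Real.one_le_rpow hx1 (by linarith)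
    have h4 : (0 : ℝ) ≤ N1 := by positivity
    nlinarith [mul_le_mul_of_nonneg_left h3 h4]
  have hdiv : ((x / h + 1 : ℕ) : ℝ) ≤ 2 * (x : ℝ) ^ (1 - (1 - ν) * (1 / 2 + ν)) := by
    have h1 : ((x / h : ℕ) : ℝ) ≤ (x : ℝ) / h := Nat.cast_div_le
    have h2 : (x : ℝ) ^ ((1 - ν) * (1 / 2 + ν)) ≤ h := by
      have h3 : (x : ℝ) ^ (1 - ν) ≤ y := by
        have h4 : (x : ℝ) ^ (1 - ν) ≤ (⌈(x : ℝ) ^ (1 - ν)⌉₊ : ℝ) := Nat.le_ceil _
        have h5 : ((⌈(x : ℝ) ^ (1 - ν)⌉₊ : ℕ) : ℝ) ≤ y := by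
          exact_mod_cast le_max_right N1 ⌈(x : ℝ) ^ (1 - ν)⌉₊
        linarith
      have h4 : ((x : ℝ) ^ (1 - ν)) ^ (1 / 2 + ν) ≤ (y : ℝ) ^ (1 / 2 + ν) :=
        Real.rpow_le_rpow (by positivity) h3 (by linarith)
      have h5 : (y : ℝ) ^ (1 / 2 + ν) < (h : ℝ) := by
        rw [hh]
        push_cast
        exact Nat.lt_floor_add_one _
      rw [Real.rpow_mul hx0.le]
      linarith
    have hxp : (0 : ℝ) < (x : ℝ) ^ ((1 - ν) * (1 / 2 + ν)) := by positivity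
    have h3 : (x : ℝ) / h ≤ (x : ℝ) ^ (1 - (1 - ν) * (1 / 2 + ν)) := by
      rw [Real.rpow_sub hx0, Real.rpow_one]
      exact div_le_div_of_nonneg_left hx0.le hxp h2
    have h4 : (1 : ℝ) ≤ (x : ℝ) ^ (1 - (1 - ν) * (1 / 2 + ν)) := by
      apply Real.one_le_rpow hx1
      nlinarith
    push_cast
    linarith
  have hsq : s1 * Real.sqrt x + 1 ≤ (s1 + 1) * (x : ℝ) ^ (1 / 2 : ℝ) := by
    rw [Real.sqrt_eq_rpow]
    have h1 : (1 : ℝ) ≤ (x : ℝ) ^ (1 / 2 : ℝ) := Real.one_le_rpow hx1 (by norm_num)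
    linarith
  have hprod : ((x / h + 1 : ℕ) : ℝ) * (s1 * Real.sqrt x + 1) ≤
      2 * (s1 + 1) * (x : ℝ) ^ (1 - ν / 4) := by
    have h1 : ((x / h + 1 : ℕ) : ℝ) * (s1 * Real.sqrt x + 1) ≤
        (2 * (x : ℝ) ^ (1 - (1 - ν) * (1 / 2 + ν))) * ((s1 + 1) * (x : ℝ) ^ (1 / 2 : ℝ)) :=
      mul_le_mul hdiv hsq (by positivity) (by positivity)
    have h2 : (x : ℝ) ^ (1 - (1 - ν) * (1 / 2 + ν)) * (x : ℝ) ^ (1 / 2 : ℝ) ≤
        (x : ℝ) ^ (1 - ν / 4) := by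
      rw [← Real.rpow_add hx0]
      apply Real.rpow_le_rpow_of_exponent_le hx1
      nlinarith
    have h3 : 0 < s1 + 1 := by linarith
    calc ((x / h + 1 : ℕ) : ℝ) * (s1 * Real.sqrt x + 1) ≤
          (2 * (x : ℝ) ^ (1 - (1 - ν) * (1 / 2 + ν))) * ((s1 + 1) * (x : ℝ) ^ (1 / 2 : ℝ)) := h1
      _ = 2 * (s1 + 1) *
          ((x : ℝ) ^ (1 - (1 - ν) * (1 / 2 + ν)) * (x : ℝ) ^ (1 / 2 : ℝ)) := by ring
      _ ≤ 2 * (s1 + 1) * (x : ℝ) ^ (1 - ν / 4) :=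
          mul_le_mul_of_nonneg_left h2 (by positivity)
  calc (({n : ℕ | n ∈ S ∧ n ≤ x}.ncard : ℕ) : ℝ) ≤
        (y : ℝ) + ((x / h + 1 : ℕ) : ℝ) * (s1 * Real.sqrt x + 1) := hcard
    _ ≤ ((N1 : ℝ) + 2) * (x : ℝ) ^ (1 - ν / 4) + 2 * (s1 + 1) * (x : ℝ) ^ (1 - ν / 4) :=
        add_le_add hyle hprod
    _ = ((N1 : ℝ) + 2 + 2 * (s1 + 1)) * (x : ℝ) ^ (1 - ν / 4) := by ring

end PK
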