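import Pool.Agent.helper90.PK.Defs

/-!
# PK-B4: Cauchy estimate for divided differences

Points `x l = c + t l`, `0 ≤ t l ≤ H < r`. Cauchy's formula on the circle `‖ζ - c‖ = r` and the
partial fraction expansion of `1 / ∏_j (ζ - x j)` (Lagrange interpolation of the constant `1`).
-/

namespace PK

private theorem partial_fraction {s : Finset ℕ} {t : ℕ → ℝ} (hs : s.Nonempty) (hinj : Set.InjOn t s)
    {w : ℂ} (hw : ∀ j ∈ s, w ≠ (t j : ℂ)) :
    ∑ l ∈ s, (∏ j ∈ s.erase l, ((t l - t j : ℝ) : ℂ))⁻¹ * (w - (t l : ℂ))⁻¹ =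
      (∏ j ∈ s, (w - (t j : ℂ)))⁻¹ := by
  classical
  have hinj' : Set.InjOn (fun j : ℕ => (t j : ℂ)) s := fun i hi j hj hij =>
    hinj hi hj (Complex.ofReal_injective hij)
  have h1 := Lagrange.eval_interpolate_not_at_node (s := s) (v := fun j : ℕ => (t j : ℂ))
    (fun _ => (1 : ℂ)) (x := w) hw
  have h2 : Lagrange.interpolate s (fun j : ℕ => (t j : ℂ)) (fun _ => (1 : ℂ)) = 1 :=
    Lagrange.interpolate_one hinj' hs
  rw [h2, Polynomial.eval_one, Lagrange.eval_nodal] at h1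
  have h3 : ∏ j ∈ s, (w - (t j : ℂ)) ≠ 0 :=
    Finset.prod_ne_zero_iff.2 fun j hj => sub_ne_zero.2 (hw j hj)
  rw [eq_comm, inv_eq_iff_eq_inv, ← mul_eq_one_iff_eq_inv₀]
  · rw [h1]
    congr 1
    refine Finset.sum_congr rfl fun l _ => ?_
    rw [Lagrange.nodalWeight, mul_one, Finset.prod_inv_distrib]
    congr 2
    refine Finset.prod_congr rfl fun j _ => ?_
    push_cast
    ring
  · intro h0
    rw [← Finset.prod_congr rfl (fun (j : ℕ) _ => rfl)] at h1
    have h4 : ∑ i ∈ s, Lagrange.nodalWeight s (fun j : ℕ => (t j : ℂ)) i * (w - (t i : ℂ))⁻¹ * 1 =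
        ∑ l ∈ s, (∏ j ∈ s.erase l, ((t l - t j : ℝ) : ℂ))⁻¹ * (w - (t l : ℂ))⁻¹ := by
      refine Finset.sum_congr rfl fun l _ => ?_
      rw [Lagrange.nodalWeight, mul_one, Finset.prod_inv_distrib]
      congr 2
      refine Finset.prod_congr rfl fun j _ => ?_
      push_cast
      ring
    rw [h4, h0, mul_zero] at h1
    exact one_ne_zero h1

theorem DD_bound {f : ℂ → ℂ} {c : ℂ} {r M H : ℝ} (hH0 : 0 ≤ H) (hHr : H < r)
    (hf : DiffContOnCl ℂ f (Metric.ball c r))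
    (hM : ∀ z ∈ Metric.closedBall c r, ‖f z‖ ≤ M) (t : ℕ → ℝ) (k : ℕ)
    (ht : ∀ i j : ℕ, i < j → j ≤ k → t i < t j) (ht0 : ∀ i ≤ k, 0 ≤ t i) (htH : ∀ i ≤ k, t i ≤ H) :
    ‖DD t (fun l => f (c + (t l : ℂ))) k‖ ≤ M * r / (r - H) ^ (k + 1) := by
  have hr : 0 < r := lt_of_le_of_lt hH0 hHr
  have hM0 : 0 ≤ M := (norm_nonneg _).trans (hM c (Metric.mem_closedBall_self hr.le))
  set s : Finset ℕ := Finset.range (k + 1) with hs
  have hmem : ∀ j ∈ s, j ≤ k := fun j hj => Nat.lt_succ_iff.1 (Finset.mem_range.1 hj)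
  have hinj : Set.InjOn t s := by
    intro i hi j hj hij
    rcases lt_trichotomy i j with h | h | h
    · exact absurd hij (ne_of_lt (ht i j h (hmem j hj)))
    · exact h
    · exact absurd hij.symm (ne_of_lt (ht j i h (hmem i hi)))
  have hball : ∀ l ∈ s, c + (t l : ℂ) ∈ Metric.ball c r := by
    intro l hl
    rw [Metric.mem_ball, dist_eq_norm]
    have : ‖c + (t l : ℂ) - c‖ = t l := by
      rw [add_sub_cancel_left, Complex.norm_real, Real.norm_of_nonneg (ht0 l (hmem l hl))]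
    rw [this]
    exact lt_of_le_of_lt (htH l (hmem l hl)) hHr
  have hcauchy : ∀ l ∈ s, (2 * Real.pi * Complex.I : ℂ)⁻¹ •
      (∮ z in C(c, r), (z - (c + (t l : ℂ)))⁻¹ • f z) = f (c + (t l : ℂ)) := by
    intro l hl
    rw [DiffContOnCl.circleIntegral_sub_inv_smul hf (hball l hl), smul_smul,
      inv_mul_cancel₀ Complex.two_pi_I_ne_zero, one_smul]
  have hdist : ∀ z ∈ Metric.sphere c r, ∀ l ∈ s, r - H ≤ ‖(z - c) - (t l : ℂ)‖ := by
    intro z hz l hl
    have h1 : ‖z - c‖ = r := by rw [← dist_eq_norm]; exact hz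
    have h2 : ‖(t l : ℂ)‖ ≤ H := by
      rw [Complex.norm_real, Real.norm_of_nonneg (ht0 l (hmem l hl))]; exact htH l (hmem l hl)
    have h3 := norm_sub_norm_le (z - c) (t l : ℂ)
    linarith
  have hne : ∀ z ∈ Metric.sphere c r, ∀ l ∈ s, z - c ≠ (t l : ℂ) := by
    intro z hz l hl h
    have := hdist z hz l hl
    rw [h, sub_self, norm_zero] at this
    linarith
  have hcf : ContinuousOn f (Metric.sphere c r) := by
    have := hf.continuousOn
    rw [closure_ball c hr.ne'] at this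
    exact this.mono Metric.sphere_subset_closedBall
  have hint : ∀ l ∈ s, CircleIntegrable (fun z => (∏ j ∈ s.erase l, ((t l - t j : ℝ) : ℂ))⁻¹ •
      ((z - (c + (t l : ℂ)))⁻¹ • f z)) c r := by
    intro l hl
    have hg : ContinuousOn (fun z : ℂ => z - (c + (t l : ℂ))) (Metric.sphere c r) := by fun_prop
    have hg2 : ∀ z ∈ Metric.sphere c r, z - (c + (t l : ℂ)) ≠ 0 := by
      intro z hz h
      refine hne z hz l hl ?_
      rw [sub_eq_zero] at h
      rw [h]; ring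
    have hc : ContinuousOn (fun z : ℂ => (z - (c + (t l : ℂ)))⁻¹ • f z) (Metric.sphere c r) :=
      (hg.inv₀ hg2).smul hcf
    have hc2 : ContinuousOn (fun z : ℂ => (∏ j ∈ s.erase l, ((t l - t j : ℝ) : ℂ))⁻¹ •
        ((z - (c + (t l : ℂ)))⁻¹ • f z)) (Metric.sphere c r) := by
      have hk : ContinuousOn (fun _ : ℂ => (∏ j ∈ s.erase l, ((t l - t j : ℝ) : ℂ))⁻¹)
        (Metric.sphere c r) := continuousOn_const
      exact hk.smul hc
    exact ContinuousOn.circleIntegrable hr.le hc2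
  have key : DD t (fun l => f (c + (t l : ℂ))) k = (2 * Real.pi * Complex.I : ℂ)⁻¹ •
      ∮ z in C(c, r), (∏ j ∈ s, ((z - c) - (t j : ℂ)))⁻¹ • f z := by
    have e1 : (∮ z in C(c, r), (∏ j ∈ s, ((z - c) - (t j : ℂ)))⁻¹ • f z) =
        ∮ z in C(c, r), ∑ l ∈ s, (∏ j ∈ s.erase l, ((t l - t j : ℝ) : ℂ))⁻¹ •
          ((z - (c + (t l : ℂ)))⁻¹ • f z) := by
      refine circleIntegral.integral_congr hr.le fun z hz => ?_
      rw [← partial_fraction ⟨0, by simp [hs]⟩ hinj (hne z hz), Finset.sum_smul]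
      refine Finset.sum_congr rfl fun l _ => ?_
      rw [mul_smul, sub_sub]
    have e2 : (∮ z in C(c, r), ∑ l ∈ s, (∏ j ∈ s.erase l, ((t l - t j : ℝ) : ℂ))⁻¹ •
          ((z - (c + (t l : ℂ)))⁻¹ • f z)) =
        ∑ l ∈ s, ∮ z in C(c, r), (∏ j ∈ s.erase l, ((t l - t j : ℝ) : ℂ))⁻¹ •
          ((z - (c + (t l : ℂ)))⁻¹ • f z) := by
      rw [circleIntegral.integral_fun_sum hint]
    rw [e1, e2, Finset.smul_sum]
    unfold DD
    refine Finset.sum_congr rfl fun l hl => ?_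
    rw [circleIntegral.integral_smul, smul_comm, hcauchy l hl, smul_eq_mul, div_eq_inv_mul]
  rw [key]
  have hb : ∀ z ∈ Metric.sphere c r, ‖(∏ j ∈ s, ((z - c) - (t j : ℂ)))⁻¹ • f z‖ ≤
      M / (r - H) ^ (k + 1) := by
    intro z hz
    rw [norm_smul, norm_inv, norm_prod]
    have h1 : (r - H) ^ (k + 1) ≤ ∏ j ∈ s, ‖(z - c) - (t j : ℂ)‖ := by
      have : (r - H) ^ (k + 1) = ∏ _j ∈ s, (r - H) := by
        rw [Finset.prod_const, hs, Finset.card_range]
      rw [this]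
      exact Finset.prod_le_prod (fun _ _ => by linarith) fun j hj => hdist z hz j hj
    have h2 : 0 < (r - H) ^ (k + 1) := pow_pos (by linarith) _
    have h3 : ‖f z‖ ≤ M := hM z (Metric.sphere_subset_closedBall hz)
    rw [div_eq_inv_mul]
    exact mul_le_mul (inv_anti₀ h2 h1) h3 (norm_nonneg _) (inv_nonneg.2 h2.le)
  refine (circleIntegral.norm_two_pi_i_inv_smul_integral_le_of_norm_le_const hr.le hb).trans
    (le_of_eq ?_)
  ring

end PK
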