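import Mathlib

/-!
# PK: partition numbers near perfect powers (MP_e9ef98_nt): definitions
-/

namespace PK

/-- The number of partitions of `n`. -/
def pp (n : ℕ) : ℕ := Fintype.card (Nat.Partition n)

/-- The generating function `∏ 1 / (1 - q ^ (n+1))` on the unit disc. -/
noncomputable def P (q : ℂ) : ℂ := (∏' n : ℕ, (1 - q ^ (n + 1)))⁻¹

/-- The constant `π √(2/3)`. -/
noncomputable def CC : ℝ := Real.pi * Real.sqrt (2 / 3)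

/-- `√(n - 1/24)`. -/
noncomputable def lam (n : ℕ) : ℝ := Real.sqrt ((n : ℝ) - 1 / 24)

/-- The point `s = y - i θ`. -/
noncomputable def sp (y θ : ℝ) : ℂ := (y : ℂ) - (θ : ℂ) * Complex.I

/-- The series `∑_{j ≥ 2} a^j ν^(j-3/2) / (j! Γ(j-1/2))` (index shifted by 2). -/
noncomputable def TT (a ν : ℝ) : ℝ :=
  ∑' j : ℕ, a ^ (j + 2) * ν ^ ((j : ℝ) + 1 / 2) /
    ((Nat.factorial (j + 2) : ℝ) * Real.Gamma ((j : ℝ) + 3 / 2))

/-- The main term: `FF σ n = ((C λ - 1) e^(C λ) + σ √2 (C λ / 2 - 1) e^(C λ / 2)) / (4 π √2 λ³)`,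
`λ = √(n - 1/24)`. -/
noncomputable def FF (σ : ℝ) (n : ℕ) : ℝ :=
  ((CC * lam n - 1) * Real.exp (CC * lam n) +
    σ * Real.sqrt 2 * (CC / 2 * lam n - 1) * Real.exp (CC / 2 * lam n)) /
    (4 * Real.pi * Real.sqrt 2 * lam n ^ 3)

/-- The analytic function `g` with `exp (k g(n)) = FF σ n`. -/
noncomputable def gk (k : ℕ) (σ : ℝ) (z : ℂ) : ℂ :=
  (1 / (k : ℂ)) * ((CC : ℂ) * (z - 1 / 24) ^ (1 / 2 : ℂ) +
    Complex.log (((CC : ℂ) * (z - 1 / 24) ^ (1 / 2 : ℂ) - 1) +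
      (σ : ℂ) * (Real.sqrt 2 : ℂ) * ((CC : ℂ) / 2 * (z - 1 / 24) ^ (1 / 2 : ℂ) - 1) *
        Complex.exp (-((CC : ℂ) / 2 * (z - 1 / 24) ^ (1 / 2 : ℂ)))) -
    3 * Complex.log ((z - 1 / 24) ^ (1 / 2 : ℂ)) -
    ((Real.log (4 * Real.pi * Real.sqrt 2) : ℝ) : ℂ))

/-- Hypothesis on the exponent function `g` (Part B): holomorphic on a right half plane with
`g' = c / (2 √z) + O(1/|z|)`. -/
structure GH (c K X0 : ℝ) (g : ℂ → ℂ) : Prop where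
  c_pos : 0 < c
  K_nonneg : 0 ≤ K
  X0_one : 1 ≤ X0
  diff : DifferentiableOn ℂ g {z : ℂ | X0 < z.re}
  der : ∀ z : ℂ, X0 < z.re → ‖deriv g z - (c : ℂ) / (2 * z ^ (1 / 2 : ℂ))‖ ≤ K / ‖z‖

/-- Local data of `g` around the real number `N`. -/
structure LD (c δ ρ : ℝ) (g : ℂ → ℂ) (N : ℝ) : Prop where
  diff : DifferentiableOn ℂ g (Metric.ball (N : ℂ) (3 * N / 4))
  up : ∀ z ∈ Metric.closedBall (N : ℂ) (N / 2), (g z).re ≤ 3 / 2 * c * Real.sqrt N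
  lip : ∀ z ∈ Metric.closedBall (N : ℂ) (N / 2), ∀ w ∈ Metric.closedBall (N : ℂ) (N / 2),
    ‖g z - g w‖ ≤ 2 * c / Real.sqrt N * ‖z - w‖
  loc : ∀ z ∈ Metric.closedBall (N : ℂ) (ρ * N), |(g z).re - c * Real.sqrt N| ≤ δ * Real.sqrt N
  lin : ∀ z ∈ Metric.closedBall (N : ℂ) (ρ * N), ∀ w ∈ Metric.closedBall (N : ℂ) (ρ * N),
    ‖g z - g w - ((c / (2 * Real.sqrt N) : ℝ) : ℂ) * (z - w)‖ ≤ c / (12 * Real.sqrt N) * ‖z - w‖

/-- Divided difference of the values `f 0, …, f k` at the (distinct) nodes `t 0, …, t k`. -/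
noncomputable def DD (t : ℕ → ℝ) (f : ℕ → ℂ) (k : ℕ) : ℂ :=
  ∑ l ∈ Finset.range (k + 1), f l / ∏ j ∈ (Finset.range (k + 1)).erase l, ((t l - t j : ℝ) : ℂ)

/-- `cI α N = ⌈α √N / log N⌉`. -/
noncomputable def cI (α : ℝ) (N : ℕ) : ℕ := ⌈α * Real.sqrt N / Real.log N⌉₊

end PK
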