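import Pool.Agent.helper90.PK.Defs

/-!
# PK: the distance to the nearest `k`-th power
-/

namespace PK

/-- `Δ_k(n) = min { |p(n) - m^k| : m ∈ ℤ }`. -/
noncomputable def Dk (k n : ℕ) : ℕ :=
  sInf {d : ℕ | ∃ m : ℤ, d = ((pp n : ℤ) - m ^ k).natAbs}

/-- the number of elements of `A` in `[1, x]` -/
noncomputable def cnt (A : Set ℕ) (x : ℕ) : ℕ := {n : ℕ | n ∈ A ∧ 1 ≤ n ∧ n ≤ x}.ncard

theorem Dk_spec (k n : ℕ) : ∃ m : ℤ, Dk k n = ((pp n : ℤ) - m ^ k).natAbs := by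
  have hne : {d : ℕ | ∃ m : ℤ, d = ((pp n : ℤ) - m ^ k).natAbs}.Nonempty := ⟨_, 0, rfl⟩
  exact Nat.sInf_mem hne

theorem Dk_le (k n : ℕ) (m : ℤ) : Dk k n ≤ ((pp n : ℤ) - m ^ k).natAbs := Nat.sInf_le ⟨m, rfl⟩

end PK
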