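import Pool.Agent.helper90.PK.Defs

/-!
# PK-B2: the interpolation determinant

Proof sketch. `D = I0 + I1`, `A = matA`. Let `W` be the lower triangular real matrix
`W i l = 1/∏_{j ≤ i, j ≠ l} (t l - t j)` for `l ≤ i`, `0` otherwise; `det W = ∏_i 1/∏_{j<i}(t i - t j)`
(`Matrix.det_of_lowerTriangular`), so `|det W|⁻¹ = ∏_{j<i} (t i - t j) ≤ H^(D(D-1)/2)`
(`0 < t i - t j ≤ H`). Row `i` of `W * A` is the divided difference `DD t (column) i` of each
column. For a column `C(t, a)`, `a < I0`, a polynomial of degree `a` in `t` with leading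
coefficient `1/a!`: `DD t _ i = 0` for `i > a` and `= 1/a!` for `i = a`.
So `W * A` is block upper triangular, the upper left block is upper
triangular with diagonal `1/a!`, the lower right block has entries
`DD t (C(t,b) m) i`, `i ∈ [I0, D)`, `b < I1`, of absolute value `≤ u i * v b`; its determinant is
`≤ I1! ∏ u ∏ v` (Leibniz formula `Matrix.det_apply`).
-/

namespace PK

open Finset Polynomial

/-- rows: points; columns `C(t, a)` for `a < I0` and `C(t, b) * m` for `b < I1` -/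
def matA (I0 I1 : ℕ) (t : ℕ → ℕ) (m : ℕ → ℤ) : Matrix (Fin (I0 + I1)) (Fin (I0 + I1)) ℤ :=
  fun i j => if (j : ℕ) < I0 then (Nat.choose (t i) j : ℤ)
    else (Nat.choose (t i) (j - I0) : ℤ) * m i

/-- Divided differences of polynomials of degree at most `k` are coefficients. -/
theorem DD_poly (t : ℕ → ℕ) (k : ℕ) (ht : ∀ i j : ℕ, i < j → j ≤ k → t i < t j) (p : ℂ[X])
    (hp : p.degree < ((k + 1 : ℕ) : WithBot ℕ)) :
    DD (fun l => (t l : ℝ)) (fun l => p.eval (t l : ℂ)) k = p.coeff k := by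
  have hinj : Set.InjOn (fun l : ℕ => (t l : ℂ)) (range (k + 1)) := by
    intro i hi j hj hij
    simp only [coe_range, Set.mem_Iio] at hi hj
    have hij' : t i = t j := by
      have : (t i : ℂ) = (t j : ℂ) := hij
      exact_mod_cast this
    rcases lt_trichotomy i j with h | h | h
    · have := ht i j h (by omega); omega
    · exact h
    · have := ht j i h (by omega); omega
  have hc := Lagrange.coeff_eq_sum (s := range (k + 1)) (v := fun l : ℕ => (t l : ℂ)) hinj
    (P := p) (by simpa using hp)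
  rw [card_range, Nat.add_sub_cancel] at hc
  rw [hc]
  unfold DD
  refine sum_congr rfl fun l _ => ?_
  congr 1
  refine prod_congr rfl fun j _ => ?_
  push_cast
  rfl

/-- The polynomial `C(X, a)`. -/
noncomputable def chp (a : ℕ) : ℂ[X] := C ((Nat.factorial a : ℂ)⁻¹) * descPochhammer ℂ a

theorem chp_eval (a n : ℕ) : (chp a).eval (n : ℂ) = (Nat.choose n a : ℂ) := by
  unfold chp
  rw [eval_mul, eval_C, descPochhammer_eval_eq_descFactorial,
    Nat.descFactorial_eq_factorial_mul_choose]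
  push_cast
  have : (Nat.factorial a : ℂ) ≠ 0 := by exact_mod_cast Nat.factorial_ne_zero a
  field_simp

theorem chp_natDegree_le (a : ℕ) : (chp a).natDegree ≤ a := by
  unfold chp
  exact (natDegree_C_mul_le _ _).trans (descPochhammer_natDegree ℂ a).le

theorem chp_coeff_self (a : ℕ) : (chp a).coeff a = (Nat.factorial a : ℂ)⁻¹ := by
  unfold chp
  rw [coeff_C_mul]
  have h := monic_descPochhammer ℂ a
  rw [Monic, leadingCoeff, descPochhammer_natDegree] at h
  rw [h, mul_one]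

theorem chp_coeff_of_lt {a k : ℕ} (h : a < k) : (chp a).coeff k = 0 :=
  coeff_eq_zero_of_natDegree_lt ((chp_natDegree_le a).trans_lt h)

theorem DD_choose (t : ℕ → ℕ) (k a : ℕ) (ht : ∀ i j : ℕ, i < j → j ≤ k → t i < t j)
    (hak : a ≤ k) :
    DD (fun l => (t l : ℝ)) (fun l => (Nat.choose (t l) a : ℂ)) k = (chp a).coeff k := by
  have h := DD_poly t k ht (chp a) (by
    refine lt_of_le_of_lt degree_le_natDegree ?_
    have : (chp a).natDegree < k + 1 := (chp_natDegree_le a).trans_lt (by omega)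
    exact_mod_cast this)
  simpa only [chp_eval] using h

/-- The lower triangular matrix of the weights of the divided differences. -/
noncomputable def wm (D : ℕ) (t : ℕ → ℕ) : Matrix (Fin D) (Fin D) ℂ := fun i l =>
  if (l : ℕ) ≤ i then
    (∏ j ∈ (range ((i : ℕ) + 1)).erase l, (((t l : ℝ) - (t j : ℝ) : ℝ) : ℂ))⁻¹ else 0

theorem wm_mul (D : ℕ) (t : ℕ → ℕ) (A : Matrix (Fin D) (Fin D) ℂ) (f : ℕ → ℂ) (i j : Fin D)
    (hf : ∀ l : Fin D, A l j = f l) :
    (wm D t * A) i j = DD (fun l => (t l : ℝ)) f i := by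
  rw [Matrix.mul_apply]
  unfold DD
  have h1 : ∀ l : Fin D, wm D t i l * A l j =
      (fun l : ℕ => if l ≤ (i : ℕ) then
        f l / ∏ j ∈ (range ((i : ℕ) + 1)).erase l, (((t l : ℝ) - (t j : ℝ) : ℝ) : ℂ) else 0) l := by
    intro l
    simp only [wm, hf]
    split_ifs with h
    · rw [div_eq_mul_inv, mul_comm]
    · rw [zero_mul]
  simp_rw [h1]
  rw [Fin.sum_univ_eq_sum_range (fun l : ℕ => if l ≤ (i : ℕ) then
        f l / ∏ j ∈ (range ((i : ℕ) + 1)).erase l, (((t l : ℝ) - (t j : ℝ) : ℝ) : ℂ) else 0) D]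
  rw [← sum_filter]
  have h2 : (range D).filter (fun l => l ≤ (i : ℕ)) = range ((i : ℕ) + 1) := by
    ext l
    simp only [mem_filter, mem_range]
    have := i.2
    omega
  rw [h2]

theorem wm_det (D : ℕ) (t : ℕ → ℕ) :
    (wm D t).det = ∏ i ∈ range D, (∏ j ∈ range i, (((t i : ℝ) - (t j : ℝ) : ℝ) : ℂ))⁻¹ := by
  have hlow : (wm D t).BlockTriangular OrderDual.toDual := by
    intro i j hij
    have hij' : (i : ℕ) < j := by simpa using hij
    simp only [wm]
    rw [if_neg (by omega)]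
  rw [Matrix.det_of_isLowerTriangular _ hlow]
  rw [← Fin.prod_univ_eq_prod_range (fun i : ℕ =>
    (∏ j ∈ range i, (((t i : ℝ) - (t j : ℝ) : ℝ) : ℂ))⁻¹) D]
  refine prod_congr rfl fun i _ => ?_
  simp only [wm, le_refl, if_true]
  congr 1
  refine prod_congr ?_ fun _ _ => rfl
  ext j
  simp only [mem_erase, mem_range]
  omega

theorem prod_gap_le (D : ℕ) (t : ℕ → ℕ) (H : ℝ)
    (ht : ∀ i j : ℕ, i < j → j < D → t i < t j) (hH : ∀ i < D, (t i : ℝ) ≤ H) :
    ∏ i ∈ range D, ∏ j ∈ range i, ((t i : ℝ) - (t j : ℝ)) ≤ H ^ (D * (D - 1) / 2) := by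
  have h1 : ∀ i ∈ range D, ∏ j ∈ range i, ((t i : ℝ) - (t j : ℝ)) ≤ H ^ i := by
    intro i hi
    have hi' : i < D := mem_range.1 hi
    calc ∏ j ∈ range i, ((t i : ℝ) - (t j : ℝ)) ≤ ∏ _j ∈ range i, H := by
          refine prod_le_prod (fun j hj => ?_) fun j hj => ?_
          · have := ht j i (mem_range.1 hj) hi'
            have h2 : (t j : ℝ) < t i := by exact_mod_cast this
            linarith
          · have h2 : (0 : ℝ) ≤ t j := Nat.cast_nonneg _
            linarith [hH i hi']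
      _ = H ^ i := by rw [prod_const, card_range]
  calc ∏ i ∈ range D, ∏ j ∈ range i, ((t i : ℝ) - (t j : ℝ)) ≤ ∏ i ∈ range D, H ^ i := by
        refine prod_le_prod (fun i hi => ?_) h1
        refine prod_nonneg fun j hj => ?_
        have := ht j i (mem_range.1 hj) (mem_range.1 hi)
        have h2 : (t j : ℝ) < t i := by exact_mod_cast this
        linarith
    _ = H ^ (D * (D - 1) / 2) := by
        rw [prod_pow_eq_pow_sum, Finset.sum_range_id]

theorem norm_det_le_of_entries {n : ℕ} (B : Matrix (Fin n) (Fin n) ℂ) (u v : Fin n → ℝ)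
    (hB : ∀ i j, ‖B i j‖ ≤ u i * v j) :
    ‖B.det‖ ≤ (Nat.factorial n : ℝ) * (∏ i, u i) * ∏ j, v j := by
  rw [Matrix.det_apply]
  calc ‖∑ σ : Equiv.Perm (Fin n), Equiv.Perm.sign σ • ∏ i, B (σ i) i‖
      ≤ ∑ _σ : Equiv.Perm (Fin n), (∏ i, u i) * ∏ j, v j := by
        refine (norm_sum_le _ _).trans (sum_le_sum fun σ _ => ?_)
        have h1 : ‖Equiv.Perm.sign σ • ∏ i, B (σ i) i‖ = ‖∏ i, B (σ i) i‖ := by
          rcases Int.units_eq_one_or (Equiv.Perm.sign σ) with h | h <;> simp [h]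
        rw [h1, norm_prod]
        calc ∏ i, ‖B (σ i) i‖ ≤ ∏ i, (u (σ i) * v i) :=
              prod_le_prod (fun _ _ => norm_nonneg _) fun i _ => hB _ _
          _ = (∏ i, u (σ i)) * ∏ i, v i := prod_mul_distrib
          _ = (∏ i, u i) * ∏ j, v j := by rw [Equiv.prod_comp σ u]
    _ = (Nat.factorial n : ℝ) * (∏ i, u i) * ∏ j, v j := by
        rw [sum_const, card_univ, Fintype.card_perm, Fintype.card_fin, nsmul_eq_mul, mul_assoc]

theorem det_bound (I0 I1 : ℕ) (t : ℕ → ℕ) (m : ℕ → ℤ) (H : ℝ) (hH0 : 0 ≤ H)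
    (ht : ∀ i j : ℕ, i < j → j < I0 + I1 → t i < t j)
    (hH : ∀ i < I0 + I1, (t i : ℝ) ≤ H) (u v : ℕ → ℝ) (hu : ∀ i, 0 ≤ u i) (hv : ∀ b, 0 ≤ v b)
    (hDD : ∀ i, I0 ≤ i → i < I0 + I1 → ∀ b < I1,
      ‖DD (fun l => (t l : ℝ)) (fun l => (Nat.choose (t l) b : ℂ) * (m l : ℂ)) i‖ ≤ u i * v b) :
    |((matA I0 I1 t m).det : ℝ)| ≤ H ^ ((I0 + I1) * (I0 + I1 - 1) / 2) *
      (∏ a ∈ Finset.range I0, (Nat.factorial a : ℝ))⁻¹ * (Nat.factorial I1 : ℝ) *
      (∏ i ∈ Finset.Ico I0 (I0 + I1), u i) * ∏ b ∈ Finset.range I1, v b := by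
  set D := I0 + I1 with hD
  set A : Matrix (Fin D) (Fin D) ℂ := (matA I0 I1 t m).map (Int.castRingHom ℂ) with hA
  have hdetA : A.det = ((matA I0 I1 t m).det : ℂ) := by
    rw [hA, ← RingHom.mapMatrix_apply, ← RingHom.map_det]
    rfl
  set B := wm D t * A with hB
  have htk : ∀ k < D, ∀ i j : ℕ, i < j → j ≤ k → t i < t j := fun k hk i j hij hj =>
    ht i j hij (by omega)
  have hB1 : ∀ i j : Fin D, (j : ℕ) < I0 →
      B i j = DD (fun l => (t l : ℝ)) (fun l => (Nat.choose (t l) j : ℂ)) i := by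
    intro i j hj
    refine wm_mul D t A _ i j fun l => ?_
    simp [hA, matA, hj]
  have hB2 : ∀ i j : Fin D, ¬ (j : ℕ) < I0 →
      B i j = DD (fun l => (t l : ℝ))
        (fun l => (Nat.choose (t l) (j - I0) : ℂ) * (m l : ℂ)) i := by
    intro i j hj
    refine wm_mul D t A _ i j fun l => ?_
    simp [hA, matA, hj]
  have hzero : ∀ i j : Fin D, (j : ℕ) < I0 → (j : ℕ) < i → B i j = 0 := by
    intro i j hj hij
    rw [hB1 i j hj, DD_choose t i j (htk i i.2) hij.le, chp_coeff_of_lt hij]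
  have hdiag : ∀ j : Fin D, (j : ℕ) < I0 → B j j = (Nat.factorial j : ℂ)⁻¹ := by
    intro j hj
    rw [hB1 j j hj, DD_choose t j j (htk j j.2) le_rfl, chp_coeff_self]
  -- block decomposition
  set e : Fin I0 ⊕ Fin I1 ≃ Fin D := finSumFinEquiv with he
  have hel : ∀ i : Fin I0, ((e (Sum.inl i) : Fin D) : ℕ) = i := fun i => rfl
  have her : ∀ i : Fin I1, ((e (Sum.inr i) : Fin D) : ℕ) = I0 + i := fun i => rfl
  set B11 : Matrix (Fin I0) (Fin I0) ℂ := Matrix.of fun i j => B (e (Sum.inl i)) (e (Sum.inl j))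
    with hB11
  set B12 : Matrix (Fin I0) (Fin I1) ℂ := Matrix.of fun i j => B (e (Sum.inl i)) (e (Sum.inr j))
    with hB12
  set B22 : Matrix (Fin I1) (Fin I1) ℂ := Matrix.of fun i j => B (e (Sum.inr i)) (e (Sum.inr j))
    with hB22
  have hdetB : B.det = (∏ a ∈ range I0, (Nat.factorial a : ℂ)⁻¹) * B22.det := by
    have h1 : (B.submatrix e e).det = B.det := Matrix.det_submatrix_equiv_self e B
    rw [← h1]
    have h2 : B.submatrix e e = Matrix.fromBlocks B11 B12 0 B22 := by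
      ext i j
      rcases i with i | i <;> rcases j with j | j
      · rfl
      · rfl
      · change B (e (Sum.inr i)) (e (Sum.inl j)) = 0
        apply hzero
        · rw [hel]; exact j.2
        · rw [hel, her]
          have := j.2
          omega
      · rfl
    rw [h2, Matrix.det_fromBlocks_zero₂₁]
    congr 1
    have hup : B11.BlockTriangular id := by
      intro i j hij
      change B (e (Sum.inl i)) (e (Sum.inl j)) = 0
      apply hzero
      · rw [hel]; exact j.2
      · rw [hel, hel]; exact hij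
    rw [Matrix.det_of_isUpperTriangular hup,
      ← Fin.prod_univ_eq_prod_range (fun a : ℕ => (Nat.factorial a : ℂ)⁻¹) I0]
    refine prod_congr rfl fun i _ => ?_
    change B (e (Sum.inl i)) (e (Sum.inl i)) = _
    rw [hdiag _ (by rw [hel]; exact i.2), hel]
  have hdet2 : ‖B22.det‖ ≤
      (Nat.factorial I1 : ℝ) * (∏ i ∈ Finset.Ico I0 (I0 + I1), u i) *
        ∏ b ∈ Finset.range I1, v b := by
    have h := norm_det_le_of_entries B22
      (fun i => u (I0 + i)) (fun j => v j) (by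
        intro i j
        change ‖B (e (Sum.inr i)) (e (Sum.inr j))‖ ≤ _
        rw [hB2 _ _ (by rw [her]; omega), her, her, Nat.add_sub_cancel_left]
        exact hDD (I0 + i) (by omega) (by have := i.2; omega) j j.2)
    rw [Fin.prod_univ_eq_prod_range (fun i : ℕ => u (I0 + i)) I1,
      Fin.prod_univ_eq_prod_range (fun j : ℕ => v j) I1] at h
    rw [Finset.prod_Ico_eq_prod_range, Nat.add_sub_cancel_left]
    exact h
  -- determinant of `wm`
  have hgap_pos : 0 < ∏ i ∈ range D, ∏ j ∈ range i, ((t i : ℝ) - (t j : ℝ)) := by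
    refine prod_pos fun i hi => prod_pos fun j hj => ?_
    have := ht j i (mem_range.1 hj) (mem_range.1 hi)
    have h2 : (t j : ℝ) < t i := by exact_mod_cast this
    linarith
  have hwm : (wm D t).det = (((∏ i ∈ range D, ∏ j ∈ range i, ((t i : ℝ) - (t j : ℝ))) : ℝ) : ℂ)⁻¹ := by
    rw [wm_det, prod_inv_distrib]
    push_cast
    rfl
  have hBdet : B.det = (wm D t).det * A.det := Matrix.det_mul _ _
  have hAn : ‖A.det‖ = |((matA I0 I1 t m).det : ℝ)| := by
    rw [hdetA]
    rw [← Complex.ofReal_intCast, Complex.norm_real, Real.norm_eq_abs]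
  have hAB : ‖A.det‖ = (∏ i ∈ range D, ∏ j ∈ range i, ((t i : ℝ) - (t j : ℝ))) * ‖B.det‖ := by
    rw [hBdet, hwm, norm_mul, norm_inv, Complex.norm_real, Real.norm_eq_abs,
      abs_of_pos hgap_pos]
    field_simp
  have hBn : ‖B.det‖ ≤ (∏ a ∈ Finset.range I0, (Nat.factorial a : ℝ))⁻¹ *
      ((Nat.factorial I1 : ℝ) * (∏ i ∈ Finset.Ico I0 (I0 + I1), u i) *
        ∏ b ∈ Finset.range I1, v b) := by
    rw [hdetB, norm_mul]
    refine mul_le_mul (le_of_eq ?_) hdet2 (norm_nonneg _) (by positivity)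
    rw [norm_prod, ← prod_inv_distrib]
    refine prod_congr rfl fun a _ => ?_
    rw [norm_inv, Complex.norm_natCast]
  rw [← hAn, hAB]
  have hR0 : 0 ≤ (∏ a ∈ Finset.range I0, (Nat.factorial a : ℝ))⁻¹ *
      ((Nat.factorial I1 : ℝ) * (∏ i ∈ Finset.Ico I0 (I0 + I1), u i) *
        ∏ b ∈ Finset.range I1, v b) := (norm_nonneg _).trans hBn
  calc (∏ i ∈ range D, ∏ j ∈ range i, ((t i : ℝ) - (t j : ℝ))) * ‖B.det‖
      ≤ H ^ (D * (D - 1) / 2) * ((∏ a ∈ Finset.range I0, (Nat.factorial a : ℝ))⁻¹ *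
      ((Nat.factorial I1 : ℝ) * (∏ i ∈ Finset.Ico I0 (I0 + I1), u i) *
        ∏ b ∈ Finset.range I1, v b)) :=
        mul_le_mul (prod_gap_le D t H ht hH) hBn (norm_nonneg _) (by positivity)
    _ = _ := by ring

end PK
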