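import Pool.Agent.helper90.PK.Weights

/-!
# PK-B8: an analytic function small at many integer points is small
-/

namespace PK

open Metric

/-- Divide out finitely many zeros. -/
private theorem exists_quot {c : ℂ} {R : ℝ} (y : ℕ → ℂ) : ∀ (n : ℕ) (F : ℂ → ℂ),
    DiffContOnCl ℂ F (ball c R) → (∀ i < n, y i ∈ ball c R) →
    (∀ i < n, ∀ j < n, i ≠ j → y i ≠ y j) → (∀ i < n, F (y i) = 0) →
    ∃ h : ℂ → ℂ, DiffContOnCl ℂ h (ball c R) ∧
      ∀ z, F z = (∏ i ∈ Finset.range n, (z - y i)) * h z := by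
  intro n
  induction n with
  | zero =>
    intro F hF _ _ _
    exact ⟨F, hF, fun z => by simp⟩
  | succ n ih =>
    intro F hF hy hne hz
    obtain ⟨h, hh, hFh⟩ := ih F hF (fun i hi => hy i (by omega))
      (fun i hi j hj => hne i (by omega) j (by omega)) (fun i hi => hz i (by omega))
    have hyn : y n ∈ ball c R := hy n (by omega)
    have hhn : h (y n) = 0 := by
      have h1 := hFh (y n)
      rw [hz n (by omega)] at h1
      have h2 : ∏ i ∈ Finset.range n, (y n - y i) ≠ 0 := by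
        rw [Finset.prod_ne_zero_iff]
        intro i hi
        rw [Finset.mem_range] at hi
        exact sub_ne_zero.mpr (hne n (by omega) i (by omega) (by omega))
      rcases mul_eq_zero.mp h1.symm with h3 | h3
      · exact absurd h3 h2
      · exact h3
    refine ⟨dslope h (y n), ?_, ?_⟩
    · have hnb : ball c R ∈ nhds (y n) := isOpen_ball.mem_nhds hyn
      refine ⟨(Complex.differentiableOn_dslope hnb).mpr hh.differentiableOn, ?_⟩
      have hnb2 : closure (ball c R) ∈ nhds (y n) := Filter.mem_of_superset hnb subset_closure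
      exact (continuousOn_dslope hnb2).mpr ⟨hh.continuousOn,
        hh.differentiableOn.differentiableAt hnb⟩
    · intro z
      rw [hFh z, Finset.prod_range_succ, mul_assoc]
      congr 1
      have h1 := sub_smul_dslope h (y n) z
      rw [hhn, sub_zero, smul_eq_mul] at h1
      exact h1.symm

theorem E_small {f : ℂ → ℂ} {N H M dl : ℝ} (hN : 8 ≤ N) (hH1 : 1 ≤ H) (hH : H ≤ N / 8)
    (hf : DiffContOnCl ℂ f (Metric.ball (N : ℂ) (N / 2)))
    (hM : ∀ z ∈ Metric.closedBall (N : ℂ) (N / 2), ‖f z‖ ≤ M) (s : ℕ) (x : ℕ → ℝ)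
    (hx : ∀ i j : ℕ, i < j → j ≤ s → (j : ℝ) - i ≤ x j - x i)
    (hxN : ∀ i ≤ s, N ≤ x i) (hxH : ∀ i ≤ s, x i ≤ N + H)
    (hd : ∀ i ≤ s, ‖f (x i : ℂ)‖ ≤ dl) :
    ∀ z ∈ Metric.closedBall (N : ℂ) H,
      ‖f z‖ ≤ 2 * dl * (4 * H) ^ (s + 1) / (Nat.factorial s : ℝ) + M * (6 * H / N) ^ (s + 1) := by
  have hM0 : 0 ≤ M := le_trans (norm_nonneg _) (hM (N : ℂ) (mem_closedBall_self (by linarith)))
  have hdl0 : 0 ≤ dl := le_trans (norm_nonneg _) (hd 0 (Nat.zero_le _))
  have hfs : (0 : ℝ) < (Nat.factorial s : ℝ) := by exact_mod_cast Nat.factorial_pos s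
  set S := Finset.range (s + 1) with hS
  have hmS : ∀ {l : ℕ}, l ∈ S ↔ l ≤ s := by
    intro l; rw [hS, Finset.mem_range]; omega
  have hxne : ∀ i ≤ s, ∀ j ≤ s, i ≠ j → x i ≠ x j := by
    intro i hi j hj hij h1
    rcases lt_or_gt_of_ne hij with h2 | h2
    · have h3 := hx i j h2 hj
      have h4 : (i : ℝ) < j := by exact_mod_cast h2
      linarith
    · have h3 := hx j i h2 hi
      have h4 : (j : ℝ) < i := by exact_mod_cast h2
      linarith
  -- the interpolation polynomial as a function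
  let w : ℕ → ℝ := fun l => ∏ j ∈ S.erase l, |x l - x j|⁻¹
  let p : ℂ → ℂ := fun z => ∑ l ∈ S, f (x l) *
    ∏ j ∈ S.erase l, ((z - (x j : ℂ)) / ((x l : ℂ) - (x j : ℂ)))
  have hW : ∑ l ∈ S, w l ≤ 2 ^ s / (Nat.factorial s : ℝ) := by
    have h1 := sum_weights_le s x 1 one_pos (fun i j hij hj => by rw [one_mul]; exact hx i j hij hj)
    rw [div_one] at h1
    exact h1
  have hw0 : ∀ l, 0 ≤ w l := fun l => Finset.prod_nonneg (fun j _ => by positivity)
  have hterm : ∀ l, ∀ z : ℂ, ‖∏ j ∈ S.erase l, ((z - (x j : ℂ)) / ((x l : ℂ) - (x j : ℂ)))‖ =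
      (∏ j ∈ S.erase l, ‖z - (x j : ℂ)‖) * w l := by
    intro l z
    rw [norm_prod]
    show _ = (∏ j ∈ S.erase l, ‖z - (x j : ℂ)‖) * ∏ j ∈ S.erase l, |x l - x j|⁻¹
    rw [← Finset.prod_mul_distrib]
    refine Finset.prod_congr rfl (fun j _ => ?_)
    rw [norm_div, ← Complex.ofReal_sub, Complex.norm_real, Real.norm_eq_abs, div_eq_mul_inv]
  have hpbound : ∀ (z : ℂ) (A : ℝ), 0 ≤ A → (∀ l ∈ S, ∏ j ∈ S.erase l, ‖z - (x j : ℂ)‖ ≤ A) →
      ‖p z‖ ≤ dl * A * (2 ^ s / (Nat.factorial s : ℝ)) := by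
    intro z A hA hz
    refine (norm_sum_le _ _).trans ?_
    have h1 : ∀ l ∈ S, ‖f (x l) * ∏ j ∈ S.erase l, ((z - (x j : ℂ)) / ((x l : ℂ) - (x j : ℂ)))‖ ≤
        dl * A * w l := by
      intro l hl
      rw [norm_mul, hterm, ← mul_assoc]
      refine mul_le_mul_of_nonneg_right ?_ (hw0 l)
      exact mul_le_mul (hd l (hmS.mp hl)) (hz l hl)
        (Finset.prod_nonneg (fun j _ => norm_nonneg _)) hdl0
    refine (Finset.sum_le_sum h1).trans ?_
    rw [← Finset.mul_sum]
    exact mul_le_mul_of_nonneg_left hW (by positivity)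
  have hpnode : ∀ i ≤ s, p (x i) = f (x i) := by
    intro i hi
    show ∑ l ∈ S, f (x l) * ∏ j ∈ S.erase l, (((x i : ℂ) - (x j : ℂ)) / ((x l : ℂ) - (x j : ℂ))) = _
    rw [Finset.sum_eq_single i]
    · rw [Finset.prod_eq_one, mul_one]
      intro j hj
      rw [Finset.mem_erase] at hj
      refine div_self ?_
      rw [← Complex.ofReal_sub]
      exact_mod_cast sub_ne_zero.mpr (hxne i hi j (hmS.mp hj.2) (fun h => hj.1 h.symm))
    · intro l hl hli
      rw [Finset.prod_eq_zero (i := i), mul_zero]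
      · rw [Finset.mem_erase]
        exact ⟨fun h => hli h.symm, hmS.mpr hi⟩
      · rw [sub_self, zero_div]
    · intro h
      exact absurd (hmS.mpr hi) h
  have hpdiff : Differentiable ℂ p := by
    show Differentiable ℂ (fun z => ∑ l ∈ S, f (x l) *
      ∏ j ∈ S.erase l, ((z - (x j : ℂ)) / ((x l : ℂ) - (x j : ℂ))))
    fun_prop
  have hball : ∀ i < s + 1, ((x i : ℝ) : ℂ) ∈ ball (N : ℂ) (N / 2) := by
    intro i hi
    rw [mem_ball, Complex.dist_eq, ← Complex.ofReal_sub, Complex.norm_real, Real.norm_eq_abs,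
      abs_lt]
    constructor <;> linarith [hxN i (by omega), hxH i (by omega)]
  obtain ⟨h, hh, hFh⟩ := exists_quot (c := (N : ℂ)) (R := N / 2) (fun i => (x i : ℂ)) (s + 1)
    (fun z => f z - p z) (hf.sub hpdiff.diffContOnCl) hball
    (fun i hi j hj hij hc => hxne i (by omega) j (by omega) hij (by exact_mod_cast hc))
    (fun i hi => by
      show f (x i) - p (x i) = 0
      rw [hpnode i (by omega), sub_self])
  -- bound of h on the circle
  set Kb : ℝ := M * (8 / (3 * N)) ^ (s + 1) + dl * (2 ^ s / (Nat.factorial s : ℝ)) with hKb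
  have hcirc : ∀ z ∈ frontier (ball (N : ℂ) (N / 2)), ‖h z‖ ≤ Kb := by
    intro z hz
    rw [frontier_ball _ (by linarith : N / 2 ≠ 0)] at hz
    have hz2 : ‖z - (N : ℂ)‖ = N / 2 := by rw [← Complex.dist_eq]; exact hz
    have hdist : ∀ j ≤ s, 3 * N / 8 ≤ ‖z - (x j : ℂ)‖ := by
      intro j hj
      have h1 : ‖(x j : ℂ) - (N : ℂ)‖ ≤ H := by
        rw [← Complex.ofReal_sub, Complex.norm_real, Real.norm_eq_abs, abs_le]
        constructor <;> linarith [hxN j hj, hxH j hj]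
      have h2 := norm_sub_norm_le (z - (N : ℂ)) ((x j : ℂ) - (N : ℂ))
      rw [hz2] at h2
      have h3 : z - (N : ℂ) - ((x j : ℂ) - (N : ℂ)) = z - (x j : ℂ) := by ring
      rw [h3] at h2
      linarith
    have hprod : (3 * N / 8) ^ (s + 1) ≤ ∏ j ∈ S, ‖z - (x j : ℂ)‖ := by
      have h1 : (3 * N / 8) ^ (s + 1) = ∏ _j ∈ S, (3 * N / 8) := by
        rw [Finset.prod_const, hS, Finset.card_range]
      rw [h1]
      exact Finset.prod_le_prod (fun j _ => by positivity) (fun j hj => hdist j (hmS.mp hj))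
    have hNpos : 0 < (3 * N / 8) ^ (s + 1) := by positivity
    set om : ℝ := ∏ j ∈ S, ‖z - (x j : ℂ)‖ with hom
    have hompos : 0 < om := lt_of_lt_of_le hNpos hprod
    have hp1 : ‖p z‖ ≤ dl * om * (2 ^ s / (Nat.factorial s : ℝ)) := by
      refine hpbound z om hompos.le (fun l hl => ?_)
      rw [hom, ← Finset.mul_prod_erase S (fun j => ‖z - (x j : ℂ)‖) hl]
      have h1 : 1 ≤ ‖z - (x l : ℂ)‖ := by linarith [hdist l (hmS.mp hl)]
      have h2 : 0 ≤ ∏ j ∈ S.erase l, ‖z - (x j : ℂ)‖ := Finset.prod_nonneg (fun j _ => norm_nonneg _)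
      nlinarith
    have hf1 : ‖f z‖ ≤ M := hM z (by rw [mem_closedBall, Complex.dist_eq, hz2])
    have heq : ‖f z - p z‖ = om * ‖h z‖ := by
      have h1 : f z - p z = (∏ i ∈ Finset.range (s + 1), (z - (x i : ℂ))) * h z := hFh z
      rw [h1, norm_mul, norm_prod]
    have h3 : om * ‖h z‖ ≤ om * Kb := by
      rw [← heq]
      refine (norm_sub_le _ _).trans ?_
      have h4 : M ≤ om * (M * (8 / (3 * N)) ^ (s + 1)) := by
        have h5 : (3 * N / 8) ^ (s + 1) * (8 / (3 * N)) ^ (s + 1) = 1 := by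
          rw [← mul_pow]
          have : 3 * N / 8 * (8 / (3 * N)) = 1 := by
            have : N ≠ 0 := by linarith
            field_simp
          rw [this, one_pow]
        have h6 : (0 : ℝ) ≤ (8 / (3 * N)) ^ (s + 1) := by positivity
        have h7 : 1 ≤ om * (8 / (3 * N)) ^ (s + 1) := by
          rw [← h5]
          exact mul_le_mul_of_nonneg_right hprod h6
        calc M = M * 1 := by ring
          _ ≤ M * (om * (8 / (3 * N)) ^ (s + 1)) := mul_le_mul_of_nonneg_left h7 hM0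
          _ = _ := by ring
      calc ‖f z‖ + ‖p z‖ ≤ om * (M * (8 / (3 * N)) ^ (s + 1)) +
            dl * om * (2 ^ s / (Nat.factorial s : ℝ)) := add_le_add (hf1.trans h4) hp1
        _ = om * Kb := by rw [hKb]; ring
    exact le_of_mul_le_mul_left h3 hompos
  intro z hz
  have hz' : ‖z - (N : ℂ)‖ ≤ H := by rw [← Complex.dist_eq]; exact hz
  have hzcl : z ∈ closure (ball (N : ℂ) (N / 2)) := by
    refine subset_closure ?_
    rw [mem_ball, Complex.dist_eq]
    linarith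
  have hhz : ‖h z‖ ≤ Kb :=
    Complex.norm_le_of_forall_mem_frontier_norm_le isBounded_ball hh hcirc hzcl
  have hd2 : ∀ j ≤ s, ‖z - (x j : ℂ)‖ ≤ 2 * H := by
    intro j hj
    have h1 : ‖(N : ℂ) - (x j : ℂ)‖ ≤ H := by
      rw [← Complex.ofReal_sub, Complex.norm_real, Real.norm_eq_abs, abs_le]
      constructor <;> linarith [hxN j hj, hxH j hj]
    have h2 := norm_add_le (z - (N : ℂ)) ((N : ℂ) - (x j : ℂ))
    have h3 : z - (N : ℂ) + ((N : ℂ) - (x j : ℂ)) = z - (x j : ℂ) := by ring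
    rw [h3] at h2
    linarith
  have hpz : ‖p z‖ ≤ dl * (2 * H) ^ s * (2 ^ s / (Nat.factorial s : ℝ)) := by
    refine hpbound z _ (by positivity) (fun l hl => ?_)
    have h1 : (2 * H) ^ s = ∏ _j ∈ S.erase l, (2 * H) := by
      rw [Finset.prod_const, Finset.card_erase_of_mem hl, hS, Finset.card_range, Nat.add_sub_cancel]
    rw [h1]
    exact Finset.prod_le_prod (fun j _ => norm_nonneg _)
      (fun j hj => hd2 j (hmS.mp (Finset.mem_of_mem_erase hj)))
  have homz : ∏ j ∈ S, ‖z - (x j : ℂ)‖ ≤ (2 * H) ^ (s + 1) := by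
    have h1 : (2 * H) ^ (s + 1) = ∏ _j ∈ S, (2 * H) := by
      rw [Finset.prod_const, hS, Finset.card_range]
    rw [h1]
    exact Finset.prod_le_prod (fun j _ => norm_nonneg _) (fun j hj => hd2 j (hmS.mp hj))
  have heq : f z = p z + (∏ j ∈ S, (z - (x j : ℂ))) * h z := by
    have h1 : f z - p z = (∏ i ∈ Finset.range (s + 1), (z - (x i : ℂ))) * h z := hFh z
    rw [← h1]
    ring
  have h1 : ‖f z‖ ≤ dl * (2 * H) ^ s * (2 ^ s / (Nat.factorial s : ℝ)) + (2 * H) ^ (s + 1) * Kb := by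
    rw [heq]
    refine (norm_add_le _ _).trans (add_le_add hpz ?_)
    rw [norm_mul, norm_prod]
    exact mul_le_mul homz hhz (norm_nonneg _) (by positivity)
  refine h1.trans ?_
  have e1 : dl * (2 * H) ^ s * (2 ^ s / (Nat.factorial s : ℝ)) =
      dl * (4 * H) ^ s / (Nat.factorial s : ℝ) := by
    have : (4 * H) ^ s = (2 * H) ^ s * 2 ^ s := by rw [← mul_pow]; ring_nf
    rw [this]; ring
  have e2 : (2 * H) ^ (s + 1) * Kb = dl * (4 * H) ^ (s + 1) / 2 / (Nat.factorial s : ℝ) +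
      M * (16 * H / (3 * N)) ^ (s + 1) := by
    have h2 : (4 * H) ^ (s + 1) = (2 * H) ^ (s + 1) * (2 ^ s * 2) := by
      rw [← pow_succ, ← mul_pow]; ring_nf
    have h3 : (16 * H / (3 * N)) ^ (s + 1) = (2 * H) ^ (s + 1) * (8 / (3 * N)) ^ (s + 1) := by
      rw [← mul_pow]; congr 1; ring
    rw [h2, h3, hKb]
    ring
  rw [e1, e2]
  have e3 : dl * (4 * H) ^ s / (Nat.factorial s : ℝ) ≤
      dl * (4 * H) ^ (s + 1) / (Nat.factorial s : ℝ) := by
    refine div_le_div_of_nonneg_right ?_ hfs.le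
    refine mul_le_mul_of_nonneg_left ?_ hdl0
    exact pow_le_pow_right₀ (by linarith) (Nat.le_succ s)
  have e4 : dl * (4 * H) ^ (s + 1) / 2 / (Nat.factorial s : ℝ) ≤
      dl * (4 * H) ^ (s + 1) / (Nat.factorial s : ℝ) := by
    refine div_le_div_of_nonneg_right ?_ hfs.le
    have : 0 ≤ dl * (4 * H) ^ (s + 1) := by positivity
    linarith
  have e5 : M * (16 * H / (3 * N)) ^ (s + 1) ≤ M * (6 * H / N) ^ (s + 1) := by
    refine mul_le_mul_of_nonneg_left ?_ hM0
    refine pow_le_pow_left₀ (by positivity) ?_ _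
    rw [div_le_div_iff₀ (by linarith) (by linarith)]
    nlinarith
  have e6 : 2 * dl * (4 * H) ^ (s + 1) / (Nat.factorial s : ℝ) =
      dl * (4 * H) ^ (s + 1) / (Nat.factorial s : ℝ) +
        dl * (4 * H) ^ (s + 1) / (Nat.factorial s : ℝ) := by ring
  rw [e6]
  linarith

end PK
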