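import Pool.Agent.helper90.PK.EtaS

/-!
# PK-A4: the transformation of `P(-e^(-s))`

(1) `P(-q) P(q) P(q⁴) = P(q²)³` for `‖q‖ < 1`: with `E(q) = ∏ (1 - q^(n+1))` and
`O(q) = ∏ (1 - q^(2n+1))` one has `E(q) = O(q) E(q²)` and `O(q) O(-q) = O(q²)`.
(2) Apply `P_S` to `s`, `2s`, `4s` and identity (1) at `e^(-s)` and at `e^(-π²/s)`.
-/

namespace PK

private theorem mult_E {q : ℂ} (hq : ‖q‖ < 1) : Multipliable fun n : ℕ => 1 - q ^ (n + 1) :=
  ModularForm.multipliable_one_sub_pow hq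

private theorem mult_O {q : ℂ} (hq : ‖q‖ < 1) : Multipliable fun n : ℕ => 1 - q ^ (2 * n + 1) := by
  apply multipliable_one_add_of_summable (f := fun n : ℕ => -q ^ (2 * n + 1))
  have h1 : Summable fun n : ℕ => ‖q‖ ^ n := summable_geometric_of_lt_one (norm_nonneg _) hq
  have h2 : Function.Injective fun n : ℕ => 2 * n + 1 := fun a b h => by
    simp only at h
    omega
  have h3 := h1.comp_injective h2
  refine h3.congr fun n => ?_
  simp [norm_pow]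

private theorem E_ne_zero {q : ℂ} (hq : ‖q‖ < 1) : (∏' n : ℕ, (1 - q ^ (n + 1))) ≠ 0 := by
  have h1 : ∀ n : ℕ, 1 + (-q ^ (n + 1)) ≠ 0 := by
    intro n h
    have h2 : q ^ (n + 1) = 1 := by linear_combination -h
    have h3 : ‖q‖ ^ (n + 1) = 1 := by rw [← norm_pow, h2, norm_one]
    have h4 : ‖q‖ ^ (n + 1) < 1 := pow_lt_one₀ (norm_nonneg _) hq (Nat.succ_ne_zero n)
    linarith
  have h2 : Summable fun n : ℕ => ‖-q ^ (n + 1)‖ := by
    simpa using (summable_nat_add_iff 1).mpr (summable_geometric_of_lt_one (norm_nonneg _) hq)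
  have h3 := tprod_one_add_ne_zero_of_summable (f := fun n : ℕ => -q ^ (n + 1)) h1 h2
  simpa [sub_eq_add_neg] using h3

private theorem E_split {q : ℂ} (hq : ‖q‖ < 1) :
    (∏' n : ℕ, (1 - q ^ (n + 1))) = (∏' n : ℕ, (1 - q ^ (2 * n + 1))) *
      ∏' n : ℕ, (1 - (q ^ 2) ^ (n + 1)) := by
  have hq2 : ‖q ^ 2‖ < 1 := by
    rw [norm_pow]; exact pow_lt_one₀ (norm_nonneg _) hq two_ne_zero
  have e1 : Multipliable fun n : ℕ => (fun k : ℕ => 1 - q ^ (k + 1)) (2 * n) := mult_O hq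
  have e2 : Multipliable fun n : ℕ => (fun k : ℕ => 1 - q ^ (k + 1)) (2 * n + 1) := by
    refine (mult_E hq2).congr fun n => ?_
    simp only
    rw [← pow_mul]
    congr 2
  have h := tprod_even_mul_odd (f := fun k : ℕ => 1 - q ^ (k + 1)) e1 e2
  rw [← h]
  congr 1
  refine tprod_congr fun n => ?_
  rw [← pow_mul]
  congr 2

private theorem O_mul {q : ℂ} (hq : ‖q‖ < 1) :
    (∏' n : ℕ, (1 - q ^ (2 * n + 1))) * (∏' n : ℕ, (1 - (-q) ^ (2 * n + 1))) =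
      ∏' n : ℕ, (1 - (q ^ 2) ^ (2 * n + 1)) := by
  have hq' : ‖-q‖ < 1 := by rwa [norm_neg]
  rw [← (mult_O hq).tprod_mul (mult_O hq')]
  refine tprod_congr fun n => ?_
  have h1 : (-q) ^ (2 * n + 1) = -(q ^ (2 * n + 1)) := by
    rw [Odd.neg_pow ⟨n, rfl⟩]
  rw [h1]
  ring

theorem P_neg_mul {q : ℂ} (hq : ‖q‖ < 1) : P (-q) * P q * P (q ^ 4) = P (q ^ 2) ^ 3 := by
  have hq' : ‖-q‖ < 1 := by rwa [norm_neg]
  have hq2 : ‖q ^ 2‖ < 1 := by
    rw [norm_pow]; exact pow_lt_one₀ (norm_nonneg _) hq two_ne_zero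
  have hq4 : ‖q ^ 4‖ < 1 := by
    rw [norm_pow]; exact pow_lt_one₀ (norm_nonneg _) hq four_ne_zero
  have a1 := E_split hq
  have a2 := E_split hq'
  have a3 := E_split hq2
  have a4 := O_mul hq
  rw [neg_sq] at a2
  rw [← pow_mul] at a3
  norm_num at a3
  have n2 := E_ne_zero hq2
  have n4 := E_ne_zero hq4
  unfold P
  rw [← mul_inv, ← mul_inv, inv_pow]
  congr 1
  rw [a1, a2]
  calc _ = ((∏' n : ℕ, (1 - q ^ (2 * n + 1))) * (∏' n : ℕ, (1 - (-q) ^ (2 * n + 1)))) *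
        (∏' n : ℕ, (1 - (q ^ 2) ^ (n + 1))) ^ 2 * ∏' n : ℕ, (1 - (q ^ 4) ^ (n + 1)) := by ring
    _ = ((∏' n : ℕ, (1 - (q ^ 2) ^ (2 * n + 1))) * ∏' n : ℕ, (1 - (q ^ 4) ^ (n + 1))) *
        (∏' n : ℕ, (1 - (q ^ 2) ^ (n + 1))) ^ 2 := by rw [a4]; ring
    _ = _ := by rw [← a3]; ring

private theorem P_ne_zero {q : ℂ} (hq : ‖q‖ < 1) : P q ≠ 0 := inv_ne_zero (E_ne_zero hq)

private theorem norm_exp_neg_lt {s : ℂ} (hs : 0 < s.re) : ‖Complex.exp (-s)‖ < 1 := by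
  rw [Complex.norm_exp, Complex.neg_re]
  exact Real.exp_lt_one_iff.2 (by linarith)

private theorem sq_half (w : ℂ) : (w ^ (1 / 2 : ℂ)) ^ 2 = w := by
  have := Complex.cpow_nat_inv_pow w (n := 2) two_ne_zero
  have h2 : ((2 : ℕ) : ℂ)⁻¹ = 1 / 2 := by norm_num
  rw [h2] at this
  exact this

private theorem four_half {w : ℂ} (hw : w ≠ 0) : (4 * w) ^ (1 / 2 : ℂ) = 2 * w ^ (1 / 2 : ℂ) := by
  have h4 : (4 : ℂ) = ((4 : ℝ) : ℂ) := by norm_num
  have h4w : (4 : ℂ) * w ≠ 0 := mul_ne_zero (by norm_num) hw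
  rw [Complex.cpow_def_of_ne_zero h4w, Complex.cpow_def_of_ne_zero hw, h4,
    Complex.log_ofReal_mul (by norm_num) hw, add_mul, Complex.exp_add]
  congr 1
  have h5 : Real.log 4 = 2 * Real.log 2 := by
    rw [show (4 : ℝ) = 2 ^ 2 by norm_num, Real.log_pow]; norm_num
  rw [h5]
  have h6 : ((2 * Real.log 2 : ℝ) : ℂ) * (1 / 2) = ((Real.log 2 : ℝ) : ℂ) := by
    push_cast; ring
  rw [h6, ← Complex.ofReal_exp, Real.exp_log (by norm_num)]
  norm_num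

theorem P_S_neg {s : ℂ} (hs : 0 < s.re) :
    P (-Complex.exp (-s)) = (s / Real.pi) ^ (1 / 2 : ℂ) *
      Complex.exp ((Real.pi : ℂ) ^ 2 / (24 * s) - s / 24) *
      P (-Complex.exp (-((Real.pi : ℂ) ^ 2 / s))) := by
  have hpi : (Real.pi : ℂ) ≠ 0 := by exact_mod_cast Real.pi_ne_zero
  have hs0 : s ≠ 0 := by
    intro h; rw [h] at hs; simp at hs
  have h2s : 0 < (2 * s).re := by simp; exact hs
  have h4s : 0 < (4 * s).re := by simp; exact hs
  have hinv : 0 < ((Real.pi : ℂ) ^ 2 / s).re := by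
    have : (Real.pi : ℂ) ^ 2 / s = ((Real.pi ^ 2 : ℝ) : ℂ) * s⁻¹ := by
      push_cast; rw [div_eq_mul_inv]
    rw [this, Complex.re_ofReal_mul, Complex.inv_re]
    have hn : 0 < Complex.normSq s := Complex.normSq_pos.2 hs0
    positivity
  set q := Complex.exp (-s) with hq
  set q' := Complex.exp (-((Real.pi : ℂ) ^ 2 / s)) with hq'
  have nq : ‖q‖ < 1 := norm_exp_neg_lt hs
  have nq' : ‖q'‖ < 1 := norm_exp_neg_lt hinv
  have nq'4 : ‖q' ^ 4‖ < 1 := by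
    rw [norm_pow]; exact pow_lt_one₀ (norm_nonneg _) nq' four_ne_zero
  have i1 := P_neg_mul nq
  have i2 := P_neg_mul nq'
  have t1 := P_S hs
  have t2 := P_S h2s
  have t4 := P_S h4s
  have eq2 : Complex.exp (-(2 * s)) = q ^ 2 := by
    rw [hq, ← Complex.exp_nat_mul]; congr 1; push_cast; ring
  have eq4 : Complex.exp (-(4 * s)) = q ^ 4 := by
    rw [hq, ← Complex.exp_nat_mul]; congr 1; push_cast; ring
  have eq1' : Complex.exp (-(4 * (Real.pi : ℂ) ^ 2 / s)) = q' ^ 4 := by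
    rw [hq', ← Complex.exp_nat_mul]; congr 1; push_cast; ring
  have eq2' : Complex.exp (-(4 * (Real.pi : ℂ) ^ 2 / (2 * s))) = q' ^ 2 := by
    rw [hq', ← Complex.exp_nat_mul]; congr 1; push_cast; field_simp; ring
  have eq4' : Complex.exp (-(4 * (Real.pi : ℂ) ^ 2 / (4 * s))) = q' := by
    rw [hq']; congr 1; field_simp
  rw [← hq, eq1'] at t1
  rw [eq2, eq2'] at t2
  rw [eq4, eq4'] at t4
  have b2 : (2 * s / (2 * (Real.pi : ℂ))) = s / Real.pi := by field_simp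
  have b4 : (4 * s / (2 * (Real.pi : ℂ))) = 4 * (s / (2 * Real.pi)) := by ring
  have w0 : s / (2 * (Real.pi : ℂ)) ≠ 0 := div_ne_zero hs0 (mul_ne_zero two_ne_zero hpi)
  rw [b2] at t2
  rw [b4, four_half w0] at t4
  set a := (s / (2 * (Real.pi : ℂ))) ^ (1 / 2 : ℂ) with ha
  set b := (s / (Real.pi : ℂ)) ^ (1 / 2 : ℂ) with hb
  have ha2 : a ^ 2 = s / (2 * Real.pi) := sq_half _
  have hb2 : b ^ 2 = s / Real.pi := sq_half _
  have hab : b ^ 2 = 2 * a ^ 2 := by rw [ha2, hb2]; field_simp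
  have ha0 : a ≠ 0 := by
    intro h; rw [h] at ha2; exact w0 (by rw [← ha2]; ring)
  have p1 : P q' ≠ 0 := P_ne_zero nq'
  have p4 : P (q' ^ 4) ≠ 0 := P_ne_zero nq'4
  set e1 := Complex.exp ((Real.pi : ℂ) ^ 2 / (6 * s) - s / 24) with he1
  set e2 := Complex.exp ((Real.pi : ℂ) ^ 2 / (6 * (2 * s)) - 2 * s / 24) with he2
  set e4 := Complex.exp ((Real.pi : ℂ) ^ 2 / (6 * (4 * s)) - 4 * s / 24) with he4
  set e := Complex.exp ((Real.pi : ℂ) ^ 2 / (24 * s) - s / 24) with he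
  have hexp : e2 ^ 3 = e * (e1 * e4) := by
    rw [he2, he, he1, he4, ← Complex.exp_nat_mul, ← Complex.exp_add, ← Complex.exp_add]
    congr 1
    push_cast
    field_simp
    ring
  have he10 : e1 ≠ 0 := Complex.exp_ne_zero _
  have he40 : e4 ≠ 0 := Complex.exp_ne_zero _
  rw [t1, t2, t4] at i1
  have hK : (2 * a ^ 2 * (e1 * e4) * (P q' * P (q' ^ 4))) ≠ 0 :=
    mul_ne_zero (mul_ne_zero (mul_ne_zero two_ne_zero (pow_ne_zero 2 ha0)) (mul_ne_zero he10 he40))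
      (mul_ne_zero p1 p4)
  apply mul_right_cancel₀ hK
  calc P (-q) * (2 * a ^ 2 * (e1 * e4) * (P q' * P (q' ^ 4)))
      = P (-q) * (a * e1 * P (q' ^ 4)) * (2 * a * e4 * P q') := by ring
    _ = (b * e2 * P (q' ^ 2)) ^ 3 := i1
    _ = b * b ^ 2 * e2 ^ 3 * P (q' ^ 2) ^ 3 := by ring
    _ = b * (2 * a ^ 2) * (e * (e1 * e4)) * (P (-q') * P q' * P (q' ^ 4)) := by
        rw [hab, hexp, i2]
    _ = b * e * P (-q') * (2 * a ^ 2 * (e1 * e4) * (P q' * P (q' ^ 4))) := by ring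

end PK
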