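import Pool.Agent.helper90.PK.Defs

/-!
# PK-A3: the transformation `s ↦ 4π²/s` of `P(e^(-s))`

Take `z = i s / (2π)` in `ModularForm.eta_comp_eq_csqrt_I_inv`: `exp(2πiz) = exp(-s)`,
`-1/z = i s'/(2π)` with `s' = 4π²/s`, `eta z = exp(-s/24) * (P(exp(-s)))⁻¹` and
`(√I)⁻¹ √(i s/(2π)) = √(s/(2π))` since `arg I + arg (s/2π) ∈ (0, π)`.
-/

namespace PK

theorem im_I_mul_div {s : ℂ} (hs : 0 < s.re) :
    0 < (Complex.I * s / (2 * (Real.pi : ℂ))).im := by
  have h1 : Complex.I * s / (2 * (Real.pi : ℂ)) = ((2 * Real.pi)⁻¹ : ℝ) * (Complex.I * s) := by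
    push_cast
    field_simp
  rw [h1, Complex.im_ofReal_mul]
  have h2 : (Complex.I * s).im = s.re := by simp
  rw [h2]
  have := Real.pi_pos
  positivity

theorem eta_eq_P {s : ℂ} (hs : 0 < s.re) :
    ModularForm.eta (Complex.I * s / (2 * (Real.pi : ℂ))) =
      Complex.exp (-s / 24) * (P (Complex.exp (-s)))⁻¹ := by
  have hpi : (Real.pi : ℂ) ≠ 0 := by exact_mod_cast Real.pi_ne_zero
  have h1 : 2 * (Real.pi : ℂ) * Complex.I * (Complex.I * s / (2 * (Real.pi : ℂ))) = -s := by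
    field_simp
    rw [Complex.I_sq]
    ring
  rw [ModularForm.eta, P, inv_inv]
  congr 1
  · rw [Function.Periodic.qParam]
    congr 1
    rw [h1]
    push_cast
    ring
  · apply tprod_congr
    intro n
    rw [ModularForm.eta_q_eq_pow, h1]

theorem P_ne_zero_of_exp {s : ℂ} (hs : 0 < s.re) : P (Complex.exp (-s)) ≠ 0 := by
  intro h0
  have h1 := ModularForm.eta_ne_zero (im_I_mul_div hs)
  rw [eta_eq_P hs, h0] at h1
  simp at h1

theorem sqrt_I_mul {w : ℂ} (hw : 0 < w.re) :
    Complex.sqrt (Complex.I * w) = Complex.sqrt Complex.I * w ^ (1 / 2 : ℂ) := by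
  have hw0 : w ≠ 0 := by
    intro h
    rw [h] at hw
    simp at hw
  have harg := Complex.abs_arg_lt_pi_div_two_iff.mpr (Or.inl hw)
  have hlog : Complex.log (Complex.I * w) = Complex.log Complex.I + Complex.log w := by
    apply Complex.log_mul_eq_add_log_iff Complex.I_ne_zero hw0 |>.mpr
    rw [Complex.arg_I]
    rw [abs_lt] at harg
    constructor <;> linarith [Real.pi_pos]
  rw [sqrt_eq_exp (mul_ne_zero Complex.I_ne_zero hw0),
    sqrt_eq_exp Complex.I_ne_zero, Complex.cpow_def_of_ne_zero hw0, ← Complex.exp_add, hlog]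
  congr 1
  ring

theorem P_S {s : ℂ} (hs : 0 < s.re) :
    P (Complex.exp (-s)) = (s / (2 * Real.pi)) ^ (1 / 2 : ℂ) *
      Complex.exp ((Real.pi : ℂ) ^ 2 / (6 * s) - s / 24) *
      P (Complex.exp (-(4 * (Real.pi : ℂ) ^ 2 / s))) := by
  have hpi : (Real.pi : ℂ) ≠ 0 := by exact_mod_cast Real.pi_ne_zero
  have hs0 : s ≠ 0 := by
    intro h
    rw [h] at hs
    simp at hs
  set t : ℂ := 4 * (Real.pi : ℂ) ^ 2 / s with ht
  have htre : 0 < t.re := by
    have h1 : t = ((4 * Real.pi ^ 2 : ℝ) : ℂ) * s⁻¹ := by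
      rw [ht]
      push_cast
      ring
    rw [h1, Complex.re_ofReal_mul, Complex.inv_re]
    have h2 : 0 < Complex.normSq s := Complex.normSq_pos.mpr hs0
    have := Real.pi_pos
    positivity
  have hz : -1 / (Complex.I * s / (2 * (Real.pi : ℂ))) = Complex.I * t / (2 * (Real.pi : ℂ)) := by
    rw [ht]
    have hI := Complex.I_ne_zero
    field_simp
    rw [Complex.I_sq]
    ring
  have hS := ModularForm.eta_comp_eq_csqrt_I_inv (im_I_mul_div hs)
  simp only [Function.comp_apply, Pi.smul_apply, Pi.mul_apply, smul_eq_mul] at hS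
  have hw : 0 < (s / (2 * (Real.pi : ℂ))).re := by
    have h1 : s / (2 * (Real.pi : ℂ)) = ((2 * Real.pi)⁻¹ : ℝ) * s := by
      push_cast
      field_simp
    rw [h1, Complex.re_ofReal_mul]
    have := Real.pi_pos
    positivity
  have hsq : Complex.sqrt (Complex.I * s / (2 * (Real.pi : ℂ))) =
      Complex.sqrt Complex.I * (s / (2 * (Real.pi : ℂ))) ^ (1 / 2 : ℂ) := by
    rw [← sqrt_I_mul hw, mul_div_assoc]
  have hsI : Complex.sqrt Complex.I ≠ 0 := by
    rw [sqrt_eq_exp Complex.I_ne_zero]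
    exact Complex.exp_ne_zero _
  rw [hz, eta_eq_P htre, eta_eq_P hs, hsq] at hS
  have hPs := P_ne_zero_of_exp hs
  have hPt := P_ne_zero_of_exp htre
  have hS2 : Complex.exp (-t / 24) * (P (Complex.exp (-t)))⁻¹ =
      (s / (2 * (Real.pi : ℂ))) ^ (1 / 2 : ℂ) *
        (Complex.exp (-s / 24) * (P (Complex.exp (-s)))⁻¹) := by
    rw [hS]
    field_simp
  have hexp : Complex.exp ((Real.pi : ℂ) ^ 2 / (6 * s) - s / 24) * Complex.exp (-t / 24) =
      Complex.exp (-s / 24) := by
    rw [← Complex.exp_add]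
    congr 1
    rw [ht]
    field_simp
    ring
  have he := Complex.exp_ne_zero (-t / 24)
  have hkey : P (Complex.exp (-s)) * Complex.exp (-t / 24) =
      (s / (2 * (Real.pi : ℂ))) ^ (1 / 2 : ℂ) * Complex.exp (-s / 24) *
        P (Complex.exp (-t)) := by
    have h3 : P (Complex.exp (-s)) * Complex.exp (-t / 24) =
        (Complex.exp (-t / 24) * (P (Complex.exp (-t)))⁻¹) *
          (P (Complex.exp (-s)) * P (Complex.exp (-t))) := by
      calc P (Complex.exp (-s)) * Complex.exp (-t / 24) =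
          P (Complex.exp (-s)) * Complex.exp (-t / 24) *
            ((P (Complex.exp (-t)))⁻¹ * P (Complex.exp (-t))) := by
            rw [inv_mul_cancel₀ hPt, mul_one]
        _ = _ := by ring
    rw [h3, hS2]
    calc (s / (2 * (Real.pi : ℂ))) ^ (1 / 2 : ℂ) *
          (Complex.exp (-s / 24) * (P (Complex.exp (-s)))⁻¹) *
            (P (Complex.exp (-s)) * P (Complex.exp (-t))) =
        (s / (2 * (Real.pi : ℂ))) ^ (1 / 2 : ℂ) * Complex.exp (-s / 24) * P (Complex.exp (-t)) *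
          ((P (Complex.exp (-s)))⁻¹ * P (Complex.exp (-s))) := by ring
      _ = _ := by rw [inv_mul_cancel₀ hPs, mul_one]
  apply mul_right_cancel₀ he
  rw [hkey, ← hexp]
  ring

end PK
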