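import Pool.Agent.helper90.PK.LogPP

/-!
# PK-F2: the asymptotics of `M_k` outside a set of density zero

Proof sketch. Put `A = 3/(2π²) (k/(k-1))² = ((1-1/k) CC)⁻²` (`CC² = 2π²/3`).
Finiteness: `n ∉ E` large implies `Dk k n ≥ pp n^(1-1/k-ε) → ∞` (`ε = 1/4`, `1 - 1/k - 1/4 ≥ 1/4`,
`log_pp`), so only finitely many `n ∉ E` have `Dk k n ≤ d`.
Upper bound (`limsup ≤ 1`): let `M = sSup {...}`; it is attained (finite set; nonempty for large
`d`). Given `θ > 0` choose `ε` with `(1-1/k-ε)²... `: for `n ∉ E`, `n ≥ n0`: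
`log d ≥ log Dk k n ≥ (1-1/k-ε) log pp n ≥ (1-1/k-ε)(1-ε) CC √n`, so
`n ≤ (log d)²/((1-1/k-ε)(1-ε)CC)² ≤ (1+θ) A (log d)²`; this applies to `n = M` when `M ≥ n0`, and
`A (log d)² → ∞` takes care of `M < n0`.
Lower bound (`liminf ≥ 1`): given `θ ∈ (0,1/4)` let `X = ⌊(1-θ) A (log d)²⌋`; since `cnt E x/x → 0`
there is `n ∈ ((1-θ)X, X]`, `n ∉ E` for large `X`; `Dk k n ≤ k (pp n)^(1-1/k)` (`Dk_upper`) and
`log (k pp n^(1-1/k)) ≤ log k + (1-1/k)(1+ε) CC √X ≤ log k + (1+ε)√(1-θ) log d ≤ log d`. So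
`n ≤ M`, `M ≥ (1-θ) X`.
-/

namespace PK

open Filter Topology

/-- the constant `(1 - 1/k) C` -/
noncomputable def ma_c (k : ℕ) : ℝ := (1 - 1 / (k : ℝ)) * CC

theorem ma_c_pos {k : ℕ} (hk : 2 ≤ k) : 0 < ma_c k := by
  have h1 : (2 : ℝ) ≤ k := by exact_mod_cast hk
  refine mul_pos ?_ lp_CC_pos
  rw [sub_pos, div_lt_one (by linarith)]
  linarith

theorem ma_A {k : ℕ} (hk : 2 ≤ k) :
    3 / (2 * Real.pi ^ 2) * ((k : ℝ) / (k - 1)) ^ 2 = 1 / ma_c k ^ 2 := by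
  have h1 : (2 : ℝ) ≤ k := by exact_mod_cast hk
  have h2 : (k : ℝ) - 1 ≠ 0 := by
    have : 0 < (k : ℝ) - 1 := by linarith
    exact this.ne'
  have h3 : (k : ℝ) ≠ 0 := by linarith
  have hC : CC ^ 2 = 2 * Real.pi ^ 2 / 3 := by
    rw [CC, mul_pow, Real.sq_sqrt (by norm_num)]
    ring
  have hpi := Real.pi_pos.ne'
  rw [ma_c, mul_pow, hC]
  field_simp

/-- the exponent -/
noncomputable def ma_eps (η : ℝ) : ℝ := min (η / (1 + CC)) (1 / 4)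

theorem ma_eps_pos {η : ℝ} (hη : 0 < η) : 0 < ma_eps η := by
  have hC := lp_CC_pos
  exact lt_min (by positivity) (by norm_num)

/-- lower bound for `Δ_k` outside `E` -/
theorem ma_lower {E : Set ℕ} {k : ℕ} (hk : 2 ≤ k) {η : ℝ} (hη : 0 < η)
    (h : ∃ n0 : ℕ, ∀ n ≥ n0, n ∉ E →
      (pp n : ℝ) ^ (1 - 1 / (k : ℝ) - ma_eps η) < (Dk k n : ℝ)) :
    ∃ n0 : ℕ, ∀ n ≥ n0, n ∉ E → Real.exp ((ma_c k - η) * Real.sqrt n) ≤ (Dk k n : ℝ) := by
  have hC := lp_CC_pos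
  have h1 : (2 : ℝ) ≤ k := by exact_mod_cast hk
  have h2 : 1 / (k : ℝ) ≤ 1 / 2 := one_div_le_one_div_of_le (by norm_num) h1
  have h20 : 0 < 1 / (k : ℝ) := by positivity
  obtain ⟨n0, hn0⟩ := h
  have hε0 := ma_eps_pos hη
  have hε1 : ma_eps η ≤ 1 / 4 := min_le_right _ _
  have hε2 : ma_eps η * (1 + CC) ≤ η := by
    rw [← le_div_iff₀ (by positivity)]
    exact min_le_left _ _
  set ε := ma_eps η with hε
  have hl := log_pp.eventually_const_lt (by linarith : CC - ε < CC)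
  obtain ⟨n1, hn1⟩ := eventually_atTop.1 hl
  refine ⟨max (max n0 n1) 1, fun n hn hE => ?_⟩
  have hn' : n0 ≤ n ∧ n1 ≤ n ∧ 1 ≤ n := by
    simp only [ge_iff_le, max_le_iff] at hn
    exact ⟨hn.1.1, hn.1.2, hn.2⟩
  refine le_trans ?_ (hn0 n hn'.1 hE).le
  have hp : (0 : ℝ) < pp n := by exact_mod_cast pp_pos n
  have hn1' : (1 : ℝ) ≤ n := by exact_mod_cast hn'.2.2
  have hs : 0 < Real.sqrt n := Real.sqrt_pos.2 (by linarith)
  have h3 := hn1 n hn'.2.1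
  rw [lt_div_iff₀ hs] at h3
  rw [Real.rpow_def_of_pos hp]
  refine Real.exp_le_exp.2 ?_
  have h4 : 0 < 1 - 1 / (k : ℝ) - ε := by linarith
  calc (ma_c k - η) * Real.sqrt n ≤ ((CC - ε) * (1 - 1 / (k : ℝ) - ε)) * Real.sqrt n := by
        refine mul_le_mul_of_nonneg_right ?_ hs.le
        rw [ma_c]
        nlinarith
    _ = ((CC - ε) * Real.sqrt n) * (1 - 1 / (k : ℝ) - ε) := by ring
    _ ≤ _ := mul_le_mul_of_nonneg_right h3.le h4.le

/-- upper bound for `Δ_k` -/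
theorem ma_upper {k : ℕ} (hk : 2 ≤ k) {η : ℝ} (hη : 0 < η) :
    ∃ n0 : ℕ, ∀ n ≥ n0, (Dk k n : ℝ) ≤ Real.exp ((ma_c k + η) * Real.sqrt n) := by
  have hC := lp_CC_pos
  have h1 : (2 : ℝ) ≤ k := by exact_mod_cast hk
  have h2 : 1 / (k : ℝ) ≤ 1 / 2 := one_div_le_one_div_of_le (by norm_num) h1
  have h20 : 0 < 1 / (k : ℝ) := by positivity
  have hl := log_pp.eventually_lt_const (by linarith : CC < CC + η / 2)
  have hsq : Tendsto (fun n : ℕ => Real.sqrt n) atTop atTop :=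
    Real.tendsto_sqrt_atTop.comp tendsto_natCast_atTop_atTop
  have h5 := (Tendsto.const_mul_atTop (by positivity : 0 < η / 2) hsq).eventually_ge_atTop
    (Real.log k)
  obtain ⟨n1, hn1⟩ := eventually_atTop.1 (hl.and h5)
  refine ⟨max n1 1, fun n hn => ?_⟩
  have hn' : n1 ≤ n ∧ 1 ≤ n := by
    simpa only [ge_iff_le, max_le_iff] using hn
  have hp : (0 : ℝ) < pp n := by exact_mod_cast pp_pos n
  have hn1' : (1 : ℝ) ≤ n := by exact_mod_cast hn'.2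
  have hs : 0 < Real.sqrt n := Real.sqrt_pos.2 (by linarith)
  obtain ⟨h3, h4⟩ := hn1 n hn'.1
  rw [div_lt_iff₀ hs] at h3
  refine (Dk_upper k (by omega) n).trans ?_
  have hk0 : (0 : ℝ) < k := by linarith
  rw [Real.rpow_def_of_pos hp]
  nth_rewrite 1 [← Real.exp_log hk0]
  rw [← Real.exp_add]
  refine Real.exp_le_exp.2 ?_
  have h6 : 0 ≤ 1 - 1 / (k : ℝ) := by linarith
  have h7 : Real.log (pp n) * (1 - 1 / (k : ℝ)) ≤
      (CC + η / 2) * Real.sqrt n * (1 - 1 / (k : ℝ)) :=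
    mul_le_mul_of_nonneg_right h3.le h6
  have h8 : (CC + η / 2) * Real.sqrt n * (1 - 1 / (k : ℝ)) ≤
      ma_c k * Real.sqrt n + η / 2 * Real.sqrt n := by
    rw [ma_c]
    have : η / 2 * Real.sqrt n * (1 - 1 / (k : ℝ)) ≤ η / 2 * Real.sqrt n * 1 := by
      have : 0 < η / 2 * Real.sqrt n := by positivity
      gcongr
      linarith
    nlinarith
  linarith

/-- an element outside `E` -/
theorem ma_exists {E : Set ℕ} (hE : Tendsto (fun x : ℕ => (cnt E x : ℝ) / x) atTop (𝓝 0))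
    {δ : ℝ} (hδ : 0 < δ) (hδ1 : δ < 1) :
    ∃ X0 : ℕ, ∀ X ≥ X0, ∃ n, n ∉ E ∧ 1 ≤ n ∧ n ≤ X ∧ (1 - δ) * X ≤ n := by
  obtain ⟨X0, hX0⟩ := eventually_atTop.1 (hE.eventually_lt_const hδ)
  refine ⟨max X0 1, fun X hX => ?_⟩
  have hX' : X0 ≤ X ∧ 1 ≤ X := by
    simpa only [ge_iff_le, max_le_iff] using hX
  have hXr : (1 : ℝ) ≤ X := by exact_mod_cast hX'.2
  have h1 := hX0 X hX'.1
  rw [div_lt_iff₀ (by linarith)] at h1
  by_contra hcon
  push Not at hcon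
  set f : ℕ := ⌊(1 - δ) * X⌋₊ with hf
  have hf1 : (f : ℝ) ≤ (1 - δ) * X := Nat.floor_le (by
    have : 0 < 1 - δ := by linarith
    positivity)
  have hf2 : (1 - δ) * X < f + 1 := Nat.lt_floor_add_one _
  have hsub : (Finset.Ioc f X : Set ℕ) ⊆ {n : ℕ | n ∈ E ∧ 1 ≤ n ∧ n ≤ X} := by
    intro n hn
    rw [Finset.coe_Ioc, Set.mem_Ioc] at hn
    refine ⟨?_, by omega, hn.2⟩
    by_contra hnE
    have h3 := hcon n hnE (by omega) hn.2
    have h4 : ((f : ℝ) + 1) ≤ n := by exact_mod_cast hn.1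
    linarith
  have hfin : {n : ℕ | n ∈ E ∧ 1 ≤ n ∧ n ≤ X}.Finite :=
    (Set.finite_Iic X).subset fun n hn => hn.2.2
  have h2 := Set.ncard_le_ncard hsub hfin
  rw [Set.ncard_coe_finset, Nat.card_Ioc] at h2
  have h3 : ((X - f : ℕ) : ℝ) ≤ cnt E X := by exact_mod_cast h2
  have h4 : (X : ℝ) ≤ ((X - f : ℕ) : ℝ) + f := by
    have : X ≤ (X - f) + f := by omega
    exact_mod_cast this
  nlinarith

theorem ma_finite {E : Set ℕ} {k : ℕ} (hk : 2 ≤ k) {η : ℝ} (hη : 0 < η) (hηc : η < ma_c k)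
    (h : ∃ n0 : ℕ, ∀ n ≥ n0, n ∉ E →
      (pp n : ℝ) ^ (1 - 1 / (k : ℝ) - ma_eps η) < (Dk k n : ℝ)) (d : ℕ) :
    {n : ℕ | 1 ≤ n ∧ n ∉ E ∧ Dk k n ≤ d}.Finite := by
  have hc := ma_c_pos hk
  obtain ⟨n0, hn0⟩ := ma_lower hk hη h
  have hsq : Tendsto (fun n : ℕ => Real.sqrt n) atTop atTop :=
    Real.tendsto_sqrt_atTop.comp tendsto_natCast_atTop_atTop
  have h1 : Tendsto (fun n : ℕ => Real.exp ((ma_c k - η) * Real.sqrt n)) atTop atTop :=
    Real.tendsto_exp_atTop.comp (Tendsto.const_mul_atTop (by linarith) hsq)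
  obtain ⟨n1, hn1⟩ := eventually_atTop.1 (h1.eventually_gt_atTop (d : ℝ))
  refine (Set.finite_Iio (max n0 n1)).subset ?_
  rintro n ⟨-, hnE, hnd⟩
  rw [Set.mem_Iio]
  by_contra hcon
  rw [not_lt, max_le_iff] at hcon
  have h2 := hn0 n hcon.1 hnE
  have h3 := hn1 n hcon.2
  have h4 : ((Dk k n : ℕ) : ℝ) ≤ d := by exact_mod_cast hnd
  linarith

theorem ma_log2 : Tendsto (fun d : ℕ => Real.log d ^ 2) atTop atTop :=
  (tendsto_pow_atTop (by norm_num)).comp (Real.tendsto_log_atTop.comp tendsto_natCast_atTop_atTop)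

/-- the upper bound -/
theorem ma_M_upper {E : Set ℕ} {k : ℕ} (hk : 2 ≤ k) {η : ℝ} (hη : 0 < η) (hηc : η < ma_c k)
    (h : ∃ n0 : ℕ, ∀ n ≥ n0, n ∉ E →
      (pp n : ℝ) ^ (1 - 1 / (k : ℝ) - ma_eps η) < (Dk k n : ℝ)) :
    ∀ᶠ d : ℕ in atTop, ((sSup {n : ℕ | 1 ≤ n ∧ n ∉ E ∧ Dk k n ≤ d} : ℕ) : ℝ) ≤
      (Real.log d) ^ 2 / (ma_c k - η) ^ 2 := by
    set c := ma_c k with hcdef
    set M : ℕ → ℕ := fun d => sSup {n : ℕ | 1 ≤ n ∧ n ∉ E ∧ Dk k n ≤ d} with hM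
    have hlog2 := ma_log2
    obtain ⟨n0, hn0⟩ := ma_lower hk hη h
    have hcη : 0 < c - η := by linarith
    have h1 := (hlog2.atTop_div_const (by positivity : 0 < (c - η) ^ 2)).eventually_ge_atTop
      (n0 : ℝ)
    filter_upwards [h1, eventually_ge_atTop 1] with d hd hd1
    change (M d : ℝ) ≤ _
    by_cases hMn : M d < n0
    · have : (M d : ℝ) ≤ n0 := by exact_mod_cast hMn.le
      linarith
    · rw [not_lt] at hMn
      rcases Set.eq_empty_or_nonempty {n : ℕ | 1 ≤ n ∧ n ∉ E ∧ Dk k n ≤ d} with he | hne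
      · have : M d = 0 := by
          simp only [hM, he, csSup_empty]
          rfl
        rw [this]
        have := sq_nonneg (Real.log d)
        simp only [Nat.cast_zero]
        positivity
      · have hmem := Nat.sSup_mem hne (ma_finite hk hη hηc h d).bddAbove
        change M d ∈ _ at hmem
        obtain ⟨hM1, hM2, hM3⟩ := hmem
        have h2 := hn0 (M d) hMn hM2
        have h3 : ((Dk k (M d) : ℕ) : ℝ) ≤ d := by exact_mod_cast hM3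
        have h4 := Real.log_le_log (Real.exp_pos _) (h2.trans h3)
        rw [Real.log_exp] at h4
        have h5 : Real.sqrt (M d) ^ 2 = M d := Real.sq_sqrt (by positivity)
        rw [le_div_iff₀ (by positivity), ← h5, ← mul_pow]
        refine pow_le_pow_left₀ (by positivity) ?_ 2
        rw [mul_comm]
        exact h4
/-- the lower bound -/
theorem ma_M_lower {E : Set ℕ} (hE : Tendsto (fun x : ℕ => (cnt E x : ℝ) / x) atTop (𝓝 0))
    {k : ℕ} (hk : 2 ≤ k) (hfin : ∀ d : ℕ, {n : ℕ | 1 ≤ n ∧ n ∉ E ∧ Dk k n ≤ d}.Finite)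
    {η δ : ℝ} (hη : 0 < η) (hδ : 0 < δ) (hδ1 : δ < 1) : ∀ᶠ d : ℕ in atTop,
      (1 - δ) * ((Real.log d) ^ 2 / (ma_c k + η) ^ 2 - 1) ≤
        ((sSup {n : ℕ | 1 ≤ n ∧ n ∉ E ∧ Dk k n ≤ d} : ℕ) : ℝ) := by
    have hc := ma_c_pos hk
    set c := ma_c k with hcdef
    set M : ℕ → ℕ := fun d => sSup {n : ℕ | 1 ≤ n ∧ n ∉ E ∧ Dk k n ≤ d} with hM
    have hlog2 := ma_log2
    obtain ⟨n0, hn0⟩ := ma_upper hk hη
    obtain ⟨X0, hX0⟩ := ma_exists hE hδ hδ1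
    have hcη : 0 < c + η := by linarith
    have h1 := (hlog2.atTop_div_const (by positivity : 0 < (c + η) ^ 2)).eventually_ge_atTop
      (max (X0 : ℝ) ((n0 + 1) / (1 - δ)) + 1)
    filter_upwards [h1, eventually_ge_atTop 1] with d hd hd1
    change _ ≤ (M d : ℝ)
    set y := Real.log d ^ 2 / (c + η) ^ 2 with hy
    set X : ℕ := ⌊y⌋₊ with hX
    have hy0 : 0 ≤ y := by positivity
    have hX1 : (X : ℝ) ≤ y := Nat.floor_le hy0
    have hX2 : y < X + 1 := Nat.lt_floor_add_one _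
    have hXa : max (X0 : ℝ) ((n0 + 1) / (1 - δ)) < X := by linarith
    obtain ⟨hXb, hXc⟩ := max_lt_iff.1 hXa
    have hXb' : X0 ≤ X := by
      have : X0 < X := by exact_mod_cast hXb
      exact this.le
    obtain ⟨n, hnE, hn1, hnX, hnδ⟩ := hX0 X hXb'
    have h1δ : 0 < 1 - δ := by linarith
    rw [div_lt_iff₀ h1δ] at hXc
    have hn0n : n0 ≤ n := by
      have : (n0 : ℝ) < n := by nlinarith
      have : n0 < n := by exact_mod_cast this
      exact this.le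
    have h2 := hn0 n hn0n
    have hd0 : (0 : ℝ) < d := by exact_mod_cast hd1
    have hld : 0 ≤ Real.log d := Real.log_nonneg (by exact_mod_cast hd1)
    have h3 : (c + η) * Real.sqrt n ≤ Real.log d := by
      have h4 : Real.sqrt n ≤ Real.log d / (c + η) := by
        rw [Real.sqrt_le_left (by positivity), div_pow]
        have : (n : ℝ) ≤ X := by exact_mod_cast hnX
        exact this.trans hX1
      calc (c + η) * Real.sqrt n ≤ (c + η) * (Real.log d / (c + η)) := by gcongr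
        _ = _ := mul_div_cancel₀ _ hcη.ne'
    have h5 : ((Dk k n : ℕ) : ℝ) ≤ d := by
      refine h2.trans ?_
      rw [← Real.exp_log hd0]
      exact Real.exp_le_exp.2 h3
    have hmem : n ∈ {n : ℕ | 1 ≤ n ∧ n ∉ E ∧ Dk k n ≤ d} :=
      ⟨hn1, hnE, by exact_mod_cast h5⟩
    have h6 : n ≤ M d := le_csSup (hfin d).bddAbove hmem
    have h7 : (n : ℝ) ≤ M d := by exact_mod_cast h6
    nlinarith
theorem M_theta (k : ℕ) (hk : 2 ≤ k) (θ : ℝ) (hθ : 0 < θ) : ∃ ε : ℝ, 0 < ε ∧ ∀ E : Set ℕ,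
    Tendsto (fun x : ℕ => (cnt E x : ℝ) / x) atTop (𝓝 0) →
    (∃ n0 : ℕ, ∀ n ≥ n0, n ∉ E → (pp n : ℝ) ^ (1 - 1 / (k : ℝ) - ε) < (Dk k n : ℝ)) →
    (∀ d : ℕ, {n : ℕ | 1 ≤ n ∧ n ∉ E ∧ Dk k n ≤ d}.Finite) ∧
    ∀ᶠ d : ℕ in atTop, |((sSup {n : ℕ | 1 ≤ n ∧ n ∉ E ∧ Dk k n ≤ d} : ℕ) : ℝ) /
      (3 / (2 * Real.pi ^ 2) * ((k : ℝ) / (k - 1)) ^ 2 * Real.log d ^ 2) - 1| ≤ θ := by
  have hc := ma_c_pos hk
  rw [ma_A hk]
  -- the choice of `η`
  obtain ⟨η, hη1, hη2, hη3⟩ : ∃ η : ℝ, 0 < η ∧ η < ma_c k ∧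
      ma_c k ^ 2 / (ma_c k - η) ^ 2 < 1 + θ := by
    set c := ma_c k with hcdef
    have hf : Tendsto (fun η : ℝ => (c ^ 2 / (c - η) ^ 2)) (𝓝[>] 0) (𝓝 1) := by
      have : ContinuousAt (fun η : ℝ => (c ^ 2 / (c - η) ^ 2)) 0 := by
        refine ContinuousAt.div (by fun_prop) (by fun_prop) ?_
        simp [hc.ne']
      have h2 := this.tendsto
      simp only [sub_zero, div_self (pow_ne_zero 2 hc.ne')] at h2
      exact h2.mono_left nhdsWithin_le_nhds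
    have hev := (hf.eventually_lt_const (by linarith : 1 < 1 + θ)).and
      ((eventually_mem_nhdsWithin (a := (0 : ℝ)) (s := Set.Ioi 0)).and
        ((nhdsWithin_le_nhds (s := Set.Ioi 0)) (Iio_mem_nhds hc)))
    obtain ⟨η, h1, h2, h3⟩ := hev.exists
    exact ⟨η, h2, h3, h1⟩
  obtain ⟨μ, hμ1, hμ2, hμ3⟩ : ∃ μ : ℝ, 0 < μ ∧ μ < 1 ∧
      1 - θ < (1 - μ) * (ma_c k ^ 2 / (ma_c k + μ) ^ 2) := by
    set c := ma_c k with hcdef
    have hf : Tendsto (fun η : ℝ => (1 - η) * (c ^ 2 / (c + η) ^ 2)) (𝓝[>] 0) (𝓝 1) := by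
      have : ContinuousAt (fun η : ℝ => (1 - η) * (c ^ 2 / (c + η) ^ 2)) 0 := by
        refine ContinuousAt.mul (by fun_prop) (ContinuousAt.div (by fun_prop) (by fun_prop) ?_)
        simp [hc.ne']
      have h2 := this.tendsto
      simp only [sub_zero, add_zero, one_mul, div_self (pow_ne_zero 2 hc.ne')] at h2
      exact h2.mono_left nhdsWithin_le_nhds
    have hev := (hf.eventually_const_lt (by linarith : 1 - θ < 1)).and
      ((eventually_mem_nhdsWithin (a := (0 : ℝ)) (s := Set.Ioi 0)).and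
        ((nhdsWithin_le_nhds (s := Set.Ioi 0)) (Iio_mem_nhds (by norm_num : (0 : ℝ) < 1))))
    obtain ⟨η, h1, h2, h3⟩ := hev.exists
    exact ⟨η, h2, h3, h1⟩
  refine ⟨ma_eps η, ma_eps_pos hη1, fun E hE h => ?_⟩
  have hfin := ma_finite hk hη1 hη2 h
  refine ⟨hfin, ?_⟩
  have hup := ma_M_upper hk hη1 hη2 h
  have hlo := ma_M_lower hE hk hfin hμ1 hμ1 hμ2
  set c := ma_c k with hcdef
  have hl : Tendsto (fun d : ℕ => (1 - μ) * (c ^ 2 / (c + μ) ^ 2) -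
      (1 - μ) * c ^ 2 * (Real.log d ^ 2)⁻¹) atTop (𝓝 ((1 - μ) * (c ^ 2 / (c + μ) ^ 2))) := by
    have := (tendsto_inv_atTop_zero.comp ma_log2).const_mul ((1 - μ) * c ^ 2)
    simpa using tendsto_const_nhds.sub this
  filter_upwards [hup, hlo, hl.eventually_const_lt hμ3, eventually_ge_atTop 3]
    with d hd1 hd2 hd3 hd4
  have hlogd : 0 < Real.log d := Real.log_pos (by
    have : (3 : ℝ) ≤ d := by exact_mod_cast hd4
    linarith)
  have hcη : 0 < c - η := by linarith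
  have hcμ : 0 < c + μ := by linarith
  set S : ℝ := ((sSup {n : ℕ | 1 ≤ n ∧ n ∉ E ∧ Dk k n ≤ d} : ℕ) : ℝ) with hS
  rw [abs_le]
  constructor
  · have h1 : (1 - μ) * (c ^ 2 / (c + μ) ^ 2) - (1 - μ) * c ^ 2 * (Real.log d ^ 2)⁻¹ ≤
        S / (1 / c ^ 2 * Real.log d ^ 2) := by
      rw [le_div_iff₀ (by positivity)]
      refine le_trans (le_of_eq ?_) hd2
      field_simp
    linarith
  · have h1 : S / (1 / c ^ 2 * Real.log d ^ 2) ≤ c ^ 2 / (c - η) ^ 2 := by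
      rw [div_le_iff₀ (by positivity)]
      refine hd1.trans (le_of_eq ?_)
      field_simp
    linarith

theorem M_asymp (E : Set ℕ) (hE : Tendsto (fun x : ℕ => (cnt E x : ℝ) / x) atTop (𝓝 0))
    (k : ℕ) (hk : 2 ≤ k)
    (h : ∀ ε : ℝ, 0 < ε → ∃ n0 : ℕ, ∀ n ≥ n0, n ∉ E →
      (pp n : ℝ) ^ (1 - 1 / (k : ℝ) - ε) < (Dk k n : ℝ)) :
    (∀ d : ℕ, {n : ℕ | 1 ≤ n ∧ n ∉ E ∧ Dk k n ≤ d}.Finite) ∧
    Tendsto (fun d : ℕ => ((sSup {n : ℕ | 1 ≤ n ∧ n ∉ E ∧ Dk k n ≤ d} : ℕ) : ℝ) /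
      (3 / (2 * Real.pi ^ 2) * ((k : ℝ) / (k - 1)) ^ 2 * Real.log d ^ 2)) atTop (𝓝 1) := by
  constructor
  · obtain ⟨ε, hε, h1⟩ := M_theta k hk 1 one_pos
    exact (h1 E hE (h ε hε)).1
  · rw [Metric.tendsto_nhds]
    intro θ hθ
    obtain ⟨ε, hε, h1⟩ := M_theta k hk (θ / 2) (by positivity)
    filter_upwards [(h1 E hE (h ε hε)).2] with d hd
    rw [Real.dist_eq]
    linarith

end PK
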