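import Pool.Agent.helper90.PK.Delta

/-!
# PK-F1: sets of density zero form a P-ideal

Proof sketch. Replace `B i` by `B' i = ⋃_{j ≤ i} B j` (still density `0`, increasing). Choose
`N 0 < N 1 < ...` with `cnt (B' i) x ≤ x/(i+1)` for all `x ≥ N i`. Let
`E = {n | ∃ i, N i ≤ n ∧ n < N (i+1) ∧ n ∈ B' i}` (or `∃ i, N i ≤ n ∧ n ∈ B i`: then
`E ∩ [1,x] ⊆ B' j` for `N j ≤ x < N (j+1)`, because only the `i` with `N i ≤ n ≤ x` count, i.e.
`i ≤ j`). So `cnt E x ≤ cnt (B' j) x ≤ x/(j+1)`, `j = j(x) → ∞`. With the second definition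
`n ∈ B i → n ∈ E` for `n ≥ N i` is immediate.
-/

namespace PK

open Filter Topology

theorem cnt_finite (A : Set ℕ) (x : ℕ) : {n : ℕ | n ∈ A ∧ 1 ≤ n ∧ n ≤ x}.Finite :=
  (Set.finite_Iic x).subset fun _ hn => hn.2.2

theorem cnt_mono {A B : Set ℕ} (x : ℕ) (h : ∀ n ≤ x, n ∈ A → n ∈ B) : cnt A x ≤ cnt B x :=
  Set.ncard_le_ncard (fun n hn => ⟨h n hn.2.2 hn.1, hn.2⟩) (cnt_finite B x)

theorem cnt_union (A B : Set ℕ) (x : ℕ) : cnt (A ∪ B) x ≤ cnt A x + cnt B x := by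
  have h : {n : ℕ | n ∈ A ∪ B ∧ 1 ≤ n ∧ n ≤ x} =
      {n : ℕ | n ∈ A ∧ 1 ≤ n ∧ n ≤ x} ∪ {n : ℕ | n ∈ B ∧ 1 ≤ n ∧ n ≤ x} := by
    ext n
    simp only [Set.mem_ofPred_eq, Set.mem_union]
    tauto
  unfold cnt
  rw [h]
  exact Set.ncard_union_le _ _

/-- Finite unions of density-zero sets. -/
theorem union_zero (B : ℕ → Set ℕ)
    (hB : ∀ i, Tendsto (fun x : ℕ => (cnt (B i) x : ℝ) / x) atTop (𝓝 0)) (i : ℕ) :
    Tendsto (fun x : ℕ => (cnt {n | ∃ j ≤ i, n ∈ B j} x : ℝ) / x) atTop (𝓝 0) := by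
  induction i with
  | zero =>
    have h : {n | ∃ j ≤ 0, n ∈ B j} = B 0 := by
      ext n; simp
    rw [h]; exact hB 0
  | succ i ih =>
    have h : {n | ∃ j ≤ i + 1, n ∈ B j} = {n | ∃ j ≤ i, n ∈ B j} ∪ B (i + 1) := by
      ext n
      simp only [Set.mem_ofPred_eq, Set.mem_union]
      constructor
      · rintro ⟨j, hj, hn⟩
        rcases Nat.lt_or_ge i j with h1 | h1
        · have : j = i + 1 := by omega
          subst this
          exact Or.inr hn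
        · exact Or.inl ⟨j, h1, hn⟩
      · rintro (⟨j, hj, hn⟩ | hn)
        · exact ⟨j, by omega, hn⟩
        · exact ⟨i + 1, le_refl _, hn⟩
    have hsum := ih.add (hB (i + 1))
    rw [add_zero] at hsum
    refine squeeze_zero (fun x => by positivity) (fun x => ?_) hsum
    rw [h, ← add_div]
    refine div_le_div_of_nonneg_right ?_ (by positivity)
    exact_mod_cast cnt_union _ _ _

theorem pideal (B : ℕ → Set ℕ)
    (hB : ∀ i, Tendsto (fun x : ℕ => (cnt (B i) x : ℝ) / x) atTop (𝓝 0)) :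
    ∃ E : Set ℕ, Tendsto (fun x : ℕ => (cnt E x : ℝ) / x) atTop (𝓝 0) ∧
      ∀ i, ∃ n0 : ℕ, ∀ n ≥ n0, n ∈ B i → n ∈ E := by
  have h1 : ∀ i : ℕ, ∃ M : ℕ, ∀ x ≥ M,
      (cnt {n | ∃ j ≤ i, n ∈ B j} x : ℝ) / x ≤ 1 / ((i : ℝ) + 1) := by
    intro i
    have h2 := (union_zero B hB i).eventually_le_const
      (show (0 : ℝ) < 1 / ((i : ℝ) + 1) by positivity)
    exact eventually_atTop.1 h2
  choose M hM using h1
  refine ⟨{n | ∃ i, i + M i ≤ n ∧ n ∈ B i}, ?_, fun i => ⟨i + M i, fun n hn hnB => ⟨i, hn, hnB⟩⟩⟩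
  rw [Metric.tendsto_atTop]
  intro ε hε
  obtain ⟨j0, hj0⟩ := exists_nat_one_div_lt hε
  refine ⟨j0 + M j0, fun x hx => ?_⟩
  classical
  let p : ℕ → Prop := fun i => i + M i ≤ x
  let j := Nat.findGreatest p x
  have hjp : p j := by
    have : j0 ≤ x := by omega
    exact Nat.findGreatest_spec (P := p) this hx
  have hj0j : j0 ≤ j := Nat.le_findGreatest (by omega) hx
  have hsub : ∀ n ≤ x, n ∈ {n | ∃ i, i + M i ≤ n ∧ n ∈ B i} → n ∈ {n | ∃ i ≤ j, n ∈ B i} := by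
    rintro n hn ⟨i, hi, hnB⟩
    exact ⟨i, Nat.le_findGreatest (by omega) (show i + M i ≤ x by omega), hnB⟩
  have h3 : (cnt {n | ∃ i, i + M i ≤ n ∧ n ∈ B i} x : ℝ) ≤ cnt {n | ∃ i ≤ j, n ∈ B i} x := by
    exact_mod_cast cnt_mono x hsub
  have h4 : (cnt {n | ∃ i ≤ j, n ∈ B i} x : ℝ) / x ≤ 1 / ((j : ℝ) + 1) := by
    refine hM j x ?_
    have : j + M j ≤ x := hjp
    omega
  have h5 : (1 : ℝ) / ((j : ℝ) + 1) ≤ 1 / ((j0 : ℝ) + 1) := by
    refine one_div_le_one_div_of_le (by positivity) ?_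
    have : (j0 : ℝ) ≤ j := by exact_mod_cast hj0j
    linarith
  have h6 : (cnt {n | ∃ i, i + M i ≤ n ∧ n ∈ B i} x : ℝ) / x ≤
      (cnt {n | ∃ i ≤ j, n ∈ B i} x : ℝ) / x := div_le_div_of_nonneg_right h3 (by positivity)
  rw [Real.dist_eq, sub_zero, abs_of_nonneg (by positivity)]
  exact lt_of_le_of_lt (h6.trans (h4.trans h5)) hj0

end PK
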