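import Pool.Agent.helper90.PK.Defs

/-!
# PK-C1: the functions `gk k σ`
-/

namespace PK

namespace GkGH_aux

/-- the argument of the logarithm -/
noncomputable def Bf (σ : ℝ) (w : ℂ) : ℂ :=
  ((CC : ℂ) * w - 1) + (σ : ℂ) * (Real.sqrt 2 : ℂ) * ((CC : ℂ) / 2 * w - 1) *
    Complex.exp (-((CC : ℂ) / 2 * w))

/-- its derivative -/
noncomputable def Bd (σ : ℝ) (w : ℂ) : ℂ :=
  (CC : ℂ) + (σ : ℂ) * (Real.sqrt 2 : ℂ) * ((CC : ℂ) / 2 * (2 - (CC : ℂ) / 2 * w) *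
    Complex.exp (-((CC : ℂ) / 2 * w)))

theorem two_le_CC : 2 ≤ CC := by
  unfold CC
  have h1 : (2 / 3 : ℝ) ≤ Real.sqrt (2 / 3) := by
    apply Real.le_sqrt_of_sq_le
    norm_num
  have h2 := Real.pi_gt_three
  nlinarith

theorem CC_le_four : CC ≤ 4 := by
  unfold CC
  have h1 : Real.sqrt (2 / 3) ≤ 1 := by
    rw [Real.sqrt_le_left (by norm_num)]
    norm_num
  have h2 := Real.pi_le_four
  have h3 := Real.pi_pos
  nlinarith [Real.sqrt_nonneg (2 / 3 : ℝ)]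

theorem hasDerivAt_Bf (σ : ℝ) (w : ℂ) : HasDerivAt (Bf σ) (Bd σ w) w := by
  have h1 : HasDerivAt (fun w : ℂ => (CC : ℂ) * w - 1) (CC : ℂ) w := by
    simpa using ((hasDerivAt_id w).const_mul (CC : ℂ)).sub_const 1
  have h2 : HasDerivAt (fun w : ℂ => (CC : ℂ) / 2 * w - 1) ((CC : ℂ) / 2) w := by
    simpa using ((hasDerivAt_id w).const_mul ((CC : ℂ) / 2)).sub_const 1
  have h3 : HasDerivAt (fun w : ℂ => Complex.exp (-((CC : ℂ) / 2 * w)))
      (Complex.exp (-((CC : ℂ) / 2 * w)) * (-((CC : ℂ) / 2))) w := by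
    have h4 : HasDerivAt (fun w : ℂ => -((CC : ℂ) / 2 * w)) (-((CC : ℂ) / 2)) w := by
      have h4' : HasDerivAt (fun w : ℂ => (CC : ℂ) / 2 * w) ((CC : ℂ) / 2) w := by
        simpa using (hasDerivAt_id w).const_mul ((CC : ℂ) / 2)
      exact h4'.neg
    exact h4.cexp
  have h5 := h1.add ((h2.const_mul ((σ : ℂ) * (Real.sqrt 2 : ℂ))).mul h3)
  refine h5.congr_deriv ?_
  unfold Bd
  ring

theorem expb {w : ℂ} (h1 : 0 < w.re) (h2 : ‖w‖ ≤ Real.sqrt 2 * w.re) :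
    (1 + CC / 2 * ‖w‖) * ‖Complex.exp (-((CC : ℂ) / 2 * w))‖ ≤ Real.sqrt 2 := by
  have hre : (-((CC : ℂ) / 2 * w)).re = -(CC / 2 * w.re) := by
    have : (CC : ℂ) / 2 = ((CC / 2 : ℝ) : ℂ) := by push_cast; rfl
    rw [Complex.neg_re, this, Complex.re_ofReal_mul]
  rw [Complex.norm_exp, hre, Real.exp_neg]
  have hC := two_le_CC
  set t := CC / 2 * w.re with ht
  have ht0 : 0 < t := by positivity
  have hs : 1 ≤ Real.sqrt 2 := Real.one_le_sqrt.mpr (by norm_num)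
  have h3 : CC / 2 * ‖w‖ ≤ Real.sqrt 2 * t := by
    calc CC / 2 * ‖w‖ ≤ CC / 2 * (Real.sqrt 2 * w.re) := by gcongr
      _ = Real.sqrt 2 * t := by rw [ht]; ring
  have h4 : 1 + CC / 2 * ‖w‖ ≤ Real.sqrt 2 * Real.exp t := by
    have h5 := Real.add_one_le_exp t
    calc 1 + CC / 2 * ‖w‖ ≤ Real.sqrt 2 * (t + 1) := by nlinarith
      _ ≤ Real.sqrt 2 * Real.exp t := by gcongr
  rw [← div_eq_mul_inv, div_le_iff₀ (Real.exp_pos t)]
  exact h4

theorem norm_sigma {σ : ℝ} (hσ : σ = 1 ∨ σ = -1) : ‖(σ : ℂ) * (Real.sqrt 2 : ℂ)‖ = Real.sqrt 2 := by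
  rw [norm_mul, Complex.norm_real, Complex.norm_real, Real.norm_eq_abs, Real.norm_eq_abs,
    abs_of_nonneg (Real.sqrt_nonneg 2)]
  rcases hσ with rfl | rfl <;> simp

theorem norm_half (w : ℂ) : ‖(CC : ℂ) / 2 * w‖ = CC / 2 * ‖w‖ := by
  have : (CC : ℂ) / 2 = ((CC / 2 : ℝ) : ℂ) := by push_cast; rfl
  have hC := two_le_CC
  rw [this, norm_mul, Complex.norm_real, Real.norm_eq_abs, abs_of_nonneg (by positivity)]

theorem norm_Bf_sub {σ : ℝ} (hσ : σ = 1 ∨ σ = -1) {w : ℂ} (h1 : 0 < w.re)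
    (h2 : ‖w‖ ≤ Real.sqrt 2 * w.re) : ‖Bf σ w - (CC : ℂ) * w‖ ≤ 3 := by
  have e : Bf σ w - (CC : ℂ) * w = -1 + (σ : ℂ) * (Real.sqrt 2 : ℂ) *
      (((CC : ℂ) / 2 * w - 1) * Complex.exp (-((CC : ℂ) / 2 * w))) := by
    unfold Bf
    ring
  have hs2 : Real.sqrt 2 * Real.sqrt 2 = 2 := Real.mul_self_sqrt (by norm_num)
  have h3 : ‖(CC : ℂ) / 2 * w - 1‖ ≤ 1 + CC / 2 * ‖w‖ := by
    refine (norm_sub_le _ _).trans ?_
    rw [norm_half, norm_one, add_comm]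
  have h4 : ‖((CC : ℂ) / 2 * w - 1) * Complex.exp (-((CC : ℂ) / 2 * w))‖ ≤ Real.sqrt 2 := by
    rw [norm_mul]
    refine le_trans ?_ (expb h1 h2)
    gcongr
  rw [e]
  refine (norm_add_le _ _).trans ?_
  rw [norm_neg, norm_one, norm_mul, norm_sigma hσ]
  have h5 := mul_le_mul_of_nonneg_left h4 (Real.sqrt_nonneg 2)
  linarith

theorem norm_Bd {σ : ℝ} (hσ : σ = 1 ∨ σ = -1) {w : ℂ} (h1 : 0 < w.re)
    (h2 : ‖w‖ ≤ Real.sqrt 2 * w.re) : ‖Bd σ w‖ ≤ 3 * CC := by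
  have hC := two_le_CC
  have hs2 : Real.sqrt 2 * Real.sqrt 2 = 2 := Real.mul_self_sqrt (by norm_num)
  have h3 : ‖(2 : ℂ) - (CC : ℂ) / 2 * w‖ ≤ 2 * (1 + CC / 2 * ‖w‖) := by
    refine (norm_sub_le _ _).trans ?_
    rw [norm_half]
    have : ‖(2 : ℂ)‖ = 2 := by simp
    rw [this]
    have : 0 ≤ CC / 2 * ‖w‖ := by positivity
    linarith
  have hCn : ‖(CC : ℂ) / 2‖ = CC / 2 := by
    have := norm_half 1
    simpa using this
  have h4 : ‖(CC : ℂ) / 2 * (2 - (CC : ℂ) / 2 * w) * Complex.exp (-((CC : ℂ) / 2 * w))‖ ≤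
      CC * Real.sqrt 2 := by
    rw [norm_mul, norm_mul, hCn]
    calc CC / 2 * ‖(2 : ℂ) - (CC : ℂ) / 2 * w‖ * ‖Complex.exp (-((CC : ℂ) / 2 * w))‖
        ≤ CC / 2 * (2 * (1 + CC / 2 * ‖w‖)) * ‖Complex.exp (-((CC : ℂ) / 2 * w))‖ := by gcongr
      _ = CC * ((1 + CC / 2 * ‖w‖) * ‖Complex.exp (-((CC : ℂ) / 2 * w))‖) := by ring
      _ ≤ CC * Real.sqrt 2 := by
        have := expb h1 h2
        gcongr
  unfold Bd
  refine (norm_add_le _ _).trans ?_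
  rw [norm_mul, norm_sigma hσ, Complex.norm_real, Real.norm_eq_abs, abs_of_nonneg (by linarith)]
  have h5 := mul_le_mul_of_nonneg_left h4 (Real.sqrt_nonneg 2)
  nlinarith

/-- the data of the point `w = (z - 1/24)^(1/2)` -/
theorem w_data {z : ℂ} (hz : 10 < z.re) :
    ((z - 1 / 24) ^ (1 / 2 : ℂ)) * ((z - 1 / 24) ^ (1 / 2 : ℂ)) = z - 1 / 24 ∧
    0 < ((z - 1 / 24) ^ (1 / 2 : ℂ)).re ∧
    ‖(z - 1 / 24) ^ (1 / 2 : ℂ)‖ ≤ Real.sqrt 2 * ((z - 1 / 24) ^ (1 / 2 : ℂ)).re ∧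
    3 ≤ ‖(z - 1 / 24) ^ (1 / 2 : ℂ)‖ ∧
    ‖z‖ / 2 ≤ ‖(z - 1 / 24) ^ (1 / 2 : ℂ)‖ ^ 2 ∧
    HasDerivAt (fun z : ℂ => (z - 1 / 24) ^ (1 / 2 : ℂ))
      (1 / (2 * (z - 1 / 24) ^ (1 / 2 : ℂ))) z := by
  set u : ℂ := z - 1 / 24 with hu
  have hure : u.re = z.re - 1 / 24 := by
    rw [hu, Complex.sub_re]
    norm_num
  have hu0 : 0 < u.re := by rw [hure]; linarith
  have hune : u ≠ 0 := by
    intro h
    rw [h] at hu0
    simp at hu0
  have hmul : u ^ (1 / 2 : ℂ) * u ^ (1 / 2 : ℂ) = u := by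
    rw [← Complex.cpow_add _ _ hune]
    norm_num
  set w : ℂ := u ^ (1 / 2 : ℂ) with hw
  have hwre : 0 < w.re := by
    have h5 : (1 / 2 : ℂ) = ((1 / 2 : ℝ) : ℂ) := by push_cast; rfl
    rw [hw, h5, Complex.cpow_ofReal_re]
    apply mul_pos (Real.rpow_pos_of_pos (norm_pos_iff.mpr hune) _)
    apply Real.cos_pos_of_mem_Ioo
    have h4 := Complex.abs_arg_lt_pi_div_two_iff.mpr (Or.inl hu0)
    rw [abs_lt] at h4
    have h6 := Real.pi_pos
    constructor <;> linarith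
  have hsq : ‖w‖ ^ 2 = ‖u‖ := by
    rw [pow_two, ← norm_mul, hmul]
  have hre : w.re ^ 2 - w.im ^ 2 = u.re := by
    have := congrArg Complex.re hmul
    rw [Complex.mul_re] at this
    nlinarith
  have hns : ‖w‖ ^ 2 = w.re ^ 2 + w.im ^ 2 := by
    rw [← Complex.normSq_eq_norm_sq, Complex.normSq_apply]
    ring
  have h2 : ‖w‖ ≤ Real.sqrt 2 * w.re := by
    apply le_of_sq_le_sq _ (by positivity)
    rw [mul_pow, Real.sq_sqrt (by norm_num)]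
    nlinarith
  have hure9 : 9 ≤ ‖u‖ := by
    have := Complex.re_le_norm u
    linarith
  have h3 : 3 ≤ ‖w‖ := by
    apply le_of_sq_le_sq _ (norm_nonneg _)
    rw [hsq]
    linarith
  refine ⟨hmul, hwre, h2, h3, ?_, ?_⟩
  · rw [hsq]
    have h4 : ‖z‖ ≤ ‖u‖ + 1 / 24 := by
      have : z = u + 1 / 24 := by rw [hu]; ring
      calc ‖z‖ = ‖u + 1 / 24‖ := by rw [← this]
        _ ≤ ‖u‖ + ‖(1 / 24 : ℂ)‖ := norm_add_le _ _
        _ = ‖u‖ + 1 / 24 := by norm_num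
    linarith
  · have h4 : HasDerivAt (fun z : ℂ => z - 1 / 24) 1 z := (hasDerivAt_id z).sub_const _
    have h5 := h4.cpow_const (c := (1 / 2 : ℂ)) (Or.inl hu0)
    refine h5.congr_deriv ?_
    have h6 : (z - 1 / 24) ^ ((1 / 2 : ℂ) - 1) = (z - 1 / 24) ^ (-(1 / 2 : ℂ)) := by norm_num
    rw [h6, Complex.cpow_neg, ← hu, ← hw]
    have hw0 : w ≠ 0 := by
      intro h
      rw [h] at hwre
      simp at hwre
    field_simp

theorem Bf_data {σ : ℝ} (hσ : σ = 1 ∨ σ = -1) {w : ℂ} (h1 : 0 < w.re)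
    (h2 : ‖w‖ ≤ Real.sqrt 2 * w.re) (h3 : 3 ≤ ‖w‖) :
    0 < (Bf σ w).re ∧ CC * ‖w‖ / 2 ≤ ‖Bf σ w‖ := by
  have hC := two_le_CC
  have h4 := norm_Bf_sub hσ h1 h2
  have hs : Real.sqrt 2 ≤ 3 / 2 := by
    rw [Real.sqrt_le_left (by norm_num)]
    norm_num
  have hre : 2 ≤ w.re := by nlinarith
  constructor
  · have h5 := (Complex.abs_re_le_norm (Bf σ w - (CC : ℂ) * w)).trans h4
    rw [Complex.sub_re, Complex.re_ofReal_mul, abs_le] at h5
    nlinarith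
  · have h6 : ‖(CC : ℂ) * w‖ = CC * ‖w‖ := by
      rw [norm_mul, Complex.norm_real, Real.norm_eq_abs, abs_of_nonneg (by linarith)]
    have h7 := norm_sub_norm_le ((CC : ℂ) * w) ((CC : ℂ) * w - Bf σ w)
    rw [sub_sub_cancel, h6, ← norm_neg ((CC : ℂ) * w - Bf σ w), neg_sub] at h7
    nlinarith

theorem gk_eq (k : ℕ) (σ : ℝ) (z : ℂ) : gk k σ z = (1 / (k : ℂ)) *
    ((CC : ℂ) * (z - 1 / 24) ^ (1 / 2 : ℂ) + Complex.log (Bf σ ((z - 1 / 24) ^ (1 / 2 : ℂ))) -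
      3 * Complex.log ((z - 1 / 24) ^ (1 / 2 : ℂ)) -
      ((Real.log (4 * Real.pi * Real.sqrt 2) : ℝ) : ℂ)) := rfl

theorem hasDerivAt_gk (k : ℕ) {σ : ℝ} (hσ : σ = 1 ∨ σ = -1) {z : ℂ} (hz : 10 < z.re) :
    HasDerivAt (gk k σ) ((1 / (k : ℂ)) *
      ((CC : ℂ) * (1 / (2 * (z - 1 / 24) ^ (1 / 2 : ℂ))) +
      Bd σ ((z - 1 / 24) ^ (1 / 2 : ℂ)) * (1 / (2 * (z - 1 / 24) ^ (1 / 2 : ℂ))) /
        Bf σ ((z - 1 / 24) ^ (1 / 2 : ℂ)) -
      3 * (1 / (2 * (z - 1 / 24) ^ (1 / 2 : ℂ)) / (z - 1 / 24) ^ (1 / 2 : ℂ)))) z := by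
  obtain ⟨_, h1, h2, h3, _, hd⟩ := w_data hz
  have hB := Bf_data hσ h1 h2 h3
  have hb1 : HasDerivAt (fun z : ℂ => Bf σ ((z - 1 / 24) ^ (1 / 2 : ℂ)))
      (Bd σ ((z - 1 / 24) ^ (1 / 2 : ℂ)) * (1 / (2 * (z - 1 / 24) ^ (1 / 2 : ℂ)))) z :=
    (hasDerivAt_Bf σ _).comp z hd
  have hb2 := hb1.clog (Or.inl hB.1)
  have hb3 := hd.clog (Or.inl h1)
  have h4 := ((((hd.const_mul (CC : ℂ)).add hb2).sub (hb3.const_mul 3)).sub_const
    ((Real.log (4 * Real.pi * Real.sqrt 2) : ℝ) : ℂ)).const_mul (1 / (k : ℂ))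
  exact h4

end GkGH_aux

open GkGH_aux

theorem gk_GH (k : ℕ) (hk : 1 ≤ k) (σ : ℝ) (hσ : σ = 1 ∨ σ = -1) :
    ∃ K X0 : ℝ, GH (CC / k) K X0 (gk k σ) := by
  have hC := two_le_CC
  have hC4 := CC_le_four
  have hk0 : (0 : ℝ) < k := by exact_mod_cast hk
  refine ⟨10, 10, ⟨by positivity, by norm_num, by norm_num, ?_, ?_⟩⟩
  · intro z hz
    exact (hasDerivAt_gk k hσ hz).differentiableAt.differentiableWithinAt
  · intro z hz
    rw [(hasDerivAt_gk k hσ hz).deriv]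
    obtain ⟨hw2, h1, h2, h3, h4, _⟩ := w_data hz
    set w : ℂ := (z - 1 / 24) ^ (1 / 2 : ℂ) with hw
    have hB := Bf_data hσ h1 h2 h3
    have hBd := norm_Bd hσ h1 h2
    have hz0 : z ≠ 0 := by
      rintro rfl
      simp at hz
      linarith
    have hzn : 0 < ‖z‖ := norm_pos_iff.mpr hz0
    have hv2 : z ^ (1 / 2 : ℂ) * z ^ (1 / 2 : ℂ) = z := by
      rw [← Complex.cpow_add _ _ hz0]
      norm_num
    set v : ℂ := z ^ (1 / 2 : ℂ) with hv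
    have hvre : 0 ≤ v.re := by
      rw [hv]
      have h5 : (1 / 2 : ℂ) = ((1 / 2 : ℝ) : ℂ) := by push_cast; rfl
      rw [h5, Complex.cpow_ofReal_re]
      apply mul_nonneg (Real.rpow_nonneg (norm_nonneg _) _)
      apply Real.cos_nonneg_of_mem_Icc
      have h6 := Complex.neg_pi_lt_arg z
      have h7 := Complex.arg_le_pi z
      constructor <;> linarith
    have hv0 : v ≠ 0 := by
      intro h
      rw [h] at hv2
      apply hz0
      rw [← hv2]; ring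
    have hw0 : w ≠ 0 := by
      intro h
      rw [h] at h1
      simp at h1
    have hBne : Bf σ w ≠ 0 := by
      intro h
      rw [h] at hB
      simp at hB
    have hkc : (k : ℂ) ≠ 0 := by
      exact_mod_cast hk0.ne'
    have hs : Real.sqrt 2 ≤ 3 / 2 := by
      rw [Real.sqrt_le_left (by norm_num)]
      norm_num
    have hre2 : 2 ≤ w.re := by nlinarith
    have hvw : 2 ≤ ‖v + w‖ := by
      have := Complex.re_le_norm (v + w)
      rw [Complex.add_re] at this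
      linarith
    have hvwne : v + w ≠ 0 := by
      intro h
      rw [h, norm_zero] at hvw
      linarith
    have hprod : (v - w) * (v + w) = 1 / 24 := by
      have : (v - w) * (v + w) = v * v - w * w := by ring
      rw [this, hv2, hw2]
      ring
    have e : (1 / (k : ℂ)) * ((CC : ℂ) * (1 / (2 * w)) + Bd σ w * (1 / (2 * w)) / Bf σ w -
        3 * (1 / (2 * w) / w)) - ((CC / k : ℝ) : ℂ) / (2 * v) =
        (1 / (k : ℂ)) * ((CC : ℂ) / 2 * ((v - w) / (w * v)) + Bd σ w / (Bf σ w * (2 * w)) -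
          3 / 2 * (1 / (w * w))) := by
      push_cast
      field_simp
      ring
    rw [e]
    have hvn : ‖v‖ ^ 2 = ‖z‖ := by rw [pow_two, ← norm_mul, hv2]
    have hwn : 0 < ‖w‖ := by linarith
    have hn1 : ‖(v - w) / (w * v)‖ ≤ 1 / 24 / ‖z‖ := by
      have h5 : ‖v - w‖ ≤ 1 / 48 := by
        have h6 := congrArg norm hprod
        rw [norm_mul] at h6
        have h7 : ‖(1 / 24 : ℂ)‖ = 1 / 24 := by norm_num
        rw [h7] at h6
        nlinarith [norm_nonneg (v - w)]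
      have h8 : ‖z‖ / 2 ≤ ‖w‖ * ‖v‖ := by
        apply le_of_sq_le_sq _ (by positivity)
        rw [mul_pow, hvn]
        nlinarith
      rw [norm_div, norm_mul]
      calc ‖v - w‖ / (‖w‖ * ‖v‖) ≤ (1 / 48) / (‖z‖ / 2) := by gcongr
        _ = 1 / 24 / ‖z‖ := by field_simp; norm_num
    have hn2 : ‖Bd σ w / (Bf σ w * (2 * w))‖ ≤ 6 / ‖z‖ := by
      rw [norm_div, norm_mul, norm_mul]
      have h2n : ‖(2 : ℂ)‖ = 2 := by simp
      rw [h2n]
      calc ‖Bd σ w‖ / (‖Bf σ w‖ * (2 * ‖w‖)) ≤ (3 * CC) / ((CC * ‖w‖ / 2) * (2 * ‖w‖)) := by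
            have := hB.2
            gcongr
        _ = 3 / ‖w‖ ^ 2 := by field_simp
        _ ≤ 3 / (‖z‖ / 2) := by gcongr
        _ = 6 / ‖z‖ := by field_simp; norm_num
    have hn3 : ‖(3 / 2 : ℂ) * (1 / (w * w))‖ ≤ 3 / ‖z‖ := by
      have h2n : ‖(3 / 2 : ℂ)‖ = 3 / 2 := by norm_num
      rw [norm_mul, h2n, norm_div, norm_mul, norm_one, ← pow_two]
      calc 3 / 2 * (1 / ‖w‖ ^ 2) ≤ 3 / 2 * (1 / (‖z‖ / 2)) := by gcongr
        _ = 3 / ‖z‖ := by field_simp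
    have hn4 : ‖(CC : ℂ) / 2 * ((v - w) / (w * v))‖ ≤ 1 / ‖z‖ := by
      rw [norm_half]
      calc CC / 2 * ‖(v - w) / (w * v)‖ ≤ 4 / 2 * (1 / 24 / ‖z‖) := by gcongr
        _ ≤ 1 / ‖z‖ := by
          rw [div_div, mul_one_div, div_le_div_iff₀ (by positivity) (by positivity)]
          nlinarith
    have hkn : ‖(1 / (k : ℂ))‖ ≤ 1 := by
      rw [norm_div, norm_one, Complex.norm_natCast, div_le_one hk0]
      exact_mod_cast hk
    rw [norm_mul]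
    calc ‖(1 / (k : ℂ))‖ * ‖(CC : ℂ) / 2 * ((v - w) / (w * v)) + Bd σ w / (Bf σ w * (2 * w)) -
          3 / 2 * (1 / (w * w))‖ ≤ 1 * ((1 / ‖z‖ + 6 / ‖z‖) + 3 / ‖z‖) := by
          gcongr
          refine (norm_sub_le _ _).trans ?_
          refine add_le_add ((norm_add_le _ _).trans (add_le_add hn4 hn2)) hn3
      _ = 10 / ‖z‖ := by ring

/-- `FF σ n > 0` and `exp (gk k σ n) = (FF σ n)^(1/k)` for large `n`. -/
theorem exp_gk (k : ℕ) (hk : 1 ≤ k) (σ : ℝ) (hσ : σ = 1 ∨ σ = -1) :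
    ∃ n0 : ℕ, ∀ n : ℕ, n0 ≤ n → 0 < FF σ n ∧
      Complex.exp (gk k σ (n : ℂ)) = (((FF σ n) ^ (1 / (k : ℝ)) : ℝ) : ℂ) := by
  refine ⟨10, fun n hn => ?_⟩
  have hC := two_le_CC
  have hk0 : (0 : ℝ) < k := by exact_mod_cast hk
  have hn' : (10 : ℝ) ≤ n := by exact_mod_cast hn
  have hlam2 : lam n ^ 2 = (n : ℝ) - 1 / 24 := Real.sq_sqrt (by linarith)
  have hlam3 : 3 ≤ lam n := by
    apply Real.le_sqrt_of_sq_le
    linarith
  have hlam0 : 0 < lam n := by linarith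
  -- the root
  have hroot : ((n : ℂ) - 1 / 24) ^ (1 / 2 : ℂ) = (lam n : ℂ) := by
    have h1 : ((n : ℂ) - 1 / 24) = (((n : ℝ) - 1 / 24 : ℝ) : ℂ) := by push_cast; rfl
    have h2 : (1 / 2 : ℂ) = ((1 / 2 : ℝ) : ℂ) := by push_cast; rfl
    rw [h1, h2, ← Complex.ofReal_cpow (by linarith)]
    unfold lam
    rw [Real.sqrt_eq_rpow]
  -- the argument of the logarithm
  set b : ℝ := (CC * lam n - 1) + σ * Real.sqrt 2 * (CC / 2 * lam n - 1) *
    Real.exp (-(CC / 2 * lam n)) with hb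
  have hBb : Bf σ (lam n : ℂ) = (b : ℂ) := by
    unfold Bf
    rw [hb]
    push_cast
    rfl
  have hb0 : 0 < b := by
    have h1 : 0 < ((lam n : ℝ) : ℂ).re := by rw [Complex.ofReal_re]; exact hlam0
    have hs : 1 ≤ Real.sqrt 2 := Real.one_le_sqrt.mpr (by norm_num)
    have h2 : ‖((lam n : ℝ) : ℂ)‖ ≤ Real.sqrt 2 * ((lam n : ℝ) : ℂ).re := by
      rw [Complex.norm_real, Real.norm_eq_abs, abs_of_pos hlam0, Complex.ofReal_re]
      nlinarith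
    have h3 : 3 ≤ ‖((lam n : ℝ) : ℂ)‖ := by
      rw [Complex.norm_real, Real.norm_eq_abs, abs_of_pos hlam0]
      exact hlam3
    have h4 := (Bf_data hσ h1 h2 h3).1
    rw [hBb, Complex.ofReal_re] at h4
    exact h4
  have hden : 0 < 4 * Real.pi * Real.sqrt 2 := by positivity
  have hFF : FF σ n = Real.exp (CC * lam n) * b / (4 * Real.pi * Real.sqrt 2 * lam n ^ 3) := by
    unfold FF
    congr 1
    rw [hb]
    have e1 : Real.exp (CC / 2 * lam n) = Real.exp (CC * lam n) * Real.exp (-(CC / 2 * lam n)) := by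
      rw [← Real.exp_add]
      congr 1
      ring
    rw [e1]
    ring
  have hpos : 0 < FF σ n := by
    rw [hFF]
    positivity
  refine ⟨hpos, ?_⟩
  have hlog : Real.log (FF σ n) = CC * lam n + Real.log b - 3 * Real.log (lam n) -
      Real.log (4 * Real.pi * Real.sqrt 2) := by
    rw [hFF, Real.log_div (by positivity) (by positivity), Real.log_mul (by positivity) hb0.ne',
      Real.log_exp, Real.log_mul hden.ne' (by positivity), Real.log_pow]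
    push_cast
    ring
  have hg : gk k σ (n : ℂ) = ((Real.log (FF σ n) * (1 / (k : ℝ)) : ℝ) : ℂ) := by
    rw [gk_eq, hroot, hBb, ← Complex.ofReal_log hb0.le, ← Complex.ofReal_log hlam0.le, hlog]
    push_cast
    ring
  rw [hg, Real.rpow_def_of_pos hpos, Complex.ofReal_exp]

end PK
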