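import Pool.Agent.helper90.PK.PartA
import Pool.Agent.helper90.PK.GkGH

/-!
# PK-C2: an approximate `k`-th power is close to `exp (gk k ± n)`

Proof sketch. `σ = (-1)^n`, `A = FF σ n > 0`, `A ≥ e^((C-δ)√n)` for large `n` (any `δ > 0`; from
the formula, `lam n = √n + O(1/√n)`), `|pp n - A| ≤ K e^(C√n/3)` (`pp_asymp`), so `pp n ≤ 2A`. If
`|pp n - m^k| ≤ (pp n)^(1-1/k-ε)` then `|m^k - A| ≤ (2A)^(1-1/k-ε) + K e^(C√n/3)` (if the exponent
`1-1/k-ε` is negative the first term is `≤ 1`; then bound by `1 + ...`), and with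
`a = A^(1/k)`, `|m - a| a^(k-1) ≤ |m^k - a^k|` (`m ≥ 0`). So
`|m - a| ≤ 2 A^(-ε) (or A^(-(1-1/k))) + K e^(C√n/3) A^(-(1-1/k)) ≤ e^(-2η√n)` because
`1 - 1/k ≥ 1/2 > 1/3`: e.g. `δ = C/24`, `η` small depending on `ε, k`.
`exp_gk` identifies `a` with `exp (gk k σ n)`.
-/

namespace PK

open Filter

theorem root_CC_pos : 0 < CC := by
  unfold CC
  positivity

theorem root_sqrt_tendsto : Tendsto (fun n : ℕ => Real.sqrt (n : ℝ)) atTop atTop :=
  Real.tendsto_sqrt_atTop.comp tendsto_natCast_atTop_atTop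

theorem root_pow_sub {m a : ℝ} (hm : 0 ≤ m) (ha : 0 ≤ a) {k : ℕ} (hk : 1 ≤ k) :
    |m - a| * a ^ (k - 1) ≤ |m ^ k - a ^ k| := by
  have h := geom_sum₂_mul m a k
  rw [← h, abs_mul, mul_comm]
  refine mul_le_mul_of_nonneg_right ?_ (abs_nonneg _)
  refine le_trans ?_ (le_abs_self _)
  have h2 : m ^ 0 * a ^ (k - 1 - 0) ≤ ∑ i ∈ Finset.range k, m ^ i * a ^ (k - 1 - i) :=
    Finset.single_le_sum (f := fun i => m ^ i * a ^ (k - 1 - i)) (fun i _ => by positivity)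
      (Finset.mem_range.2 (by omega))
  simpa using h2

theorem root_FF_lower (σ : ℝ) (hσ : σ = 1 ∨ σ = -1) :
    ∀ᶠ n : ℕ in atTop, Real.exp (3 / 4 * CC * Real.sqrt n) ≤ FF σ n := by
  have hC := root_CC_pos
  -- eventually `exp C * x ^ 3 ≤ exp (C x / 4)`
  have h1 : ∀ᶠ x : ℝ in atTop, Real.exp CC * x ^ 3 ≤ Real.exp (CC / 4 * x) := by
    have h := (isLittleO_pow_exp_pos_mul_atTop 3 (show 0 < CC / 4 by positivity)).bound
      (show 0 < (Real.exp CC)⁻¹ by positivity)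
    filter_upwards [h, eventually_ge_atTop 0] with x hx hx0
    rw [Real.norm_of_nonneg (by positivity), Real.norm_of_nonneg (by positivity)] at hx
    have := mul_le_mul_of_nonneg_left hx (Real.exp_pos CC).le
    rwa [← mul_assoc, mul_inv_cancel₀ (Real.exp_pos CC).ne', one_mul] at this
  have h2 : ∀ᶠ x : ℝ in atTop, 4 * Real.pi * Real.sqrt 2 + 1 + Real.sqrt 2 ≤ CC * (x - 1) := by
    have : Tendsto (fun x : ℝ => CC * (x - 1)) atTop atTop :=
      (tendsto_atTop_add_const_right _ (-1) tendsto_id).const_mul_atTop hC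
    exact this.eventually_ge_atTop _
  have h3 := root_sqrt_tendsto.eventually (h1.and h2)
  filter_upwards [h3, eventually_ge_atTop 4] with n hn hn4
  obtain ⟨hn1, hn2⟩ := hn
  have hnr : (4 : ℝ) ≤ n := by exact_mod_cast hn4
  set s : ℝ := Real.sqrt n with hs
  have hs2 : s ^ 2 = n := Real.sq_sqrt (by positivity)
  have hs0 : 0 ≤ s := Real.sqrt_nonneg _
  have hs1 : 2 ≤ s := by
    rw [hs]
    apply Real.le_sqrt_of_sq_le
    linarith
  set l : ℝ := lam n with hl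
  have hl2 : l ^ 2 = n - 1 / 24 := by
    rw [hl, lam]
    exact Real.sq_sqrt (by linarith)
  have hl0 : 0 ≤ l := Real.sqrt_nonneg _
  have hls : l ≤ s := by
    apply Real.sqrt_le_sqrt
    linarith
  have hsl : s - 1 ≤ l := by
    rw [hl, lam]
    apply Real.le_sqrt_of_sq_le
    nlinarith
  have hlpos : 0 < l := by linarith
  -- the second term
  have h4 : |(CC / 2 * l - 1) * Real.exp (-(CC / 2 * l))| ≤ 1 := by
    set y : ℝ := CC / 2 * l with hy
    have hy0 : 0 ≤ y := by positivity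
    rw [abs_mul, abs_of_pos (Real.exp_pos _), Real.exp_neg, ← div_eq_mul_inv,
      div_le_one (Real.exp_pos _), abs_le]
    have h5 := Real.add_one_le_exp y
    constructor <;> linarith [Real.exp_pos y]
  have h5 : |σ * Real.sqrt 2 * ((CC / 2 * l - 1) * Real.exp (-(CC / 2 * l)))| ≤ Real.sqrt 2 := by
    rw [abs_mul, abs_mul]
    have : |σ| = 1 := by rcases hσ with h | h <;> simp [h]
    rw [this, one_mul, abs_of_nonneg (Real.sqrt_nonneg 2)]
    have := mul_le_mul_of_nonneg_left h4 (Real.sqrt_nonneg 2)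
    linarith
  have h6 : FF σ n = Real.exp (CC * l) * ((CC * l - 1) +
      σ * Real.sqrt 2 * ((CC / 2 * l - 1) * Real.exp (-(CC / 2 * l)))) /
      (4 * Real.pi * Real.sqrt 2 * l ^ 3) := by
    rw [FF, ← hl]
    congr 1
    have : Real.exp (CC / 2 * l) = Real.exp (CC * l) * Real.exp (-(CC / 2 * l)) := by
      rw [← Real.exp_add]
      congr 1
      ring
    rw [this]
    ring
  have h7 : 4 * Real.pi * Real.sqrt 2 ≤ (CC * l - 1) +
      σ * Real.sqrt 2 * ((CC / 2 * l - 1) * Real.exp (-(CC / 2 * l))) := by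
    have h8 := (abs_le.1 h5).1
    have h9 : CC * (s - 1) ≤ CC * l := mul_le_mul_of_nonneg_left hsl hC.le
    linarith
  have hden : 0 < 4 * Real.pi * Real.sqrt 2 := by positivity
  have h8 : Real.exp (CC * l) / l ^ 3 ≤ FF σ n := by
    rw [h6, div_le_div_iff₀ (by positivity) (by positivity)]
    have e1 : Real.exp (CC * l) * (4 * Real.pi * Real.sqrt 2 * l ^ 3) =
        Real.exp (CC * l) * l ^ 3 * (4 * Real.pi * Real.sqrt 2) := by ring
    have e2 : ∀ y : ℝ, Real.exp (CC * l) * y * l ^ 3 = Real.exp (CC * l) * l ^ 3 * y := by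
      intro y; ring
    rw [e1, e2]
    exact mul_le_mul_of_nonneg_left h7 (by positivity)
  refine le_trans ?_ h8
  rw [le_div_iff₀ (by positivity)]
  have h9 : l ^ 3 ≤ s ^ 3 := by gcongr
  have h10 : Real.exp (CC * s - CC) ≤ Real.exp (CC * l) := by
    apply Real.exp_le_exp.2
    nlinarith
  calc Real.exp (3 / 4 * CC * s) * l ^ 3 ≤ Real.exp (3 / 4 * CC * s) * s ^ 3 := by gcongr
    _ = Real.exp (3 / 4 * CC * s - CC) * (Real.exp CC * s ^ 3) := by
        rw [← mul_assoc, ← Real.exp_add]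
        congr 2
        ring
    _ ≤ Real.exp (3 / 4 * CC * s - CC) * Real.exp (CC / 4 * s) := by gcongr
    _ = Real.exp (CC * s - CC) := by
        rw [← Real.exp_add]
        congr 1
        ring
    _ ≤ Real.exp (CC * l) := h10

theorem root_exp_small (K γ : ℝ) (hγ : 0 < γ) :
    ∀ᶠ n : ℕ in atTop, K * Real.exp (-(γ * Real.sqrt n)) ≤ 1 := by
  have h1 : Tendsto (fun x : ℝ => K * Real.exp (-(γ * x))) atTop (nhds (K * 0)) := by
    refine Tendsto.const_mul K ?_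
    exact Real.tendsto_exp_neg_atTop_nhds_zero.comp (tendsto_id.const_mul_atTop hγ)
  rw [mul_zero] at h1
  exact (root_sqrt_tendsto.eventually (h1.eventually_lt_const one_pos)).mono fun n hn => hn.le

theorem root_aux (k : ℕ) (hk : 2 ≤ k) (ε : ℝ) (hε : 0 < ε) (hε4 : ε ≤ 1 / 4)
    (σ : ℝ) (hσ : σ = 1 ∨ σ = -1) :
    ∀ᶠ n : ℕ in atTop, σ = (-1) ^ n → ∀ m : ℕ,
      |(pp n : ℝ) - (m : ℝ) ^ k| ≤ (pp n : ℝ) ^ (1 - 1 / (k : ℝ) - ε) →
      ‖(m : ℂ) - Complex.exp (gk k σ (n : ℂ))‖ ≤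
        Real.exp (-(2 * (CC * ε / 48) * Real.sqrt n)) := by
  have hC := root_CC_pos
  obtain ⟨K, hK, hasym⟩ := pp_asymp
  obtain ⟨n0, hn0⟩ := exp_gk k (by omega) σ hσ
  have e1 := root_exp_small K (5 / 12 * CC) (by positivity)
  have e2 := root_exp_small (2 + K) (CC * ε / 24) (by positivity)
  filter_upwards [root_FF_lower σ hσ, e1, e2, eventually_ge_atTop n0, eventually_ge_atTop 1]
    with n hA h1 h2 hnn0 hn1 hσn m hm
  obtain ⟨hApos, hexp⟩ := hn0 n hnn0
  have hasy := hasym n hn1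
  rw [← hσn] at hasy
  set A : ℝ := FF σ n with hAdef
  set p : ℝ := (pp n : ℝ) with hp
  set s : ℝ := Real.sqrt n with hs
  have hs0 : 0 ≤ s := Real.sqrt_nonneg _
  have hp1 : 1 ≤ p := by
    have : 0 < pp n := Fintype.card_pos
    rw [hp]
    exact_mod_cast this
  have hA1 : 1 ≤ A := le_trans (Real.one_le_exp (by positivity)) hA
  have hKA : K * Real.exp (CC * s / 3) ≤ A := by
    refine le_trans ?_ hA
    have : Real.exp (CC * s / 3) =
        Real.exp (-(5 / 12 * CC * s)) * Real.exp (3 / 4 * CC * s) := by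
      rw [← Real.exp_add]
      congr 1
      ring
    rw [this, ← mul_assoc]
    calc K * Real.exp (-(5 / 12 * CC * s)) * Real.exp (3 / 4 * CC * s)
        ≤ 1 * Real.exp (3 / 4 * CC * s) := by gcongr
      _ = _ := one_mul _
  have hp2 : p ≤ 2 * A := by
    have := (abs_le.1 hasy).2
    linarith
  have hk0 : (0 : ℝ) < k := by
    have : 0 < k := by omega
    exact_mod_cast this
  have hk2 : 1 / (k : ℝ) ≤ 1 / 2 := by
    have : (2 : ℝ) ≤ k := by exact_mod_cast hk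
    exact one_div_le_one_div_of_le (by norm_num) this
  have hkinv : 0 < 1 / (k : ℝ) := by positivity
  set a : ℝ := A ^ (1 / (k : ℝ)) with ha
  have ha0 : 0 ≤ a := by positivity
  have hak : a ^ k = A := by
    rw [ha, ← Real.rpow_natCast, ← Real.rpow_mul hApos.le]
    rw [one_div_mul_cancel hk0.ne', Real.rpow_one]
  have hak1 : a ^ (k - 1) = A ^ (1 - 1 / (k : ℝ)) := by
    rw [ha, ← Real.rpow_natCast, ← Real.rpow_mul hApos.le]
    congr 1
    rw [Nat.cast_sub (by omega)]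
    field_simp
    push_cast
    ring
  have h3 := root_pow_sub (Nat.cast_nonneg m) ha0 (show 1 ≤ k by omega)
  rw [hak, hak1] at h3
  have h4 : |(m : ℝ) ^ k - A| ≤ p ^ (1 - 1 / (k : ℝ) - ε) + K * Real.exp (CC * s / 3) := by
    have : (m : ℝ) ^ k - A = -(p - (m : ℝ) ^ k) + (p - A) := by ring
    rw [this]
    refine (abs_add_le _ _).trans ?_
    rw [abs_neg]
    exact add_le_add hm hasy
  have h5 : p ^ (1 - 1 / (k : ℝ) - ε) ≤ 2 * (A ^ (1 - 1 / (k : ℝ)) * A ^ (-ε)) := by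
    have he0 : 0 ≤ 1 - 1 / (k : ℝ) - ε := by linarith
    have he1 : 1 - 1 / (k : ℝ) - ε ≤ 1 := by linarith
    calc p ^ (1 - 1 / (k : ℝ) - ε) ≤ (2 * A) ^ (1 - 1 / (k : ℝ) - ε) := by
          gcongr
      _ = 2 ^ (1 - 1 / (k : ℝ) - ε) * A ^ (1 - 1 / (k : ℝ) - ε) := by
          rw [Real.mul_rpow (by norm_num) hApos.le]
      _ ≤ 2 ^ (1 : ℝ) * A ^ (1 - 1 / (k : ℝ) - ε) := by
          gcongr
          norm_num
      _ = 2 * (A ^ (1 - 1 / (k : ℝ)) * A ^ (-ε)) := by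
          rw [Real.rpow_one, ← Real.rpow_add hApos]
          congr 2
  have h6 : A ^ (-ε) ≤ Real.exp (-(3 / 4 * CC * ε * s)) := by
    calc A ^ (-ε) ≤ (Real.exp (3 / 4 * CC * s)) ^ (-ε) :=
          Real.rpow_le_rpow_of_nonpos (Real.exp_pos _) hA (by linarith)
      _ = Real.exp (-(3 / 4 * CC * ε * s)) := by
          rw [← Real.exp_mul]
          congr 1
          ring
  have h7 : (1 : ℝ) ≤ A ^ (1 - 1 / (k : ℝ)) * Real.exp (-(3 / 8 * CC * s)) := by
    have h8 : Real.exp (3 / 8 * CC * s) ≤ A ^ (1 - 1 / (k : ℝ)) := by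
      calc Real.exp (3 / 8 * CC * s) = (Real.exp (3 / 4 * CC * s)) ^ (1 / 2 : ℝ) := by
            rw [← Real.exp_mul]
            congr 1
            ring
        _ ≤ A ^ (1 / 2 : ℝ) := by gcongr
        _ ≤ A ^ (1 - 1 / (k : ℝ)) := by
            apply Real.rpow_le_rpow_of_exponent_le hA1
            linarith
    rw [Real.exp_neg, ← div_eq_mul_inv, one_le_div (Real.exp_pos _)]
    exact h8
  have hD : 0 < A ^ (1 - 1 / (k : ℝ)) := by positivity
  have h8 : K * Real.exp (CC * s / 3) ≤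
      A ^ (1 - 1 / (k : ℝ)) * (K * Real.exp (-(CC / 24 * s))) := by
    have : Real.exp (-(CC / 24 * s)) = Real.exp (-(3 / 8 * CC * s)) * Real.exp (CC * s / 3) := by
      rw [← Real.exp_add]
      congr 1
      ring
    rw [this]
    calc K * Real.exp (CC * s / 3) = 1 * (K * Real.exp (CC * s / 3)) := (one_mul _).symm
      _ ≤ (A ^ (1 - 1 / (k : ℝ)) * Real.exp (-(3 / 8 * CC * s))) *
          (K * Real.exp (CC * s / 3)) := by gcongr
      _ = _ := by ring
  have h9 : |(m : ℝ) - a| * A ^ (1 - 1 / (k : ℝ)) ≤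
      (2 * Real.exp (-(3 / 4 * CC * ε * s)) + K * Real.exp (-(CC / 24 * s))) *
        A ^ (1 - 1 / (k : ℝ)) := by
    calc |(m : ℝ) - a| * A ^ (1 - 1 / (k : ℝ)) ≤ |(m : ℝ) ^ k - A| := h3
      _ ≤ _ := h4
      _ ≤ 2 * (A ^ (1 - 1 / (k : ℝ)) * Real.exp (-(3 / 4 * CC * ε * s))) +
          A ^ (1 - 1 / (k : ℝ)) * (K * Real.exp (-(CC / 24 * s))) := by
          refine add_le_add (h5.trans ?_) h8
          gcongr
      _ = _ := by ring
  have h10 : |(m : ℝ) - a| ≤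
      2 * Real.exp (-(3 / 4 * CC * ε * s)) + K * Real.exp (-(CC / 24 * s)) :=
    le_of_mul_le_mul_right h9 hD
  have hnorm : ‖(m : ℂ) - Complex.exp (gk k σ (n : ℂ))‖ = |(m : ℝ) - a| := by
    rw [hexp]
    have : (m : ℂ) - ((a : ℝ) : ℂ) = (((m : ℝ) - a : ℝ) : ℂ) := by push_cast; rfl
    rw [this, Complex.norm_real, Real.norm_eq_abs]
  rw [hnorm]
  refine h10.trans ?_
  have h11 : Real.exp (-(3 / 4 * CC * ε * s)) ≤
      Real.exp (-(CC * ε / 24 * s)) * Real.exp (-(2 * (CC * ε / 48) * s)) := by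
    rw [← Real.exp_add]
    apply Real.exp_le_exp.2
    have : 0 ≤ CC * ε * s := by positivity
    linarith
  have h12 : Real.exp (-(CC / 24 * s)) ≤
      Real.exp (-(CC * ε / 24 * s)) * Real.exp (-(2 * (CC * ε / 48) * s)) := by
    rw [← Real.exp_add]
    apply Real.exp_le_exp.2
    have h13 : CC * s * ε ≤ CC * s * (1 / 4) :=
      mul_le_mul_of_nonneg_left hε4 (by positivity)
    have : 0 ≤ CC * s := by positivity
    linarith
  calc 2 * Real.exp (-(3 / 4 * CC * ε * s)) + K * Real.exp (-(CC / 24 * s))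
      ≤ 2 * (Real.exp (-(CC * ε / 24 * s)) * Real.exp (-(2 * (CC * ε / 48) * s))) +
        K * (Real.exp (-(CC * ε / 24 * s)) * Real.exp (-(2 * (CC * ε / 48) * s))) := by gcongr
    _ = ((2 + K) * Real.exp (-(CC * ε / 24 * s))) * Real.exp (-(2 * (CC * ε / 48) * s)) := by
        ring
    _ ≤ 1 * Real.exp (-(2 * (CC * ε / 48) * s)) := by gcongr
    _ = _ := one_mul _

theorem root_close (k : ℕ) (hk : 2 ≤ k) (ε : ℝ) (hε : 0 < ε) :
    ∃ η : ℝ, 0 < η ∧ ∃ n0 : ℕ, ∀ n : ℕ, n0 ≤ n → ∀ m : ℕ,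
      |(pp n : ℝ) - (m : ℝ) ^ k| ≤ (pp n : ℝ) ^ (1 - 1 / (k : ℝ) - ε) →
      ‖(m : ℂ) - Complex.exp (gk k ((-1) ^ n) (n : ℂ))‖ ≤ Real.exp (-(2 * η * Real.sqrt n)) := by
  have hC := root_CC_pos
  set ε' : ℝ := min ε (1 / 4) with hε'
  have hε'0 : 0 < ε' := lt_min hε (by norm_num)
  have hε'4 : ε' ≤ 1 / 4 := min_le_right _ _
  have hε'ε : ε' ≤ ε := min_le_left _ _
  have h1 := root_aux k hk ε' hε'0 hε'4 1 (Or.inl rfl)
  have h2 := root_aux k hk ε' hε'0 hε'4 (-1) (Or.inr rfl)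
  obtain ⟨n0, hn0⟩ := eventually_atTop.1 (h1.and h2)
  refine ⟨CC * ε' / 48, by positivity, n0, fun n hn m hm => ?_⟩
  obtain ⟨h3, h4⟩ := hn0 n hn
  have hp1 : (1 : ℝ) ≤ (pp n : ℝ) := by
    have : 0 < pp n := Fintype.card_pos
    exact_mod_cast this
  have hm' : |(pp n : ℝ) - (m : ℝ) ^ k| ≤ (pp n : ℝ) ^ (1 - 1 / (k : ℝ) - ε') := by
    refine hm.trans (Real.rpow_le_rpow_of_exponent_le hp1 ?_)
    linarith
  rcases neg_one_pow_eq_or ℝ n with h | h
  · have h5 : ((-1 : ℝ) ^ n) = 1 := h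
    rw [h5]
    exact h3 h5.symm m hm'
  · have h5 : ((-1 : ℝ) ^ n) = -1 := h
    rw [h5]
    exact h4 h5.symm m hm'

end PK
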