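import Pool.Agent.helper90.PK.Interval
import Pool.Agent.helper90.PK.Cover
import Pool.Agent.helper90.PK.Root
import Pool.Agent.helper90.PK.PIdeal
import Pool.Agent.helper90.PK.MAsym

/-!
# PK: final assembly
-/

namespace PK

open Filter Topology

/-- the nearest `k`-th power may be taken to be the `k`-th power of a natural number -/
theorem exists_nat_root (k n : ℕ) :
    ∃ M : ℕ, |(pp n : ℝ) - (M : ℝ) ^ k| ≤ (Dk k n : ℝ) := by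
  obtain ⟨m, hm⟩ := Dk_spec k n
  refine ⟨m.natAbs, ?_⟩
  have h1 : (Dk k n : ℝ) = |(pp n : ℝ) - (m : ℝ) ^ k| := by
    rw [hm, Nat.cast_natAbs, Int.cast_abs]
    push_cast
    rfl
  have h2 : ((m.natAbs : ℕ) : ℝ) = |(m : ℝ)| := by
    rw [Nat.cast_natAbs, Int.cast_abs]
  rw [h1, h2, ← abs_pow]
  have h3 : (0 : ℝ) ≤ pp n := Nat.cast_nonneg _
  rcases abs_cases ((m : ℝ) ^ k) with ⟨h, -⟩ | ⟨h, hneg⟩
  · rw [h]
  · rw [h, abs_of_nonneg (show 0 ≤ (pp n : ℝ) - (m : ℝ) ^ k by linarith)]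
    exact abs_le.2 ⟨by linarith, by linarith⟩

/-- bound on one residue class mod 2 -/
theorem half_bound (k : ℕ) (hk : 2 ≤ k) (ε : ℝ) (hε : 0 < ε) (r : ℕ) (σ : ℝ)
    (hσ : σ = 1 ∨ σ = -1) (hr : ∀ n : ℕ, n % 2 = r → ((-1 : ℝ)) ^ n = σ) :
    ∃ ν : ℝ, 0 < ν ∧ ν ≤ 1 ∧ ∃ C : ℝ, 0 < C ∧ ∀ x : ℕ, 1 ≤ x →
      (({n : ℕ | n ∈ {n : ℕ | n % 2 = r ∧ (Dk k n : ℝ) ≤ (pp n : ℝ) ^ (1 - 1 / (k : ℝ) - ε)} ∧
        n ≤ x}.ncard : ℕ) : ℝ) ≤ C * (x : ℝ) ^ (1 - ν) := by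
  choose Mf hMf using exists_nat_root k
  obtain ⟨η, hη, n0, hn0⟩ := root_close k hk ε hε
  obtain ⟨K, X0, hGH⟩ := gk_GH k (by omega) σ hσ
  obtain ⟨ν, s1, hν, hν8, hs1, N0, hN0⟩ := interval_bound hGH
    {n : ℕ | n % 2 = r ∧ (Dk k n : ℝ) ≤ (pp n : ℝ) ^ (1 - 1 / (k : ℝ) - ε)}
    (fun n => (Mf n : ℤ)) hη n0 (by
      intro n hn hnn
      obtain ⟨h1, h2⟩ := hn
      have h3 := hn0 n hnn (Mf n) ((hMf n).trans h2)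
      rw [hr n h1] at h3
      simpa using h3)
  exact cover hν hν8 hs1 N0 hN0

/-- Part (A): the power saving bound. -/
theorem almost_all (k : ℕ) (hk : 2 ≤ k) (ε : ℝ) (hε : 0 < ε) :
    ∃ ν : ℝ, 0 < ν ∧ ν ≤ 1 ∧ ∃ C : ℝ, 0 < C ∧ ∀ x : ℕ, 1 ≤ x →
      (cnt {n : ℕ | (Dk k n : ℝ) ≤ (pp n : ℝ) ^ (1 - 1 / (k : ℝ) - ε)} x : ℝ) ≤
        C * (x : ℝ) ^ (1 - ν) := by
  obtain ⟨ν0, hν0, hν01, C0, hC0, h0⟩ := half_bound k hk ε hε 0 1 (Or.inl rfl) (fun n hn =>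
    (Nat.even_iff.2 hn).neg_one_pow)
  obtain ⟨ν1, hν1, hν11, C1, hC1, h1⟩ := half_bound k hk ε hε 1 (-1) (Or.inr rfl) (fun n hn =>
    (Nat.odd_iff.2 hn).neg_one_pow)
  refine ⟨min ν0 ν1, lt_min hν0 hν1, (min_le_left _ _).trans hν01, C0 + C1, by positivity, ?_⟩
  intro x hx
  have hx1 : (1 : ℝ) ≤ x := by exact_mod_cast hx
  have hsub : {n : ℕ | n ∈ {n : ℕ | (Dk k n : ℝ) ≤ (pp n : ℝ) ^ (1 - 1 / (k : ℝ) - ε)} ∧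
      1 ≤ n ∧ n ≤ x} ⊆
      {n : ℕ | n ∈ {n : ℕ | n % 2 = 0 ∧ (Dk k n : ℝ) ≤ (pp n : ℝ) ^ (1 - 1 / (k : ℝ) - ε)} ∧
        n ≤ x} ∪
      {n : ℕ | n ∈ {n : ℕ | n % 2 = 1 ∧ (Dk k n : ℝ) ≤ (pp n : ℝ) ^ (1 - 1 / (k : ℝ) - ε)} ∧
        n ≤ x} := by
    rintro n ⟨hn1, -, hn3⟩
    rcases Nat.mod_two_eq_zero_or_one n with h | h
    · exact Or.inl ⟨⟨h, hn1⟩, hn3⟩
    · exact Or.inr ⟨⟨h, hn1⟩, hn3⟩
  have hfin : ∀ A : Set ℕ, {n : ℕ | n ∈ A ∧ n ≤ x}.Finite := fun A =>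
    (Set.finite_Iic x).subset fun n hn => hn.2
  have hle : (cnt {n : ℕ | (Dk k n : ℝ) ≤ (pp n : ℝ) ^ (1 - 1 / (k : ℝ) - ε)} x : ℝ) ≤
      C0 * (x : ℝ) ^ (1 - ν0) + C1 * (x : ℝ) ^ (1 - ν1) := by
    have h2 := (Set.ncard_le_ncard hsub ((hfin _).union (hfin _))).trans
      (Set.ncard_union_le _ _)
    have h3 := h0 x hx
    have h4 := h1 x hx
    have h5 : (cnt {n : ℕ | (Dk k n : ℝ) ≤ (pp n : ℝ) ^ (1 - 1 / (k : ℝ) - ε)} x : ℝ) ≤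
        (({n : ℕ | n ∈ {n : ℕ | n % 2 = 0 ∧ (Dk k n : ℝ) ≤ (pp n : ℝ) ^ (1 - 1 / (k : ℝ) - ε)} ∧
        n ≤ x}.ncard : ℕ) : ℝ) +
        (({n : ℕ | n ∈ {n : ℕ | n % 2 = 1 ∧ (Dk k n : ℝ) ≤ (pp n : ℝ) ^ (1 - 1 / (k : ℝ) - ε)} ∧
        n ≤ x}.ncard : ℕ) : ℝ) := by
      unfold cnt
      exact_mod_cast h2
    linarith
  refine hle.trans ?_
  rw [add_mul]
  refine add_le_add (mul_le_mul_of_nonneg_left ?_ hC0.le) (mul_le_mul_of_nonneg_left ?_ hC1.le)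
  · exact Real.rpow_le_rpow_of_exponent_le hx1 (by linarith [min_le_left ν0 ν1])
  · exact Real.rpow_le_rpow_of_exponent_le hx1 (by linarith [min_le_right ν0 ν1])

theorem density_zero_of_saving {A : Set ℕ} {ν C : ℝ} (hν : 0 < ν)
    (h : ∀ x : ℕ, 1 ≤ x → (cnt A x : ℝ) ≤ C * (x : ℝ) ^ (1 - ν)) :
    Tendsto (fun x : ℕ => (cnt A x : ℝ) / x) atTop (𝓝 0) := by
  have h1 : Tendsto (fun x : ℕ => C * (x : ℝ) ^ (-ν)) atTop (𝓝 0) := by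
    have := ((tendsto_rpow_neg_atTop hν).comp (tendsto_natCast_atTop_atTop (R := ℝ))).const_mul C
    simpa using this
  refine tendsto_of_tendsto_of_tendsto_of_le_of_le' tendsto_const_nhds h1
    (Eventually.of_forall fun x => by positivity) ?_
  filter_upwards [eventually_ge_atTop 1] with x hx
  have hx0 : (0 : ℝ) < x := by exact_mod_cast hx
  rw [div_le_iff₀ hx0]
  refine (h x hx).trans (le_of_eq ?_)
  rw [mul_assoc]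
  congr 1
  rw [show (1 : ℝ) - ν = -ν + 1 by ring, Real.rpow_add hx0, Real.rpow_one]

/-- Part (B): one set of density zero for all `k`. -/
theorem density_version : ∃ E : Set ℕ, Tendsto (fun x : ℕ => (cnt E x : ℝ) / x) atTop (𝓝 0) ∧
    ∀ k : ℕ, 2 ≤ k →
      (∀ d : ℕ, {n : ℕ | 1 ≤ n ∧ n ∉ E ∧ Dk k n ≤ d}.Finite) ∧
      Tendsto (fun d : ℕ => ((sSup {n : ℕ | 1 ≤ n ∧ n ∉ E ∧ Dk k n ≤ d} : ℕ) : ℝ) /
        (3 / (2 * Real.pi ^ 2) * ((k : ℝ) / (k - 1)) ^ 2 * Real.log d ^ 2)) atTop (𝓝 1) := by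
  obtain ⟨E, hE, hBE⟩ := pideal (fun i => {n : ℕ | (Dk (i.unpair.1 + 2) n : ℝ) ≤
    (pp n : ℝ) ^ (1 - 1 / ((i.unpair.1 + 2 : ℕ) : ℝ) - 1 / ((i.unpair.2 : ℝ) + 1))}) (by
    intro i
    obtain ⟨ν, hν, -, C, -, h⟩ := almost_all (i.unpair.1 + 2) (by omega)
      (1 / ((i.unpair.2 : ℝ) + 1)) (by positivity)
    exact density_zero_of_saving hν h)
  refine ⟨E, hE, ?_⟩
  intro k hk
  refine M_asymp E hE k hk ?_
  intro ε hε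
  obtain ⟨j, hj⟩ := exists_nat_one_div_lt hε
  obtain ⟨n0, hn0⟩ := hBE (Nat.pair (k - 2) j)
  refine ⟨n0, ?_⟩
  intro n hn hnE
  by_contra hcon
  have hcon' := not_lt.1 hcon
  apply hnE
  apply hn0 n hn
  simp only [Nat.unpair_pair, Set.mem_ofPred_eq]
  rw [Nat.sub_add_cancel hk]
  refine hcon'.trans ?_
  apply Real.rpow_le_rpow_of_exponent_le
  · exact_mod_cast pp_pos n
  · linarith

end PK
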