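import Pool.Agent.helper90.PK.Defs

/-!
# PK-B1: local data from the global hypothesis

Proof sketch. `h : GH c K X0 g`. On `Re z ≥ N/4` (`N` large): `‖g'(z)‖ ≤ c/(2 ‖z‖^(1/2)) + K/‖z‖`.
For real `N` compare `g(N) - c √N` with its value at a fixed point `X`: the derivative has norm at
most `K / t ≤ (K / √X) / √t`.
On `‖z - N‖ ≤ N/2`: `‖z‖ ≥ N/2`, `‖g'‖ ≤ 0.75 c/√N` for large `N`, and the mean value inequality
on the convex ball gives `lip` and `up`.
On `‖z - N‖ ≤ ρN`, `ρ ≤ 1/10`: `‖z^(1/2) - N^(1/2)‖ ≤ ρ√N`, and the mean value inequality for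
`z ↦ g z - c/(2√N) z` gives `lin`.
-/

open Filter Set

namespace PK

namespace GLocAux

lemma half_sq (z : ℂ) : (z ^ (1 / 2 : ℂ)) * (z ^ (1 / 2 : ℂ)) = z := by
  have h := Complex.cpow_nat_mul z 2 (1 / 2 : ℂ)
  have h2 : ((2 : ℕ) : ℂ) * (1 / 2) = 1 := by norm_num
  rw [h2, Complex.cpow_one, sq] at h
  exact h.symm

lemma half_norm (z : ℂ) : ‖z ^ (1 / 2 : ℂ)‖ = Real.sqrt ‖z‖ := by
  have h := congrArg norm (half_sq z)
  rw [norm_mul] at h
  rw [← h, Real.sqrt_mul_self (norm_nonneg _)]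

lemma half_re {z : ℂ} (hz : z ≠ 0) : 0 ≤ (z ^ (1 / 2 : ℂ)).re := by
  rw [Complex.cpow_def_of_ne_zero hz, Complex.exp_re]
  refine mul_nonneg (Real.exp_pos _).le ?_
  have him : (Complex.log z * (1 / 2)).im = z.arg / 2 := by
    have : (1 / 2 : ℂ) = ((1 / 2 : ℝ) : ℂ) := by norm_num
    rw [this, Complex.im_mul_ofReal, Complex.log_im]
    ring
  rw [him]
  have h1 := Complex.neg_pi_lt_arg z
  have h2 := Complex.arg_le_pi z
  apply Real.cos_nonneg_of_mem_Icc
  constructor <;> linarith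

lemma half_sub {z : ℂ} (hz : z ≠ 0) {N : ℝ} (hN : 0 < N) :
    ‖z ^ (1 / 2 : ℂ) - (Real.sqrt N : ℂ)‖ ≤ ‖z - (N : ℂ)‖ / Real.sqrt N := by
  have hs : 0 < Real.sqrt N := Real.sqrt_pos.mpr hN
  have hmul : (z ^ (1 / 2 : ℂ) - (Real.sqrt N : ℂ)) * (z ^ (1 / 2 : ℂ) + (Real.sqrt N : ℂ)) =
      z - (N : ℂ) := by
    have h1 := half_sq z
    have h2 : (Real.sqrt N : ℂ) * (Real.sqrt N : ℂ) = (N : ℂ) := by
      rw [← Complex.ofReal_mul, Real.mul_self_sqrt hN.le]
    linear_combination h1 - h2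
  have hle : Real.sqrt N ≤ ‖z ^ (1 / 2 : ℂ) + (Real.sqrt N : ℂ)‖ := by
    refine le_trans ?_ (Complex.re_le_norm _)
    rw [Complex.add_re, Complex.ofReal_re]
    have := half_re hz
    linarith
  rw [le_div_iff₀ hs, ← hmul, norm_mul]
  exact mul_le_mul_of_nonneg_left hle (norm_nonneg _)

lemma half_real {t : ℝ} (ht : 0 ≤ t) : ((t : ℂ) ^ (1 / 2 : ℂ)) = (Real.sqrt t : ℂ) := by
  rw [Real.sqrt_eq_rpow, Complex.ofReal_cpow ht]
  norm_num

/-- growth on the real axis -/
lemma real_axis {c K X0 : ℝ} {g : ℂ → ℂ} (h : GH c K X0 g) {ε : ℝ} (hε : 0 < ε) :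
    ∀ᶠ N : ℕ in atTop, ‖g ((N : ℝ) : ℂ) - ((c * Real.sqrt (N : ℝ) : ℝ) : ℂ)‖ ≤
      ε * Real.sqrt (N : ℝ) := by
  -- choose X
  obtain ⟨X, hX0, hX1, hXK⟩ : ∃ X : ℝ, X0 < X ∧ 1 ≤ X ∧ 2 * (K / Real.sqrt X) ≤ ε / 2 := by
    have ht : Tendsto (fun X : ℝ => 2 * (K / Real.sqrt X)) atTop (nhds (2 * 0)) := by
      apply Tendsto.const_mul
      exact tendsto_const_nhds.div_atTop Real.tendsto_sqrt_atTop
    rw [mul_zero] at ht
    have h1 := ht.eventually (ge_mem_nhds (show (0 : ℝ) < ε / 2 by linarith))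
    obtain ⟨X, hX⟩ := (h1.and ((eventually_gt_atTop X0).and (eventually_ge_atTop 1))).exists
    exact ⟨X, hX.2.1, hX.2.2, hX.1⟩
  have hXpos : 0 < X := by linarith
  have hsX : 0 < Real.sqrt X := Real.sqrt_pos.mpr hXpos
  set f : ℝ → ℂ := fun t => g (t : ℂ) - ((c * Real.sqrt t : ℝ) : ℂ) with hf
  have hgd : ∀ t : ℝ, X0 < t → HasDerivAt (fun t : ℝ => g (t : ℂ)) (deriv g (t : ℂ)) t := by
    intro t ht
    have hopen : IsOpen {z : ℂ | X0 < z.re} := isOpen_lt continuous_const Complex.continuous_re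
    have hd : DifferentiableAt ℂ g (t : ℂ) :=
      (h.diff (t : ℂ) (by simpa using ht)).differentiableAt
        (hopen.mem_nhds (by simpa using ht))
    exact hd.hasDerivAt.comp_ofReal
  have hfd : ∀ t : ℝ, X0 < t → 0 < t →
      HasDerivAt f (deriv g (t : ℂ) - ((c * (1 / (2 * Real.sqrt t)) : ℝ) : ℂ)) t := by
    intro t ht ht0
    refine (hgd t ht).sub ?_
    have h1 : HasDerivAt (fun t : ℝ => c * Real.sqrt t) (c * (1 / (2 * Real.sqrt t))) t :=
      (Real.hasDerivAt_sqrt ht0.ne').const_mul c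
    exact h1.ofReal_comp
  have hfb : ∀ t : ℝ, X ≤ t → ‖deriv g (t : ℂ) - ((c * (1 / (2 * Real.sqrt t)) : ℝ) : ℂ)‖ ≤
      2 * (K / Real.sqrt X) * (1 / (2 * Real.sqrt t)) := by
    intro t ht
    have ht0 : 0 < t := by linarith
    have hst : 0 < Real.sqrt t := Real.sqrt_pos.mpr ht0
    have h1 := h.der (t : ℂ) (by simpa using lt_of_lt_of_le hX0 ht)
    rw [half_real ht0.le] at h1
    have h2 : (c : ℂ) / (2 * (Real.sqrt t : ℂ)) = ((c * (1 / (2 * Real.sqrt t)) : ℝ) : ℂ) := by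
      push_cast; field_simp
    rw [h2] at h1
    refine h1.trans ?_
    rw [Complex.norm_real, Real.norm_eq_abs, abs_of_pos ht0]
    have h3 : 2 * (K / Real.sqrt X) * (1 / (2 * Real.sqrt t)) = K / (Real.sqrt X * Real.sqrt t) := by
      field_simp
    rw [h3]
    apply div_le_div_of_nonneg_left h.K_nonneg (by positivity)
    calc Real.sqrt X * Real.sqrt t ≤ Real.sqrt t * Real.sqrt t :=
          mul_le_mul_of_nonneg_right (Real.sqrt_le_sqrt ht) hst.le
      _ = t := Real.mul_self_sqrt ht0.le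
  have key : ∀ t : ℝ, X ≤ t → ‖f t‖ ≤ ‖f X‖ + 2 * (K / Real.sqrt X) * Real.sqrt t := by
    intro t ht
    have hmain := image_norm_le_of_norm_deriv_right_le_deriv_boundary' (f := f) (a := X) (b := t)
      (f' := fun t => deriv g (t : ℂ) - ((c * (1 / (2 * Real.sqrt t)) : ℝ) : ℂ))
      (B := fun s => ‖f X‖ + 2 * (K / Real.sqrt X) * Real.sqrt s)
      (B' := fun s => 2 * (K / Real.sqrt X) * (1 / (2 * Real.sqrt s)))
      (by
        intro s hs
        exact (hfd s (lt_of_lt_of_le hX0 hs.1) (by linarith [hs.1])).continuousAt.continuousWithinAt)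
      (by
        intro s hs
        exact (hfd s (lt_of_lt_of_le hX0 hs.1) (by linarith [hs.1])).hasDerivWithinAt)
      (by
        have : 0 ≤ 2 * (K / Real.sqrt X) * Real.sqrt X := by
          have := h.K_nonneg
          positivity
        linarith)
      (by
        apply Continuous.continuousOn
        fun_prop)
      (by
        intro s hs
        have hs0 : 0 < s := by linarith [hs.1]
        exact (((Real.hasDerivAt_sqrt hs0.ne').const_mul _).const_add _).hasDerivWithinAt)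
      (by
        intro s hs
        exact hfb s hs.1)
    exact hmain ⟨ht, le_rfl⟩
  have hsq : Tendsto (fun N : ℕ => Real.sqrt (N : ℝ)) atTop atTop :=
    Real.tendsto_sqrt_atTop.comp tendsto_natCast_atTop_atTop
  have e1 : ∀ᶠ N : ℕ in atTop, X ≤ (N : ℝ) :=
    tendsto_natCast_atTop_atTop.eventually_ge_atTop X
  have e2 : ∀ᶠ N : ℕ in atTop, ‖f X‖ / (ε / 2) ≤ Real.sqrt (N : ℝ) :=
    hsq.eventually_ge_atTop _
  filter_upwards [e1, e2] with N h1 h2
  have hk := key N h1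
  rw [div_le_iff₀ (by linarith)] at h2
  have h3 : 2 * (K / Real.sqrt X) * Real.sqrt (N : ℝ) ≤ ε / 2 * Real.sqrt (N : ℝ) :=
    mul_le_mul_of_nonneg_right hXK (Real.sqrt_nonneg _)
  calc ‖g ((N : ℝ) : ℂ) - ((c * Real.sqrt (N : ℝ) : ℝ) : ℂ)‖ = ‖f N‖ := rfl
    _ ≤ _ := hk
    _ ≤ ε * Real.sqrt (N : ℝ) := by nlinarith

end GLocAux

open GLocAux

theorem GH.localData {c K X0 : ℝ} {g : ℂ → ℂ} (h : GH c K X0 g) {δ : ℝ} (hδ : 0 < δ) :
    ∃ ρ : ℝ, 0 < ρ ∧ ρ ≤ 1 / 4 ∧ ∃ N0 : ℕ, ∀ N : ℕ, N0 ≤ N → LD c δ ρ g (N : ℝ) := by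
  have hc := h.c_pos
  have hK := h.K_nonneg
  set ρ : ℝ := min (1 / 10) (δ / (2 * c)) with hρ
  have hρ0 : 0 < ρ := by
    rw [hρ]; positivity
  have hρ1 : ρ ≤ 1 / 10 := min_le_left _ _
  have hρ2 : ρ ≤ δ / (2 * c) := min_le_right _ _
  set ε : ℝ := min (c / 8) (δ / 2) with hεd
  have hε0 : 0 < ε := by rw [hεd]; positivity
  have hε1 : ε ≤ c / 8 := min_le_left _ _
  have hε2 : ε ≤ δ / 2 := min_le_right _ _
  refine ⟨ρ, hρ0, by linarith, ?_⟩
  have hsq : Tendsto (fun N : ℕ => Real.sqrt (N : ℝ)) atTop atTop :=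
    Real.tendsto_sqrt_atTop.comp tendsto_natCast_atTop_atTop
  have e1 := real_axis h hε0
  have e2 : ∀ᶠ N : ℕ in atTop, 4 * X0 + 4 ≤ (N : ℝ) :=
    tendsto_natCast_atTop_atTop.eventually_ge_atTop _
  have e3 : ∀ᶠ N : ℕ in atTop, 72 * K / c ≤ Real.sqrt (N : ℝ) := hsq.eventually_ge_atTop _
  obtain ⟨N0, hN0⟩ := eventually_atTop.mp (e1.and (e2.and e3))
  refine ⟨N0, fun N hN => ?_⟩
  obtain ⟨hax, hbig, hKs⟩ := hN0 N hN
  have hX01 := h.X0_one
  set M : ℝ := (N : ℝ) with hM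
  have hM0 : 0 < M := by linarith
  have hs0 : 0 < Real.sqrt M := Real.sqrt_pos.mpr hM0
  have hss : Real.sqrt M * Real.sqrt M = M := Real.mul_self_sqrt hM0.le
  rw [div_le_iff₀ hc] at hKs
  -- K / M small
  have hKM : 2 * K / M ≤ c / (36 * Real.sqrt M) := by
    rw [div_le_div_iff₀ hM0 (by positivity)]
    calc 2 * K * (36 * Real.sqrt M) = 72 * K * Real.sqrt M := by ring
      _ ≤ Real.sqrt M * c * Real.sqrt M := mul_le_mul_of_nonneg_right hKs hs0.le
      _ = c * (Real.sqrt M * Real.sqrt M) := by ring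
      _ = c * M := by rw [hss]
  have hopen : IsOpen {z : ℂ | X0 < z.re} := isOpen_lt continuous_const Complex.continuous_re
  have hre : ∀ z : ℂ, M - ‖z - (M : ℂ)‖ ≤ z.re := by
    intro z
    have h1 := Complex.abs_re_le_norm (z - (M : ℂ))
    rw [Complex.sub_re, Complex.ofReal_re] at h1
    have h2 := neg_abs_le (z.re - M)
    linarith
  have hda : ∀ z : ℂ, ‖z - (M : ℂ)‖ ≤ 3 * M / 4 → X0 < z.re := by
    intro z hz
    have := hre z
    linarith
  have hdiffAt : ∀ z : ℂ, ‖z - (M : ℂ)‖ ≤ 3 * M / 4 → DifferentiableAt ℂ g z := by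
    intro z hz
    exact (h.diff z (hda z hz)).differentiableAt (hopen.mem_nhds (hda z hz))
  have hnorm : ∀ z : ℂ, z.re ≤ ‖z‖ := fun z => Complex.re_le_norm z
  -- derivative bound on the half ball
  have hder1 : ∀ z : ℂ, ‖z - (M : ℂ)‖ ≤ M / 2 → ‖deriv g z‖ ≤ 3 / 4 * (c / Real.sqrt M) := by
    intro z hz
    have hzre : M / 2 ≤ z.re := by have := hre z; linarith
    have hzn : M / 2 ≤ ‖z‖ := hzre.trans (hnorm z)
    have hd := h.der z (hda z (by linarith))
    have h1 : ‖deriv g z‖ ≤ ‖(c : ℂ) / (2 * z ^ (1 / 2 : ℂ))‖ + K / ‖z‖ := by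
      calc ‖deriv g z‖ = ‖(c : ℂ) / (2 * z ^ (1 / 2 : ℂ)) +
            (deriv g z - (c : ℂ) / (2 * z ^ (1 / 2 : ℂ)))‖ := by congr 1; ring
        _ ≤ _ := (norm_add_le _ _).trans (by linarith)
    have h2 : ‖(c : ℂ) / (2 * z ^ (1 / 2 : ℂ))‖ = c / (2 * Real.sqrt ‖z‖) := by
      rw [norm_div, norm_mul, half_norm, Complex.norm_real, Real.norm_eq_abs, abs_of_pos hc]
      norm_num
    have h3 : 7 / 10 * Real.sqrt M ≤ Real.sqrt ‖z‖ := by
      apply Real.le_sqrt_of_sq_le
      rw [mul_pow, Real.sq_sqrt hM0.le]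
      nlinarith
    have h4 : c / (2 * Real.sqrt ‖z‖) ≤ c / (2 * (7 / 10 * Real.sqrt M)) := by
      apply div_le_div_of_nonneg_left hc.le (by positivity)
      linarith
    have h5 : K / ‖z‖ ≤ 2 * K / M := by
      rw [div_le_div_iff₀ (by linarith) hM0]
      nlinarith
    have h6 : c / (2 * (7 / 10 * Real.sqrt M)) = 5 / 7 * (c / Real.sqrt M) := by
      field_simp; ring
    have h7 : c / (36 * Real.sqrt M) = 1 / 36 * (c / Real.sqrt M) := by
      field_simp
    have h8 : 0 < c / Real.sqrt M := by positivity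
    rw [h2] at h1
    calc ‖deriv g z‖ ≤ c / (2 * Real.sqrt ‖z‖) + K / ‖z‖ := h1
      _ ≤ 5 / 7 * (c / Real.sqrt M) + 1 / 36 * (c / Real.sqrt M) := by
          rw [← h6, ← h7]; linarith
      _ ≤ 3 / 4 * (c / Real.sqrt M) := by nlinarith
  have hconv : Convex ℝ (Metric.closedBall (M : ℂ) (M / 2)) := convex_closedBall _ _
  have hlip : ∀ z ∈ Metric.closedBall (M : ℂ) (M / 2), ∀ w ∈ Metric.closedBall (M : ℂ) (M / 2),
      ‖g z - g w‖ ≤ 3 / 4 * (c / Real.sqrt M) * ‖z - w‖ := by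
    intro z hz w hw
    exact hconv.norm_image_sub_le_of_norm_deriv_le
      (fun x hx => hdiffAt x (by
        rw [mem_closedBall_iff_norm] at hx; linarith))
      (fun x hx => hder1 x (by rw [mem_closedBall_iff_norm] at hx; exact hx)) hw hz
  have hcen : (M : ℂ) ∈ Metric.closedBall (M : ℂ) (M / 2) := by
    apply Metric.mem_closedBall_self; linarith
  have hax' : |(g (M : ℂ)).re - c * Real.sqrt M| ≤ ε * Real.sqrt M := by
    refine le_trans ?_ hax
    have := Complex.abs_re_le_norm (g (M : ℂ) - ((c * Real.sqrt M : ℝ) : ℂ))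
    rwa [Complex.sub_re, Complex.ofReal_re] at this
  have hcs : c / Real.sqrt M * M = c * Real.sqrt M := by
    field_simp
    rw [sq, hss]
  refine ⟨?_, ?_, ?_, ?_, ?_⟩
  · intro z hz
    rw [mem_ball_iff_norm] at hz
    exact (hdiffAt z hz.le).differentiableWithinAt
  · intro z hz
    have h1 := hlip z hz _ hcen
    rw [mem_closedBall_iff_norm] at hz
    have h2 : (g z).re - (g (M : ℂ)).re ≤ ‖g z - g (M : ℂ)‖ := by
      have := Complex.re_le_norm (g z - g (M : ℂ))
      rwa [Complex.sub_re] at this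
    have h3 : 3 / 4 * (c / Real.sqrt M) * ‖z - (M : ℂ)‖ ≤ 3 / 8 * (c * Real.sqrt M) := by
      calc 3 / 4 * (c / Real.sqrt M) * ‖z - (M : ℂ)‖ ≤ 3 / 4 * (c / Real.sqrt M) * (M / 2) :=
            mul_le_mul_of_nonneg_left hz (by positivity)
        _ = 3 / 8 * (c / Real.sqrt M * M) := by ring
        _ = _ := by rw [hcs]
    have h4 := (abs_le.mp hax').2
    have h5 : ε * Real.sqrt M ≤ c / 8 * Real.sqrt M := mul_le_mul_of_nonneg_right hε1 hs0.le
    linarith
  · intro z hz w hw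
    refine (hlip z hz w hw).trans ?_
    apply mul_le_mul_of_nonneg_right _ (norm_nonneg _)
    have : 0 < c / Real.sqrt M := by positivity
    calc 3 / 4 * (c / Real.sqrt M) ≤ 2 * (c / Real.sqrt M) := by linarith
      _ = 2 * c / Real.sqrt M := by ring
  · intro z hz
    rw [mem_closedBall_iff_norm] at hz
    have hz2 : z ∈ Metric.closedBall (M : ℂ) (M / 2) := by
      rw [mem_closedBall_iff_norm]
      nlinarith
    have h1 := hlip z hz2 _ hcen
    have h2 : |(g z).re - (g (M : ℂ)).re| ≤ ‖g z - g (M : ℂ)‖ := by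
      have := Complex.abs_re_le_norm (g z - g (M : ℂ))
      rwa [Complex.sub_re] at this
    have h3 : 3 / 4 * (c / Real.sqrt M) * ‖z - (M : ℂ)‖ ≤ 3 / 4 * ρ * (c * Real.sqrt M) := by
      calc 3 / 4 * (c / Real.sqrt M) * ‖z - (M : ℂ)‖ ≤ 3 / 4 * (c / Real.sqrt M) * (ρ * M) :=
            mul_le_mul_of_nonneg_left hz (by positivity)
        _ = 3 / 4 * ρ * (c / Real.sqrt M * M) := by ring
        _ = _ := by rw [hcs]
    have h4 : |(g z).re - c * Real.sqrt M| ≤
        |(g z).re - (g (M : ℂ)).re| + |(g (M : ℂ)).re - c * Real.sqrt M| := abs_sub_le _ _ _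
    have h5 : ρ * c ≤ δ / 2 := by
      have := mul_le_mul_of_nonneg_right hρ2 hc.le
      have e : δ / (2 * c) * c = δ / 2 := by field_simp
      rwa [e] at this
    have h6 : ρ * c * Real.sqrt M ≤ δ / 2 * Real.sqrt M := mul_le_mul_of_nonneg_right h5 hs0.le
    have h7 : ε * Real.sqrt M ≤ δ / 2 * Real.sqrt M := mul_le_mul_of_nonneg_right hε2 hs0.le
    have h8 : 0 ≤ ρ * c * Real.sqrt M := by positivity
    nlinarith
  · intro z hz w hw
    have hconv2 : Convex ℝ (Metric.closedBall (M : ℂ) (ρ * M)) := convex_closedBall _ _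
    set a : ℂ := ((c / (2 * Real.sqrt M) : ℝ) : ℂ) with ha
    have hmain := hconv2.norm_image_sub_le_of_norm_deriv_le (f := fun z => g z - a * z)
      (C := c / (12 * Real.sqrt M)) (x := w) (y := z)
      (fun x hx => by
        rw [mem_closedBall_iff_norm] at hx
        exact (hdiffAt x (by nlinarith)).sub ((differentiableAt_id).const_mul a))
      (fun x hx => by
        rw [mem_closedBall_iff_norm] at hx
        have hx34 : ‖x - (M : ℂ)‖ ≤ 3 * M / 4 := by nlinarith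
        have hdx : deriv (fun z => g z - a * z) x = deriv g x - a := by
          have h1 : HasDerivAt (fun z => g z - a * z) (deriv g x - a * 1) x :=
            (hdiffAt x hx34).hasDerivAt.sub ((hasDerivAt_id x).const_mul a)
          rw [h1.deriv, mul_one]
        rw [hdx]
        have hxre : 9 / 10 * M ≤ x.re := by
          have := hre x
          nlinarith
        have hxn : 9 / 10 * M ≤ ‖x‖ := hxre.trans (hnorm x)
        have hx0 : x ≠ 0 := by
          intro h0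
          rw [h0, norm_zero] at hxn
          nlinarith
        have hd := h.der x (hda x hx34)
        have hsx : 9 / 10 * Real.sqrt M ≤ ‖x ^ (1 / 2 : ℂ)‖ := by
          rw [half_norm]
          apply Real.le_sqrt_of_sq_le
          rw [mul_pow, Real.sq_sqrt hM0.le]
          nlinarith
        have hsx0 : x ^ (1 / 2 : ℂ) ≠ 0 := by
          intro h0
          rw [h0, norm_zero] at hsx
          nlinarith
        have hsM : (Real.sqrt M : ℂ) ≠ 0 := by
          exact_mod_cast hs0.ne'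
        have hsub := half_sub hx0 hM0
        have hsub2 : ‖x ^ (1 / 2 : ℂ) - (Real.sqrt M : ℂ)‖ ≤ 1 / 10 * Real.sqrt M := by
          refine hsub.trans ?_
          rw [div_le_iff₀ hs0]
          have : 1 / 10 * Real.sqrt M * Real.sqrt M = 1 / 10 * M := by
            rw [mul_assoc, hss]
          rw [this]
          nlinarith
        have hdiff : (c : ℂ) / (2 * x ^ (1 / 2 : ℂ)) - a =
            (c : ℂ) / 2 * (((Real.sqrt M : ℂ) - x ^ (1 / 2 : ℂ)) /
              (x ^ (1 / 2 : ℂ) * (Real.sqrt M : ℂ))) := by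
          rw [ha]
          push_cast
          field_simp
        have hb : ‖(c : ℂ) / (2 * x ^ (1 / 2 : ℂ)) - a‖ ≤ c / (18 * Real.sqrt M) := by
          rw [hdiff, norm_mul, norm_div, norm_div, norm_mul, norm_sub_rev, Complex.norm_real,
            Complex.norm_real, Real.norm_eq_abs, Real.norm_eq_abs, abs_of_pos hc, abs_of_pos hs0]
          have h2 : ‖(2 : ℂ)‖ = 2 := by norm_num
          rw [h2]
          have h3 : ‖x ^ (1 / 2 : ℂ) - (Real.sqrt M : ℂ)‖ / (‖x ^ (1 / 2 : ℂ)‖ * Real.sqrt M) ≤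
              (1 / 10 * Real.sqrt M) / (9 / 10 * Real.sqrt M * Real.sqrt M) := by
            apply div_le_div₀ (by positivity) hsub2 (by positivity)
            exact mul_le_mul_of_nonneg_right hsx hs0.le
          have h4 : (1 / 10 * Real.sqrt M) / (9 / 10 * Real.sqrt M * Real.sqrt M) =
              1 / (9 * Real.sqrt M) := by
            field_simp
          rw [h4] at h3
          calc c / 2 * (‖x ^ (1 / 2 : ℂ) - (Real.sqrt M : ℂ)‖ /
                (‖x ^ (1 / 2 : ℂ)‖ * Real.sqrt M)) ≤ c / 2 * (1 / (9 * Real.sqrt M)) :=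
                mul_le_mul_of_nonneg_left h3 (by positivity)
            _ = c / (18 * Real.sqrt M) := by field_simp; ring
        have h5 : K / ‖x‖ ≤ 2 * K / M := by
          rw [div_le_div_iff₀ (by linarith) hM0]
          nlinarith
        calc ‖deriv g x - a‖ = ‖(deriv g x - (c : ℂ) / (2 * x ^ (1 / 2 : ℂ))) +
              ((c : ℂ) / (2 * x ^ (1 / 2 : ℂ)) - a)‖ := by congr 1; ring
          _ ≤ K / ‖x‖ + c / (18 * Real.sqrt M) := (norm_add_le _ _).trans (add_le_add hd hb)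
          _ ≤ c / (36 * Real.sqrt M) + c / (18 * Real.sqrt M) := by linarith
          _ = c / (12 * Real.sqrt M) := by field_simp; ring)
      hw hz
    have e : g z - a * z - (g w - a * w) = g z - g w - a * (z - w) := by ring
    simp only [e] at hmain
    exact hmain

end PK
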