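import Pool.Agent.helper90.PK.Defs

/-!
# PK-A7: Fourier inversion of the Gamma density

The Fourier transform of `f(x) = x^(α-1) e^(-y x)` (`x > 0`) is `Γ(α) / (y + 2πiξ)^α`: the Laplace
integral with a complex parameter is holomorphic in the parameter and known on the real axis.
Fourier inversion gives the statement.
-/

namespace PK

open MeasureTheory Set Filter Topology FourierTransform

/-- The Laplace integrand. -/
private noncomputable def lapF (a : ℝ) (r : ℂ) (t : ℝ) : ℂ :=
  ((t ^ (a - 1) : ℝ) : ℂ) * Complex.exp (-(r * t))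

private lemma lap_real_int {a b : ℝ} (ha : 0 < a) (hb : 0 < b) :
    IntegrableOn (fun t : ℝ => t ^ (a - 1) * Real.exp (-b * t)) (Ioi 0) := by
  have := integrableOn_rpow_mul_exp_neg_mul_rpow (s := a - 1) (p := 1) (b := b) (by linarith)
    one_pos hb
  simpa using this

private lemma lap_meas (a : ℝ) (r : ℂ) :
    AEStronglyMeasurable (lapF a r) (volume.restrict (Ioi 0)) := by
  have h1 : Measurable fun t : ℝ => ((t ^ (a - 1) : ℝ) : ℂ) :=
    Complex.measurable_ofReal.comp (measurable_id.pow_const _)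
  have h2 : Measurable fun t : ℝ => Complex.exp (-(r * t)) :=
    (Complex.continuous_exp.comp (continuous_const.mul Complex.continuous_ofReal).neg).measurable
  exact (h1.mul h2).aestronglyMeasurable

private lemma lap_norm (a : ℝ) (r : ℂ) {t : ℝ} (ht : 0 < t) :
    ‖lapF a r t‖ = t ^ (a - 1) * Real.exp (-r.re * t) := by
  unfold lapF
  rw [norm_mul, Complex.norm_real, Real.norm_of_nonneg (Real.rpow_nonneg ht.le _),
    Complex.norm_exp]
  congr 2
  simp

private lemma lap_int {a : ℝ} {r : ℂ} (ha : 0 < a) (hr : 0 < r.re) :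
    Integrable (lapF a r) (volume.restrict (Ioi 0)) := by
  refine (lap_real_int ha hr).mono' (lap_meas a r) ?_
  refine (ae_restrict_iff' measurableSet_Ioi).2 (Eventually.of_forall fun t ht => ?_)
  exact (lap_norm a r ht).le

private lemma lap_deriv {a : ℝ} {r : ℂ} (ha : 0 < a) (hr : 0 < r.re) :
    DifferentiableAt ℂ (fun z => ∫ t in Ioi (0 : ℝ), lapF a z t) r := by
  have hs : {z : ℂ | r.re / 2 < z.re} ∈ 𝓝 r :=
    (isOpen_lt continuous_const Complex.continuous_re).mem_nhds (by
      change r.re / 2 < r.re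
      linarith)
  have key := hasDerivAt_integral_of_dominated_loc_of_deriv_le
    (μ := volume.restrict (Ioi (0 : ℝ))) (F := fun z t => lapF a z t)
    (F' := fun z t => -((t : ℝ) : ℂ) * lapF a z t)
    (bound := fun t => t ^ ((a + 1) - 1) * Real.exp (-(r.re / 2) * t)) (x₀ := r) hs
    (Eventually.of_forall fun z => lap_meas a z) (lap_int ha hr)
    ((Complex.measurable_ofReal.neg.aestronglyMeasurable).mul (lap_meas a r)) ?_
    (lap_real_int (by linarith) (by linarith)) ?_
  · exact key.2.differentiableAt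
  · refine (ae_restrict_iff' measurableSet_Ioi).2 (Eventually.of_forall fun t ht z hz => ?_)
    have ht' : (0 : ℝ) < t := ht
    rw [norm_mul, norm_neg, Complex.norm_real, Real.norm_of_nonneg ht'.le, lap_norm a z ht',
      ← mul_assoc]
    have e1 : t * t ^ (a - 1) = t ^ (a + 1 - 1) := by
      nth_rewrite 1 [← Real.rpow_one t]
      rw [← Real.rpow_add ht']
      congr 1; ring
    rw [e1]
    refine mul_le_mul_of_nonneg_left (Real.exp_le_exp.2 ?_) (Real.rpow_nonneg ht'.le _)
    have hz' : r.re / 2 < z.re := hz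
    nlinarith
  · refine (ae_restrict_iff' measurableSet_Ioi).2 (Eventually.of_forall fun t ht z hz => ?_)
    unfold lapF
    have h1 : HasDerivAt (fun z : ℂ => -(z * (t : ℂ))) (-(t : ℂ)) z := by
      have h0 := ((hasDerivAt_id z).mul_const (t : ℂ)).neg
      rw [one_mul] at h0
      exact h0
    have h2 := (h1.cexp).const_mul ((t ^ (a - 1) : ℝ) : ℂ)
    exact h2.congr_deriv (by ring)

private lemma lap_eq {a : ℝ} {r : ℂ} (ha : 0 < a) (hr : 0 < r.re) :
    (∫ t in Ioi (0 : ℝ), lapF a r t) = r ^ (-(a : ℂ)) * (Real.Gamma a : ℂ) := by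
  have hopen : IsOpen {z : ℂ | 0 < z.re} := isOpen_lt continuous_const Complex.continuous_re
  have hconv : IsPreconnected {z : ℂ | 0 < z.re} := by
    apply Convex.isPreconnected
    exact convex_halfSpace_re_gt 0
  have hF : AnalyticOnNhd ℂ (fun z => ∫ t in Ioi (0 : ℝ), lapF a z t) {z : ℂ | 0 < z.re} := by
    apply DifferentiableOn.analyticOnNhd _ hopen
    intro z hz
    exact (lap_deriv ha hz).differentiableWithinAt
  have hG : AnalyticOnNhd ℂ (fun z : ℂ => z ^ (-(a : ℂ)) * (Real.Gamma a : ℂ))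
      {z : ℂ | 0 < z.re} := by
    apply DifferentiableOn.analyticOnNhd _ hopen
    intro z hz
    have hz' : z ∈ Complex.slitPlane := Or.inl hz
    exact (((hasDerivAt_id z).cpow_const (c := -(a : ℂ)) hz').differentiableAt.mul_const
      _).differentiableWithinAt
  have hfreq : ∃ᶠ z in 𝓝[≠] (1 : ℂ), (∫ t in Ioi (0 : ℝ), lapF a z t) =
      z ^ (-(a : ℂ)) * (Real.Gamma a : ℂ) := by
    have ht : Tendsto (fun n : ℕ => ((1 + 1 / ((n : ℝ) + 1) : ℝ) : ℂ)) atTop (𝓝[≠] (1 : ℂ)) := by
      rw [tendsto_nhdsWithin_iff]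
      constructor
      · have h1 : Tendsto (fun n : ℕ => (1 + 1 / ((n : ℝ) + 1) : ℝ)) atTop (𝓝 (1 + 0)) :=
          tendsto_const_nhds.add tendsto_one_div_add_atTop_nhds_zero_nat
        have h2 := (Complex.continuous_ofReal.tendsto (1 + 0 : ℝ)).comp h1
        simpa [Function.comp_def] using h2
      · refine Eventually.of_forall fun n => ?_
        simp only [mem_compl_iff, mem_singleton_iff]
        intro h
        have h' : (1 + 1 / ((n : ℝ) + 1) : ℝ) = 1 := by exact_mod_cast h
        have : (0 : ℝ) < 1 / ((n : ℝ) + 1) := by positivity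
        linarith
    refine ht.frequently (Eventually.frequently (Eventually.of_forall fun n => ?_))
    set b : ℝ := 1 + 1 / ((n : ℝ) + 1) with hb
    have hb0 : 0 < b := by positivity
    have key := Complex.integral_cpow_mul_exp_neg_mul_Ioi (a := (a : ℂ)) (r := b)
      (by simpa using ha) hb0
    rw [Complex.Gamma_ofReal] at key
    have e2 : (1 / (b : ℂ)) ^ (a : ℂ) = (b : ℂ) ^ (-(a : ℂ)) := by
      rw [one_div, Complex.inv_cpow, Complex.cpow_neg]
      rw [Complex.arg_ofReal_of_nonneg hb0.le]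
      exact Real.pi_pos.ne
    rw [e2] at key
    rw [← key]
    refine setIntegral_congr_fun measurableSet_Ioi fun t ht => ?_
    have ht' : (0 : ℝ) < t := ht
    unfold lapF
    rw [Complex.ofReal_cpow ht'.le]
    push_cast
    ring
  exact hF.eqOn_of_preconnected_of_frequently_eq hG hconv (show (0 : ℝ) < (1 : ℂ).re by simp) hfreq
    hr

private lemma sp_re (y θ : ℝ) : (sp y θ).re = y := by simp [sp]

private lemma sp_ne {y θ : ℝ} (hy : 0 < y) : sp y θ ≠ 0 := by
  intro h
  have := sp_re y θ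
  rw [h] at this
  simp at this
  linarith

private lemma norm_sp_sq (y θ : ℝ) : ‖sp y θ‖ ^ 2 = y ^ 2 + θ ^ 2 := by
  rw [← Complex.normSq_eq_norm_sq, Complex.normSq_apply]
  simp [sp]
  ring

private lemma sp_slit {y θ : ℝ} (hy : 0 < y) : sp y θ ∈ Complex.slitPlane := by
  left
  rw [sp_re]
  exact hy

private lemma cont_sp (y : ℝ) : Continuous fun θ : ℝ => sp y θ := by
  unfold sp
  fun_prop

private lemma cont_sp_cpow {y : ℝ} (hy : 0 < y) (c : ℂ) :
    Continuous fun θ : ℝ => (sp y θ) ^ c := by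
  rw [continuous_iff_continuousAt]
  intro θ
  exact (cont_sp y).continuousAt.cpow continuousAt_const (sp_slit hy)

private lemma norm_sp_cpow {y θ : ℝ} (hy : 0 < y) (b : ℝ) :
    ‖(sp y θ) ^ (b : ℂ)‖ = (y ^ 2 + θ ^ 2) ^ (b / 2) := by
  rw [Complex.norm_cpow_of_ne_zero (sp_ne hy)]
  simp only [Complex.ofReal_re, Complex.ofReal_im, mul_zero, Real.exp_zero, div_one]
  rw [← norm_sp_sq y θ, ← Real.rpow_natCast, ← Real.rpow_mul (norm_nonneg _)]
  congr 1
  push_cast
  ring

private lemma int_sp_cpow {α y : ℝ} (hα : 1 < α) (hy : 0 < y) :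
    Integrable fun θ : ℝ => (sp y θ) ^ (-(α : ℂ)) := by
  have h0 : Integrable fun θ : ℝ => ((1 : ℝ) + ‖θ‖ ^ 2) ^ (-α / 2) :=
    integrable_rpow_neg_one_add_norm_sq (by simpa using hα)
  have hm : 0 < min 1 (y ^ 2) := lt_min one_pos (by positivity)
  refine (h0.const_mul ((min 1 (y ^ 2)) ^ (-α / 2))).mono'
    (cont_sp_cpow hy _).aestronglyMeasurable (Eventually.of_forall fun θ => ?_)
  have : (-(α : ℂ)) = ((-α : ℝ) : ℂ) := by push_cast; rfl
  rw [this, norm_sp_cpow hy, ← Real.mul_rpow hm.le (by positivity)]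
  refine Real.rpow_le_rpow_of_nonpos (by positivity) ?_ (by linarith)
  rw [Real.norm_eq_abs, sq_abs]
  have h1 : min 1 (y ^ 2) ≤ 1 := min_le_left _ _
  have h2 : min 1 (y ^ 2) ≤ y ^ 2 := min_le_right _ _
  nlinarith [sq_nonneg θ]

private lemma norm_exp_sp (ν y θ : ℝ) :
    ‖Complex.exp ((ν : ℂ) * sp y θ)‖ = Real.exp (ν * y) := by
  rw [Complex.norm_exp]
  simp [sp]

theorem integrable_sp {α ν y : ℝ} (hα : 1 < α) (hν : 0 < ν) (hy : 0 < y) :
    MeasureTheory.Integrable fun θ : ℝ =>
      (sp y θ) ^ (-(α : ℂ)) * Complex.exp ((ν : ℂ) * sp y θ) := by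
  have _ := hν
  refine (int_sp_cpow hα hy).mul_bdd (c := Real.exp (ν * y)) ?_ ?_
  · exact (Complex.continuous_exp.comp (continuous_const.mul (cont_sp y))).aestronglyMeasurable
  · exact Eventually.of_forall fun θ => (norm_exp_sp ν y θ).le

/-- The density. -/
private noncomputable def dens (α y : ℝ) (x : ℝ) : ℂ :=
  (((max x 0) ^ (α - 1) * Real.exp (-(y * x)) : ℝ) : ℂ)

private lemma dens_cont {α y : ℝ} (hα : 1 < α) : Continuous (dens α y) := by
  unfold dens
  refine Complex.continuous_ofReal.comp (Continuous.mul ?_ ?_)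
  · exact (continuous_id.max continuous_const).rpow_const fun x => Or.inr (by linarith)
  · fun_prop

private lemma dens_eq_zero {α y x : ℝ} (hα : 1 < α) (hx : x ≤ 0) : dens α y x = 0 := by
  unfold dens
  rw [max_eq_right hx, Real.zero_rpow (by linarith)]
  simp

private lemma dens_of_pos {α y x : ℝ} (hx : 0 < x) :
    dens α y x = ((x ^ (α - 1) * Real.exp (-(y * x)) : ℝ) : ℂ) := by
  unfold dens
  rw [max_eq_left hx.le]

private lemma dens_int {α y : ℝ} (hα : 1 < α) (hy : 0 < y) : Integrable (dens α y) := by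
  have h1 : IntegrableOn (dens α y) (Ioi 0) := by
    refine (lap_real_int (a := α) (by linarith) hy).mono'
      (dens_cont hα).aestronglyMeasurable.restrict ?_
    refine (ae_restrict_iff' measurableSet_Ioi).2 (Eventually.of_forall fun t ht => ?_)
    have ht' : (0 : ℝ) < t := ht
    rw [dens_of_pos ht', Complex.norm_real, Real.norm_of_nonneg (by positivity)]
    apply le_of_eq
    congr 2
    ring
  have h2 : IntegrableOn (dens α y) (Iic 0) := by
    refine (integrableOn_zero).congr_fun (fun t ht => ?_) measurableSet_Iic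
    rw [dens_eq_zero hα ht]
  have := h2.union h1
  rwa [Iic_union_Ioi, integrableOn_univ] at this

private lemma dens_fourier {α y : ℝ} (hα : 1 < α) (hy : 0 < y) (ξ : ℝ) :
    𝓕 (dens α y) ξ = (sp y (-(2 * Real.pi * ξ))) ^ (-(α : ℂ)) * (Real.Gamma α : ℂ) := by
  rw [Real.fourier_real_eq_integral_exp_smul]
  have hr : 0 < (sp y (-(2 * Real.pi * ξ))).re := by rw [sp_re]; exact hy
  rw [← lap_eq (a := α) (by linarith) hr, ← integral_indicator measurableSet_Ioi]
  refine integral_congr_ae (Eventually.of_forall fun t => ?_)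
  simp only [indicator]
  split_ifs with h
  · have ht' : (0 : ℝ) < t := h
    rw [dens_of_pos ht']
    unfold lapF sp
    push_cast
    rw [smul_eq_mul, mul_comm, mul_assoc, ← Complex.exp_add]
    congr 2
    ring
  · have ht' : t ≤ 0 := not_lt.1 h
    rw [dens_eq_zero hα ht']
    simp

theorem gamma_inv {α ν y : ℝ} (hα : 1 < α) (hν : 0 < ν) (hy : 0 < y) :
    (∫ θ : ℝ, (sp y θ) ^ (-(α : ℂ)) * Complex.exp ((ν : ℂ) * sp y θ)) =
      ((2 * Real.pi * (ν ^ (α - 1) / Real.Gamma α) : ℝ) : ℂ) := by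
  have hΓ : 0 < Real.Gamma α := Real.Gamma_pos_of_pos (by linarith)
  have hpi := Real.pi_pos
  -- integrability of the Fourier transform
  have hF : Integrable (𝓕 (dens α y)) := by
    have e : 𝓕 (dens α y) = fun ξ : ℝ =>
        (fun θ : ℝ => (sp y θ) ^ (-(α : ℂ)) * (Real.Gamma α : ℂ)) ((-(2 * Real.pi)) * ξ) := by
      funext ξ
      rw [dens_fourier hα hy]
      simp only [neg_mul]
    rw [e]
    exact ((int_sp_cpow hα hy).mul_const _).comp_mul_left' (by linarith)
  have hinv := congrFun ((dens_cont (y := y) hα).fourierInv_fourier_eq (dens_int hα hy) hF) ν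
  rw [Real.fourierInv_eq'] at hinv
  obtain ⟨G, hG⟩ : ∃ G : ℝ → ℂ, ∀ θ, G θ = Complex.exp (-((ν * θ : ℝ) : ℂ) * Complex.I) *
        ((sp y θ) ^ (-(α : ℂ)) * (Real.Gamma α : ℂ)) := ⟨_, fun _ => rfl⟩
  have e1 : (∫ v : ℝ, Complex.exp (((2 * Real.pi * inner ℝ v ν : ℝ) : ℂ) * Complex.I) •
      𝓕 (dens α y) v) = ∫ v : ℝ, G ((-(2 * Real.pi)) * v) := by
    refine integral_congr_ae (Eventually.of_forall fun v => ?_)
    simp only [smul_eq_mul, hG]
    rw [dens_fourier hα hy]
    congr 1
    · congr 1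
      have : inner ℝ v ν = ν * v := by simp
      rw [this]
      push_cast
      ring
    · congr 2
      congr 1
      ring
  rw [e1, Measure.integral_comp_mul_left] at hinv
  simp only [hG] at hinv
  rw [dens_of_pos hν] at hinv
  have e2 : |(-(2 * Real.pi))⁻¹| = (2 * Real.pi)⁻¹ := by
    rw [abs_inv, abs_neg, abs_of_pos (by positivity)]
  rw [e2] at hinv
  have e3 : (∫ θ : ℝ, (sp y θ) ^ (-(α : ℂ)) * Complex.exp ((ν : ℂ) * sp y θ)) =
      (((Real.Gamma α)⁻¹ * Real.exp (ν * y) : ℝ) : ℂ) *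
      ∫ θ : ℝ, Complex.exp (-((ν * θ : ℝ) : ℂ) * Complex.I) *
        ((sp y θ) ^ (-(α : ℂ)) * (Real.Gamma α : ℂ)) := by
    rw [← integral_const_mul]
    refine integral_congr_ae (Eventually.of_forall fun θ => ?_)
    simp only
    have e4 : Complex.exp ((ν : ℂ) * sp y θ) =
        ((Real.exp (ν * y) : ℝ) : ℂ) * Complex.exp (-((ν * θ : ℝ) : ℂ) * Complex.I) := by
      rw [Complex.ofReal_exp, ← Complex.exp_add]
      congr 1
      unfold sp
      push_cast
      ring
    rw [e4]
    have hΓ' : ((Real.Gamma α : ℝ) : ℂ) ≠ 0 := by exact_mod_cast hΓ.ne'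
    push_cast
    field_simp
  rw [e3]
  have e5 : (∫ θ : ℝ, Complex.exp (-((ν * θ : ℝ) : ℂ) * Complex.I) *
        ((sp y θ) ^ (-(α : ℂ)) * (Real.Gamma α : ℂ))) =
      ((2 * Real.pi : ℝ) : ℂ) * ((ν ^ (α - 1) * Real.exp (-(y * ν)) : ℝ) : ℂ) := by
    rw [← hinv, Complex.real_smul, ← mul_assoc, ← Complex.ofReal_mul,
      mul_inv_cancel₀ (by positivity), Complex.ofReal_one, one_mul]
  rw [e5]
  rw [← Complex.ofReal_mul, ← Complex.ofReal_mul]
  congr 1
  have e6 : Real.exp (ν * y) * Real.exp (-(y * ν)) = 1 := by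
    rw [← Real.exp_add]
    simp [mul_comm]
  calc (Real.Gamma α)⁻¹ * Real.exp (ν * y) * (2 * Real.pi * (ν ^ (α - 1) * Real.exp (-(y * ν))))
      = 2 * Real.pi * (ν ^ (α - 1) / Real.Gamma α) *
        (Real.exp (ν * y) * Real.exp (-(y * ν))) := by ring
    _ = 2 * Real.pi * (ν ^ (α - 1) / Real.Gamma α) := by rw [e6, mul_one]

end PK
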