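import Pool.Agent.helper90.PK.Defs

/-!
# PK-A1: the generating function of the partition numbers as a convergent series
-/

namespace PK

open Finset Filter Topology

namespace GenSum_aux

/-- partitions of `n` into parts `≤ M` -/
def rr (M n : ℕ) : ℕ := (Nat.Partition.restricted n (fun i => i ≤ M)).card

/-- the coefficients of the geometric series of `X ^ (M + 1)` -/
def gg (M n : ℕ) : ℕ := if (M + 1) ∣ n then 1 else 0

open PowerSeries PowerSeries.WithPiTopology in
lemma tsum_eq (M : ℕ) : (∑' j : ℕ, (X : PowerSeries ℕ) ^ ((M + 1) * j)) =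
    PowerSeries.mk (gg M) := by
  apply HasSum.tsum_eq
  rw [hasSum_iff_hasSum_coeff]
  intro n
  rw [coeff_mk, gg]
  simp_rw [coeff_X_pow]
  split_ifs with h
  · obtain ⟨k, rfl⟩ := h
    have : (fun i : ℕ => if (M + 1) * k = (M + 1) * i then (1 : ℕ) else 0) =
        fun i => if i = k then 1 else 0 := by
      funext i
      by_cases hi : i = k
      · rw [if_pos hi, hi, if_pos rfl]
      · rw [if_neg hi, if_neg]
        intro h
        exact hi (Nat.eq_of_mul_eq_mul_left (Nat.succ_pos M) h).symm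
    rw [this]
    exact hasSum_ite_eq k 1
  · have : (fun i : ℕ => if n = (M + 1) * i then (1 : ℕ) else 0) = fun _ => 0 := by
      funext i
      rw [if_neg]
      rintro rfl
      exact h (Dvd.intro _ rfl)
    rw [this]
    exact hasSum_zero

open PowerSeries PowerSeries.WithPiTopology in
lemma mk_rr (M : ℕ) : PowerSeries.mk (rr M) = ∏ i ∈ range M, PowerSeries.mk (gg i) := by
  have h1 := Nat.Partition.hasProd_powerSeriesMk_card_restricted ℕ (fun i => i ≤ M)
  have h2 : HasProd (fun i ↦ if i + 1 ≤ M then ∑' j : ℕ, (X : PowerSeries ℕ) ^ ((i + 1) * j) else 1)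
      (∏ i ∈ range M, if i + 1 ≤ M then ∑' j : ℕ, (X : PowerSeries ℕ) ^ ((i + 1) * j) else 1) := by
    apply hasProd_prod_of_ne_finset_one
    intro b hb
    rw [Finset.mem_range] at hb
    rw [if_neg (by omega)]
  have h3 := h1.unique h2
  have h4 : PowerSeries.mk (rr M) = PowerSeries.mk fun n ↦
      ((Nat.Partition.restricted n (fun i => i ≤ M)).card : ℕ) := rfl
  rw [h4]
  refine h3.trans ?_
  apply Finset.prod_congr rfl
  intro i hi
  rw [Finset.mem_range] at hi
  rw [if_pos (by omega), tsum_eq]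

lemma rr_zero (n : ℕ) : rr 0 n = if n = 0 then 1 else 0 := by
  have h := congrArg (PowerSeries.coeff n) (mk_rr 0)
  rw [PowerSeries.coeff_mk, Finset.range_zero, Finset.prod_empty, PowerSeries.coeff_one] at h
  exact h

lemma rr_succ (M n : ℕ) : rr (M + 1) n =
    ∑ p ∈ antidiagonal n, rr M p.1 * gg M p.2 := by
  have h := congrArg (PowerSeries.coeff n) (mk_rr (M + 1))
  rw [Finset.prod_range_succ, ← mk_rr, PowerSeries.coeff_mul, PowerSeries.coeff_mk] at h
  simpa only [PowerSeries.coeff_mk] using h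

variable {𝕜 : Type} [RCLike 𝕜]

lemma gg_sum {q : 𝕜} (hq : ‖q‖ < 1) (M : ℕ) :
    HasSum (fun n : ℕ => (gg M n : 𝕜) * q ^ n) (1 - q ^ (M + 1))⁻¹ := by
  have hinj : Function.Injective fun j : ℕ => (M + 1) * j := fun a b h =>
    Nat.eq_of_mul_eq_mul_left (Nat.succ_pos M) h
  rw [← hinj.hasSum_iff]
  · have h1 : ((fun n : ℕ => (gg M n : 𝕜) * q ^ n) ∘ fun j : ℕ => (M + 1) * j) =
        fun j => (q ^ (M + 1)) ^ j := by
      funext j
      simp only [Function.comp_apply, gg, dvd_mul_right, if_true, Nat.cast_one, one_mul, pow_mul]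
    rw [h1]
    apply hasSum_geometric_of_norm_lt_one
    rw [norm_pow]
    exact pow_lt_one₀ (norm_nonneg _) hq (Nat.succ_ne_zero M)
  · intro n hn
    rw [gg, if_neg, Nat.cast_zero, zero_mul]
    rintro ⟨k, rfl⟩
    exact hn ⟨k, rfl⟩

lemma gg_norm {q : 𝕜} (hq : ‖q‖ < 1) (M : ℕ) :
    Summable (fun n : ℕ => ‖(gg M n : 𝕜) * q ^ n‖) := by
  have h1 := gg_sum (𝕜 := ℝ) (q := ‖q‖) (by rwa [norm_norm]) M
  refine h1.summable.congr fun n => ?_
  rw [norm_mul, norm_pow, RCLike.norm_natCast]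

lemma rr_good {q : 𝕜} (hq : ‖q‖ < 1) (M : ℕ) :
    Summable (fun n : ℕ => ‖(rr M n : 𝕜) * q ^ n‖) ∧
      HasSum (fun n : ℕ => (rr M n : 𝕜) * q ^ n) (∏ i ∈ range M, (1 - q ^ (i + 1))⁻¹) := by
  induction M with
  | zero =>
    have h1 : (fun n : ℕ => (rr 0 n : 𝕜) * q ^ n) = fun n => if n = 0 then 1 else 0 := by
      funext n
      rw [rr_zero]
      split_ifs with h
      · rw [h, Nat.cast_one, pow_zero, one_mul]
      · rw [Nat.cast_zero, zero_mul]
    have h2 : HasSum (fun n : ℕ => (rr 0 n : 𝕜) * q ^ n) 1 := by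
      rw [h1]; exact hasSum_ite_eq 0 1
    refine ⟨?_, by rw [Finset.range_zero, Finset.prod_empty]; exact h2⟩
    exact h2.summable.norm
  | succ M ih =>
    obtain ⟨ih1, ih2⟩ := ih
    have hg := gg_norm hq M
    have hs := gg_sum hq M
    have hterm : ∀ n : ℕ, (rr (M + 1) n : 𝕜) * q ^ n =
        ∑ p ∈ antidiagonal n, ((rr M p.1 : 𝕜) * q ^ p.1) * ((gg M p.2 : 𝕜) * q ^ p.2) := by
      intro n
      rw [rr_succ, Nat.cast_sum, Finset.sum_mul]
      apply Finset.sum_congr rfl
      intro p hp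
      rw [Finset.HasAntidiagonal.mem_antidiagonal] at hp
      rw [Nat.cast_mul, ← hp, pow_add]
      ring
    have hsn := summable_norm_sum_mul_antidiagonal_of_summable_norm ih1 hg
    have heq := tsum_mul_tsum_eq_tsum_sum_antidiagonal_of_summable_norm ih1 hg
    refine ⟨?_, ?_⟩
    · refine hsn.congr fun n => ?_
      rw [hterm]
    · rw [Finset.prod_range_succ, ← ih2.tsum_eq, ← hs.tsum_eq, heq]
      have hfun : (fun n : ℕ => (rr (M + 1) n : 𝕜) * q ^ n) = fun n : ℕ =>
          ∑ p ∈ antidiagonal n, ((rr M p.1 : 𝕜) * q ^ p.1) * ((gg M p.2 : 𝕜) * q ^ p.2) :=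
        funext hterm
      rw [hfun]
      exact hsn.of_norm.hasSum

lemma rr_eq {M n : ℕ} (h : n ≤ M) : rr M n = pp n := by
  rw [rr, pp, ← Finset.card_univ, Nat.Partition.restricted, Finset.filter_true_of_mem]
  intro x _ i hi
  exact (Nat.Partition.le_of_mem_parts hi).trans h

lemma rr_le (M n : ℕ) : rr M n ≤ pp n := by
  rw [rr, pp]
  exact Finset.card_le_univ _

end GenSum_aux

open GenSum_aux

/-- the infinite product does not vanish -/
theorem tprod_ne_zero {q : ℂ} (hq : ‖q‖ < 1) : ∏' n : ℕ, (1 - q ^ (n + 1)) ≠ 0 := by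
  have h1 := tprod_one_add_ne_zero_of_summable (f := fun n : ℕ ↦ -q ^ (n + 1)) ?_ ?_
  · simpa only [← sub_eq_add_neg] using h1
  · intro i
    rw [← sub_eq_add_neg, sub_ne_zero]
    intro h
    have h2 := congrArg norm h
    rw [norm_one, norm_pow] at h2
    have h3 := pow_lt_one₀ (norm_nonneg q) hq (Nat.succ_ne_zero i)
    rw [← h2] at h3
    exact lt_irrefl _ h3
  · simpa using (summable_nat_add_iff 1).mpr (summable_geometric_of_lt_one (norm_nonneg _) hq)

/-- the inverses of the partial products converge -/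
theorem tendsto_inv {q : ℂ} (hq : ‖q‖ < 1) :
    Tendsto (fun M : ℕ => ∏ i ∈ range M, (1 - q ^ (i + 1))⁻¹) atTop (𝓝 (P q)) := by
  have h1 := (ModularForm.multipliable_one_sub_pow hq).hasProd.tendsto_prod_nat
  have h2 := h1.inv₀ (tprod_ne_zero hq)
  simp_rw [Finset.prod_inv_distrib]
  exact h2

theorem summable_pp {r : ℝ} (h0 : 0 ≤ r) (h1 : r < 1) :
    Summable fun n : ℕ => (pp n : ℝ) * r ^ n := by
  have hq : ‖(r : ℂ)‖ < 1 := by rwa [Complex.norm_real, Real.norm_of_nonneg h0]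
  obtain ⟨B, hB⟩ := (Metric.isBounded_range_of_tendsto _ (tendsto_inv hq)).exists_norm_le
  refine summable_of_sum_range_le (c := B) (fun n => by positivity) fun N => ?_
  obtain ⟨h2, h3⟩ := rr_good (𝕜 := ℝ) (q := r) (by rwa [Real.norm_of_nonneg h0]) N
  calc ∑ n ∈ range N, (pp n : ℝ) * r ^ n = ∑ n ∈ range N, (rr N n : ℝ) * r ^ n := by
        apply Finset.sum_congr rfl
        intro n hn
        rw [rr_eq (Finset.mem_range.1 hn).le]
    _ ≤ ∏ i ∈ range N, (1 - r ^ (i + 1))⁻¹ :=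
        sum_le_hasSum _ (fun n _ => by positivity) h3
    _ ≤ ‖∏ i ∈ range N, (1 - (r : ℂ) ^ (i + 1))⁻¹‖ := by
        have : (∏ i ∈ range N, (1 - (r : ℂ) ^ (i + 1))⁻¹) =
            ((∏ i ∈ range N, (1 - r ^ (i + 1))⁻¹ : ℝ) : ℂ) := by push_cast; rfl
        rw [this, Complex.norm_real]
        exact le_abs_self _
    _ ≤ B := hB _ ⟨N, rfl⟩

theorem hasSum_P {q : ℂ} (hq : ‖q‖ < 1) :
    HasSum (fun n : ℕ => (pp n : ℂ) * q ^ n) (P q) := by
  have hs := summable_pp (norm_nonneg q) hq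
  have hs' : Summable (fun n : ℕ => (pp n : ℂ) * q ^ n) := by
    apply Summable.of_norm
    refine hs.congr fun n => ?_
    rw [norm_mul, norm_pow, Complex.norm_natCast]
  have h1 : Tendsto (fun M : ℕ => ∑' n : ℕ, (rr M n : ℂ) * q ^ n) atTop
      (𝓝 (∑' n : ℕ, (pp n : ℂ) * q ^ n)) := by
    apply tendsto_tsum_of_dominated_convergence hs
    · intro n
      apply tendsto_const_nhds.congr'
      filter_upwards [eventually_ge_atTop n] with M hM
      rw [rr_eq hM]
    · apply Filter.Eventually.of_forall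
      intro M n
      rw [norm_mul, norm_pow, Complex.norm_natCast]
      exact mul_le_mul_of_nonneg_right (by exact_mod_cast rr_le M n) (by positivity)
  have h2 := tendsto_inv hq
  have h3 : (fun M : ℕ => ∑' n : ℕ, (rr M n : ℂ) * q ^ n) =
      fun M : ℕ => ∏ i ∈ range M, (1 - q ^ (i + 1))⁻¹ := by
    funext M
    exact (rr_good hq M).2.tsum_eq
  rw [h3] at h1
  rw [tendsto_nhds_unique h2 h1]
  exact hs'.hasSum

end PK
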