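import Pool.Agent.helper90.PK.NumBase

/-!
# PK-B13a: choice of the parameters and elementary eventual facts
-/

namespace PK

open Filter Topology

theorem exists_eps {c η ι0 ι1 ρ : ℝ} (hc : 0 < c) (hη : 0 < η) (hι0 : 0 < ι0) (hι1 : 0 < ι1)
    (hι1η : ι1 ≤ η / 8) (hρ : 0 < ρ) :
    ∃ ε K6 : ℝ, 0 < ε ∧ ε ≤ 1 / 8 ∧ ε ≤ ρ / 2 ∧ 1 ≤ K6 ∧
      ι0 * Real.log 2 + ι1 * Real.log (2 * Real.exp 1 / ε) < c * K6 / 8 ∧
      ι0 * Real.log K6 + ι1 * Real.log (2 * Real.exp 1 / ε) + 2 * c <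
        η * Real.log (1 / (4 * ε)) := by
  set a : ℝ := c / (8 * ι0) with ha
  have ha0 : 0 < a := by positivity
  set Cst : ℝ := 2 * (ι1 * (Real.log 2 + 1)) + ι0 * Real.log 2 + 1 + c / 8 -
    ι0 * (1 + Real.log a) + 2 * c + η * Real.log 4 with hCst
  set t : ℝ := max (max (Real.log 8) (Real.log (2 / ρ))) ((|Cst| + 1) / (η / 2)) with ht
  have hlog8 : 0 < Real.log 8 := Real.log_pos (by norm_num)
  have ht0 : 0 < t := lt_of_lt_of_le hlog8 ((le_max_left _ _).trans (le_max_left _ _))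
  have ht8 : Real.log 8 ≤ t := (le_max_left _ _).trans (le_max_left _ _)
  have htρ : Real.log (2 / ρ) ≤ t := (le_max_right _ _).trans (le_max_left _ _)
  have htC : (|Cst| + 1) / (η / 2) ≤ t := le_max_right _ _
  have htC' : Cst + 1 ≤ η / 2 * t := by
    rw [div_le_iff₀ (by positivity)] at htC
    have := le_abs_self Cst
    linarith
  have hlogε : Real.log (2 * Real.exp 1 / Real.exp (-t)) = Real.log 2 + 1 + t := by
    rw [Real.log_div (by positivity) (Real.exp_pos _).ne', Real.log_mul (by norm_num)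
      (Real.exp_pos _).ne', Real.log_exp, Real.log_exp]
    ring
  have hlogε' : Real.log (1 / (4 * Real.exp (-t))) = t - Real.log 4 := by
    rw [one_div, Real.log_inv, Real.log_mul (by norm_num) (Real.exp_pos _).ne', Real.log_exp]
    ring
  have hlog2 : 0 < Real.log 2 := Real.log_pos (by norm_num)
  set A : ℝ := ι0 * Real.log 2 + ι1 * (Real.log 2 + 1 + t) + 1 with hA
  have hA0 : 0 < A := by positivity
  refine ⟨Real.exp (-t), 8 / c * A + 1, Real.exp_pos _, ?_, ?_, ?_, ?_, ?_⟩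
  · rw [Real.exp_neg, one_div]
    apply inv_anti₀ (by norm_num)
    rw [← Real.log_le_iff_le_exp (by norm_num)]
    exact ht8
  · rw [Real.exp_neg]
    have h1 : 2 / ρ ≤ Real.exp t := by
      rw [← Real.log_le_iff_le_exp (by positivity)]
      exact htρ
    rw [inv_le_comm₀ (Real.exp_pos _) (by positivity), inv_div]
    exact h1
  · have : 0 ≤ 8 / c * A := by positivity
    linarith
  · rw [hlogε]
    have : c * (8 / c * A + 1) / 8 = A + c / 8 := by field_simp
    rw [this, hA]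
    linarith
  · rw [hlogε, hlogε']
    have hK : 0 < 8 / c * A + 1 := by positivity
    have h1 : Real.log (8 / c * A + 1) ≤ a * (8 / c * A + 1) - 1 - Real.log a := by
      have := Real.log_le_sub_one_of_pos (mul_pos ha0 hK)
      rw [Real.log_mul ha0.ne' hK.ne'] at this
      linarith
    have h2 : ι0 * Real.log (8 / c * A + 1) ≤ A + c / 8 - ι0 * (1 + Real.log a) := by
      have h3 := mul_le_mul_of_nonneg_left h1 hι0.le
      have h4 : ι0 * (a * (8 / c * A + 1) - 1 - Real.log a) =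
          A + c / 8 - ι0 * (1 + Real.log a) := by
        rw [ha]; field_simp; ring
      linarith
    have h5 : ι1 * t ≤ η / 8 * t := mul_le_mul_of_nonneg_right hι1η ht0.le
    have h6 : A = ι0 * Real.log 2 + ι1 * (Real.log 2 + 1) + ι1 * t + 1 := by rw [hA]; ring
    have h7 : ι1 * (Real.log 2 + 1 + t) = ι1 * (Real.log 2 + 1) + ι1 * t := by ring
    have h8 : 0 < η * t := by positivity
    nlinarith

theorem log_large (M : ℝ) : ∀ᶠ N : ℕ in atTop, M ≤ Real.log N :=
  (Real.tendsto_log_atTop.comp tendsto_natCast_atTop_atTop).eventually_ge_atTop M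

theorem nat_large (M : ℝ) : ∀ᶠ N : ℕ in atTop, M ≤ (N : ℝ) :=
  tendsto_natCast_atTop_atTop.eventually_ge_atTop M

theorem sqrt_large (M : ℝ) : ∀ᶠ N : ℕ in atTop, M ≤ Real.sqrt N :=
  (Real.tendsto_sqrt_atTop.comp tendsto_natCast_atTop_atTop).eventually_ge_atTop M

/-- `cI α N ≤ a √N` eventually -/
theorem cI_le_sqrtN {α a : ℝ} (hα : 0 < α) (ha : 0 < a) :
    ∀ᶠ N : ℕ in atTop, (cI α N : ℝ) ≤ a * Real.sqrt N := by
  filter_upwards [cI_upper hα one_pos, log_large ((α + 1) / a), log_large 1] with N h1 h2 h3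
  refine h1.trans ?_
  have hL : 0 < Real.log N := by linarith
  rw [div_le_iff₀ hL]
  have h4 : α + 1 ≤ a * Real.log N := by
    rw [div_le_iff₀ ha] at h2
    linarith
  calc (α + 1) * Real.sqrt N ≤ (a * Real.log N) * Real.sqrt N :=
        mul_le_mul_of_nonneg_right h4 (Real.sqrt_nonneg _)
    _ = a * Real.sqrt N * Real.log N := by ring

/-- `√N ≤ a N` eventually -/
theorem sqrt_le_lin {a : ℝ} (ha : 0 < a) : ∀ᶠ N : ℕ in atTop, Real.sqrt N ≤ a * N := by
  filter_upwards [sqrt_large (1 / a)] with N h1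
  have h2 : Real.sqrt N * Real.sqrt N = N := Real.mul_self_sqrt (Nat.cast_nonneg N)
  have h3 : 1 ≤ a * Real.sqrt N := by
    rw [div_le_iff₀ ha] at h1
    linarith
  calc Real.sqrt N = 1 * Real.sqrt N := (one_mul _).symm
    _ ≤ (a * Real.sqrt N) * Real.sqrt N := mul_le_mul_of_nonneg_right h3 (Real.sqrt_nonneg _)
    _ = a * N := by rw [mul_assoc, h2]

/-- `N^(1/2+ν) ≤ a N` eventually -/
theorem rpow_le_lin {ν a : ℝ} (hν8 : ν ≤ 1 / 8) (ha : 0 < a) :
    ∀ᶠ N : ℕ in atTop, (N : ℝ) ^ (1 / 2 + ν) ≤ a * N := by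
  have h := (tendsto_rpow_atTop (show (0 : ℝ) < 1 / 2 - ν by linarith)).comp
    (tendsto_natCast_atTop_atTop (R := ℝ))
  filter_upwards [h.eventually_ge_atTop (1 / a), nat_large 1] with N h1 h2
  simp only [Function.comp] at h1
  have hN : (0 : ℝ) < N := by linarith
  have h3 : 1 ≤ a * (N : ℝ) ^ (1 / 2 - ν) := by
    rw [div_le_iff₀ ha] at h1
    linarith
  calc (N : ℝ) ^ (1 / 2 + ν) = 1 * (N : ℝ) ^ (1 / 2 + ν) := (one_mul _).symm
    _ ≤ (a * (N : ℝ) ^ (1 / 2 - ν)) * (N : ℝ) ^ (1 / 2 + ν) :=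
        mul_le_mul_of_nonneg_right h3 (Real.rpow_nonneg hN.le _)
    _ = a * N := by
        rw [mul_assoc, ← Real.rpow_add hN]
        norm_num

theorem sqrt_le_rpow {ν : ℝ} (hν : 0 < ν) {N : ℕ} (hN : 1 ≤ N) :
    Real.sqrt N ≤ (N : ℝ) ^ (1 / 2 + ν) := by
  rw [Real.sqrt_eq_rpow]
  exact Real.rpow_le_rpow_of_exponent_le (by exact_mod_cast hN) (by linarith)

/-- `K N / log N ≤ a N` eventually -/
theorem div_log_le {K a : ℝ} (hK : 0 < K) (ha : 0 < a) :
    ∀ᶠ N : ℕ in atTop, K * N / Real.log N ≤ a * N := by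
  filter_upwards [log_large (K / a), log_large 1] with N h1 h2
  have hL : 0 < Real.log N := by linarith
  rw [div_le_iff₀ hL]
  rw [div_le_iff₀ ha] at h1
  have hN : (0 : ℝ) ≤ N := Nat.cast_nonneg N
  nlinarith

theorem cI_add_le {α β γ : ℝ} (hα : 0 < α) (hβ : 0 < β) (h : α + β < γ) :
    ∀ᶠ N : ℕ in atTop, cI α N + cI β N ≤ cI γ N := by
  set d : ℝ := (γ - α - β) / 2 with hd
  have hd0 : 0 < d := by rw [hd]; linarith
  filter_upwards [cI_upper hα hd0, cI_upper hβ hd0] with N h1 h2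
  have h3 := cI_lower γ N
  have h4 : ((cI α N + cI β N : ℕ) : ℝ) ≤ (cI γ N : ℝ) := by
    push_cast
    have h5 : (α + d) * Real.sqrt N / Real.log N + (β + d) * Real.sqrt N / Real.log N =
        γ * Real.sqrt N / Real.log N := by
      rw [hd]; ring
    linarith
  exact_mod_cast h4

end PK
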