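import Pool.Agent.helper90.PK.Defs

/-!
# PK-B10: lower bound for `(Q e^g)^(I) / e^g` somewhere on `[x* - L1, x*]`
-/

namespace PK

open Polynomial

/-- Taylor estimate along a real segment for a chain of functions `F j` with `F j' = F (j+1)`. -/
private theorem taylor_seg (a b C : ℝ) (hC : 0 ≤ C) : ∀ (I : ℕ) (F : ℕ → ℝ → ℂ),
    (∀ j, ∀ t ∈ Set.Icc a b, HasDerivAt (F j) (F (j + 1) t) t) →
    (∀ t ∈ Set.Icc a b, ‖F I t‖ ≤ C) →
    ∀ t ∈ Set.Icc a b,
      ‖F 0 t - ∑ j ∈ Finset.range I, F j a * ((t - a : ℝ) : ℂ) ^ j / (Nat.factorial j : ℂ)‖ ≤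
        C * (t - a) ^ I / (Nat.factorial I : ℝ) := by
  intro I
  induction I with
  | zero =>
    intro F hF hb t ht
    simpa using hb t ht
  | succ I ih =>
    intro F hF hb
    have h1 := ih (fun j => F (j + 1)) (fun j t ht => hF (j + 1) t ht) hb
    -- the function and its derivative
    have hD : ∀ t ∈ Set.Icc a b, HasDerivAt
        (fun t : ℝ => F 0 t - ∑ j ∈ Finset.range (I + 1),
          F j a * ((t - a : ℝ) : ℂ) ^ j / (Nat.factorial j : ℂ))
        (F 1 t - ∑ j ∈ Finset.range I,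
          F (j + 1) a * ((t - a : ℝ) : ℂ) ^ j / (Nat.factorial j : ℂ)) t := by
      intro t ht
      refine (hF 0 t ht).sub ?_
      have h2 : HasDerivAt (fun t : ℝ => ((t - a : ℝ) : ℂ)) 1 t := by
        have := ((hasDerivAt_id t).sub_const a).ofReal_comp
        simpa using this
      have h3 : ∀ j ∈ Finset.range (I + 1), HasDerivAt
          (fun t : ℝ => F j a * ((t - a : ℝ) : ℂ) ^ j / (Nat.factorial j : ℂ))
          (F j a * ((j : ℂ) * ((t - a : ℝ) : ℂ) ^ (j - 1)) / (Nat.factorial j : ℂ)) t := by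
        intro j _
        have := ((h2.pow j).const_mul (F j a)).div_const (Nat.factorial j : ℂ)
        simpa using this
      have h4 := HasDerivAt.fun_sum h3
      refine h4.congr_deriv ?_
      rw [Finset.sum_range_succ']
      simp only [Nat.cast_zero, zero_mul, mul_zero, zero_div, add_zero]
      refine Finset.sum_congr rfl (fun j _ => ?_)
      have hj : ((j : ℂ) + 1) ≠ 0 := by exact_mod_cast Nat.succ_ne_zero j
      have hf : (Nat.factorial j : ℂ) ≠ 0 := by exact_mod_cast (Nat.factorial_pos j).ne'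
      rw [Nat.factorial_succ]
      push_cast
      field_simp
    have hcont : ContinuousOn (fun t : ℝ => F 0 t - ∑ j ∈ Finset.range (I + 1),
          F j a * ((t - a : ℝ) : ℂ) ^ j / (Nat.factorial j : ℂ)) (Set.Icc a b) :=
      fun t ht => (hD t ht).continuousAt.continuousWithinAt
    intro t ht
    have hB : ∀ x : ℝ, HasDerivAt (fun t : ℝ => C * (t - a) ^ (I + 1) / (Nat.factorial (I + 1) : ℝ))
        (C * (x - a) ^ I / (Nat.factorial I : ℝ)) x := by
      intro x
      have h2 : HasDerivAt (fun t : ℝ => t - a) 1 x := (hasDerivAt_id x).sub_const a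
      have h3 := ((h2.pow (I + 1)).const_mul C).div_const (Nat.factorial (I + 1) : ℝ)
      refine h3.congr_deriv ?_
      have hj : ((I : ℝ) + 1) ≠ 0 := by positivity
      have hf : (Nat.factorial I : ℝ) ≠ 0 := by exact_mod_cast (Nat.factorial_pos I).ne'
      rw [Nat.factorial_succ]
      push_cast
      field_simp
    refine image_norm_le_of_norm_deriv_right_le_deriv_boundary hcont
      (fun x hx => (hD x ⟨hx.1, hx.2.le⟩).hasDerivWithinAt) ?_ hB
      (fun x hx => h1 x ⟨hx.1, hx.2.le⟩) ht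
    have hz : ∑ j ∈ Finset.range (I + 1),
        F j a * ((a - a : ℝ) : ℂ) ^ j / (Nat.factorial j : ℂ) = F 0 a := by
      rw [Finset.sum_range_succ']
      simp
    rw [hz]
    simp

theorem lower_phi {c δ ρ N : ℝ} {g : ℂ → ℂ} (h : LD c δ ρ g N) (hN : 0 < N) (hc : 0 < c)
    (hρ : 0 < ρ) (hρ1 : ρ ≤ 1 / 4) (Q : ℂ[X]) (Λ : ℝ)
    (hQ : ∀ z ∈ Metric.closedBall (N : ℂ) (N / 2), ‖Q.eval z‖ ≤ Λ) (xs : ℝ) (hxs : N ≤ xs)
    (hxs2 : xs ≤ N + ρ * N / 2) (hQ1 : ‖Q.eval (xs : ℂ)‖ = 1) (L1 : ℝ) (hL1 : 0 < L1)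
    (hL1' : L1 ≤ ρ * N / 4) (I : ℕ) (hI : 1 ≤ I)
    (hcond : 2 ^ I * Λ * Real.exp (-(c * L1 / (8 * Real.sqrt N))) ≤ 1 / 2) (B : ℝ)
    (hB : ∀ t ∈ Set.Icc (xs - L1) xs,
      ‖iteratedDeriv I (fun w => Q.eval w * Complex.exp (g w)) (t : ℂ) /
        Complex.exp (g (t : ℂ))‖ ≤ B) :
    1 / 2 ≤ B * L1 ^ I / (Nat.factorial (I - 1) : ℝ) := by
  set f : ℂ → ℂ := fun w => Q.eval w * Complex.exp (g w) with hf
  set y0 : ℝ := xs - L1 with hy0
  have hsN : 0 < Real.sqrt N := Real.sqrt_pos.mpr hN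
  have hρN : ρ * N ≤ N / 4 := by nlinarith
  -- f is analytic on the ball
  have hfd : DifferentiableOn ℂ f (Metric.ball (N : ℂ) (3 * N / 4)) :=
    (Q.differentiable.differentiableOn).mul (h.diff.cexp)
  have hopen : IsOpen (Metric.ball (N : ℂ) (3 * N / 4)) := Metric.isOpen_ball
  have hmem : ∀ z ∈ Metric.closedBall (N : ℂ) (ρ * N), z ∈ Metric.ball (N : ℂ) (3 * N / 4) := by
    intro z hz
    rw [Metric.mem_closedBall] at hz
    rw [Metric.mem_ball]
    linarith
  have hmem2 : ∀ z ∈ Metric.closedBall (N : ℂ) (ρ * N), z ∈ Metric.closedBall (N : ℂ) (N / 2) := by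
    intro z hz
    rw [Metric.mem_closedBall] at hz ⊢
    linarith
  have hreal : ∀ t ∈ Set.Icc y0 xs, (t : ℂ) ∈ Metric.closedBall (N : ℂ) (ρ * N) := by
    intro t ht
    rw [Metric.mem_closedBall, Complex.dist_eq, ← Complex.ofReal_sub, Complex.norm_real,
      Real.norm_eq_abs, abs_le]
    constructor <;> [skip; skip] <;> rcases ht with ⟨h1, h2⟩ <;> nlinarith [mul_pos hρ hN]
  have hxsmem : (xs : ℂ) ∈ Metric.closedBall (N : ℂ) (ρ * N) :=
    hreal xs ⟨by rw [hy0]; linarith, le_refl _⟩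
  -- comparison of real parts
  have hre : ∀ z ∈ Metric.closedBall (N : ℂ) (ρ * N),
      (g z).re - (g xs).re ≤ c / (2 * Real.sqrt N) * (z.re - xs) +
        c / (12 * Real.sqrt N) * ‖z - xs‖ := by
    intro z hz
    have h1 := h.lin z hz xs hxsmem
    have h2 := Complex.re_le_norm (g z - g xs - ((c / (2 * Real.sqrt N) : ℝ) : ℂ) * (z - xs))
    have h3 : (g z - g xs - ((c / (2 * Real.sqrt N) : ℝ) : ℂ) * (z - xs)).re =
        (g z).re - (g xs).re - c / (2 * Real.sqrt N) * (z.re - xs) := by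
      rw [Complex.sub_re, Complex.sub_re, Complex.re_ofReal_mul, Complex.sub_re, Complex.ofReal_re]
    rw [h3] at h2
    linarith
  set G : ℝ := ‖Complex.exp (g (xs : ℂ))‖ with hG
  have hGpos : 0 < G := by rw [hG, Complex.norm_exp]; exact Real.exp_pos _
  have hΛ : 0 ≤ Λ := le_trans (norm_nonneg _) (hQ xs (hmem2 _ hxsmem))
  have hB0 : 0 ≤ B := le_trans (norm_nonneg _) (hB xs ⟨by rw [hy0]; linarith, le_refl _⟩)
  -- (1) Cauchy estimates at y0
  have hsub : Metric.closedBall (y0 : ℂ) (L1 / 2) ⊆ Metric.closedBall (N : ℂ) (ρ * N) := by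
    intro z hz
    rw [Metric.mem_closedBall] at hz ⊢
    have h1 : dist (y0 : ℂ) (N : ℂ) ≤ ρ * N / 2 := by
      rw [Complex.dist_eq, ← Complex.ofReal_sub, Complex.norm_real, Real.norm_eq_abs, abs_le]
      constructor <;> nlinarith [mul_pos hρ hN]
    have h2 := dist_triangle z (y0 : ℂ) (N : ℂ)
    nlinarith [mul_pos hρ hN]
  have hsph : ∀ z ∈ Metric.sphere (y0 : ℂ) (L1 / 2),
      ‖f z‖ ≤ Λ * (G * Real.exp (-(c * L1 / (8 * Real.sqrt N)))) := by
    intro z hz
    have hz1 : z ∈ Metric.closedBall (y0 : ℂ) (L1 / 2) := Metric.sphere_subset_closedBall hz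
    have hz2 := hsub hz1
    have h1 := hre z hz2
    have hnorm : ‖z - (y0 : ℂ)‖ = L1 / 2 := by
      rw [← Complex.dist_eq]; exact hz
    have h4 : z.re - y0 ≤ L1 / 2 := by
      have := Complex.re_le_norm (z - (y0 : ℂ))
      rw [hnorm] at this
      simpa using this
    have h5 : ‖z - (xs : ℂ)‖ ≤ 3 * L1 / 2 := by
      have h6 : z - (xs : ℂ) = (z - (y0 : ℂ)) - (L1 : ℂ) := by
        rw [hy0]; push_cast; ring
      rw [h6]
      refine (norm_sub_le _ _).trans ?_
      rw [hnorm, Complex.norm_real, Real.norm_eq_abs, abs_of_pos hL1]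
      linarith
    have h7 : (g z).re ≤ (g xs).re - c * L1 / (8 * Real.sqrt N) := by
      have ha : c / (2 * Real.sqrt N) * (z.re - xs) ≤ c / (2 * Real.sqrt N) * (-(L1 / 2)) :=
        mul_le_mul_of_nonneg_left (by rw [hy0] at h4; linarith) (by positivity)
      have hb : c / (12 * Real.sqrt N) * ‖z - (xs : ℂ)‖ ≤ c / (12 * Real.sqrt N) * (3 * L1 / 2) :=
        mul_le_mul_of_nonneg_left h5 (by positivity)
      have hc' : c / (2 * Real.sqrt N) * (-(L1 / 2)) + c / (12 * Real.sqrt N) * (3 * L1 / 2) =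
          -(c * L1 / (8 * Real.sqrt N)) := by
        field_simp
        ring
      linarith
    have h8 : ‖f z‖ = ‖Q.eval z‖ * Real.exp (g z).re := by
      rw [hf]
      simp only [norm_mul, Complex.norm_exp]
    rw [h8]
    refine mul_le_mul (hQ z (hmem2 z hz2)) ?_ (Real.exp_pos _).le hΛ
    rw [hG, Complex.norm_exp, ← Real.exp_add]
    exact Real.exp_le_exp.mpr (by linarith)
  have hdc : DiffContOnCl ℂ f (Metric.ball (y0 : ℂ) (L1 / 2)) := by
    refine (hfd.mono ?_).diffContOnCl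
    refine (Metric.closure_ball_subset_closedBall).trans (fun z hz => hmem z (hsub hz))
  have hcau : ∀ j : ℕ, ‖iteratedDeriv j f (y0 : ℂ)‖ * L1 ^ j / (Nat.factorial j : ℝ) ≤
      2 ^ j * (Λ * (G * Real.exp (-(c * L1 / (8 * Real.sqrt N))))) := by
    intro j
    have h1 := Complex.norm_iteratedDeriv_le_of_forall_mem_sphere_norm_le j (half_pos hL1) hdc hsph
    have hfj : (0 : ℝ) < (Nat.factorial j : ℝ) := by exact_mod_cast Nat.factorial_pos j
    rw [div_le_iff₀ hfj]
    have h2 : ‖iteratedDeriv j f (y0 : ℂ)‖ * L1 ^ j ≤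
        ((Nat.factorial j : ℝ) * (Λ * (G * Real.exp (-(c * L1 / (8 * Real.sqrt N))))) /
          (L1 / 2) ^ j) * L1 ^ j := mul_le_mul_of_nonneg_right h1 (by positivity)
    refine h2.trans (le_of_eq ?_)
    rw [div_pow]
    field_simp
  -- (2) the I-th derivative on the segment
  have hIb : ∀ t ∈ Set.Icc y0 xs, ‖iteratedDeriv I f (t : ℂ)‖ ≤ B * G := by
    intro t ht
    have h1 := hB t ht
    rw [norm_div] at h1
    have hp : 0 < ‖Complex.exp (g (t : ℂ))‖ := by rw [Complex.norm_exp]; exact Real.exp_pos _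
    rw [div_le_iff₀ hp] at h1
    refine h1.trans (mul_le_mul_of_nonneg_left ?_ hB0)
    rw [hG, Complex.norm_exp, Complex.norm_exp]
    refine Real.exp_le_exp.mpr ?_
    have h2 := hre t (hreal t ht)
    have h3 : ‖(t : ℂ) - (xs : ℂ)‖ = xs - t := by
      rw [← Complex.ofReal_sub, Complex.norm_real, Real.norm_eq_abs, abs_of_nonpos (by linarith [ht.2])]
      ring
    rw [h3, Complex.ofReal_re] at h2
    have h4 : c / (12 * Real.sqrt N) ≤ c / (2 * Real.sqrt N) := by
      apply div_le_div_of_nonneg_left hc.le (by positivity) (by nlinarith)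
    have h5 : c / (12 * Real.sqrt N) * (xs - t) ≤ c / (2 * Real.sqrt N) * (xs - t) :=
      mul_le_mul_of_nonneg_right h4 (by linarith [ht.2])
    nlinarith
  -- (3) Taylor
  have hder : ∀ j : ℕ, ∀ t ∈ Set.Icc y0 xs,
      HasDerivAt (fun t : ℝ => iteratedDeriv j f (t : ℂ)) (iteratedDeriv (j + 1) f (t : ℂ)) t := by
    intro j t ht
    have hana : AnalyticAt ℂ f (t : ℂ) :=
      hfd.analyticAt (hopen.mem_nhds (hmem _ (hreal t ht)))
    have hana2 : AnalyticAt ℂ (iteratedDeriv j f) (t : ℂ) := by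
      have := hana.iterated_deriv j
      rwa [← iteratedDeriv_eq_iterate] at this
    have h1 := hana2.differentiableAt.hasDerivAt
    rw [← iteratedDeriv_succ] at h1
    have h2 := h1.comp_ofReal
    exact h2
  have hT := taylor_seg y0 xs (B * G) (by positivity) I (fun j t => iteratedDeriv j f (t : ℂ))
    hder hIb xs ⟨by rw [hy0]; linarith, le_refl _⟩
  have hxy : xs - y0 = L1 := by rw [hy0]; ring
  simp only [iteratedDeriv_zero, hxy] at hT
  have hfx : ‖f (xs : ℂ)‖ = G := by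
    rw [hf]
    simp only [norm_mul, hQ1, one_mul, hG]
  have hsum : ‖∑ j ∈ Finset.range I, iteratedDeriv j f (y0 : ℂ) * ((L1 : ℝ) : ℂ) ^ j /
      (Nat.factorial j : ℂ)‖ ≤ G / 2 := by
    refine (norm_sum_le _ _).trans ?_
    have h1 : ∀ j ∈ Finset.range I, ‖iteratedDeriv j f (y0 : ℂ) * ((L1 : ℝ) : ℂ) ^ j /
        (Nat.factorial j : ℂ)‖ ≤
        2 ^ j * (Λ * (G * Real.exp (-(c * L1 / (8 * Real.sqrt N))))) := by
      intro j _
      refine le_trans (le_of_eq ?_) (hcau j)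
      rw [norm_div, norm_mul, norm_pow, Complex.norm_real, Real.norm_eq_abs, abs_of_pos hL1,
        Complex.norm_natCast]
    refine (Finset.sum_le_sum h1).trans ?_
    rw [← Finset.sum_mul]
    have h2 : ∑ j ∈ Finset.range I, (2 : ℝ) ^ j ≤ 2 ^ I := by
      rw [geom_sum_eq (by norm_num)]
      norm_num
    have h3 : 0 ≤ Λ * (G * Real.exp (-(c * L1 / (8 * Real.sqrt N)))) := by positivity
    refine (mul_le_mul_of_nonneg_right h2 h3).trans ?_
    have h4 : (2 : ℝ) ^ I * (Λ * (G * Real.exp (-(c * L1 / (8 * Real.sqrt N))))) =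
        (2 ^ I * Λ * Real.exp (-(c * L1 / (8 * Real.sqrt N)))) * G := by ring
    rw [h4]
    calc _ ≤ 1 / 2 * G := mul_le_mul_of_nonneg_right hcond hGpos.le
      _ = G / 2 := by ring
  have hfin : G ≤ G / 2 + B * G * L1 ^ I / (Nat.factorial I : ℝ) := by
    have h1 := norm_sub_norm_le (f (xs : ℂ)) (∑ j ∈ Finset.range I,
      iteratedDeriv j f (y0 : ℂ) * ((L1 : ℝ) : ℂ) ^ j / (Nat.factorial j : ℂ))
    rw [hfx] at h1
    linarith
  have hfin2 : 1 / 2 ≤ B * L1 ^ I / (Nat.factorial I : ℝ) := by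
    have h1 : G * (1 / 2) ≤ G * (B * L1 ^ I / (Nat.factorial I : ℝ)) := by
      have : G * (B * L1 ^ I / (Nat.factorial I : ℝ)) = B * G * L1 ^ I / (Nat.factorial I : ℝ) := by
        ring
      rw [this]; linarith
    exact le_of_mul_le_mul_left h1 hGpos
  refine hfin2.trans ?_
  apply div_le_div_of_nonneg_left (by positivity)
  · exact_mod_cast Nat.factorial_pos (I - 1)
  · exact_mod_cast Nat.factorial_le (Nat.sub_le I 1)

end PK
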