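import Pool.Agent.helper90.PK.Defs

/-!
# PK-B11: a three circles estimate by Taylor coefficients

Proof sketch. `Φ = ∑ φ_j (z-c)^j` on `ball c R`; Cauchy estimates: `‖φ_j‖ ≤ Ar r^(-j)` and
`‖φ_j‖ ≤ AR R'^(-j)` for every `R' < R`, hence `≤ AR R^(-j)` in the limit. For `‖z - c‖ ≤ ρ`:
`∑_{j<l} Ar (ρ/r)^j ≤ l Ar (ρ/r)^l` and `∑_{j≥l} AR (ρ/R)^j ≤ 2 AR (ρ/R)^l` (`ρ/R ≤ 1/2`).
(`Complex.hasSum_taylorSeries_on_ball` or `DifferentiableOn.hasFPowerSeriesOnBall`,
`Complex.norm_iteratedDeriv_le_of_forall_mem_sphere_norm_le`.)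
-/

namespace PK

/-- Cauchy's estimate on a circle of radius `s < R`. -/
theorem three_circle_coef {Φ : ℂ → ℂ} {c : ℂ} {R s A : ℝ} (hs0 : 0 < s) (hsR : s < R)
    (hΦ : DifferentiableOn ℂ Φ (Metric.ball c R))
    (hA : ∀ z ∈ Metric.closedBall c s, ‖Φ z‖ ≤ A) (j : ℕ) :
    ‖((Nat.factorial j : ℂ))⁻¹ * iteratedDeriv j Φ c‖ ≤ A / s ^ j := by
  have hd : DiffContOnCl ℂ Φ (Metric.ball c s) := by
    apply DifferentiableOn.diffContOnCl
    rw [closure_ball c hs0.ne']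
    exact hΦ.mono (Metric.closedBall_subset_ball hsR)
  have h := Complex.norm_iteratedDeriv_le_of_forall_mem_sphere_norm_le j hs0 hd
    (fun z hz => hA z (Metric.sphere_subset_closedBall hz))
  have hf : (0 : ℝ) < (Nat.factorial j : ℝ) := by exact_mod_cast Nat.factorial_pos j
  rw [norm_mul, norm_inv, Complex.norm_natCast, inv_mul_le_iff₀ hf]
  calc ‖iteratedDeriv j Φ c‖ ≤ (Nat.factorial j : ℝ) * A / s ^ j := h
    _ = (Nat.factorial j : ℝ) * (A / s ^ j) := by ring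

theorem three_circle {Φ : ℂ → ℂ} {c : ℂ} {R r ρ AR Ar : ℝ} (hr0 : 0 < r) (hrρ : r ≤ ρ)
    (hρR : ρ ≤ R / 2) (hΦ : DifferentiableOn ℂ Φ (Metric.ball c R))
    (hR : ∀ z ∈ Metric.ball c R, ‖Φ z‖ ≤ AR) (hr : ∀ z ∈ Metric.closedBall c r, ‖Φ z‖ ≤ Ar)
    (l : ℕ) : ∀ z ∈ Metric.closedBall c ρ,
      ‖Φ z‖ ≤ l * Ar * (ρ / r) ^ l + 2 * AR * (ρ / R) ^ l := by
  intro z hz
  have hρ0 : 0 < ρ := lt_of_lt_of_le hr0 hrρ
  have hR0 : 0 < R := by linarith
  have hρR' : ρ < R := by linarith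
  have hzR : z ∈ Metric.ball c R := Metric.closedBall_subset_ball hρR' hz
  have hAr0 : 0 ≤ Ar := le_trans (norm_nonneg _) (hr c (Metric.mem_closedBall_self hr0.le))
  have hAR0 : 0 ≤ AR := le_trans (norm_nonneg _) (hR c (Metric.mem_ball_self hR0))
  have hzn : ‖z - c‖ ≤ ρ := by
    rw [← dist_eq_norm]
    exact Metric.mem_closedBall.mp hz
  -- coefficients
  set φ : ℕ → ℂ := fun j => ((Nat.factorial j : ℂ))⁻¹ * iteratedDeriv j Φ c with hφ
  have hφr : ∀ j, ‖φ j‖ ≤ Ar / r ^ j := fun j =>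
    three_circle_coef hr0 (lt_of_le_of_lt hrρ hρR') hΦ hr j
  have hφR : ∀ j, ‖φ j‖ ≤ AR / R ^ j := by
    intro j
    have hev : ∀ᶠ s in nhdsWithin R (Set.Iio R), ‖φ j‖ ≤ AR / s ^ j := by
      have h1 : ∀ᶠ s in nhdsWithin R (Set.Iio R), 0 < s :=
        (lt_mem_nhds hR0).filter_mono nhdsWithin_le_nhds
      have h2 : ∀ᶠ s in nhdsWithin R (Set.Iio R), s < R := self_mem_nhdsWithin
      filter_upwards [h1, h2] with s hs1 hs2
      exact three_circle_coef hs1 hs2 hΦ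
        (fun w hw => hR w (Metric.closedBall_subset_ball hs2 hw)) j
    have hlim : Filter.Tendsto (fun s : ℝ => AR / s ^ j) (nhdsWithin R (Set.Iio R))
        (nhds (AR / R ^ j)) := by
      apply Filter.Tendsto.mono_left _ nhdsWithin_le_nhds
      exact (continuousAt_const.div (continuousAt_id.pow j) (pow_ne_zero j hR0.ne')).tendsto
    exact ge_of_tendsto hlim hev
  have hsum : HasSum (fun j : ℕ => φ j * (z - c) ^ j) (Φ z) := by
    have h := Complex.hasSum_taylorSeries_on_ball hΦ hzR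
    have he : (fun j : ℕ => φ j * (z - c) ^ j) =
        fun n : ℕ => ((Nat.factorial n : ℂ))⁻¹ • (z - c) ^ n • iteratedDeriv n Φ c := by
      funext j
      simp only [hφ, smul_eq_mul]
      ring
    rw [he]
    exact h
  -- bounds of the terms
  have hR1 : ∀ j, ‖φ j * (z - c) ^ j‖ ≤ AR * (ρ / R) ^ j := by
    intro j
    rw [norm_mul, norm_pow]
    calc ‖φ j‖ * ‖z - c‖ ^ j ≤ (AR / R ^ j) * ρ ^ j :=
          mul_le_mul (hφR j) (pow_le_pow_left₀ (norm_nonneg _) hzn j) (by positivity)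
            (by positivity)
      _ = AR * (ρ / R) ^ j := by rw [div_pow]; ring
  have hr1 : ∀ j, ‖φ j * (z - c) ^ j‖ ≤ Ar * (ρ / r) ^ j := by
    intro j
    rw [norm_mul, norm_pow]
    calc ‖φ j‖ * ‖z - c‖ ^ j ≤ (Ar / r ^ j) * ρ ^ j :=
          mul_le_mul (hφr j) (pow_le_pow_left₀ (norm_nonneg _) hzn j) (by positivity)
            (by positivity)
      _ = Ar * (ρ / r) ^ j := by rw [div_pow]; ring
  have hq0 : 0 ≤ ρ / R := by positivity
  have hq1 : ρ / R ≤ 1 / 2 := by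
    rw [div_le_iff₀ hR0]; linarith
  have hgeo : Summable (fun j : ℕ => AR * (ρ / R) ^ (j + l)) := by
    have h0 : Summable (fun j : ℕ => (ρ / R) ^ j) :=
      summable_geometric_of_lt_one hq0 (by linarith)
    have h1 := (h0.mul_left (AR * (ρ / R) ^ l))
    refine h1.congr (fun j => ?_)
    rw [pow_add]; ring
  have hsplit := hsum.summable.sum_add_tsum_nat_add l
  rw [← hsum.tsum_eq, ← hsplit]
  refine le_trans (norm_add_le _ _) (add_le_add ?_ ?_)
  · refine le_trans (norm_sum_le _ _) ?_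
    have hone : 1 ≤ ρ / r := by rw [le_div_iff₀ hr0]; linarith
    calc ∑ j ∈ Finset.range l, ‖φ j * (z - c) ^ j‖
        ≤ ∑ j ∈ Finset.range l, Ar * (ρ / r) ^ l := by
          apply Finset.sum_le_sum
          intro j hj
          refine le_trans (hr1 j) (mul_le_mul_of_nonneg_left ?_ hAr0)
          exact pow_le_pow_right₀ hone (le_of_lt (Finset.mem_range.mp hj))
      _ = l * Ar * (ρ / r) ^ l := by
          rw [Finset.sum_const, Finset.card_range, nsmul_eq_mul]; ring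
  · have hb : ‖∑' j : ℕ, φ (j + l) * (z - c) ^ (j + l)‖ ≤ ∑' j : ℕ, AR * (ρ / R) ^ (j + l) :=
      tsum_of_norm_bounded hgeo.hasSum (fun j => hR1 (j + l))
    refine le_trans hb ?_
    have h0 : Summable (fun j : ℕ => (ρ / R) ^ j) :=
      summable_geometric_of_lt_one hq0 (by linarith)
    have heq : ∑' j : ℕ, AR * (ρ / R) ^ (j + l) = (AR * (ρ / R) ^ l) * (1 - ρ / R)⁻¹ := by
      rw [← tsum_geometric_of_lt_one hq0 (by linarith), ← tsum_mul_left]
      apply tsum_congr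
      intro j
      rw [pow_add]; ring
    rw [heq]
    have hinv : (1 - ρ / R)⁻¹ ≤ 2 := by
      rw [inv_le_comm₀ (by linarith) (by norm_num)]
      linarith
    calc (AR * (ρ / R) ^ l) * (1 - ρ / R)⁻¹ ≤ (AR * (ρ / R) ^ l) * 2 :=
          mul_le_mul_of_nonneg_left hinv (by positivity)
      _ = 2 * AR * (ρ / R) ^ l := by ring

end PK
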