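import Pool.Agent.helper90.PK.Defs

/-!
# PK-B9: upper bound for `(Q e^g)^(I) / e^g`

Proof sketch. `closedBall z r ⊆ closedBall N (N/2) ⊆ ball N (3N/4)`. Cauchy estimate
(`Complex.norm_iteratedDeriv_le_of_forall_mem_sphere_norm_le`) on the circle of radius `r` around
`z` for `w ↦ Q(w) e^(g w)`: `‖Q(w)‖ ≤ Λ`, `‖e^(g w)‖ = ‖e^(g z)‖ e^(Re (g w - g z)) ≤
‖e^(g z)‖ e^(2c r/√N)` (`LD.lip`).
-/

namespace PK

open Polynomial

theorem upper_phi {c δ ρ N : ℝ} {g : ℂ → ℂ} (h : LD c δ ρ g N) (hN : 0 < N) (Q : ℂ[X]) (Λ : ℝ)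
    (hQ : ∀ z ∈ Metric.closedBall (N : ℂ) (N / 2), ‖Q.eval z‖ ≤ Λ) (I : ℕ) (r : ℝ) (hr : 0 < r)
    (hr2 : r ≤ N / 4) (z : ℂ) (hz : z ∈ Metric.closedBall (N : ℂ) (N / 4)) :
    ‖iteratedDeriv I (fun w => Q.eval w * Complex.exp (g w)) z / Complex.exp (g z)‖ ≤
      (Nat.factorial I : ℝ) / r ^ I * Λ * Real.exp (2 * c * r / Real.sqrt N) := by
  have hzN : z ∈ Metric.closedBall (N : ℂ) (N / 2) :=
    Metric.closedBall_subset_closedBall (by linarith) hz
  have hsub : Metric.closedBall z r ⊆ Metric.closedBall (N : ℂ) (N / 2) := by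
    intro w hw
    rw [Metric.mem_closedBall] at hw hz ⊢
    calc dist w (N : ℂ) ≤ dist w z + dist z (N : ℂ) := dist_triangle _ _ _
      _ ≤ r + N / 4 := add_le_add hw hz
      _ ≤ N / 2 := by linarith
  have hsub2 : Metric.closedBall (N : ℂ) (N / 2) ⊆ Metric.ball (N : ℂ) (3 * N / 4) :=
    Metric.closedBall_subset_ball (by linarith)
  have hd : DifferentiableOn ℂ (fun w => Q.eval w * Complex.exp (g w))
      (Metric.ball (N : ℂ) (3 * N / 4)) :=
    (Q.differentiable.differentiableOn).mul h.diff.cexp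
  have hdc : DiffContOnCl ℂ (fun w => Q.eval w * Complex.exp (g w)) (Metric.ball z r) := by
    apply DifferentiableOn.diffContOnCl
    rw [closure_ball z hr.ne']
    exact hd.mono (hsub.trans hsub2)
  have hc0 : 0 < Real.sqrt N := Real.sqrt_pos.mpr hN
  have hsph : ∀ w ∈ Metric.sphere z r,
      ‖(fun w => Q.eval w * Complex.exp (g w)) w‖ ≤
        Λ * (‖Complex.exp (g z)‖ * Real.exp (2 * c * r / Real.sqrt N)) := by
    intro w hw
    have hwc : w ∈ Metric.closedBall (N : ℂ) (N / 2) :=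
      hsub (Metric.sphere_subset_closedBall hw)
    have h1 := hQ w hwc
    have h2 := h.lip w hwc z hzN
    have hwz : ‖w - z‖ = r := by
      rw [← dist_eq_norm]; exact Metric.mem_sphere.mp hw
    rw [hwz] at h2
    have h3 : ‖Complex.exp (g w)‖ ≤ ‖Complex.exp (g z)‖ * Real.exp (2 * c * r / Real.sqrt N) := by
      rw [Complex.norm_exp, Complex.norm_exp, ← Real.exp_add]
      apply Real.exp_le_exp.mpr
      have h4 : (g w - g z).re ≤ ‖g w - g z‖ := Complex.re_le_norm _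
      rw [Complex.sub_re] at h4
      have h5 : 2 * c / Real.sqrt N * r = 2 * c * r / Real.sqrt N := by ring
      rw [h5] at h2
      linarith
    show ‖Q.eval w * Complex.exp (g w)‖ ≤ _
    rw [norm_mul]
    exact mul_le_mul h1 h3 (norm_nonneg _) ((norm_nonneg _).trans h1)
  have hC := Complex.norm_iteratedDeriv_le_of_forall_mem_sphere_norm_le I hr hdc hsph
  rw [norm_div]
  have he : 0 < ‖Complex.exp (g z)‖ := norm_pos_iff.mpr (Complex.exp_ne_zero _)
  rw [div_le_iff₀ he]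
  refine hC.trans (le_of_eq ?_)
  ring

end PK
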