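import Pool.Agent.helper90.PK.Relation
import Pool.Agent.helper90.PK.ESmall
import Pool.Agent.helper90.PK.UpperPhi
import Pool.Agent.helper90.PK.LowerPhi
import Pool.Agent.helper90.PK.ThreeCircle

/-!
# PK-B13b: the argument at one `N`, with explicit numerical hypotheses
-/

namespace PK

open Filter Topology Polynomial

theorem poly_analyticAt (P : ℂ[X]) (z : ℂ) : AnalyticAt ℂ (fun w => P.eval w) z := by
  have := AnalyticAt.aeval_polynomial (analyticAt_id (𝕜 := ℂ) (z := z)) P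
  simpa [Polynomial.coe_aeval_eq_eval] using this

theorem iteratedDeriv_poly (P : ℂ[X]) (n : ℕ) :
    iteratedDeriv n (fun w : ℂ => P.eval w) = fun w => (derivative^[n] P).eval w := by
  induction n generalizing P with
  | zero => simp
  | succ n ih =>
    rw [iteratedDeriv_succ']
    have : deriv (fun w : ℂ => P.eval w) = fun w => (derivative P).eval w := by
      funext w; exact P.deriv
    rw [this, ih]
    rfl

theorem iteratedDeriv_poly_add {P : ℂ[X]} {n : ℕ} (hP : P.degree < n) {f : ℂ → ℂ} {z : ℂ}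
    (hf : AnalyticAt ℂ f z) :
    iteratedDeriv n (fun w => P.eval w + f w) z = iteratedDeriv n f z := by
  rw [iteratedDeriv_fun_add (poly_analyticAt P z).contDiffAt hf.contDiffAt, iteratedDeriv_poly]
  have : derivative^[n] P = 0 := by
    rcases eq_or_ne P 0 with h | h
    · subst h; simp
    · apply Polynomial.iterate_derivative_eq_zero
      exact (Polynomial.natDegree_lt_iff_degree_lt h).2 hP
  simp [this]

/-- normalisation: a nonzero polynomial can be scaled so that its maximal modulus on an interval is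
`1`, attained at `xs` -/
theorem exists_norm {Q : ℂ[X]} (hQ : Q ≠ 0) {a b : ℝ} (hab : a < b) :
    ∃ xs ∈ Set.Icc a b, ∃ u : ℂ, u ≠ 0 ∧ ‖(C u * Q).eval (xs : ℂ)‖ = 1 ∧
      ∀ x ∈ Set.Icc a b, ‖(C u * Q).eval (x : ℂ)‖ ≤ 1 := by
  have hcont : ContinuousOn (fun x : ℝ => ‖Q.eval (x : ℂ)‖) (Set.Icc a b) := by
    apply Continuous.continuousOn
    exact (Q.continuous.comp Complex.continuous_ofReal).norm
  obtain ⟨xs, hxs, hmax⟩ := isCompact_Icc.exists_isMaxOn (Set.nonempty_Icc.2 hab.le) hcont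
  have hpos : 0 < ‖Q.eval (xs : ℂ)‖ := by
    by_contra hneg
    have h0 : ‖Q.eval (xs : ℂ)‖ = 0 := le_antisymm (not_lt.1 hneg) (norm_nonneg _)
    apply hQ
    apply Polynomial.eq_zero_of_infinite_isRoot
    have hinf : (Set.Icc a b).Infinite := Set.Icc_infinite hab
    have himg : ((fun x : ℝ => (x : ℂ)) '' Set.Icc a b).Infinite :=
      hinf.image Complex.ofReal_injective.injOn
    refine himg.mono ?_
    rintro _ ⟨x, hx, rfl⟩
    have h1 : ‖Q.eval (x : ℂ)‖ ≤ ‖Q.eval (xs : ℂ)‖ := hmax hx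
    rw [h0] at h1
    exact norm_le_zero_iff.1 h1
  refine ⟨xs, hxs, ((‖Q.eval (xs : ℂ)‖⁻¹ : ℝ) : ℂ), ?_, ?_, ?_⟩
  · exact_mod_cast inv_ne_zero hpos.ne'
  · rw [eval_mul, eval_C, norm_mul, Complex.norm_real, Real.norm_of_nonneg (inv_nonneg.2 hpos.le)]
    exact inv_mul_cancel₀ hpos.ne'
  · intro x hx
    rw [eval_mul, eval_C, norm_mul, Complex.norm_real, Real.norm_of_nonneg (inv_nonneg.2 hpos.le)]
    rw [inv_mul_le_iff₀ hpos, mul_one]
    exact hmax hx

/-- the core argument for one `N` -/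
theorem core {c δ ρ η ε K6 Ψ : ℝ} {g : ℂ → ℂ} {N : ℕ} (hc : 0 < c) (hη : 0 < η) (hρ : 0 < ρ)
    (hρ1 : ρ ≤ 1 / 4) (hε : 0 < ε) (hε8 : ε ≤ 1 / 8) (hερ : ε ≤ ρ / 2)
    (hLD : LD c δ ρ g (N : ℝ)) (hN8 : 8 ≤ N) (hL : 0 < Real.log N)
    (I0 I1 l s : ℕ) (hI0 : 1 ≤ I0) (hI1 : 1 ≤ I1) (hDs : I0 + I1 ≤ s) (H : ℝ) (hH1 : 1 ≤ H)
    (hHε : H ≤ ε * N) (hI : ((I0 + I1 : ℕ) : ℝ) ≤ ρ * N) (hIH : (I0 : ℝ) ≤ H / 2)
    (hL1 : K6 * N / Real.log N ≤ ε * N / 2) (hK6 : 0 < K6) (hr : N / Real.log N ≤ (N : ℝ) / 4)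
    (h1 : detB c δ ρ η N H I0 I1 < 1)
    (h2 : 2 * Real.exp (-(2 * η * Real.sqrt N)) * (4 * H) ^ s / (Nat.factorial (s - 1) : ℝ) +
      Real.exp (Ψ * Real.sqrt N) * (6 * H / N) ^ s ≤ Real.exp (-(η * Real.sqrt N)))
    (h3 : (Real.exp ((c + δ) * Real.sqrt N) + 1) * (2 * (N : ℝ)) ^ (I0 - 1) /
        (Nat.factorial (I0 - 1) : ℝ) +
      (2 * Real.exp 1 / ε) ^ I1 * Real.exp (3 / 2 * c * Real.sqrt N) ≤ Real.exp (Ψ * Real.sqrt N))
    (h4 : (l : ℝ) * Real.exp (-((η + c - δ) * Real.sqrt N)) * (ε * N / (H / 2)) ^ l *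
        (K6 * N / Real.log N) ^ I0 / (Nat.factorial (I0 - 1) : ℝ) < 1 / 4)
    (h5 : 2 * ((Nat.factorial I0 : ℝ) / (N / Real.log N) ^ I0 * (2 * Real.exp 1 / ε) ^ I1 *
        Real.exp (2 * c * (N / Real.log N) / Real.sqrt N)) * (ε * N / (N / 4)) ^ l *
        (K6 * N / Real.log N) ^ I0 / (Nat.factorial (I0 - 1) : ℝ) < 1 / 4)
    (h6 : 2 ^ I0 * (2 * Real.exp 1 / ε) ^ I1 *
        Real.exp (-(c * (K6 * N / Real.log N) / (8 * Real.sqrt N))) ≤ 1 / 2)
    (x : Fin s → ℕ) (hx : StrictMono x) (hxN : ∀ i, N ≤ x i) (hxH : ∀ i, (x i : ℝ) ≤ N + H)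
    (m : Fin s → ℤ)
    (hm : ∀ i, ‖(m i : ℂ) - Complex.exp (g (x i : ℂ))‖ ≤ Real.exp (-(2 * η * Real.sqrt N))) :
    False := by
  have hN0 : (0 : ℝ) < N := by
    have : 0 < N := by omega
    exact_mod_cast this
  have hN8' : (8 : ℝ) ≤ N := by exact_mod_cast hN8
  have hq : 0 < Real.sqrt N := Real.sqrt_pos.2 hN0
  have hρN : ε * N ≤ ρ * N / 2 := by nlinarith
  have hεN8 : ε * N ≤ N / 8 := by nlinarith
  have hH0 : 0 < H := by linarith
  -- the relation
  obtain ⟨P, Q, hQ0, hPd, hQd, hrel⟩ := relation (c := c) (δ := δ) (ρ := ρ) (η := η) (g := g)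
    (N := N) (by omega) hLD hρ hρ1 I0 I1 hI0 hI1 H hH1 (by linarith) hI s hDs x hx hxN hxH m hm h1
  obtain ⟨xs, hxsm, u, hu, hQ1, hQle⟩ := exists_norm hQ0
    (show (N : ℝ) < N + ε * N by nlinarith)
  obtain ⟨hxs1, hxs2⟩ := hxsm
  set Q1 : ℂ[X] := C u * Q with hQ1def
  set P1 : ℂ[X] := C u * P with hP1def
  have hrel1 : ∀ i, P1.eval (x i : ℂ) + Q1.eval (x i : ℂ) * (m i : ℂ) = 0 := by
    intro i
    have := hrel i
    rw [hP1def, hQ1def, eval_mul, eval_mul, eval_C]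
    linear_combination u * this
  have hdegC : ∀ R : ℂ[X], (C u * R).degree = R.degree := fun R => by
    rw [degree_mul, degree_C hu, zero_add]
  have hP1d : P1.degree < ((I0 - 1 + 1 : ℕ)) := by
    rw [hP1def, hdegC, Nat.sub_add_cancel hI0]; exact hPd
  have hP1d' : P1.degree < (I0 : ℕ) := by rw [hP1def, hdegC]; exact hPd
  have hQ1d : Q1.degree < ((I1 - 1 + 1 : ℕ)) := by
    rw [hQ1def, hdegC, Nat.sub_add_cancel hI1]; exact hQd
  -- growth of Q1
  have hbase : 1 ≤ 2 * Real.exp 1 / ε := by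
    rw [le_div_iff₀ hε]
    have := Real.add_one_le_exp (1 : ℝ)
    linarith
  have hQgrow : ∀ z ∈ Metric.closedBall ((N : ℝ) : ℂ) ((N : ℝ) / 2),
      ‖Q1.eval z‖ ≤ (2 * Real.exp 1 / ε) ^ I1 := by
    intro z hz
    refine (poly_growth (I1 - 1) Q1 hQ1d N ε hN0 hε (by linarith) hQle z hz).trans ?_
    exact pow_le_pow_right₀ hbase (Nat.sub_le _ _)
  -- points are in the interval
  have hxI : ∀ i, (x i : ℝ) ∈ Set.Icc (N : ℝ) (N + ε * N) := fun i =>
    ⟨by exact_mod_cast hxN i, (hxH i).trans (by linarith)⟩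
  have hball : ∀ i, ((x i : ℝ) : ℂ) ∈ Metric.closedBall ((N : ℝ) : ℂ) (ρ * N) := by
    intro i
    rw [Metric.mem_closedBall, dist_eq_norm, ← Complex.ofReal_sub, Complex.norm_real,
      Real.norm_eq_abs, abs_le]
    have := hxI i
    exact ⟨by have := this.1; nlinarith, by have := this.2; nlinarith⟩
  have hGx : ∀ i, ‖Complex.exp (g (x i : ℂ))‖ ≤ Real.exp ((c + δ) * Real.sqrt N) := by
    intro i
    rw [Complex.norm_exp]
    apply Real.exp_le_exp.2
    have h7 := hLD.loc _ (hball i)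
    have h8 := (abs_le.1 h7).2
    have h9 : ((x i : ℝ) : ℂ) = (x i : ℂ) := by push_cast; rfl
    rw [h9] at h8
    linarith
  have hexp1 : Real.exp (-(2 * η * Real.sqrt N)) ≤ 1 := by
    rw [Real.exp_le_one_iff]
    have : 0 < η * Real.sqrt N := by positivity
    linarith
  have hmx : ∀ i, ‖(m i : ℂ)‖ ≤ Real.exp ((c + δ) * Real.sqrt N) + 1 := by
    intro i
    have h7 : (m i : ℂ) = ((m i : ℂ) - Complex.exp (g (x i : ℂ))) + Complex.exp (g (x i : ℂ)) := by
      ring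
    rw [h7]
    refine (norm_add_le _ _).trans ?_
    have := hm i
    have := hGx i
    linarith
  have hQx : ∀ i, ‖Q1.eval (x i : ℂ)‖ ≤ 1 := by
    intro i
    have := hQle (x i : ℝ) (hxI i)
    simpa using this
  have hPx : ∀ i, ‖P1.eval (x i : ℂ)‖ ≤ Real.exp ((c + δ) * Real.sqrt N) + 1 := by
    intro i
    have h7 : P1.eval (x i : ℂ) = -(Q1.eval (x i : ℂ) * (m i : ℂ)) :=
      eq_neg_of_add_eq_zero_left (hrel1 i)
    rw [h7, norm_neg, norm_mul]
    calc ‖Q1.eval (x i : ℂ)‖ * ‖(m i : ℂ)‖ ≤ 1 * (Real.exp ((c + δ) * Real.sqrt N) + 1) :=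
          mul_le_mul (hQx i) (hmx i) (norm_nonneg _) zero_le_one
      _ = _ := one_mul _
  -- extended point sequence
  have hspos : 0 < s := by omega
  set xx : ℕ → ℝ := fun i => if h : i < s then (x ⟨i, h⟩ : ℝ) else (x ⟨s - 1, by omega⟩ : ℝ)
    with hxx
  have hxx_lt : ∀ i (h : i < s), xx i = (x ⟨i, h⟩ : ℝ) := fun i h => by
    simp only [hxx]; rw [dif_pos h]
  have hgap : ∀ i j (hij : i < j) (hj : j < s), ((j : ℝ) - i) ≤ xx j - xx i := by
    intro i j hij hj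
    rw [hxx_lt j hj, hxx_lt i (hij.trans hj)]
    have key : ∀ d i, (hd : i + d < s) → (x ⟨i, by omega⟩) + d ≤ x ⟨i + d, hd⟩ := by
      intro d
      induction d with
      | zero => intro i hd; simp
      | succ d ih =>
        intro i hd
        have h8 := ih i (by omega)
        have h9 : x ⟨i + d, by omega⟩ < x ⟨i + (d + 1), hd⟩ := hx (by
          rw [Fin.lt_def]; simp)
        omega
    obtain ⟨d, rfl⟩ : ∃ d, j = i + d := ⟨j - i, by omega⟩
    have h8 := key d i hj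
    have h9 : ((x ⟨i, by omega⟩ : ℕ) : ℝ) + d ≤ (x ⟨i + d, hj⟩ : ℕ) := by exact_mod_cast h8
    push_cast
    linarith
  -- the bound of P1 on the big ball
  have hPgrow : ∀ z ∈ Metric.closedBall ((N : ℝ) : ℂ) ((N : ℝ) / 2),
      ‖P1.eval z‖ ≤ (Real.exp ((c + δ) * Real.sqrt N) + 1) * (2 * (N : ℝ)) ^ (I0 - 1) /
        (Nat.factorial (I0 - 1) : ℝ) := by
    intro z hz
    have := lag_bound (I0 - 1) xx 1 one_pos (by
      intro i j hij hj
      rw [one_mul]
      exact hgap i j hij (by omega)) P1 hP1d (Real.exp ((c + δ) * Real.sqrt N) + 1) N (by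
      intro i hi
      rw [hxx_lt i (by omega)]
      simpa using hPx ⟨i, by omega⟩) z (by
      intro i hi
      rw [hxx_lt i (by omega)]
      have h8 : ‖z - ((N : ℝ) : ℂ)‖ ≤ N / 2 := by
        rw [← dist_eq_norm]; exact hz
      have h9 : ‖((N : ℝ) : ℂ) - ((x ⟨i, by omega⟩ : ℝ) : ℂ)‖ ≤ ε * N := by
        rw [← Complex.ofReal_sub, Complex.norm_real, Real.norm_eq_abs, abs_le]
        have := hxI ⟨i, by omega⟩
        exact ⟨by have := this.2; linarith, by have := this.1; nlinarith⟩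
      calc ‖z - ((x ⟨i, by omega⟩ : ℝ) : ℂ)‖
          = ‖(z - ((N : ℝ) : ℂ)) + (((N : ℝ) : ℂ) - ((x ⟨i, by omega⟩ : ℝ) : ℂ))‖ := by
            congr 1; ring
        _ ≤ _ := norm_add_le _ _
        _ ≤ N / 2 + ε * N := add_le_add h8 h9
        _ ≤ N := by linarith)
    simpa using this
  -- the function E
  set E : ℂ → ℂ := fun w => P1.eval w + Q1.eval w * Complex.exp (g w) with hE
  have hsub : Metric.closedBall ((N : ℝ) : ℂ) ((N : ℝ) / 2) ⊆
      Metric.ball ((N : ℝ) : ℂ) (3 * (N : ℝ) / 4) :=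
    Metric.closedBall_subset_ball (by linarith)
  have hgan : ∀ z ∈ Metric.ball ((N : ℝ) : ℂ) (3 * (N : ℝ) / 4), AnalyticAt ℂ g z := fun z hz =>
    hLD.diff.analyticAt (Metric.isOpen_ball.mem_nhds hz)
  have hfan : ∀ z ∈ Metric.ball ((N : ℝ) : ℂ) (3 * (N : ℝ) / 4),
      AnalyticAt ℂ (fun w => Q1.eval w * Complex.exp (g w)) z := fun z hz =>
    (poly_analyticAt Q1 z).mul (hgan z hz).cexp
  have hEan : ∀ z ∈ Metric.ball ((N : ℝ) : ℂ) (3 * (N : ℝ) / 4), AnalyticAt ℂ E z := fun z hz =>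
    (poly_analyticAt P1 z).add (hfan z hz)
  have hEdc : ∀ (z : ℂ) (r : ℝ), Metric.closedBall z r ⊆
      Metric.ball ((N : ℝ) : ℂ) (3 * (N : ℝ) / 4) → DiffContOnCl ℂ E (Metric.ball z r) := by
    intro z r h
    apply DifferentiableOn.diffContOnCl
    intro w hw
    exact (hEan w (h (Metric.closure_ball_subset_closedBall hw))).differentiableAt.differentiableWithinAt
  have hEM : ∀ z ∈ Metric.closedBall ((N : ℝ) : ℂ) ((N : ℝ) / 2),
      ‖E z‖ ≤ Real.exp (Ψ * Real.sqrt N) := by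
    intro z hz
    refine le_trans ?_ h3
    refine (norm_add_le _ _).trans (add_le_add (hPgrow z hz) ?_)
    rw [norm_mul]
    refine mul_le_mul (hQgrow z hz) ?_ (norm_nonneg _) (by positivity)
    rw [Complex.norm_exp]
    exact Real.exp_le_exp.2 (hLD.up z hz)
  have hEx : ∀ i, ‖E (x i : ℂ)‖ ≤ Real.exp (-(2 * η * Real.sqrt N)) := by
    intro i
    have h7 : E (x i : ℂ) = -(Q1.eval (x i : ℂ) * ((m i : ℂ) - Complex.exp (g (x i : ℂ)))) := by
      simp only [hE]
      linear_combination hrel1 i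
    rw [h7, norm_neg, norm_mul]
    calc ‖Q1.eval (x i : ℂ)‖ * ‖(m i : ℂ) - Complex.exp (g (x i : ℂ))‖
        ≤ 1 * Real.exp (-(2 * η * Real.sqrt N)) :=
          mul_le_mul (hQx i) (hm i) (norm_nonneg _) zero_le_one
      _ = _ := one_mul _
  have hEsm : ∀ z ∈ Metric.closedBall ((N : ℝ) : ℂ) H, ‖E z‖ ≤ Real.exp (-(η * Real.sqrt N)) := by
    intro z hz
    have := E_small (f := E) (N := N) (H := H) (M := Real.exp (Ψ * Real.sqrt N))
      (dl := Real.exp (-(2 * η * Real.sqrt N))) hN8' hH1 (by linarith)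
      (hEdc _ _ hsub) hEM (s - 1) xx (by
        intro i j hij hj
        exact hgap i j hij (by omega)) (by
        intro i hi
        rw [hxx_lt i (by omega)]
        exact (hxI _).1) (by
        intro i hi
        rw [hxx_lt i (by omega)]
        exact hxH _) (by
        intro i hi
        rw [hxx_lt i (by omega)]
        simpa using hEx ⟨i, by omega⟩) z hz
    rw [Nat.sub_add_cancel hspos] at this
    exact this.trans h2
  -- Phi
  set W : ℂ → ℂ := iteratedDeriv I0 (fun w => Q1.eval w * Complex.exp (g w)) with hW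
  set Φ : ℂ → ℂ := fun z => W z / Complex.exp (g z) with hΦ
  have hrsmall : H / 2 ≤ ε * N := by linarith
  have hfact : (Nat.factorial I0 : ℝ) ≤ (H / 2) ^ I0 := by
    have h7 : (Nat.factorial I0 : ℝ) ≤ (I0 : ℝ) ^ I0 := by exact_mod_cast Nat.factorial_le_pow I0
    exact h7.trans (pow_le_pow_left₀ (Nat.cast_nonneg _) hIH _)
  have hΦsmall : ∀ z ∈ Metric.closedBall ((N : ℝ) : ℂ) (H / 2),
      ‖Φ z‖ ≤ Real.exp (-((η + c - δ) * Real.sqrt N)) := by
    intro z hz
    have hzb : z ∈ Metric.ball ((N : ℝ) : ℂ) (3 * (N : ℝ) / 4) :=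
      hsub (Metric.closedBall_subset_closedBall (by linarith) hz)
    have hWE : W z = iteratedDeriv I0 E z := by
      rw [hE, iteratedDeriv_poly_add hP1d' (hfan z hzb)]
    have hsub2 : Metric.closedBall z (H / 2) ⊆ Metric.closedBall ((N : ℝ) : ℂ) H := by
      apply Metric.closedBall_subset_closedBall'
      have : dist z ((N : ℝ) : ℂ) ≤ H / 2 := hz
      linarith
    have hcau := Complex.norm_iteratedDeriv_le_of_forall_mem_sphere_norm_le (c := z) (R := H / 2)
      (C := Real.exp (-(η * Real.sqrt N))) (f := E) I0 (by linarith)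
      (hEdc z (H / 2) (hsub2.trans ((Metric.closedBall_subset_closedBall (by linarith)).trans hsub)))
      (fun w hw => hEsm w (hsub2 (Metric.sphere_subset_closedBall hw)))
    have hW1 : ‖W z‖ ≤ Real.exp (-(η * Real.sqrt N)) := by
      rw [hWE]
      refine hcau.trans ?_
      rw [div_le_iff₀ (by positivity), mul_comm]
      exact mul_le_mul_of_nonneg_left hfact (Real.exp_pos _).le
    have hGlow : Real.exp ((c - δ) * Real.sqrt N) ≤ ‖Complex.exp (g z)‖ := by
      rw [Complex.norm_exp]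
      apply Real.exp_le_exp.2
      have h7 := hLD.loc z (Metric.closedBall_subset_closedBall (by nlinarith) hz)
      have h8 := (abs_le.1 h7).1
      linarith
    simp only [hΦ]
    rw [norm_div, div_le_iff₀ (norm_pos_iff.2 (Complex.exp_ne_zero _))]
    calc ‖W z‖ ≤ Real.exp (-(η * Real.sqrt N)) := hW1
      _ = Real.exp (-((η + c - δ) * Real.sqrt N)) * Real.exp ((c - δ) * Real.sqrt N) := by
          rw [← Real.exp_add]; congr 1; ring
      _ ≤ _ := mul_le_mul_of_nonneg_left hGlow (Real.exp_pos _).le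
  have hsub4 : Metric.ball ((N : ℝ) : ℂ) ((N : ℝ) / 4) ⊆
      Metric.ball ((N : ℝ) : ℂ) (3 * (N : ℝ) / 4) := Metric.ball_subset_ball (by linarith)
  have hΦdiff : DifferentiableOn ℂ Φ (Metric.ball ((N : ℝ) : ℂ) ((N : ℝ) / 4)) := by
    intro z hz
    have hz' := hsub4 hz
    have hWan : AnalyticAt ℂ W z := by
      rw [hW, iteratedDeriv_eq_iterate]
      exact (hfan z hz').iterated_deriv I0
    exact (hWan.div (hgan z hz').cexp (Complex.exp_ne_zero _)).differentiableAt.differentiableWithinAt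
  have hr0 : 0 < N / Real.log N := by positivity
  have hΦup : ∀ z ∈ Metric.ball ((N : ℝ) : ℂ) ((N : ℝ) / 4), ‖Φ z‖ ≤
      (Nat.factorial I0 : ℝ) / (N / Real.log N) ^ I0 * (2 * Real.exp 1 / ε) ^ I1 *
        Real.exp (2 * c * (N / Real.log N) / Real.sqrt N) := fun z hz =>
    upper_phi hLD hN0 Q1 _ hQgrow I0 (N / Real.log N) hr0 hr z (Metric.ball_subset_closedBall hz)
  have hcirc := three_circle (Φ := Φ) (c := ((N : ℝ) : ℂ)) (R := (N : ℝ) / 4) (r := H / 2)
    (ρ := ε * N) (by linarith) hrsmall (by linarith) hΦdiff hΦup hΦsmall l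
  have hL10 : 0 < K6 * N / Real.log N := by positivity
  have hlow := lower_phi hLD hN0 hc hρ hρ1 Q1 _ hQgrow xs hxs1 (by linarith) hQ1
    (K6 * N / Real.log N) hL10 (by linarith) I0 hI0 h6 _ (by
      intro t ht
      exact hcirc (t : ℂ) (by
        rw [Metric.mem_closedBall, dist_eq_norm, ← Complex.ofReal_sub, Complex.norm_real,
          Real.norm_eq_abs, abs_le]
        exact ⟨by have := ht.1; linarith, by have := ht.2; linarith⟩))
  have hsplit : ((l : ℝ) * Real.exp (-((η + c - δ) * Real.sqrt N)) * (ε * N / (H / 2)) ^ l +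
      2 * ((Nat.factorial I0 : ℝ) / (N / Real.log N) ^ I0 * (2 * Real.exp 1 / ε) ^ I1 *
        Real.exp (2 * c * (N / Real.log N) / Real.sqrt N)) * (ε * N / (N / 4)) ^ l) *
      (K6 * N / Real.log N) ^ I0 / (Nat.factorial (I0 - 1) : ℝ) =
      (l : ℝ) * Real.exp (-((η + c - δ) * Real.sqrt N)) * (ε * N / (H / 2)) ^ l *
        (K6 * N / Real.log N) ^ I0 / (Nat.factorial (I0 - 1) : ℝ) +
      2 * ((Nat.factorial I0 : ℝ) / (N / Real.log N) ^ I0 * (2 * Real.exp 1 / ε) ^ I1 *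
        Real.exp (2 * c * (N / Real.log N) / Real.sqrt N)) * (ε * N / (N / 4)) ^ l *
        (K6 * N / Real.log N) ^ I0 / (Nat.factorial (I0 - 1) : ℝ) := by
    rw [add_mul, add_div]
  rw [hsplit] at hlow
  linarith

end PK
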