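import Pool.Agent.helper90.PK.Defs

/-!
# PK-B3: vanishing minors give a kernel vector

If there is no nonzero kernel vector, the matrix has rank `D`, so `D` of the rows are linearly
independent; ordered increasingly they give a nonzero minor.
-/

namespace PK

theorem exists_kernel {s D : ℕ} (r : Fin s → Fin D → ℂ)
    (h : ∀ e : Fin D → Fin s, StrictMono e → (Matrix.of fun i j => r (e i) j).det = 0) :
    ∃ v : Fin D → ℂ, v ≠ 0 ∧ ∀ i, ∑ j, r i j * v j = 0 := by
  classical
  by_contra hcon
  push Not at hcon
  let A : Matrix (Fin s) (Fin D) ℂ := Matrix.of r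
  have hinj : Function.Injective A.mulVec := by
    intro v w hvw
    by_contra hne
    obtain ⟨i, hi⟩ := hcon (v - w) (sub_ne_zero.2 hne)
    apply hi
    have h1 := congrFun hvw i
    simp only [Matrix.mulVec, dotProduct, A, Matrix.of_apply] at h1
    simp only [Pi.sub_apply, mul_sub, Finset.sum_sub_distrib]
    rw [h1, sub_self]
  have hrank : A.rank = D := by
    rw [Matrix.rank, LinearMap.finrank_range_of_inj]
    · simp
    · exact hinj
  obtain ⟨κ, a, ha, hsp, hli⟩ := exists_linearIndependent' ℂ A.row
  have hfin : Finite κ := Finite.of_injective a ha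
  have := Fintype.ofFinite κ
  have hcard : Fintype.card κ = D := by
    have h1 := finrank_span_eq_card hli
    rw [hsp, ← Matrix.rank_eq_finrank_span_row, hrank] at h1
    exact h1.symm
  let T : Finset (Fin s) := Finset.univ.image a
  have hT : T.card = D := by
    rw [Finset.card_image_of_injective _ ha, Finset.card_univ, hcard]
  let e : Fin D ↪o Fin s := T.orderEmbOfFin hT
  have hmem : ∀ i, ∃ k, a k = e i := by
    intro i
    have h1 : e i ∈ T := T.orderEmbOfFin_mem hT i
    obtain ⟨k, -, hk⟩ := Finset.mem_image.1 h1
    exact ⟨k, hk⟩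
  choose g hg using hmem
  have hginj : Function.Injective g := by
    intro i j hij
    have h1 : e i = e j := by rw [← hg, ← hg, hij]
    exact e.injective h1
  have hli2 : LinearIndependent ℂ ((A.row ∘ a) ∘ g) := hli.comp g hginj
  let B : Matrix (Fin D) (Fin D) ℂ := Matrix.of fun i j => r (e i) j
  have hB : B.row = (A.row ∘ a) ∘ g := by
    funext i
    simp only [Function.comp_apply, hg]
    rfl
  rw [← hB, Matrix.linearIndependent_rows_iff_isUnit, Matrix.isUnit_iff_isUnit_det] at hli2
  exact hli2.ne_zero (h e e.strictMono)

end PK
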