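import Pool.Agent.helper90.PK.Weights
import Pool.Agent.helper90.PK.DetId
import Pool.Agent.helper90.PK.Kernel
import Pool.Agent.helper90.PK.DDCauchy

/-!
# PK-B6: existence of a relation `P(x) + Q(x) m(x) = 0`

Proof sketch. `D = I0 + I1`. Let `e : Fin D → Fin s` be strictly increasing, `t i = x (e i) - N`
(natural numbers `≤ H`; extend to `ℕ → ℕ` arbitrarily for indices `≥ D`), `m' i = m (e i)`.
Apply `det_bound` with `u i = uu c δ ρ η N i`, `v b = (2ρN)^b/b!`. The hypothesis `hDD`: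
`C(t,b) m = C(t,b) G(N+t) + C(t,b) (m - G)`, `G = exp ∘ g`.
(1) `f(z) = (∏_{j<b} (z - N - j)/b!) G(z)` on `closedBall N (ρN)`: `‖z - N - j‖ ≤ ρN + b ≤ 2ρN`
(`b < I1 ≤ ρN`), so `‖f‖ ≤ (2ρN)^b/b! e^((c+δ)√N)` (`LD.loc`), and `DD_bound` with `r = ρN`,
`r - H ≥ ρN/2`: `‖DD‖ ≤ (2ρN)^b/b! e^((c+δ)√N) · 2 (2/(ρN))^i`.
(2) `|C(t_l,b)| ≤ H^b/b! ≤ (2ρN)^b/b!`, `‖m_l - G(x_l)‖ ≤ e^(-2η√N)`, `sum_weights_le` with `h = 1`:
`‖DD‖ ≤ (2ρN)^b/b! e^(-2η√N) 2^i/i!`.
So `|det| < 1` by `hnum`, an integer, hence `0`; cast to `ℂ`. `exists_kernel` with rows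
`r i j = C(x i - N, j)` resp. `C(x i - N, j - I0) m i` gives `v ≠ 0`; put
`P = ∑_{a<I0} v_a C(X-N, a)`, `Q = ∑_{b<I1} v_{I0+b} C(X-N, b)` as polynomials
(`C(X-N,a) = (descPochhammer ℂ a).comp (X - N) / a!`, degree `a`, evaluates to `Nat.choose (x-N) a`
at naturals `x ≥ N`). `Q ≠ 0`: otherwise `v_{I0+b} = 0` for all `b` (degrees `0,1,2,…` are linearly
independent) and `P` vanishes at `s ≥ D > I0 - 1` distinct points so `P = 0`, `v = 0`.
-/

namespace PK.Rel

open Polynomial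

/-- the polynomial `C(X - N, a) = (X-N)(X-N-1).../a!` -/
noncomputable def chP (N : ℕ) (a : ℕ) : ℂ[X] :=
  C ((Nat.factorial a : ℂ)⁻¹) * (descPochhammer ℂ a).comp (X - C (N : ℂ))

lemma chP_eval {N x : ℕ} (hx : N ≤ x) (a : ℕ) :
    (chP N a).eval (x : ℂ) = (Nat.choose (x - N) a : ℂ) := by
  have h1 : ((x : ℂ) - N) = ((x - N : ℕ) : ℂ) := by
    rw [Nat.cast_sub hx]
  rw [chP, eval_mul, eval_C, eval_comp, eval_sub, eval_X, eval_C, h1,
    descPochhammer_eval_eq_descFactorial, Nat.descFactorial_eq_factorial_mul_choose, Nat.cast_mul,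
    ← mul_assoc, inv_mul_cancel₀ (by exact_mod_cast Nat.factorial_ne_zero a), one_mul]

lemma chP_mem (N a n : ℕ) (h : a < n) : chP N a ∈ degreeLT ℂ n := by
  rw [mem_degreeLT]
  have h1 : (chP N a).natDegree ≤ a := by
    refine (natDegree_C_mul_le _ _).trans ?_
    refine natDegree_comp_le.trans ?_
    rw [descPochhammer_natDegree, natDegree_X_sub_C, mul_one]
  refine lt_of_le_of_lt degree_le_natDegree ?_
  exact_mod_cast lt_of_le_of_lt h1 h

/-- combination of binomial polynomials -/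
noncomputable def pol (N : ℕ) {n : ℕ} (w : Fin n → ℂ) : ℂ[X] := ∑ a, w a • chP N a

lemma pol_degree (N : ℕ) {n : ℕ} (w : Fin n → ℂ) : (pol N w).degree < (n : ℕ) := by
  rw [← mem_degreeLT]
  exact Submodule.sum_mem _ fun a _ => Submodule.smul_mem _ _ (chP_mem N a n a.2)

lemma pol_eval {N x : ℕ} (hx : N ≤ x) {n : ℕ} (w : Fin n → ℂ) :
    (pol N w).eval (x : ℂ) = ∑ a, w a * (Nat.choose (x - N) a : ℂ) := by
  rw [pol, eval_finsetSum]
  exact Finset.sum_congr rfl fun a _ => by rw [eval_smul, smul_eq_mul, chP_eval hx]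

lemma pol_eq_zero {N : ℕ} {n : ℕ} {w : Fin n → ℂ} (h : pol N w = 0) : w = 0 := by
  have key : ∀ k : ℕ, ∀ hk : k < n, w ⟨k, hk⟩ = 0 := by
    intro k
    induction k using Nat.strong_induction_on with
    | _ k ih =>
      intro hk
      have h1 := pol_eval (N := N) (x := N + k) (Nat.le_add_right N k) w
      rw [h, eval_zero, Nat.add_sub_cancel_left, Finset.sum_eq_single (⟨k, hk⟩ : Fin n)] at h1
      · rw [Nat.choose_self, Nat.cast_one, mul_one] at h1
        exact h1.symm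
      · intro a _ ha
        rcases lt_trichotomy (a : ℕ) k with h2 | h2 | h2
        · have h3 := ih a h2 a.2
          rw [Fin.eta] at h3
          rw [h3, zero_mul]
        · exact absurd (Fin.ext h2) ha
        · rw [Nat.choose_eq_zero_of_lt h2, Nat.cast_zero, mul_zero]
      · intro h2; exact absurd (Finset.mem_univ _) h2
  funext a
  exact key a a.2

lemma DD_add (t : ℕ → ℝ) (f g : ℕ → ℂ) (k : ℕ) :
    DD t (fun l => f l + g l) k = DD t f k + DD t g k := by
  rw [DD, DD, DD, ← Finset.sum_add_distrib]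
  exact Finset.sum_congr rfl fun l _ => by rw [add_div]

lemma DD_congr (t : ℕ → ℝ) {f g : ℕ → ℂ} {k : ℕ} (h : ∀ l ≤ k, f l = g l) :
    DD t f k = DD t g k :=
  Finset.sum_congr rfl fun l hl => by rw [h l (Nat.lt_succ_iff.1 (Finset.mem_range.1 hl))]

lemma DD_norm_le (t : ℕ → ℝ) (f : ℕ → ℂ) (k : ℕ) (B : ℝ)
    (h : ∀ l ≤ k, ‖f l‖ ≤ B) :
    ‖DD t f k‖ ≤ B * ∑ l ∈ Finset.range (k + 1), ∏ j ∈ (Finset.range (k + 1)).erase l,
      |t l - t j|⁻¹ := by
  rw [DD, Finset.mul_sum]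
  refine (norm_sum_le _ _).trans (Finset.sum_le_sum fun l hl => ?_)
  rw [div_eq_mul_inv, norm_mul, norm_inv, norm_prod, ← Finset.prod_inv_distrib]
  have h1 := h l (Nat.lt_succ_iff.1 (Finset.mem_range.1 hl))
  have h2 : ∏ j ∈ (Finset.range (k + 1)).erase l, ‖((t l - t j : ℝ) : ℂ)‖⁻¹ =
      ∏ j ∈ (Finset.range (k + 1)).erase l, |t l - t j|⁻¹ :=
    Finset.prod_congr rfl fun j _ => by rw [Complex.norm_real, Real.norm_eq_abs]
  rw [h2]
  exact mul_le_mul_of_nonneg_right h1 (Finset.prod_nonneg fun j _ => by positivity)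

lemma gap_nat {D : ℕ} {t : ℕ → ℕ} (ht : ∀ i j : ℕ, i < j → j < D → t i < t j) (i : ℕ) :
    ∀ j : ℕ, i < j → j < D → t i + (j - i) ≤ t j := by
  intro j
  induction j with
  | zero => intro h; omega
  | succ j ih =>
    intro h1 h2
    rcases Nat.lt_succ_iff_lt_or_eq.1 h1 with h3 | h3
    · have h4 := ih h3 (by omega)
      have h5 := ht j (j + 1) (Nat.lt_succ_self j) h2
      omega
    · subst h3
      have h5 := ht i (i + 1) (Nat.lt_succ_self i) h2
      omega

lemma descP_norm_le {b : ℕ} {R : ℝ} {w : ℂ} (hw : ‖w‖ ≤ R) (hb : (b : ℝ) ≤ R) :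
    ‖(descPochhammer ℂ b).eval w‖ ≤ (2 * R) ^ b := by
  rw [descPochhammer_eval_eq_prod_range, norm_prod]
  have h1 : ∀ j ∈ Finset.range b, ‖w - (j : ℂ)‖ ≤ 2 * R := by
    intro j hj
    have h2 : (j : ℝ) ≤ b := by exact_mod_cast (Finset.mem_range.1 hj).le
    calc ‖w - (j : ℂ)‖ ≤ ‖w‖ + ‖(j : ℂ)‖ := norm_sub_le _ _
      _ ≤ R + R := add_le_add hw (by rw [Complex.norm_natCast]; linarith)
      _ = 2 * R := by ring
  calc ∏ j ∈ Finset.range b, ‖w - (j : ℂ)‖ ≤ ∏ _j ∈ Finset.range b, 2 * R :=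
        Finset.prod_le_prod (fun j _ => norm_nonneg _) h1
    _ = (2 * R) ^ b := by rw [Finset.prod_const, Finset.card_range]

end PK.Rel

namespace PK

open Polynomial

/-- the bound `u i` -/
noncomputable def uu (c δ ρ η : ℝ) (N : ℕ) (i : ℕ) : ℝ :=
  2 * Real.exp ((c + δ) * Real.sqrt N) * (2 / (ρ * N)) ^ i +
    Real.exp (-(2 * η * Real.sqrt N)) * 2 ^ i / (Nat.factorial i : ℝ)

/-- the bound `v b` -/
noncomputable def vv (ρ : ℝ) (N : ℕ) (b : ℕ) : ℝ := (2 * ρ * N) ^ b / (Nat.factorial b : ℝ)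

/-- the total bound for the determinant -/
noncomputable def detB (c δ ρ η : ℝ) (N : ℕ) (H : ℝ) (I0 I1 : ℕ) : ℝ :=
  H ^ ((I0 + I1) * (I0 + I1 - 1) / 2) *
      (∏ a ∈ Finset.range I0, (Nat.factorial a : ℝ))⁻¹ * (Nat.factorial I1 : ℝ) *
      (∏ i ∈ Finset.Ico I0 (I0 + I1), uu c δ ρ η N i) * ∏ b ∈ Finset.range I1, vv ρ N b


open _root_.PK.Rel in
/-- the bound for the divided differences -/
theorem rel_DD {c δ ρ η : ℝ} {g : ℂ → ℂ} {N : ℕ} (hN : 1 ≤ N) (h : LD c δ ρ g (N : ℝ))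
    (hρ : 0 < ρ) (hρ1 : ρ ≤ 1 / 4) (H : ℝ) (hH1 : 1 ≤ H) (hH : H ≤ ρ * N / 2)
    (t : ℕ → ℕ) (m : ℕ → ℤ) (i b : ℕ) (hb : (b : ℝ) ≤ ρ * N)
    (ht : ∀ j k : ℕ, j < k → k < i + 1 → t j < t k) (htH : ∀ j ≤ i, (t j : ℝ) ≤ H)
    (hm : ∀ l ≤ i, ‖(m l : ℂ) - Complex.exp (g ((N : ℂ) + (t l : ℂ)))‖ ≤
      Real.exp (-(2 * η * Real.sqrt N))) :
    ‖DD (fun l => (t l : ℝ)) (fun l => (Nat.choose (t l) b : ℂ) * (m l : ℂ)) i‖ ≤
      uu c δ ρ η N i * vv ρ N b := by
  have hN0 : (0 : ℝ) < N := by exact_mod_cast hN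
  have hr : 0 < ρ * N := mul_pos hρ hN0
  have hf0 : (Nat.factorial b : ℂ) ≠ 0 := by exact_mod_cast Nat.factorial_ne_zero b
  have hf1 : (0 : ℝ) < Nat.factorial b := by exact_mod_cast Nat.factorial_pos b
  have hfi : (0 : ℝ) < Nat.factorial i := by exact_mod_cast Nat.factorial_pos i
  set f : ℂ → ℂ := fun z => (descPochhammer ℂ b).eval (z - N) / (Nat.factorial b : ℂ) *
    Complex.exp (g z) with hf
  have hsplit : DD (fun l => (t l : ℝ)) (fun l => (Nat.choose (t l) b : ℂ) * (m l : ℂ)) i =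
      DD (fun l => (t l : ℝ)) (fun l => f ((N : ℂ) + ((t l : ℝ) : ℂ))) i +
      DD (fun l => (t l : ℝ)) (fun l => (Nat.choose (t l) b : ℂ) *
        ((m l : ℂ) - Complex.exp (g ((N : ℂ) + (t l : ℂ))))) i := by
    rw [← DD_add]
    refine DD_congr _ fun l _ => ?_
    have h1 : f ((N : ℂ) + ((t l : ℝ) : ℂ)) =
        (Nat.choose (t l) b : ℂ) * Complex.exp (g ((N : ℂ) + (t l : ℂ))) := by
      rw [hf]
      simp only [Complex.ofReal_natCast, add_sub_cancel_left]
      rw [descPochhammer_eval_eq_descFactorial, Nat.descFactorial_eq_factorial_mul_choose,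
        Nat.cast_mul, mul_div_cancel_left₀ _ hf0]
    rw [h1]; ring
  -- first part
  have hball : Metric.closedBall ((N : ℝ) : ℂ) (ρ * N) ⊆
      Metric.ball ((N : ℝ) : ℂ) (3 * (N : ℝ) / 4) := by
    refine Metric.closedBall_subset_ball ?_
    nlinarith
  have hdiff : DiffContOnCl ℂ f (Metric.ball (N : ℂ) (ρ * N)) := by
    have h1 : DifferentiableOn ℂ f (Metric.ball ((N : ℝ) : ℂ) (3 * (N : ℝ) / 4)) := by
      rw [hf]
      refine DifferentiableOn.mul ?_ ?_
      · refine DifferentiableOn.div_const ?_ _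
        exact ((descPochhammer ℂ b).differentiable.comp
          (differentiable_id.sub_const _)).differentiableOn
      · exact h.diff.cexp
    have h2 := h1.diffContOnCl_ball hball
    rwa [Complex.ofReal_natCast] at h2
  have hM : ∀ z ∈ Metric.closedBall (N : ℂ) (ρ * N), ‖f z‖ ≤
      vv ρ N b * Real.exp ((c + δ) * Real.sqrt N) := by
    intro z hz
    have h1 : ‖z - N‖ ≤ ρ * N := by rwa [← mem_closedBall_iff_norm]
    have h2 := descP_norm_le h1 hb
    have h3 := h.loc z (by rw [Complex.ofReal_natCast]; exact hz)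
    rw [hf]
    simp only
    rw [norm_mul, norm_div, Complex.norm_natCast, Complex.norm_exp, vv]
    have h4 : (g z).re ≤ (c + δ) * Real.sqrt N := by
      have := (abs_le.1 h3).2
      linarith
    refine mul_le_mul ?_ (Real.exp_le_exp.2 h4) (Real.exp_pos _).le (by positivity)
    rw [mul_assoc]
    exact div_le_div_of_nonneg_right h2 hf1.le
  have hpart1 : ‖DD (fun l => (t l : ℝ)) (fun l => f ((N : ℂ) + ((t l : ℝ) : ℂ))) i‖ ≤
      2 * Real.exp ((c + δ) * Real.sqrt N) * (2 / (ρ * N)) ^ i * vv ρ N b := by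
    have h1 := DD_bound (f := f) (c := (N : ℂ)) (r := ρ * N)
      (M := vv ρ N b * Real.exp ((c + δ) * Real.sqrt N)) (H := H) (by linarith) (by linarith)
      hdiff hM (fun l => (t l : ℝ)) i
      (fun j k hjk hk => by exact_mod_cast ht j k hjk (Nat.lt_succ_of_le hk))
      (fun j _ => Nat.cast_nonneg _) (fun j hj => htH j hj)
    refine h1.trans ?_
    have h2 : (ρ * N / 2) ^ (i + 1) ≤ (ρ * N - H) ^ (i + 1) :=
      pow_le_pow_left₀ (by positivity) (by linarith) _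
    have h3 : vv ρ N b * Real.exp ((c + δ) * Real.sqrt N) * (ρ * N) / (ρ * N - H) ^ (i + 1) ≤
        vv ρ N b * Real.exp ((c + δ) * Real.sqrt N) * (ρ * N) / (ρ * N / 2) ^ (i + 1) := by
      refine div_le_div_of_nonneg_left ?_ (by positivity) h2
      have : 0 ≤ vv ρ N b := by rw [vv]; positivity
      positivity
    refine h3.trans (le_of_eq ?_)
    have hne : ρ * N ≠ 0 := hr.ne'
    rw [pow_succ, div_pow, div_pow]
    field_simp
  -- second part
  have hpart2 : ‖DD (fun l => (t l : ℝ)) (fun l => (Nat.choose (t l) b : ℂ) *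
        ((m l : ℂ) - Complex.exp (g ((N : ℂ) + (t l : ℂ))))) i‖ ≤
      Real.exp (-(2 * η * Real.sqrt N)) * 2 ^ i / (Nat.factorial i : ℝ) * vv ρ N b := by
    have h1 := DD_norm_le (fun l => (t l : ℝ)) (fun l => (Nat.choose (t l) b : ℂ) *
        ((m l : ℂ) - Complex.exp (g ((N : ℂ) + (t l : ℂ))))) i
        (vv ρ N b * Real.exp (-(2 * η * Real.sqrt N))) (by
      intro l hl
      rw [norm_mul, Complex.norm_natCast]
      refine mul_le_mul ?_ (hm l hl) (norm_nonneg _) (by rw [vv]; positivity)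
      refine (Nat.choose_le_pow_div b (t l)).trans ?_
      rw [vv]
      refine div_le_div_of_nonneg_right ?_ hf1.le
      refine pow_le_pow_left₀ (Nat.cast_nonneg _) ?_ _
      have := htH l hl
      nlinarith)
    have h2 := sum_weights_le i (fun l => (t l : ℝ)) 1 one_pos (by
      intro j k hjk hk
      have h3 := gap_nat (D := i + 1) ht j k hjk (Nat.lt_succ_of_le hk)
      have h4 : (t j : ℝ) + ((k - j : ℕ) : ℝ) ≤ t k := by exact_mod_cast h3
      rw [Nat.cast_sub hjk.le] at h4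
      linarith)
    refine h1.trans ?_
    have h5 : 0 ≤ vv ρ N b * Real.exp (-(2 * η * Real.sqrt N)) := by
      have : 0 ≤ vv ρ N b := by rw [vv]; positivity
      positivity
    refine (mul_le_mul_of_nonneg_left h2 h5).trans (le_of_eq ?_)
    rw [div_one]; ring
  rw [hsplit]
  refine (norm_add_le _ _).trans ((add_le_add hpart1 hpart2).trans (le_of_eq ?_))
  rw [uu]; ring

theorem relation {c δ ρ η : ℝ} {g : ℂ → ℂ} {N : ℕ} (hN : 1 ≤ N) (h : LD c δ ρ g (N : ℝ))
    (hρ : 0 < ρ) (hρ1 : ρ ≤ 1 / 4) (I0 I1 : ℕ) (hI0 : 1 ≤ I0) (hI1 : 1 ≤ I1) (H : ℝ)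
    (hH1 : 1 ≤ H) (hH : H ≤ ρ * N / 2) (hI : ((I0 + I1 : ℕ) : ℝ) ≤ ρ * N)
    (s : ℕ) (hs : I0 + I1 ≤ s) (x : Fin s → ℕ) (hx : StrictMono x) (hxN : ∀ i, N ≤ x i)
    (hxH : ∀ i, (x i : ℝ) ≤ N + H) (m : Fin s → ℤ)
    (hm : ∀ i, ‖(m i : ℂ) - Complex.exp (g (x i : ℂ))‖ ≤ Real.exp (-(2 * η * Real.sqrt N)))
    (hnum : detB c δ ρ η N H I0 I1 < 1) :
    ∃ P Q : ℂ[X], Q ≠ 0 ∧ P.degree < (I0 : ℕ) ∧ Q.degree < (I1 : ℕ) ∧
      ∀ i, P.eval (x i : ℂ) + Q.eval (x i : ℂ) * (m i : ℂ) = 0 := by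
  classical
  have hN0 : (0 : ℝ) < N := by exact_mod_cast hN
  set r : Fin s → Fin (I0 + I1) → ℂ := fun i j =>
    if (j : ℕ) < I0 then (Nat.choose (x i - N) j : ℂ)
    else (Nat.choose (x i - N) (j - I0) : ℂ) * (m i : ℂ) with hr
  have hdet : ∀ e : Fin (I0 + I1) → Fin s, StrictMono e →
      (Matrix.of fun i j => r (e i) j).det = 0 := by
    intro e he
    set t : ℕ → ℕ := fun i => if h : i < I0 + I1 then x (e ⟨i, h⟩) - N else 0 with ht
    set m' : ℕ → ℤ := fun i => if h : i < I0 + I1 then m (e ⟨i, h⟩) else 0 with hm'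
    have htx : ∀ i (hi : i < I0 + I1), N + t i = x (e ⟨i, hi⟩) := by
      intro i hi
      rw [ht]; simp only [hi, dif_pos]
      exact Nat.add_sub_cancel' (hxN _)
    have htm : ∀ i j : ℕ, i < j → j < I0 + I1 → t i < t j := by
      intro i j hij hj
      have h1 := htx i (hij.trans hj)
      have h2 := htx j hj
      have h3 : x (e ⟨i, hij.trans hj⟩) < x (e ⟨j, hj⟩) := hx (he (by exact hij))
      omega
    have htH : ∀ i < I0 + I1, (t i : ℝ) ≤ H := by
      intro i hi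
      have h1 := hxH (e ⟨i, hi⟩)
      rw [← htx i hi] at h1
      push_cast at h1
      linarith
    have hb := det_bound I0 I1 t m' H (by linarith) htm htH (uu c δ ρ η N) (vv ρ N)
      (fun i => by rw [uu]; positivity) (fun b => by rw [vv]; positivity) (by
        intro i hi0 hi b hb
        refine rel_DD hN h hρ hρ1 H hH1 hH t m' i b ?_ ?_ ?_ ?_
        · have h1 : (b : ℝ) ≤ ((I0 + I1 : ℕ) : ℝ) := by exact_mod_cast (by omega : b ≤ I0 + I1)
          linarith
        · intro j k hjk hk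
          exact htm j k hjk (by omega)
        · intro j hj
          exact htH j (by omega)
        · intro l hl
          have hl' : l < I0 + I1 := by omega
          have h1 := hm (e ⟨l, hl'⟩)
          rw [← htx l hl'] at h1
          have h2 : m' l = m (e ⟨l, hl'⟩) := by rw [hm']; simp only [hl', dif_pos]
          rw [h2]
          push_cast at h1
          exact h1)
    have h0 : (matA I0 I1 t m').det = 0 := by
      have h1 : |((matA I0 I1 t m').det : ℝ)| < 1 := lt_of_le_of_lt hb hnum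
      have h2 : |(matA I0 I1 t m').det| < 1 := by exact_mod_cast h1
      exact Int.abs_lt_one_iff.1 h2
    have h1 : (Matrix.of fun i j => r (e i) j) =
        (Int.castRingHom ℂ).mapMatrix (matA I0 I1 t m') := by
      ext i j
      have h2 : t i = x (e i) - N := by rw [ht]; simp only [i.2, dif_pos, Fin.eta]
      have h3 : m' i = m (e i) := by rw [hm']; simp only [i.2, dif_pos, Fin.eta]
      rw [RingHom.mapMatrix_apply, Matrix.map_apply, matA, Matrix.of_apply, hr, h2, h3]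
      simp only
      split_ifs
      · simp
      · simp
    rw [h1, ← RingHom.map_det, h0, map_zero]
  obtain ⟨v, hv0, hv⟩ := exists_kernel r hdet
  set vP : Fin I0 → ℂ := fun a => v (Fin.castAdd I1 a) with hvP
  set vQ : Fin I1 → ℂ := fun b => v (Fin.natAdd I0 b) with hvQ
  have heq : ∀ i, (Rel.pol N vP).eval (x i : ℂ) + (Rel.pol N vQ).eval (x i : ℂ) * (m i : ℂ) = 0 := by
    intro i
    have h1 := hv i
    rw [Fin.sum_univ_add] at h1
    rw [Rel.pol_eval (hxN i), Rel.pol_eval (hxN i), ← h1, Finset.sum_mul]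
    congr 1
    · refine Finset.sum_congr rfl fun a _ => ?_
      rw [hr, hvP]
      simp only [Fin.val_castAdd, a.2, if_true]
      ring
    · refine Finset.sum_congr rfl fun b _ => ?_
      rw [hr, hvQ]
      simp only [Fin.val_natAdd, not_lt.2 (Nat.le_add_right I0 b), if_false,
        Nat.add_sub_cancel_left]
      ring
  refine ⟨Rel.pol N vP, Rel.pol N vQ, ?_, Rel.pol_degree N vP, Rel.pol_degree N vQ, heq⟩
  intro hQ
  have hQ0 := Rel.pol_eq_zero hQ
  have hP : Rel.pol N vP = 0 := by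
    refine Polynomial.eq_zero_of_degree_lt_of_eval_finset_eq_zero
      (Finset.univ.image fun i : Fin s => (x i : ℂ)) ?_ ?_
    · rw [Finset.card_image_of_injective _ (fun i j hij => hx.injective (by exact_mod_cast hij)),
        Finset.card_univ, Fintype.card_fin]
      refine lt_of_lt_of_le (Rel.pol_degree N vP) ?_
      exact_mod_cast (by omega : I0 ≤ s)
    · intro z hz
      obtain ⟨i, -, rfl⟩ := Finset.mem_image.1 hz
      have h1 := heq i
      rw [hQ, eval_zero, zero_mul, add_zero] at h1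
      exact h1
  have hP0 := Rel.pol_eq_zero hP
  apply hv0
  funext j
  refine Fin.addCases (fun a => ?_) (fun b => ?_) j
  · exact congrFun hP0 a
  · exact congrFun hQ0 b

end PK
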