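import Pool.Agent.helper90.PK.NumBase
import Pool.Agent.helper90.PK.Relation

/-!
# PK-B5b: the determinant bound is `< 1`

Proof sketch (`L = log N`, `q = √N`, `I0 = cI ι0 N`, `I1 = cI ι1 N`, `D = I0 + I1`,
`H = N^(1/2+ν)`, units `N/L`).
(1) `uu ≤ 3 e^((c+δ)q) (2/(ρN))^i` for `I0 ≤ i ≤ D`: need `(ρN)^i/i! ≤ e^((c+δ+2η) q)`, and
`log i! ≥ i log i - i`, `log i ≥ log I0 ≥ L/2 - 2 log L`.
(2) `log detB ≤ (1/2+ν) L D²/2 - ∑_{a<I0} log a! - ∑_{b<I1} log b! + I1 log I1 +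
 I1 (log 3 + (c+δ) q) + (∑_{i=I0}^{D-1} i)(log(2/ρ) - L) + (∑_{b<I1} b)(log 2 + L)`.
Main terms: `ι1 (c+δ) + (ν/2)(ι0+ι1)² - ι0ι1/2 < 0` (`h2`).
-/

namespace PK

open Filter

lemma uu_pos (c δ ρ η : ℝ) {N : ℕ} (hN : 0 < N) (hρ : 0 < ρ) (i : ℕ) :
    0 < uu c δ ρ η N i := by
  unfold uu
  have : (0 : ℝ) < N := by exact_mod_cast hN
  positivity

lemma vv_pos {ρ : ℝ} {N : ℕ} (hN : 0 < N) (hρ : 0 < ρ) (b : ℕ) : 0 < vv ρ N b := by
  unfold vv
  have : (0 : ℝ) < N := by exact_mod_cast hN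
  positivity

lemma uu_le {c δ ρ η : ℝ} {N i : ℕ} (hN : 0 < N) (hρ : 0 < ρ)
    (h : (ρ * N) ^ i ≤ Real.exp ((c + δ + 2 * η) * Real.sqrt N) * (Nat.factorial i : ℝ)) :
    uu c δ ρ η N i ≤ 3 * Real.exp ((c + δ) * Real.sqrt N) * (2 / (ρ * N)) ^ i := by
  have hN' : (0 : ℝ) < N := by exact_mod_cast hN
  have hf : (0 : ℝ) < (Nat.factorial i : ℝ) := by positivity
  have key : Real.exp (-(2 * η * Real.sqrt N)) * 2 ^ i / (Nat.factorial i : ℝ) ≤
      Real.exp ((c + δ) * Real.sqrt N) * (2 / (ρ * N)) ^ i := by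
    rw [div_pow, div_le_iff₀ hf]
    have e1 : Real.exp ((c + δ) * Real.sqrt N) =
        Real.exp (-(2 * η * Real.sqrt N)) * Real.exp ((c + δ + 2 * η) * Real.sqrt N) := by
      rw [← Real.exp_add]
      congr 1
      ring
    have h3 : (0 : ℝ) < (ρ * N) ^ i := by positivity
    have e2 : Real.exp ((c + δ) * Real.sqrt N) * (2 ^ i / (ρ * N) ^ i) * (Nat.factorial i : ℝ) =
        Real.exp (-(2 * η * Real.sqrt N)) * 2 ^ i *
          (Real.exp ((c + δ + 2 * η) * Real.sqrt N) * (Nat.factorial i : ℝ) / (ρ * N) ^ i) := by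
      rw [e1]
      field_simp
    rw [e2]
    have h4 : (1 : ℝ) ≤
        Real.exp ((c + δ + 2 * η) * Real.sqrt N) * (Nat.factorial i : ℝ) / (ρ * N) ^ i := by
      rw [one_le_div h3]
      exact h
    have h5 : (0 : ℝ) ≤ Real.exp (-(2 * η * Real.sqrt N)) * 2 ^ i := by positivity
    nlinarith [mul_le_mul_of_nonneg_left h4 h5]
  unfold uu
  linarith

lemma sum_Ico_id (I0 I1 : ℕ) :
    (∑ i ∈ Finset.Ico I0 (I0 + I1), (i : ℝ)) = (I0 : ℝ) * I1 + (I1 : ℝ) * (I1 - 1) / 2 := by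
  induction I1 with
  | zero => simp
  | succ n ih =>
    rw [← Nat.add_assoc, Finset.sum_Ico_succ_top (by omega), ih]
    push_cast
    ring

lemma sum_range_id' (I1 : ℕ) :
    (∑ i ∈ Finset.range I1, (i : ℝ)) = (I1 : ℝ) * (I1 - 1) / 2 := by
  induction I1 with
  | zero => simp
  | succ n ih =>
    rw [Finset.sum_range_succ, ih]
    push_cast
    ring

/-- the logarithm of the determinant bound -/
lemma log_detB_le {c δ ρ η ν l : ℝ} {N I0 I1 : ℕ} (hN : 2 ≤ N) (hρ : 0 < ρ) (hν : 0 < ν)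
    (hI1 : 1 ≤ I1) (hl0 : l ≤ Real.log I0) (hl1 : l ≤ Real.log I1)
    (hu1 : Real.log I1 ≤ Real.log N / 2)
    (huu : ∀ i ∈ Finset.Ico I0 (I0 + I1),
      uu c δ ρ η N i ≤ 3 * Real.exp ((c + δ) * Real.sqrt N) * (2 / (ρ * N)) ^ i) :
    Real.log (detB c δ ρ η N ((N : ℝ) ^ (1 / 2 + ν)) I0 I1) ≤
      ((I0 : ℝ) + I1) ^ 2 / 2 * ((1 / 2 + ν) * Real.log N) -
        ((I0 : ℝ) ^ 2 + (I1 : ℝ) ^ 2) / 2 * l + 2 * ((I0 : ℝ) ^ 2 + (I1 : ℝ) ^ 2) +
        I1 * (Real.log N / 2) + I1 * (Real.log 3 + (c + δ) * Real.sqrt N) +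
        ((I0 : ℝ) * I1 + (I1 : ℝ) * (I1 - 1) / 2) * (Real.log 2 - Real.log ρ - Real.log N) +
        (I1 : ℝ) * (I1 - 1) / 2 * (Real.log 2 + Real.log ρ + Real.log N) := by
  have hN' : (0 : ℝ) < N := by
    have : 0 < N := by omega
    exact_mod_cast this
  have hN0 : 0 < N := by omega
  have hN1 : (1 : ℝ) ≤ N := by
    have : 1 ≤ N := by omega
    exact_mod_cast this
  have hL : 0 ≤ Real.log N := Real.log_nonneg hN1
  have hH : (0 : ℝ) < (N : ℝ) ^ (1 / 2 + ν) := Real.rpow_pos_of_pos hN' _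
  have p1 : (0 : ℝ) < ((N : ℝ) ^ (1 / 2 + ν)) ^ ((I0 + I1) * (I0 + I1 - 1) / 2) := by positivity
  have p2 : (0 : ℝ) < (∏ a ∈ Finset.range I0, (Nat.factorial a : ℝ)) :=
    Finset.prod_pos (fun a _ => by positivity)
  have p3 : (0 : ℝ) < (Nat.factorial I1 : ℝ) := by positivity
  have p4 : (0 : ℝ) < ∏ i ∈ Finset.Ico I0 (I0 + I1), uu c δ ρ η N i :=
    Finset.prod_pos (fun a _ => uu_pos c δ ρ η hN0 hρ a)
  have p5 : (0 : ℝ) < ∏ b ∈ Finset.range I1, vv ρ N b :=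
    Finset.prod_pos (fun a _ => vv_pos hN0 hρ a)
  have hlog : Real.log (detB c δ ρ η N ((N : ℝ) ^ (1 / 2 + ν)) I0 I1) =
      Real.log (((N : ℝ) ^ (1 / 2 + ν)) ^ ((I0 + I1) * (I0 + I1 - 1) / 2)) -
      Real.log (∏ a ∈ Finset.range I0, (Nat.factorial a : ℝ)) + Real.log (Nat.factorial I1 : ℝ) +
      Real.log (∏ i ∈ Finset.Ico I0 (I0 + I1), uu c δ ρ η N i) +
      Real.log (∏ b ∈ Finset.range I1, vv ρ N b) := by
    unfold detB
    rw [Real.log_mul (by positivity) p5.ne', Real.log_mul (by positivity) p4.ne',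
      Real.log_mul (by positivity) p3.ne', Real.log_mul p1.ne' (by positivity), Real.log_inv]
    ring
  -- factor 1
  have b1 : Real.log (((N : ℝ) ^ (1 / 2 + ν)) ^ ((I0 + I1) * (I0 + I1 - 1) / 2)) ≤
      ((I0 : ℝ) + I1) ^ 2 / 2 * ((1 / 2 + ν) * Real.log N) := by
    rw [Real.log_pow, Real.log_rpow hN']
    apply mul_le_mul_of_nonneg_right _ (by positivity)
    have h1 : (((I0 + I1) * (I0 + I1 - 1) / 2 : ℕ) : ℝ) ≤
        (((I0 + I1) * (I0 + I1 - 1) : ℕ) : ℝ) / 2 := Nat.cast_div_le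
    have h2 : (((I0 + I1) * (I0 + I1 - 1) : ℕ) : ℝ) ≤ ((I0 : ℝ) + I1) ^ 2 := by
      have : (I0 + I1) * (I0 + I1 - 1) ≤ (I0 + I1) ^ 2 := by
        rw [pow_two]
        exact Nat.mul_le_mul_left _ (Nat.sub_le _ _)
      exact_mod_cast this
    linarith
  -- factor 2
  have b2 : (I0 : ℝ) ^ 2 / 2 * l - 2 * (I0 : ℝ) ^ 2 ≤
      Real.log (∏ a ∈ Finset.range I0, (Nat.factorial a : ℝ)) := by
    rw [Real.log_prod (fun a _ => by positivity)]
    have := sfact_lower I0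
    have h2 : (I0 : ℝ) ^ 2 / 2 * l ≤ (I0 : ℝ) ^ 2 / 2 * Real.log I0 :=
      mul_le_mul_of_nonneg_left hl0 (by positivity)
    linarith
  -- factor 3
  have b3 : Real.log (Nat.factorial I1 : ℝ) ≤ I1 * (Real.log N / 2) := by
    have h1 : (Nat.factorial I1 : ℝ) ≤ (I1 : ℝ) ^ I1 := by
      exact_mod_cast Nat.factorial_le_pow I1
    have h2 := Real.log_le_log p3 h1
    rw [Real.log_pow] at h2
    have h3 : (I1 : ℝ) * Real.log I1 ≤ I1 * (Real.log N / 2) :=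
      mul_le_mul_of_nonneg_left hu1 (by positivity)
    linarith
  -- factor 4
  have b4 : Real.log (∏ i ∈ Finset.Ico I0 (I0 + I1), uu c δ ρ η N i) ≤
      I1 * (Real.log 3 + (c + δ) * Real.sqrt N) +
        ((I0 : ℝ) * I1 + (I1 : ℝ) * (I1 - 1) / 2) * (Real.log 2 - Real.log ρ - Real.log N) := by
    rw [Real.log_prod (fun a _ => (uu_pos c δ ρ η hN0 hρ a).ne')]
    have h1 : ∀ i ∈ Finset.Ico I0 (I0 + I1), Real.log (uu c δ ρ η N i) ≤
        (Real.log 3 + (c + δ) * Real.sqrt N) +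
          (i : ℝ) * (Real.log 2 - Real.log ρ - Real.log N) := by
      intro i hi
      have h2 := Real.log_le_log (uu_pos c δ ρ η hN0 hρ i) (huu i hi)
      rw [Real.log_mul (by positivity) (by positivity), Real.log_mul (by positivity) (by positivity),
        Real.log_exp, Real.log_pow, Real.log_div (by positivity) (by positivity),
        Real.log_mul (by positivity) (by positivity)] at h2
      have e : (i : ℝ) * (Real.log 2 - (Real.log ρ + Real.log N)) =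
        (i : ℝ) * (Real.log 2 - Real.log ρ - Real.log N) := by ring
      rw [e] at h2
      linarith
    refine (Finset.sum_le_sum h1).trans ?_
    rw [Finset.sum_add_distrib, ← Finset.sum_mul, sum_Ico_id, Finset.sum_const, Nat.card_Ico,
      Nat.add_sub_cancel_left, nsmul_eq_mul]
  -- factor 5
  have b5 : Real.log (∏ b ∈ Finset.range I1, vv ρ N b) ≤
      (I1 : ℝ) * (I1 - 1) / 2 * (Real.log 2 + Real.log ρ + Real.log N) -
        ((I1 : ℝ) ^ 2 / 2 * l - 2 * (I1 : ℝ) ^ 2) := by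
    rw [Real.log_prod (fun a _ => (vv_pos hN0 hρ a).ne')]
    have h1 : ∀ b ∈ Finset.range I1, Real.log (vv ρ N b) =
        (b : ℝ) * (Real.log 2 + Real.log ρ + Real.log N) - Real.log (Nat.factorial b : ℝ) := by
      intro b _
      unfold vv
      rw [Real.log_div (by positivity) (by positivity), Real.log_pow,
        Real.log_mul (by positivity) (by positivity), Real.log_mul (by positivity) (by positivity)]
    rw [Finset.sum_congr rfl h1, Finset.sum_sub_distrib, ← Finset.sum_mul, sum_range_id']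
    have := sfact_lower I1
    have h2 : (I1 : ℝ) ^ 2 / 2 * l ≤ (I1 : ℝ) ^ 2 / 2 * Real.log I1 :=
      mul_le_mul_of_nonneg_left hl1 (by positivity)
    linarith
  rw [hlog]
  linarith

lemma sqrt_eq_mul {N : ℕ} (h : 0 < Real.log N) :
    Real.log N * (Real.sqrt N / Real.log N) = Real.sqrt N := by
  field_simp

lemma num_aux {L x q a b M K t c δ ν ι0 ι1 l2 l3 lρ : ℝ} (hL0 : 0 < L) (hx0 : 0 < x)
    (hq : q = L * x) (hM0 : 1 ≤ M) (hK : K = 2 + (l2 - lρ) + l2) (hl2 : 0 ≤ l2) (hl3 : 0 ≤ l3)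
    (hlρ : lρ ≤ 0) (ht0 : 0 < t) (hι0 : 0 < ι0) (hι1 : 0 < ι1) (hcδ : 0 < c + δ) (hν : 0 < ν)
    (ha : 1 ≤ a) (hb : 1 ≤ b) (low0 : ι0 * x ≤ a) (low1 : ι1 * x ≤ b)
    (up1 : b ≤ (ι1 + t / 2) * x) (D1 : a + b ≤ (ι0 + ι1 + t) * x)
    (hKs : M + K + 1 ≤ t * L / 2) (sx : 1 / 2 + l3 ≤ x * t) (hL1 : 1 ≤ L)
    (htF : (ι1 + t) * (c + δ) + ν / 2 * (ι0 + ι1 + t) ^ 2 - ι0 * ι1 / 2 +
        (ι0 + ι1 + t) ^ 2 * t + (ι1 + t) * t < 0) :
    (a + b) ^ 2 / 2 * ((1 / 2 + ν) * L) - (a ^ 2 + b ^ 2) / 2 * (L / 2 - 2 * M) +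
      2 * (a ^ 2 + b ^ 2) + b * (L / 2) + b * (l3 + (c + δ) * q) +
      (a * b + b * (b - 1) / 2) * (l2 - lρ - L) +
      b * (b - 1) / 2 * (l2 + lρ + L) < 0 := by
  have e0 : (a + b) ^ 2 / 2 * ((1 / 2 + ν) * L) - (a ^ 2 + b ^ 2) / 2 * (L / 2 - 2 * M) +
      2 * (a ^ 2 + b ^ 2) + b * (L / 2) + b * (l3 + (c + δ) * q) +
      (a * b + b * (b - 1) / 2) * (l2 - lρ - L) +
      b * (b - 1) / 2 * (l2 + lρ + L) =
      L * (ν / 2 * (a + b) ^ 2) - L * (a * b / 2) + b * (c + δ) * q +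
      ((a ^ 2 + b ^ 2) * M + 2 * (a ^ 2 + b ^ 2) + a * b * (l2 - lρ) +
        b * (b - 1) * l2) + b * (L / 2 + l3) := by
    ring
  rw [e0]
  have hab0 : 0 ≤ a * b := mul_nonneg (by linarith) (by linarith)
  have hab : a ^ 2 + b ^ 2 ≤ (a + b) ^ 2 := by
    have : (a + b) ^ 2 = a ^ 2 + b ^ 2 + 2 * (a * b) := by ring
    linarith
  have hab' : a * b ≤ (a + b) ^ 2 := by
    have : (a + b) ^ 2 = a ^ 2 + b ^ 2 + 2 * (a * b) := by ring
    have h1 := sq_nonneg a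
    have h2 := sq_nonneg b
    linarith
  have hbb : b * (b - 1) ≤ (a + b) ^ 2 := by
    have : (a + b) ^ 2 = a ^ 2 + b ^ 2 + 2 * (a * b) := by ring
    have h1 := sq_nonneg a
    have h3 : b * (b - 1) = b ^ 2 - b := by ring
    linarith
  have err1 : (a ^ 2 + b ^ 2) * M + 2 * (a ^ 2 + b ^ 2) + a * b * (l2 - lρ) +
        b * (b - 1) * l2 ≤ (a + b) ^ 2 * (M + K) := by
    have s1 : (a ^ 2 + b ^ 2) * M ≤ (a + b) ^ 2 * M := mul_le_mul_of_nonneg_right hab (by linarith)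
    have s2 : a * b * (l2 - lρ) ≤ (a + b) ^ 2 * (l2 - lρ) :=
      mul_le_mul_of_nonneg_right hab' (by linarith)
    have s3 : b * (b - 1) * l2 ≤ (a + b) ^ 2 * l2 :=
      mul_le_mul_of_nonneg_right hbb hl2
    have s4 : (a + b) ^ 2 * (M + K) = (a + b) ^ 2 * M + 2 * (a + b) ^ 2 +
        (a + b) ^ 2 * (l2 - lρ) + (a + b) ^ 2 * l2 := by
      rw [hK]; ring
    rw [s4]
    linarith
  have hD2 : (a + b) ^ 2 ≤ ((ι0 + ι1 + t) * x) ^ 2 := by
    apply pow_le_pow_left₀ (by linarith) D1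
  have hK0 : 0 ≤ K := by
    rw [hK]; linarith
  have htL : 0 < t * L := mul_pos ht0 hL0
  have err2 : (a + b) ^ 2 * (M + K) ≤ L * x ^ 2 * ((ι0 + ι1 + t) ^ 2 * t) := by
    have s1 : (a + b) ^ 2 * (M + K) ≤ ((ι0 + ι1 + t) * x) ^ 2 * (t * L) := by
      apply mul_le_mul hD2 _ (by linarith) (by positivity)
      linarith
    have s2 : ((ι0 + ι1 + t) * x) ^ 2 * (t * L) = L * x ^ 2 * ((ι0 + ι1 + t) ^ 2 * t) := by ring
    linarith
  have up1' : b ≤ (ι1 + t) * x := by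
    have h1 : 0 ≤ t / 2 * x := by positivity
    have h2 : (ι1 + t) * x = (ι1 + t / 2) * x + t / 2 * x := by ring
    linarith
  have err3 : b * (L / 2 + l3) ≤ L * x ^ 2 * ((ι1 + t) * t) := by
    have s0 : L / 2 + l3 ≤ L * (t * x) := by
      have h1 : L * (1 / 2 + l3) ≤ L * (x * t) := mul_le_mul_of_nonneg_left sx hL0.le
      have h2 : 1 * l3 ≤ L * l3 := mul_le_mul_of_nonneg_right hL1 hl3
      have h3 : L * (t * x) = L * (x * t) := by ring
      have h4 : L * (1 / 2 + l3) = L / 2 + L * l3 := by ring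
      linarith
    have s1 : b * (L / 2 + l3) ≤ ((ι1 + t) * x) * (L * (t * x)) := by
      apply mul_le_mul up1' s0 (by positivity) (by positivity)
    have s2 : ((ι1 + t) * x) * (L * (t * x)) = L * x ^ 2 * ((ι1 + t) * t) := by ring
    linarith
  have m1 : L * (ν / 2 * (a + b) ^ 2) ≤ L * x ^ 2 * (ν / 2 * (ι0 + ι1 + t) ^ 2) := by
    have s1 : L * (ν / 2 * (a + b) ^ 2) ≤ L * (ν / 2 * ((ι0 + ι1 + t) * x) ^ 2) := by
      apply mul_le_mul_of_nonneg_left _ hL0.le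
      exact mul_le_mul_of_nonneg_left hD2 (by positivity)
    have s2 : L * (ν / 2 * ((ι0 + ι1 + t) * x) ^ 2) = L * x ^ 2 * (ν / 2 * (ι0 + ι1 + t) ^ 2) := by
      ring
    linarith
  have m2 : L * x ^ 2 * (ι0 * ι1 / 2) ≤ L * (a * b / 2) := by
    have s1 : (ι0 * x) * (ι1 * x) ≤ a * b :=
      mul_le_mul low0 low1 (by positivity) (by linarith)
    have s2 : L * x ^ 2 * (ι0 * ι1 / 2) = L * ((ι0 * x) * (ι1 * x) / 2) := by ring
    rw [s2]
    apply mul_le_mul_of_nonneg_left _ hL0.le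
    linarith
  have m3 : b * (c + δ) * q ≤ L * x ^ 2 * ((ι1 + t) * (c + δ)) := by
    have hq0 : 0 ≤ q := by rw [hq]; positivity
    have s1 : b * (c + δ) * q ≤ ((ι1 + t) * x) * (c + δ) * q := by
      apply mul_le_mul_of_nonneg_right _ hq0
      apply mul_le_mul_of_nonneg_right _ (by linarith)
      exact up1'
    have s2 : ((ι1 + t) * x) * (c + δ) * q = L * x ^ 2 * ((ι1 + t) * (c + δ)) := by
      rw [hq]; ring
    linarith
  have fin : L * x ^ 2 * ((ι1 + t) * (c + δ) + ν / 2 * (ι0 + ι1 + t) ^ 2 - ι0 * ι1 / 2 +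
        (ι0 + ι1 + t) ^ 2 * t + (ι1 + t) * t) < 0 :=
    mul_neg_of_pos_of_neg (by positivity) htF
  have fin' : L * x ^ 2 * ((ι1 + t) * (c + δ) + ν / 2 * (ι0 + ι1 + t) ^ 2 - ι0 * ι1 / 2 +
        (ι0 + ι1 + t) ^ 2 * t + (ι1 + t) * t) =
      L * x ^ 2 * ((ι1 + t) * (c + δ)) + L * x ^ 2 * (ν / 2 * (ι0 + ι1 + t) ^ 2) -
        L * x ^ 2 * (ι0 * ι1 / 2) + L * x ^ 2 * ((ι0 + ι1 + t) ^ 2 * t) +
        L * x ^ 2 * ((ι1 + t) * t) := by ring
  linarith

theorem num_det {c δ ρ η ι0 ι1 ν : ℝ} (hc : 0 < c) (hδ : 0 < δ) (hρ : 0 < ρ) (hρ1 : ρ ≤ 1 / 4)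
    (hη : 0 < η) (hι0 : 0 < ι0) (hι1 : 0 < ι1) (hν : 0 < ν)
    (h1 : (ι0 + ι1) / 2 < c + δ + 2 * η)
    (h2 : ι1 * (c + δ) + ν / 2 * (ι0 + ι1) ^ 2 < ι0 * ι1 / 2) :
    ∀ᶠ N : ℕ in atTop,
      detB c δ ρ η N ((N : ℝ) ^ (1 / 2 + ν)) (cI ι0 N) (cI ι1 N) < 1 := by
  -- choice of the small parameter
  obtain ⟨t, ht0, htG, htF⟩ : ∃ t : ℝ, 0 < t ∧ (ι0 + ι1 + t) * (1 / 2 + t) < c + δ + 2 * η ∧
      (ι1 + t) * (c + δ) + ν / 2 * (ι0 + ι1 + t) ^ 2 - ι0 * ι1 / 2 +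
        (ι0 + ι1 + t) ^ 2 * t + (ι1 + t) * t < 0 := by
    have c1 : ContinuousAt (fun t : ℝ => (ι0 + ι1 + t) * (1 / 2 + t)) 0 := by fun_prop
    have c2 : ContinuousAt (fun t : ℝ => (ι1 + t) * (c + δ) + ν / 2 * (ι0 + ι1 + t) ^ 2 -
        ι0 * ι1 / 2 + (ι0 + ι1 + t) ^ 2 * t + (ι1 + t) * t) 0 := by fun_prop
    have e1 := c1.eventually_lt_const (u := c + δ + 2 * η) (by simp; linarith)
    have e2 := c2.eventually_lt_const (u := 0) (by simp; linarith)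
    have e3 := (e1.and e2)
    obtain ⟨ε, hε, hb⟩ := Metric.eventually_nhds_iff.mp e3
    have := hb (y := ε / 2) (by simp [abs_of_pos hε]; linarith)
    exact ⟨ε / 2, by linarith, this.1, this.2⟩
  have hlogT : Tendsto (fun N : ℕ => Real.log (N : ℝ)) atTop atTop :=
    Real.tendsto_log_atTop.comp tendsto_natCast_atTop_atTop
  -- constants
  set K : ℝ := 2 + (Real.log 2 - Real.log ρ) + Real.log 2 with hK
  have hlρ : Real.log ρ ≤ 0 := Real.log_nonpos hρ.le (by linarith)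
  have hl2 : 0 ≤ Real.log 2 := Real.log_nonneg (by norm_num)
  have hl3 : 0 ≤ Real.log 3 := Real.log_nonneg (by norm_num)
  have ht2 : 0 < t / 2 := by linarith
  filter_upwards [cI_upper hι0 ht2, cI_upper hι1 ht2, log_cI_lower hι0, log_cI_lower hι1,
    log_cI_upper hι1, loglog_small (δ := t / 4) (by linarith),
    hlogT.eventually_ge_atTop (4 * (K + 1) / t), hlogT.eventually_ge_atTop (Real.exp 1),
    sqrt_div_log_tendsto.eventually_ge_atTop ((1 / 2 + Real.log 3) / t),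
    eventually_ge_atTop 2, (cI_tendsto hι0).eventually_ge_atTop 1,
    (cI_tendsto hι1).eventually_ge_atTop 1]
    with N u0 u1 l0 l1 v1 ll LK Le sx hN2 hI0 hI1
  set L := Real.log (N : ℝ) with hLdef
  set q := Real.sqrt (N : ℝ) with hqdef
  set I0 := cI ι0 N with hI0def
  set I1 := cI ι1 N with hI1def
  have hL1 : 1 ≤ L := by
    have := Real.add_one_le_exp (1 : ℝ)
    linarith
  have hL0 : 0 < L := by linarith
  have hlL : 1 ≤ Real.log L := by
    rw [← Real.log_exp 1]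
    exact Real.log_le_log (Real.exp_pos 1) Le
  have hN0 : 0 < N := by omega
  have hNR : (0 : ℝ) < N := by exact_mod_cast hN0
  set x := q / L with hx
  have hq : q = L * x := by
    rw [hx]
    field_simp
  have hx0 : 0 < x := by
    have : 0 < (1 / 2 + Real.log 3) / t := by positivity
    linarith
  have low0 : ι0 * x ≤ (I0 : ℝ) := by
    have := cI_lower ι0 N
    rw [hx, ← mul_div_assoc]
    exact this
  have low1 : ι1 * x ≤ (I1 : ℝ) := by
    have := cI_lower ι1 N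
    rw [hx, ← mul_div_assoc]
    exact this
  have up0 : (I0 : ℝ) ≤ (ι0 + t / 2) * x := by
    rw [hx, ← mul_div_assoc]
    exact u0
  have up1 : (I1 : ℝ) ≤ (ι1 + t / 2) * x := by
    rw [hx, ← mul_div_assoc]
    exact u1
  have hI1R : (1 : ℝ) ≤ I1 := by exact_mod_cast hI1
  have hI0R : (1 : ℝ) ≤ I0 := by exact_mod_cast hI0
  have D1 : (I0 : ℝ) + I1 ≤ (ι0 + ι1 + t) * x := by linarith
  -- the smallness of log L + K
  have hKs : Real.log L + K + 1 ≤ t * L / 2 := by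
    have : 4 * (K + 1) ≤ L * t := by
      rw [div_le_iff₀ ht0] at LK
      exact LK
    nlinarith
  have hK0 : 2 ≤ K := by
    rw [hK]
    linarith
  have huu : ∀ i ∈ Finset.Ico I0 (I0 + I1),
      uu c δ ρ η N i ≤ 3 * Real.exp ((c + δ) * Real.sqrt N) * (2 / (ρ * N)) ^ i := by
    intro i hi
    rw [Finset.mem_Ico] at hi
    apply uu_le hN0 hρ
    have hi0 : 0 < i := by omega
    have hiR : (0 : ℝ) < i := by exact_mod_cast hi0
    have hf : (0 : ℝ) < (Nat.factorial i : ℝ) := by positivity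
    have hρN : 0 < ρ * N := by positivity
    rw [← Real.log_le_log_iff (by positivity) (by positivity), Real.log_pow,
      Real.log_mul hρ.ne' hNR.ne', Real.log_mul (Real.exp_pos _).ne' hf.ne', Real.log_exp]
    have hfl := log_factorial_lower i
    have hli : Real.log I0 ≤ Real.log i := by
      apply Real.log_le_log (by linarith)
      exact_mod_cast hi.1
    have hiD : (i : ℝ) ≤ (ι0 + ι1 + t) * x := by
      have : (i : ℝ) ≤ (I0 : ℝ) + I1 := by exact_mod_cast hi.2.le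
      linarith
    have g1 : (i : ℝ) * (Real.log ρ + L) - (i * Real.log i - i) ≤
        (i : ℝ) * (L * (1 / 2 + t)) := by
      have h3 : Real.log ρ + L - Real.log i + 1 ≤ L * (1 / 2 + t) := by
        have h5 : L * (1 / 2 + t) = L / 2 + 2 * (t * L / 2) := by ring
        rw [h5]
        linarith
      have h4 := mul_le_mul_of_nonneg_left h3 hiR.le
      have h5 : (i : ℝ) * (Real.log ρ + L - Real.log i + 1) =
        (i : ℝ) * (Real.log ρ + L) - (i * Real.log i - i) := by ring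
      linarith
    have g2 : (i : ℝ) * (L * (1 / 2 + t)) ≤ (c + δ + 2 * η) * q := by
      have a1 : (i : ℝ) * (L * (1 / 2 + t)) ≤ ((ι0 + ι1 + t) * x) * (L * (1 / 2 + t)) :=
        mul_le_mul_of_nonneg_right hiD (by positivity)
      have a2 : ((ι0 + ι1 + t) * x) * (L * (1 / 2 + t)) =
          ((ι0 + ι1 + t) * (1 / 2 + t)) * q := by
        rw [hq]
        ring
      have a3 : ((ι0 + ι1 + t) * (1 / 2 + t)) * q ≤ (c + δ + 2 * η) * q :=
        mul_le_mul_of_nonneg_right htG.le (Real.sqrt_nonneg _)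
      linarith
    linarith
  have main := log_detB_le (c := c) (δ := δ) (η := η) (ν := ν) (l := L / 2 - 2 * Real.log L)
    hN2 hρ hν hI1 l0 l1 v1 huu
  have hpos : 0 < detB c δ ρ η N ((N : ℝ) ^ (1 / 2 + ν)) I0 I1 := by
    unfold detB
    have p4 : (0 : ℝ) < ∏ i ∈ Finset.Ico I0 (I0 + I1), uu c δ ρ η N i :=
      Finset.prod_pos (fun a _ => uu_pos c δ ρ η hN0 hρ a)
    have p5 : (0 : ℝ) < ∏ b ∈ Finset.range I1, vv ρ N b :=
      Finset.prod_pos (fun a _ => vv_pos hN0 hρ a)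
    have p2 : (0 : ℝ) < (∏ a ∈ Finset.range I0, (Nat.factorial a : ℝ)) :=
      Finset.prod_pos (fun a _ => by positivity)
    positivity
  rw [← Real.log_neg_iff hpos]
  refine lt_of_le_of_lt main ?_
  have sx' : 1 / 2 + Real.log 3 ≤ x * t := by
    rw [div_le_iff₀ ht0] at sx
    exact sx
  exact num_aux hL0 hx0 hq hlL hK hl2 hl3 hlρ ht0 hι0 hι1 (by linarith) hν hI0R hI1R low0 low1
    up1 D1 hKs sx' hL1 htF

end PK
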