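import Pool.Agent.helper90.PK.NumBase

/-!
# PK-B12a: numerics for the upper bound of `E`

Proof sketch (`q = √N`, `L = log N`, `s = cI s1 N`, `H = N^(1/2+ν)`).
`num_E`: second term: `Ψ q + s (log 6 - (1/2-ν) L) ≤ Ψ q - (3/8) s1 q + O(q/L) ≤ -η q - log 2`
(since `(3/8) s1 ≥ Ψ + 2η`). First term:
`log 2 - 2η q + s ((1/2+ν) L + log 4) - log (s-1)!` with `log (s-1)! ≥ (s1/2 - δ') q`
(`log_fact_cI`) and `s L ≤ (s1+δ') q`: `≤ (-2η + s1 ν + small) q`.
`num_P`: `I0 = cI ι0 N`: `log` of the first term `≤ (c+δ+ι0/2+small) q`; second: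
`(3c/2) q + I1 log(2e/ε) = (3c/2) q + O(q/L)`.
-/

namespace PK

open Filter

/-- Basic eventual comparisons between `1`, `log N`, `√N / log N` and `√N`. -/
theorem ev_basic (K : ℝ) {δ : ℝ} (hδ : 0 < δ) : ∀ᶠ N : ℕ in atTop,
    1 ≤ N ∧ 1 ≤ Real.log N ∧ K ≤ δ * Real.log N ∧ K ≤ δ * (Real.sqrt N / Real.log N) ∧
      Real.log N ≤ δ * (Real.sqrt N / Real.log N) ∧ K ≤ δ * Real.sqrt N ∧
      Real.log N ≤ δ * Real.sqrt N ∧ K * (Real.sqrt N / Real.log N) ≤ δ * Real.sqrt N := by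
  have hlog : Tendsto (fun N : ℕ => Real.log (N : ℝ)) atTop atTop :=
    Real.tendsto_log_atTop.comp tendsto_natCast_atTop_atTop
  have h1 : ∀ᶠ N : ℕ in atTop, 1 ≤ Real.log N := hlog.eventually_ge_atTop 1
  have h2 : ∀ᶠ N : ℕ in atTop, K / δ ≤ Real.log N := hlog.eventually_ge_atTop _
  have h3 : ∀ᶠ N : ℕ in atTop, K / δ ≤ Real.sqrt N / Real.log N :=
    sqrt_div_log_tendsto.eventually_ge_atTop _
  have h4 : ∀ᶠ N : ℕ in atTop, Real.log (N : ℝ) ^ 2 ≤ δ * Real.sqrt N := by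
    have h := (isLittleO_log_rpow_rpow_atTop (s := 1 / 2) 2 (by norm_num)).bound hδ
    have h' := tendsto_natCast_atTop_atTop.eventually h
    filter_upwards [h'] with N hN
    rw [Real.norm_eq_abs, Real.norm_eq_abs, abs_of_nonneg (Real.rpow_nonneg (Nat.cast_nonneg N) _),
      ← Real.sqrt_eq_rpow] at hN
    have h5 := le_abs_self (Real.log (N : ℝ) ^ (2 : ℝ))
    rw [Real.rpow_two] at h5 hN
    linarith
  filter_upwards [h1, h2, h3, h4, eventually_ge_atTop 1] with N h1 h2 h3 h4 h5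
  have hL : 0 < Real.log N := by linarith
  have hq : 0 ≤ Real.sqrt N := Real.sqrt_nonneg _
  have hKL : K ≤ δ * Real.log N := by rwa [div_le_iff₀' hδ] at h2
  have hKqL : K ≤ δ * (Real.sqrt N / Real.log N) := by rwa [div_le_iff₀' hδ] at h3
  have hqL : Real.sqrt N / Real.log N ≤ Real.sqrt N := div_le_self hq h1
  have hLqL : Real.log N ≤ δ * (Real.sqrt N / Real.log N) := by
    rw [← mul_div_assoc, le_div_iff₀ hL]
    nlinarith [h4]
  refine ⟨h5, h1, hKL, hKqL, hLqL, ?_, ?_, ?_⟩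
  · exact hKqL.trans (mul_le_mul_of_nonneg_left hqL hδ.le)
  · exact hLqL.trans (mul_le_mul_of_nonneg_left hqL hδ.le)
  · rw [← mul_div_assoc, div_le_iff₀ hL]
    nlinarith [mul_le_mul_of_nonneg_right hKL hq]

theorem pow_le_exp {x a : ℝ} (hx : 0 ≤ x) (h : x ≤ Real.exp a) (n : ℕ) :
    x ^ n ≤ Real.exp (n * a) := by
  rw [Real.exp_nat_mul]
  exact pow_le_pow_left₀ hx h n

/-- `cI α N * log N ≤ (α + δ) √N` eventually. -/
theorem cI_mul_log {α δ : ℝ} (hα : 0 < α) (hδ : 0 < δ) :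
    ∀ᶠ N : ℕ in atTop, (cI α N : ℝ) * Real.log N ≤ (α + δ) * Real.sqrt N := by
  filter_upwards [cI_upper hα hδ, ev_basic 0 one_pos] with N h1 h2
  have hL : 0 < Real.log N := by linarith [h2.2.1]
  rwa [le_div_iff₀ hL] at h1

theorem inv_fact_le {α δ : ℝ} (hα : 0 < α) (hδ : 0 < δ) :
    ∀ᶠ N : ℕ in atTop, ((Nat.factorial (cI α N - 1) : ℝ))⁻¹ ≤
      Real.exp (-((α / 2 - δ) * Real.sqrt N)) := by
  filter_upwards [log_fact_cI hα hδ] with N h
  have hpos : (0 : ℝ) < (Nat.factorial (cI α N - 1) : ℝ) := by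
    exact_mod_cast Nat.factorial_pos _
  rw [Real.exp_neg]
  refine inv_anti₀ (Real.exp_pos _) ?_
  calc Real.exp ((α / 2 - δ) * Real.sqrt N)
      ≤ Real.exp (Real.log (Nat.factorial (cI α N - 1) : ℝ)) := Real.exp_le_exp.2 h
    _ = _ := Real.exp_log hpos

/-- `(K N^κ)^(cI α N) ≤ exp (((α+δ) κ + δ) √N)` eventually, for `κ ≥ 0`, `K ≥ 1`. -/
theorem pow_cI_le {α δ K κ : ℝ} (hα : 0 < α) (hδ : 0 < δ) (hK : 1 ≤ K) (hκ : 0 ≤ κ) :
    ∀ᶠ N : ℕ in atTop, (K * (N : ℝ) ^ κ) ^ (cI α N) ≤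
      Real.exp (((α + δ) * κ + δ) * Real.sqrt N) := by
  filter_upwards [cI_upper hα hδ, cI_mul_log hα hδ,
    ev_basic ((α + δ) * Real.log K) hδ] with N h1 h2 h3
  obtain ⟨hN, hL, -, -, -, -, -, h4⟩ := h3
  have hN0 : (0 : ℝ) < N := by exact_mod_cast hN
  have hK0 : 0 < K := by linarith
  have hlK : 0 ≤ Real.log K := Real.log_nonneg hK
  have hx : K * (N : ℝ) ^ κ ≤ Real.exp (Real.log K + κ * Real.log N) := by
    rw [Real.exp_add, Real.exp_log hK0, Real.rpow_def_of_pos hN0, mul_comm κ]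
  refine (pow_le_exp (by positivity) hx _).trans (Real.exp_le_exp.2 ?_)
  have hcI : (0 : ℝ) ≤ cI α N := Nat.cast_nonneg _
  have h5 : (cI α N : ℝ) * Real.log K ≤ δ * Real.sqrt N := by
    calc (cI α N : ℝ) * Real.log K ≤ (α + δ) * Real.sqrt N / Real.log N * Real.log K :=
          mul_le_mul_of_nonneg_right h1 hlK
      _ = (α + δ) * Real.log K * (Real.sqrt N / Real.log N) := by ring
      _ ≤ δ * Real.sqrt N := h4
  have h6 : κ * ((cI α N : ℝ) * Real.log N) ≤ κ * ((α + δ) * Real.sqrt N) :=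
    mul_le_mul_of_nonneg_left h2 hκ
  nlinarith

theorem num_E {η Ψ s1 ν : ℝ} (hη : 0 < η) (hΨ : 0 < Ψ) (hs1 : 0 < s1) (hν : 0 < ν)
    (hν8 : ν ≤ 1 / 8) (h1 : ν * s1 < η / 2) (h2 : Ψ + 2 * η ≤ 3 / 8 * s1) :
    ∀ᶠ N : ℕ in atTop,
      2 * Real.exp (-(2 * η * Real.sqrt N)) * (4 * (N : ℝ) ^ (1 / 2 + ν)) ^ (cI s1 N) /
        (Nat.factorial (cI s1 N - 1) : ℝ) +
      Real.exp (Ψ * Real.sqrt N) * (6 * (N : ℝ) ^ (1 / 2 + ν) / N) ^ (cI s1 N) ≤
      Real.exp (-(η * Real.sqrt N)) := by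
  have hδ : 0 < η / 20 := by positivity
  have hδ2 : 0 < η / (4 * s1) := by positivity
  filter_upwards [pow_cI_le (K := 4) (κ := 1 / 2 + ν) hs1 hδ (by norm_num) (by positivity),
    inv_fact_le hs1 hδ, ev_basic (2 * Real.log 2) hδ, ev_basic (Real.log 6) hδ2] with N h3 h4 h5 h6
  obtain ⟨hN, hL, -, -, -, h7, -, -⟩ := h5
  obtain ⟨-, -, h8, -, -, -, -, -⟩ := h6
  have hN0 : (0 : ℝ) < N := by exact_mod_cast hN
  have hL0 : 0 < Real.log N := by linarith
  set q := Real.sqrt N with hq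
  have hq0 : 0 ≤ q := Real.sqrt_nonneg _
  have h2e : (2 : ℝ) = Real.exp (Real.log 2) := (Real.exp_log (by norm_num)).symm
  have hlog2 : 0 < Real.log 2 := Real.log_pos (by norm_num)
  -- first term
  have hT1 : 2 * Real.exp (-(2 * η * q)) * (4 * (N : ℝ) ^ (1 / 2 + ν)) ^ (cI s1 N) /
        (Nat.factorial (cI s1 N - 1) : ℝ) ≤ Real.exp (-(η * q)) / 2 := by
    have hA : 2 * Real.exp (-(2 * η * q)) * (4 * (N : ℝ) ^ (1 / 2 + ν)) ^ (cI s1 N) /
        (Nat.factorial (cI s1 N - 1) : ℝ) ≤ Real.exp (Real.log 2) * Real.exp (-(2 * η * q)) *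
          Real.exp (((s1 + η / 20) * (1 / 2 + ν) + η / 20) * q) *
          Real.exp (-((s1 / 2 - η / 20) * q)) := by
      rw [← h2e, div_eq_mul_inv]
      gcongr
    refine hA.trans ?_
    have hB : Real.exp (-(η * q)) / 2 = Real.exp (-(η * q) - Real.log 2) := by
      rw [Real.exp_sub, Real.exp_log (by norm_num : (0 : ℝ) < 2)]
    rw [hB, ← Real.exp_add, ← Real.exp_add, ← Real.exp_add, Real.exp_le_exp]
    have h9 : ν * s1 * q ≤ η / 2 * q := mul_le_mul_of_nonneg_right h1.le hq0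
    have h10 : η / 20 * ν * q ≤ η / 20 * (1 / 8) * q := by gcongr
    nlinarith
  have hT2 : Real.exp (Ψ * q) * (6 * (N : ℝ) ^ (1 / 2 + ν) / N) ^ (cI s1 N) ≤
      Real.exp (-(η * q)) / 2 := by
    have hx : 6 * (N : ℝ) ^ (1 / 2 + ν) / N ≤
        Real.exp (-((3 / 8 - η / (4 * s1)) * Real.log N)) := by
      have hN1 : (N : ℝ) = Real.exp (Real.log N) := (Real.exp_log hN0).symm
      have h6e : (6 : ℝ) = Real.exp (Real.log 6) := (Real.exp_log (by norm_num)).symm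
      have hr : (N : ℝ) ^ (1 / 2 + ν) = Real.exp (Real.log N * (1 / 2 + ν)) :=
        Real.rpow_def_of_pos hN0 _
      calc 6 * (N : ℝ) ^ (1 / 2 + ν) / N
          = Real.exp (Real.log 6) * Real.exp (Real.log N * (1 / 2 + ν)) /
              Real.exp (Real.log N) := by rw [← h6e, ← hr, ← hN1]
        _ = Real.exp (Real.log 6 + Real.log N * (1 / 2 + ν) - Real.log N) := by
            rw [← Real.exp_add, ← Real.exp_sub]
        _ ≤ _ := by
            rw [Real.exp_le_exp]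
            nlinarith
    have hl := cI_lower s1 N
    have hneg : (cI s1 N : ℝ) * (-((3 / 8 - η / (4 * s1)) * Real.log N)) ≤
        -((3 / 8 - η / (4 * s1)) * s1 * q) := by
      have hc0 : 0 ≤ 3 / 8 - η / (4 * s1) := by
        rw [sub_nonneg, div_le_iff₀ (by positivity)]
        linarith
      have h9 : s1 * q ≤ (cI s1 N : ℝ) * Real.log N := by
        rw [← div_le_iff₀ hL0]; exact hl
      have := mul_le_mul_of_nonneg_left h9 hc0
      nlinarith
    calc Real.exp (Ψ * q) * (6 * (N : ℝ) ^ (1 / 2 + ν) / N) ^ (cI s1 N)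
        ≤ Real.exp (Ψ * q) * Real.exp (-((3 / 8 - η / (4 * s1)) * s1 * q)) := by
          refine mul_le_mul_of_nonneg_left ?_ (Real.exp_pos _).le
          exact (pow_le_exp (by positivity) hx _).trans (Real.exp_le_exp.2 hneg)
      _ ≤ Real.exp (-(η * q)) / 2 := by
          have hB : Real.exp (-(η * q)) / 2 = Real.exp (-(η * q) - Real.log 2) := by
            rw [Real.exp_sub, Real.exp_log (by norm_num : (0 : ℝ) < 2)]
          rw [hB, ← Real.exp_add, Real.exp_le_exp]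
          have h9 : (3 / 8 - η / (4 * s1)) * s1 = 3 / 8 * s1 - η / 4 := by
            field_simp
          rw [h9]
          have h10 : (Ψ + 2 * η) * q ≤ 3 / 8 * s1 * q := mul_le_mul_of_nonneg_right h2 hq0
          nlinarith
  linarith

theorem num_P {c δ ι0 ι1 ε Ψ : ℝ} (hc : 0 < c) (hδ : 0 < δ) (hι0 : 0 < ι0) (hι1 : 0 < ι1)
    (hε : 0 < ε) (hε1 : ε ≤ 1 / 2) (h1 : c + δ + ι0 / 2 < Ψ) (h2 : 3 / 2 * c < Ψ) :
    ∀ᶠ N : ℕ in atTop,
      (Real.exp ((c + δ) * Real.sqrt N) + 1) * (2 * (N : ℝ)) ^ (cI ι0 N - 1) /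
        (Nat.factorial (cI ι0 N - 1) : ℝ) +
      (2 * Real.exp 1 / ε) ^ (cI ι1 N) * Real.exp (3 / 2 * c * Real.sqrt N) ≤
      Real.exp (Ψ * Real.sqrt N) := by
  set g : ℝ := min (Ψ - (c + δ + ι0 / 2)) (Ψ - 3 / 2 * c) with hg
  have hg0 : 0 < g := lt_min (by linarith) (by linarith)
  have hδ1 : 0 < g / 10 := by positivity
  have hb : 0 ≤ Real.log (2 * Real.exp 1 / ε) := by
    apply Real.log_nonneg
    rw [le_div_iff₀ hε]
    have := Real.add_one_le_exp (1 : ℝ)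
    linarith
  have hb1 : 1 ≤ 2 * Real.exp 1 / ε := by
    rw [le_div_iff₀ hε]
    have := Real.add_one_le_exp (1 : ℝ)
    linarith
  filter_upwards [pow_cI_le (K := 2) (κ := 1) hι0 hδ1 (by norm_num) (by norm_num),
    inv_fact_le hι0 hδ1, ev_basic (2 * Real.log 2) hδ1,
    pow_cI_le (K := 2 * Real.exp 1 / ε) (κ := 0) hι1 hδ1 hb1 le_rfl] with N h3 h4 h5 h6
  obtain ⟨hN, hL, -, -, -, h7, -, -⟩ := h5
  have hN0 : (0 : ℝ) < N := by exact_mod_cast hN
  have hN1 : (1 : ℝ) ≤ N := by exact_mod_cast hN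
  set q := Real.sqrt N with hq
  have hq0 : 0 ≤ q := Real.sqrt_nonneg _
  have h2e : (2 : ℝ) = Real.exp (Real.log 2) := (Real.exp_log (by norm_num)).symm
  have hlog2 : 0 < Real.log 2 := Real.log_pos (by norm_num)
  have hB : Real.exp (Ψ * q) / 2 = Real.exp (Ψ * q - Real.log 2) := by
    rw [Real.exp_sub, Real.exp_log (by norm_num : (0 : ℝ) < 2)]
  have hg1 : g ≤ Ψ - (c + δ + ι0 / 2) := min_le_left _ _
  have hg2 : g ≤ Ψ - 3 / 2 * c := min_le_right _ _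
  have hT1 : (Real.exp ((c + δ) * q) + 1) * (2 * (N : ℝ)) ^ (cI ι0 N - 1) /
        (Nat.factorial (cI ι0 N - 1) : ℝ) ≤ Real.exp (Ψ * q) / 2 := by
    have hA1 : Real.exp ((c + δ) * q) + 1 ≤ Real.exp (Real.log 2) * Real.exp ((c + δ) * q) := by
      rw [← h2e]
      have : 1 ≤ Real.exp ((c + δ) * q) := Real.one_le_exp (by positivity)
      linarith
    have hA2 : (2 * (N : ℝ)) ^ (cI ι0 N - 1) ≤
        Real.exp (((ι0 + g / 10) * 1 + g / 10) * q) := by
      refine le_trans ?_ h3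
      rw [Real.rpow_one]
      exact pow_le_pow_right₀ (by linarith) (Nat.sub_le _ _)
    have hA : (Real.exp ((c + δ) * q) + 1) * (2 * (N : ℝ)) ^ (cI ι0 N - 1) /
        (Nat.factorial (cI ι0 N - 1) : ℝ) ≤ Real.exp (Real.log 2) * Real.exp ((c + δ) * q) *
          Real.exp (((ι0 + g / 10) * 1 + g / 10) * q) *
          Real.exp (-((ι0 / 2 - g / 10) * q)) := by
      rw [div_eq_mul_inv]
      gcongr
    refine hA.trans ?_
    rw [hB, ← Real.exp_add, ← Real.exp_add, ← Real.exp_add, Real.exp_le_exp]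
    have h8 : g * q ≤ (Ψ - (c + δ + ι0 / 2)) * q := mul_le_mul_of_nonneg_right hg1 hq0
    nlinarith
  have hT2 : (2 * Real.exp 1 / ε) ^ (cI ι1 N) * Real.exp (3 / 2 * c * q) ≤
      Real.exp (Ψ * q) / 2 := by
    rw [Real.rpow_zero, mul_one] at h6
    calc (2 * Real.exp 1 / ε) ^ (cI ι1 N) * Real.exp (3 / 2 * c * q)
        ≤ Real.exp (((ι1 + g / 10) * 0 + g / 10) * q) * Real.exp (3 / 2 * c * q) :=
          mul_le_mul_of_nonneg_right h6 (Real.exp_pos _).le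
      _ ≤ _ := by
          rw [hB, ← Real.exp_add, Real.exp_le_exp]
          have h8 : g * q ≤ (Ψ - 3 / 2 * c) * q := mul_le_mul_of_nonneg_right hg2 hq0
          nlinarith
  linarith

end PK
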