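import Pool.Agent.helper90.PK.NumBase
import Pool.Agent.helper90.PK.NumE

/-!
# PK-B12b: numerics for the final contradiction

Proof sketch (`q = √N`, `L = log N`, `I0 = cI ι0 N`, `l = cI η' N`, `H = N^(1/2+ν)`, `r = N/L`,
`L1 = K6 N/L`).
`num_F1`: `ε N/(H/2) = 2 ε N^(1/2-ν) ≤ N^(1/2)`, so the log is at most
`log l - (η+c-δ) q + l L/2 + I0 (L + log K6 - log L) - log (I0-1)!`,
`≤ (-(η+c-δ) + η'/2 + ι0 - ι0/2 + small) q`.
`num_F2`: the factorials cancel: `I0!/(I0-1)! = I0`, `(L1/r)^I0 = K6^I0`, `2 c r/√N = 2 c q/L`; the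
log is `≤ log(2 I0) + I0 log K6 + I1 log(2e/ε) + 2c q/L - l log(1/(4ε))`, in units `q/L`:
`ι0 log K6 + ι1 log (2e/ε) + 2c - η' log (1/(4ε)) < 0` (here use `cI_upper` with a small `δ` and
`log (2 I0) = O(L) = o(q/L)`).
`num_H`: `I0 log 2 + I1 log (2e/ε) - c K6 q/(8 L) ≤ -log 2`.
-/

namespace PK

open Filter

/-- `x^(cI α N) ≤ exp ((α+δ) log x · √N/log N)` eventually, for `x ≥ 1`. -/
theorem const_pow_cI_le {α δ x : ℝ} (hα : 0 < α) (hδ : 0 < δ) (hx : 1 ≤ x) :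
    ∀ᶠ N : ℕ in atTop, x ^ (cI α N) ≤
      Real.exp ((α + δ) * Real.log x * (Real.sqrt N / Real.log N)) := by
  filter_upwards [cI_upper hα hδ] with N h1
  have hx0 : 0 < x := by linarith
  refine (pow_le_exp hx0.le (Real.exp_log hx0).ge _).trans (Real.exp_le_exp.2 ?_)
  calc (cI α N : ℝ) * Real.log x ≤ (α + δ) * Real.sqrt N / Real.log N * Real.log x :=
        mul_le_mul_of_nonneg_right h1 (Real.log_nonneg hx)
    _ = _ := by ring

theorem cI_le_exp {α : ℝ} (hα : 0 < α) :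
    ∀ᶠ N : ℕ in atTop, 1 ≤ cI α N ∧ (cI α N : ℝ) ≤ Real.exp (Real.log N / 2) := by
  filter_upwards [log_cI_upper hα, (cI_tendsto hα).eventually_ge_atTop 1] with N h1 h2
  have h0 : (0 : ℝ) < cI α N := by exact_mod_cast h2
  refine ⟨h2, ?_⟩
  calc (cI α N : ℝ) = Real.exp (Real.log (cI α N)) := (Real.exp_log h0).symm
    _ ≤ _ := Real.exp_le_exp.2 h1

theorem num_F1 {c δ η η' ι0 ν ε K6 : ℝ} (hc : 0 < c) (hδ : 0 < δ) (hη : 0 < η) (hη' : 0 < η')
    (hι0 : 0 < ι0) (hν : 0 < ν) (hν8 : ν ≤ 1 / 8) (hε : 0 < ε) (hK6 : 1 ≤ K6)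
    (h1 : η' / 2 + ι0 / 2 < η + c - δ) :
    ∀ᶠ N : ℕ in atTop,
      (cI η' N : ℝ) * Real.exp (-((η + c - δ) * Real.sqrt N)) *
        (ε * N / ((N : ℝ) ^ (1 / 2 + ν) / 2)) ^ (cI η' N) *
        (K6 * N / Real.log N) ^ (cI ι0 N) / (Nat.factorial (cI ι0 N - 1) : ℝ) < 1 / 4 := by
  set g : ℝ := η + c - δ - (η' / 2 + ι0 / 2) with hg
  have hg0 : 0 < g := by linarith
  have hd : 0 < g / 20 := by positivity
  filter_upwards [cI_le_exp hη', inv_fact_le hι0 hd, ev_basic (2 * Real.log 8) hd,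
    ev_basic (Real.log (2 * ε)) hν,
    pow_cI_le (K := 1) (κ := 1 / 2) hη' hd le_rfl (by norm_num),
    pow_cI_le (K := K6) (κ := 1) hι0 hd hK6 (by norm_num)] with N h2 h3 h4 h5 h6 h7
  obtain ⟨hN, hL, -, -, -, h8, h9, -⟩ := h4
  obtain ⟨-, -, h10, -, -, -, -, -⟩ := h5
  have hN0 : (0 : ℝ) < N := by exact_mod_cast hN
  have hL0 : 0 < Real.log N := by linarith
  set q := Real.sqrt N with hq
  have hq0 : 0 ≤ q := Real.sqrt_nonneg _
  have hx : ε * N / ((N : ℝ) ^ (1 / 2 + ν) / 2) ≤ 1 * (N : ℝ) ^ (1 / 2 : ℝ) := by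
    have hNν : (N : ℝ) ^ (1 / 2 + ν) = (N : ℝ) ^ (1 / 2 : ℝ) * (N : ℝ) ^ ν :=
      Real.rpow_add hN0 _ _
    have hNh : (N : ℝ) ^ (1 / 2 : ℝ) * (N : ℝ) ^ (1 / 2 : ℝ) = N := by
      rw [← Real.rpow_add hN0]; norm_num
    have h2ε : 2 * ε ≤ (N : ℝ) ^ ν := by
      rw [Real.rpow_def_of_pos hN0]
      calc 2 * ε = Real.exp (Real.log (2 * ε)) := (Real.exp_log (by positivity)).symm
        _ ≤ _ := Real.exp_le_exp.2 (by linarith)
    have hs : 0 < (N : ℝ) ^ (1 / 2 : ℝ) := Real.rpow_pos_of_pos hN0 _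
    have hs2 : 0 < (N : ℝ) ^ ν := Real.rpow_pos_of_pos hN0 _
    rw [hNν, one_mul, div_le_iff₀ (by positivity)]
    have h11 : ε * ((N : ℝ) ^ (1 / 2 : ℝ) * (N : ℝ) ^ (1 / 2 : ℝ)) ≤
        (N : ℝ) ^ ν / 2 * ((N : ℝ) ^ (1 / 2 : ℝ) * (N : ℝ) ^ (1 / 2 : ℝ)) :=
      mul_le_mul_of_nonneg_right (by linarith) (by positivity)
    rw [hNh] at h11
    calc ε * (N : ℝ) ≤ (N : ℝ) ^ ν / 2 * N := h11
      _ = (N : ℝ) ^ ν / 2 * ((N : ℝ) ^ (1 / 2 : ℝ) * (N : ℝ) ^ (1 / 2 : ℝ)) := by rw [hNh]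
      _ = _ := by ring
  have hx' : (ε * N / ((N : ℝ) ^ (1 / 2 + ν) / 2)) ^ (cI η' N) ≤
      Real.exp (((η' + g / 20) * (1 / 2) + g / 20) * q) :=
    (pow_le_pow_left₀ (by positivity) hx _).trans h6
  have hy : (K6 * N / Real.log N) ^ (cI ι0 N) ≤
      Real.exp (((ι0 + g / 20) * 1 + g / 20) * q) := by
    refine (pow_le_pow_left₀ (by positivity) ?_ _).trans h7
    rw [Real.rpow_one]
    exact div_le_self (by positivity) hL
  have hA : (cI η' N : ℝ) * Real.exp (-((η + c - δ) * q)) *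
        (ε * N / ((N : ℝ) ^ (1 / 2 + ν) / 2)) ^ (cI η' N) *
        (K6 * N / Real.log N) ^ (cI ι0 N) / (Nat.factorial (cI ι0 N - 1) : ℝ) ≤
      Real.exp (Real.log N / 2) * Real.exp (-((η + c - δ) * q)) *
        Real.exp (((η' + g / 20) * (1 / 2) + g / 20) * q) *
        Real.exp (((ι0 + g / 20) * 1 + g / 20) * q) * Real.exp (-((ι0 / 2 - g / 20) * q)) := by
    rw [div_eq_mul_inv]
    have h2' := h2.2
    gcongr
  refine hA.trans_lt ?_
  rw [← Real.exp_add, ← Real.exp_add, ← Real.exp_add, ← Real.exp_add]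
  have hlog8 : 0 < Real.log 8 := Real.log_pos (by norm_num)
  have h14 : (1 / 4 : ℝ) = Real.exp (-(Real.log 4)) := by
    rw [Real.exp_neg, Real.exp_log (by norm_num)]; norm_num
  have h48 : Real.log 4 < Real.log 8 := Real.log_lt_log (by norm_num) (by norm_num)
  rw [h14, Real.exp_lt_exp]
  have hgq : g * q = (η + c - δ - (η' / 2 + ι0 / 2)) * q := rfl
  nlinarith

theorem num_F2 {c η' ι0 ι1 ε K6 : ℝ} (hc : 0 < c) (hη' : 0 < η') (hι0 : 0 < ι0) (hι1 : 0 < ι1)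
    (hε : 0 < ε) (hε1 : ε ≤ 1 / 8) (hK6 : 1 ≤ K6)
    (h1 : ι0 * Real.log K6 + ι1 * Real.log (2 * Real.exp 1 / ε) + 2 * c <
      η' * Real.log (1 / (4 * ε))) :
    ∀ᶠ N : ℕ in atTop,
      2 * ((Nat.factorial (cI ι0 N) : ℝ) / (N / Real.log N) ^ (cI ι0 N) *
        (2 * Real.exp 1 / ε) ^ (cI ι1 N) *
        Real.exp (2 * c * (N / Real.log N) / Real.sqrt N)) *
        (ε * N / (N / 4)) ^ (cI η' N) *
        (K6 * N / Real.log N) ^ (cI ι0 N) / (Nat.factorial (cI ι0 N - 1) : ℝ) < 1 / 4 := by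
  set a := Real.log K6 with ha
  set b := Real.log (2 * Real.exp 1 / ε) with hb
  set d := Real.log (1 / (4 * ε)) with hd
  set g : ℝ := η' * d - (ι0 * a + ι1 * b + 2 * c) with hg
  have hg0 : 0 < g := by linarith
  have hb1 : 1 ≤ 2 * Real.exp 1 / ε := by
    rw [le_div_iff₀ hε]
    have := Real.add_one_le_exp (1 : ℝ)
    linarith
  have ha0 : 0 ≤ a := Real.log_nonneg hK6
  have hb0 : 0 ≤ b := Real.log_nonneg hb1
  have hd0 : 0 ≤ d := by
    apply Real.log_nonneg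
    rw [le_div_iff₀ (by positivity)]
    linarith
  set δ1 : ℝ := g / (4 * (1 + a + b)) with hδ1
  have hδ1p : 0 < δ1 := by positivity
  have hδ1e : δ1 * (1 + a + b) = g / 4 := by
    rw [hδ1]; field_simp
  filter_upwards [cI_le_exp hι0, const_pow_cI_le hι0 hδ1p hK6, const_pow_cI_le hι1 hδ1p hb1,
    ev_basic (2 * Real.log 8) hδ1p, ev_basic (4 * Real.log 8) hg0] with N h2 h3 h4 h5 h6
  obtain ⟨hN, hL, -, h7, h8, -, -, -⟩ := h5
  obtain ⟨-, -, -, h9, -, -, -, -⟩ := h6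
  have hN0 : (0 : ℝ) < N := by exact_mod_cast hN
  have hL0 : 0 < Real.log N := by linarith
  set q := Real.sqrt N with hq
  have hq0 : 0 < q := Real.sqrt_pos.2 hN0
  have hqq : q * q = N := Real.mul_self_sqrt hN0.le
  set w := q / Real.log N with hw
  have hw0 : 0 < w := by positivity
  obtain ⟨n, hn⟩ : ∃ n, cI ι0 N = n + 1 := ⟨cI ι0 N - 1, by have := h2.1; omega⟩
  have hfact : (Nat.factorial (cI ι0 N) : ℝ) =
      (cI ι0 N : ℝ) * (Nat.factorial (cI ι0 N - 1) : ℝ) := by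
    rw [hn, Nat.factorial_succ, Nat.add_sub_cancel]
    push_cast
    ring
  have hfp : (0 : ℝ) < (Nat.factorial (cI ι0 N - 1) : ℝ) := by
    exact_mod_cast Nat.factorial_pos _
  have hmain : 2 * ((Nat.factorial (cI ι0 N) : ℝ) / (N / Real.log N) ^ (cI ι0 N) *
        (2 * Real.exp 1 / ε) ^ (cI ι1 N) *
        Real.exp (2 * c * (N / Real.log N) / q)) *
        (ε * N / (N / 4)) ^ (cI η' N) *
        (K6 * N / Real.log N) ^ (cI ι0 N) / (Nat.factorial (cI ι0 N - 1) : ℝ) =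
      2 * (cI ι0 N : ℝ) * K6 ^ (cI ι0 N) * (2 * Real.exp 1 / ε) ^ (cI ι1 N) *
        Real.exp (2 * c * w) * (4 * ε) ^ (cI η' N) := by
    have e1 : 2 * c * (N / Real.log N) / q = 2 * c * w := by
      rw [hw, ← hqq]; field_simp
    have e2 : ε * N / (N / 4) = 4 * ε := by field_simp
    have e3 : (K6 * N / Real.log N) ^ (cI ι0 N) =
        K6 ^ (cI ι0 N) * (N / Real.log N) ^ (cI ι0 N) := by
      rw [← mul_pow]; congr 1; ring
    have e4 : ((N : ℝ) / Real.log N) ^ (cI ι0 N) ≠ 0 := by positivity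
    rw [e1, e2, e3, hfact]
    field_simp
  rw [hmain]
  have h10 : (4 * ε) ^ (cI η' N) ≤ Real.exp (-(η' * d * w)) := by
    have hx : 4 * ε ≤ Real.exp (-d) := by
      rw [hd, Real.exp_neg, Real.exp_log (by positivity)]
      rw [one_div, inv_inv]
    refine (pow_le_exp (by positivity) hx _).trans (Real.exp_le_exp.2 ?_)
    have hl := cI_lower η' N
    have h11 : η' * w ≤ (cI η' N : ℝ) := by
      rw [hw, ← mul_div_assoc]; exact hl
    nlinarith [mul_le_mul_of_nonneg_right h11 hd0]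
  have h12 : 2 * (cI ι0 N : ℝ) ≤ Real.exp (Real.log 2) * Real.exp (Real.log N / 2) := by
    rw [Real.exp_log (by norm_num : (0 : ℝ) < 2)]
    exact mul_le_mul_of_nonneg_left h2.2 (by norm_num)
  have hA : 2 * (cI ι0 N : ℝ) * K6 ^ (cI ι0 N) * (2 * Real.exp 1 / ε) ^ (cI ι1 N) *
        Real.exp (2 * c * w) * (4 * ε) ^ (cI η' N) ≤
      (Real.exp (Real.log 2) * Real.exp (Real.log N / 2)) * Real.exp ((ι0 + δ1) * a * w) *
        Real.exp ((ι1 + δ1) * b * w) * Real.exp (2 * c * w) * Real.exp (-(η' * d * w)) := by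
    gcongr
  refine hA.trans_lt ?_
  rw [← Real.exp_add, ← Real.exp_add, ← Real.exp_add, ← Real.exp_add, ← Real.exp_add]
  have h14 : (1 / 4 : ℝ) = Real.exp (-(Real.log 4)) := by
    rw [Real.exp_neg, Real.exp_log (by norm_num)]; norm_num
  have h48 : Real.log 4 < Real.log 8 := Real.log_lt_log (by norm_num) (by norm_num)
  rw [h14, Real.exp_lt_exp]
  have hgw : g * w = (η' * d - (ι0 * a + ι1 * b + 2 * c)) * w := rfl
  have h28 : Real.log 2 < Real.log 8 := Real.log_lt_log (by norm_num) (by norm_num)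
  have h13 : (δ1 * (1 + a + b)) * w = g / 4 * w := by rw [hδ1e]
  have h80 : 0 < Real.log 8 := Real.log_pos (by norm_num)
  have hexp : Real.log 2 + Real.log N / 2 + (ι0 + δ1) * a * w + (ι1 + δ1) * b * w + 2 * c * w +
      -(η' * d * w) = Real.log 2 + Real.log N / 2 + (δ1 * (1 + a + b)) * w - δ1 * w - g * w := by
    rw [hgw]; ring
  rw [hexp, h13]
  linarith

theorem num_H {c ι0 ι1 ε K6 : ℝ} (hc : 0 < c) (hι0 : 0 < ι0) (hι1 : 0 < ι1)
    (hε : 0 < ε) (hε1 : ε ≤ 1 / 8)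
    (h1 : ι0 * Real.log 2 + ι1 * Real.log (2 * Real.exp 1 / ε) < c * K6 / 8) :
    ∀ᶠ N : ℕ in atTop,
      2 ^ (cI ι0 N) * (2 * Real.exp 1 / ε) ^ (cI ι1 N) *
        Real.exp (-(c * (K6 * N / Real.log N) / (8 * Real.sqrt N))) ≤ 1 / 2 := by
  set a := Real.log 2 with ha
  set b := Real.log (2 * Real.exp 1 / ε) with hb
  set g : ℝ := c * K6 / 8 - (ι0 * a + ι1 * b) with hg
  have hg0 : 0 < g := by linarith
  have hb1 : 1 ≤ 2 * Real.exp 1 / ε := by
    rw [le_div_iff₀ hε]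
    have := Real.add_one_le_exp (1 : ℝ)
    linarith
  have ha0 : 0 ≤ a := Real.log_nonneg (by norm_num)
  have hb0 : 0 ≤ b := Real.log_nonneg hb1
  set δ1 : ℝ := g / (4 * (1 + a + b)) with hδ1
  have hδ1p : 0 < δ1 := by positivity
  have hδ1e : δ1 * (1 + a + b) = g / 4 := by
    rw [hδ1]; field_simp
  filter_upwards [const_pow_cI_le (x := 2) hι0 hδ1p (by norm_num),
    const_pow_cI_le hι1 hδ1p hb1, ev_basic (4 * Real.log 2) hg0] with N h3 h4 h6
  obtain ⟨hN, hL, -, h9, -, -, -, -⟩ := h6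
  have hN0 : (0 : ℝ) < N := by exact_mod_cast hN
  have hL0 : 0 < Real.log N := by linarith
  set q := Real.sqrt N with hq
  have hq0 : 0 < q := Real.sqrt_pos.2 hN0
  have hqq : q * q = N := Real.mul_self_sqrt hN0.le
  set w := q / Real.log N with hw
  have hw0 : 0 < w := by positivity
  have e1 : c * (K6 * N / Real.log N) / (8 * q) = c * K6 / 8 * w := by
    rw [hw, ← hqq]; field_simp
  rw [e1]
  have hA : 2 ^ (cI ι0 N) * (2 * Real.exp 1 / ε) ^ (cI ι1 N) * Real.exp (-(c * K6 / 8 * w)) ≤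
      Real.exp ((ι0 + δ1) * a * w) * Real.exp ((ι1 + δ1) * b * w) *
        Real.exp (-(c * K6 / 8 * w)) := by
    gcongr
  refine hA.trans ?_
  rw [← Real.exp_add, ← Real.exp_add]
  have h12 : (1 / 2 : ℝ) = Real.exp (-a) := by
    rw [Real.exp_neg, ha, Real.exp_log (by norm_num)]; norm_num
  rw [h12, Real.exp_le_exp]
  have hgw : g * w = (c * K6 / 8 - (ι0 * a + ι1 * b)) * w := rfl
  have h13 : (δ1 * (1 + a + b)) * w = g / 4 * w := by rw [hδ1e]
  nlinarith [mul_pos hδ1p hw0]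

end PK
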