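import Pool.Agent.helper90.PK.GLoc
import Pool.Agent.helper90.PK.NumDet
import Pool.Agent.helper90.PK.NumE
import Pool.Agent.helper90.PK.NumF
import Pool.Agent.helper90.PK.IntervalA
import Pool.Agent.helper90.PK.IntervalB

/-!
# PK-B13: few points in every interval `[N, N + N^(1/2+ν)]`
-/

namespace PK

open Filter Topology

theorem interval_bound {c K X0 : ℝ} {g : ℂ → ℂ} (h : GH c K X0 g) (S : Set ℕ) (m : ℕ → ℤ)
    {η : ℝ} (hη : 0 < η) (X1 : ℕ)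
    (hS : ∀ n ∈ S, X1 ≤ n → ‖(m n : ℂ) - Complex.exp (g (n : ℂ))‖ ≤
      Real.exp (-(2 * η * Real.sqrt n))) :
    ∃ ν s1 : ℝ, 0 < ν ∧ ν ≤ 1 / 8 ∧ 0 < s1 ∧ ∃ N0 : ℕ, ∀ N : ℕ, N0 ≤ N → ∀ T : Finset ℕ,
      (∀ n ∈ T, n ∈ S ∧ N ≤ n ∧ (n : ℝ) ≤ N + (N : ℝ) ^ (1 / 2 + ν)) → T.card ≤ cI s1 N := by
  have hc : 0 < c := h.c_pos
  set e : ℝ := min η c with he
  have he0 : 0 < e := lt_min hη hc
  have heη : e ≤ η := min_le_left _ _
  set δ : ℝ := e / 16 with hδ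
  have hδ0 : 0 < δ := by positivity
  set ι0 : ℝ := 2 * (c + e / 8) with hι0
  have hι00 : 0 < ι0 := by positivity
  set ι1 : ℝ := e / 8 with hι1
  have hι10 : 0 < ι1 := by positivity
  set Ψ : ℝ := 2 * c + ι0 with hΨ
  have hΨ0 : 0 < Ψ := by positivity
  obtain ⟨ρ, hρ, hρ1, N1, hLD⟩ := h.localData hδ0
  obtain ⟨ε, K6, hε, hε8, hερ, hK6, hH, hF⟩ := exists_eps hc he0 hι00 hι10 le_rfl hρ
  set s1 : ℝ := 8 / 3 * (Ψ + 2 * e) with hs1
  have hs10 : 0 < s1 := by positivity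
  set ν : ℝ := min (1 / 8) (min (e / (4 * s1)) (ι1 * e / (16 * (ι0 + ι1) ^ 2))) with hν
  have hν0 : 0 < ν := by
    rw [hν]
    refine lt_min (by norm_num) (lt_min (by positivity) (by positivity))
  have hν8 : ν ≤ 1 / 8 := min_le_left _ _
  have hνs : ν ≤ e / (4 * s1) := (min_le_right _ _).trans (min_le_left _ _)
  have hνD : ν ≤ ι1 * e / (16 * (ι0 + ι1) ^ 2) := (min_le_right _ _).trans (min_le_right _ _)
  have c1 : ν * s1 < e / 2 := by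
    have : ν * s1 ≤ e / (4 * s1) * s1 := mul_le_mul_of_nonneg_right hνs hs10.le
    have h2 : e / (4 * s1) * s1 = e / 4 := by field_simp
    linarith
  have c2 : ι1 * (c + δ) + ν / 2 * (ι0 + ι1) ^ 2 < ι0 * ι1 / 2 := by
    have h3 : ν * (ι0 + ι1) ^ 2 ≤ ι1 * e / (16 * (ι0 + ι1) ^ 2) * (ι0 + ι1) ^ 2 :=
      mul_le_mul_of_nonneg_right hνD (by positivity)
    have h4 : ι1 * e / (16 * (ι0 + ι1) ^ 2) * (ι0 + ι1) ^ 2 = ι1 * e / 16 := by
      field_simp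
    have h5 : 0 < ι1 * e := by positivity
    have h6 : ι0 * ι1 / 2 = ι1 * c + ι1 * e / 8 := by rw [hι0]; ring
    have h7 : ι1 * (c + δ) = ι1 * c + ι1 * e / 16 := by rw [hδ]; ring
    rw [h6, h7]
    linarith
  have c3 : (ι0 + ι1) / 2 < c + δ + 2 * e := by rw [hι0, hι1, hδ]; linarith
  have c4 : c + δ + ι0 / 2 < Ψ := by rw [hΨ, hι0, hδ]; linarith
  have c5 : 3 / 2 * c < Ψ := by rw [hΨ]; linarith
  have c6 : e / 2 + ι0 / 2 < e + c - δ := by rw [hι0, hδ]; linarith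
  have c7 : Ψ + 2 * e ≤ 3 / 8 * s1 := by rw [hs1]; linarith
  have c8 : ι0 + ι1 < s1 := by rw [hs1, hΨ, hι1]; linarith
  refine ⟨ν, s1, hν0, hν8, hs10, ?_⟩
  rw [← Filter.eventually_atTop]
  filter_upwards [num_det hc hδ0 hρ hρ1 he0 hι00 hι10 hν0 c3 c2,
    num_E he0 hΨ0 hs10 hν0 hν8 c1 c7,
    num_P hc hδ0 hι00 hι10 hε (by linarith) c4 c5,
    num_F1 hc hδ0 he0 he0 hι00 hν0 hν8 hε hK6 c6,
    num_F2 hc he0 hι00 hι10 hε hε8 hK6 hF,
    num_H hc hι00 hι10 hε hε8 hH,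
    eventually_ge_atTop N1, eventually_ge_atTop X1, eventually_ge_atTop 8, log_large 4,
    (cI_tendsto hι00).eventually_ge_atTop 1, (cI_tendsto hι10).eventually_ge_atTop 1,
    cI_add_le hι00 hι10 c8, rpow_le_lin hν8 hε, cI_le_sqrtN hι00 (show (0 : ℝ) < 1 / 2 by norm_num),
    cI_le_sqrtN hι10 (show (0 : ℝ) < 1 / 2 by norm_num), sqrt_le_lin hρ,
    div_log_le (show (0 : ℝ) < K6 by linarith) (show (0 : ℝ) < ε / 2 by linarith)]
    with N h1 h2 h3 h4 h5 h6 hN1 hNX hN8 hL4 hI0 hI1 hDs hHε hI0s hI1s hsq hL1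
  intro T hT
  by_contra hcon
  have hcard : cI s1 N ≤ T.card := by omega
  obtain ⟨T', hT'sub, hT'card⟩ := Finset.exists_subset_card_eq hcard
  have hN0 : (0 : ℝ) < N := by
    have : 0 < N := by omega
    exact_mod_cast this
  have hL0 : 0 < Real.log N := by linarith
  set x : Fin (cI s1 N) → ℕ := fun i => T'.orderEmbOfFin hT'card i with hx
  have hxT : ∀ i, x i ∈ T := fun i => hT'sub (Finset.orderEmbOfFin_mem T' hT'card i)
  have hxmono : StrictMono x := (T'.orderEmbOfFin hT'card).strictMono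
  have hsqrtH : Real.sqrt N ≤ (N : ℝ) ^ (1 / 2 + ν) := sqrt_le_rpow hν0 (by omega)
  have hsqrt1 : 1 ≤ Real.sqrt N := by
    rw [Real.one_le_sqrt]
    have : 1 ≤ N := by omega
    exact_mod_cast this
  refine core (c := c) (δ := δ) (ρ := ρ) (η := e) (ε := ε) (K6 := K6) (Ψ := Ψ) (g := g) (N := N)
    hc he0 hρ hρ1 hε hε8 hερ (hLD N hN1) hN8 hL0 (cI ι0 N) (cI ι1 N) (cI e N) (cI s1 N) hI0 hI1
    hDs ((N : ℝ) ^ (1 / 2 + ν)) (by linarith) hHε ?_ ?_ ?_ (by linarith) ?_ h1 h2 h3 h4 h5 h6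
    x hxmono (fun i => (hT _ (hxT i)).2.1) (fun i => (hT _ (hxT i)).2.2) (fun i => m (x i)) ?_
  · push_cast
    linarith
  · linarith
  · have : ε / 2 * (N : ℝ) = ε * N / 2 := by ring
    linarith
  · rw [div_le_div_iff₀ hL0 (by norm_num)]
    nlinarith
  · intro i
    obtain ⟨hiS, hiN, -⟩ := hT _ (hxT i)
    refine (hS _ hiS (hNX.trans hiN)).trans ?_
    apply Real.exp_le_exp.2
    have h7 : Real.sqrt N ≤ Real.sqrt (x i) := Real.sqrt_le_sqrt (by exact_mod_cast hiN)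
    have h8 : e * Real.sqrt N ≤ η * Real.sqrt (x i) :=
      mul_le_mul heη h7 (Real.sqrt_nonneg _) hη.le
    linarith

end PK
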