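import Pool.Agent.helper90.PK.PartA
import Pool.Agent.helper90.PK.Delta

/-!
# PK-F3: `log p(n) ~ C √n`, and the trivial upper bound for `Δ_k`

Proof sketch. `pp_asymp`: `pp n = FF ± K e^(C√n/3)`. For large `n`, `λ = lam n`,
`√n - 1 ≤ λ ≤ √n`; `FF ≥ e^(Cλ)(Cλ - 1 - √2 (Cλ/2) e^(-Cλ/2))/(4π√2 λ³) ≥ e^(Cλ)/λ³ · (small
constant)` and `FF ≤ e^(Cλ) · (2 C λ)/(4π√2 λ³)`, so `log FF = C√n + O(log n)`, the same for `pp n`
(`K e^(C√n/3)` is negligible). `log_pp` follows (`log n/√n → 0`).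
`Dk_upper`: `a = (pp n)^(1/k)`, `m = ⌊a⌋`, `0 ≤ a^k - m^k ≤ k a^(k-1) (a - m) ≤ k a^(k-1)`.
-/

namespace PK

open Filter Topology

theorem lp_CC_pos : 0 < CC := mul_pos Real.pi_pos (Real.sqrt_pos.2 (by norm_num))

theorem pp_pos (n : ℕ) : 1 ≤ pp n := Fintype.card_pos

/-- the main term, scaled -/
theorem lp_FF_bounds {σ : ℝ} (hσ : |σ| ≤ 1) (n : ℕ) (hn : 4 ≤ CC * lam n) :
    Real.exp (CC * lam n) ≤ 4 * Real.pi * Real.sqrt 2 * lam n ^ 3 * FF σ n ∧
    4 * Real.pi * Real.sqrt 2 * lam n ^ 3 * FF σ n ≤ CC * lam n * Real.exp (CC * lam n) := by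
  have hC := lp_CC_pos
  have hl : 0 < lam n := by
    by_contra h
    have : CC * lam n ≤ 0 := mul_nonpos_of_nonneg_of_nonpos hC.le (not_lt.1 h)
    linarith
  have h0 : (4 * Real.pi * Real.sqrt 2 * lam n ^ 3) ≠ 0 := by
    have := Real.pi_pos
    positivity
  have e1 : 4 * Real.pi * Real.sqrt 2 * lam n ^ 3 * FF σ n =
      (CC * lam n - 1) * Real.exp (CC * lam n) +
        σ * Real.sqrt 2 * (CC / 2 * lam n - 1) * Real.exp (CC / 2 * lam n) := by
    rw [FF, mul_div_cancel₀ _ h0]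
  rw [e1]
  set y := CC / 2 * lam n with hy
  have hyy : CC * lam n = 2 * y := by rw [hy]; ring
  rw [hyy] at hn ⊢
  have hy2 : 2 ≤ y := by linarith
  have e2 : Real.exp (2 * y) = Real.exp y * Real.exp y := by rw [← Real.exp_add]; congr 1; ring
  have hexp : 0 < Real.exp y := Real.exp_pos y
  have hye : y ≤ Real.exp y / 2 := by
    -- `y + 1 ≤ exp y`, stronger
    have h1 : 1 + y + y ^ 2 / 2 ≤ Real.exp y := Real.quadratic_le_exp_of_nonneg (by linarith)
    nlinarith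
  have hs2 : Real.sqrt 2 ≤ 2 := by
    rw [Real.sqrt_le_left (by norm_num)]; norm_num
  have hs0 : 0 ≤ Real.sqrt 2 := Real.sqrt_nonneg 2
  have hkey : |σ * Real.sqrt 2 * (y - 1) * Real.exp y| ≤ Real.exp (2 * y) := by
    rw [abs_mul, abs_mul, abs_mul, abs_of_nonneg hs0, abs_of_nonneg (by linarith : 0 ≤ y - 1),
      abs_of_pos hexp, e2]
    refine mul_le_mul_of_nonneg_right ?_ hexp.le
    calc |σ| * Real.sqrt 2 * (y - 1) ≤ 1 * 2 * (y - 1) := by
          have : 0 ≤ y - 1 := by linarith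
          have := abs_nonneg σ
          gcongr
      _ ≤ Real.exp y := by linarith
  have hkey' := abs_le.1 hkey
  have hE : 0 < Real.exp (2 * y) := Real.exp_pos _
  constructor
  · nlinarith
  · nlinarith

theorem lp_lam_le (n : ℕ) : lam n ≤ Real.sqrt n := Real.sqrt_le_sqrt (by linarith)

theorem lp_le_lam {n : ℕ} (hn : 1 ≤ n) : Real.sqrt n - 1 ≤ lam n := by
  have h1 : (1 : ℝ) ≤ n := by exact_mod_cast hn
  have h2 : 1 ≤ Real.sqrt n := by rw [Real.one_le_sqrt]; exact h1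
  refine Real.le_sqrt_of_sq_le ?_
  have h3 : Real.sqrt n ^ 2 = n := Real.sq_sqrt (by positivity)
  nlinarith

theorem lp_tendsto_lam : Tendsto lam atTop atTop := by
  have h1 : Tendsto (fun n : ℕ => Real.sqrt n - 1) atTop atTop :=
    tendsto_atTop_add_const_right _ _ (Real.tendsto_sqrt_atTop.comp tendsto_natCast_atTop_atTop)
  refine tendsto_atTop_mono' _ ?_ h1
  filter_upwards [eventually_ge_atTop 1] with n hn using lp_le_lam hn

/-- upper and lower bounds of `pp n` -/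
theorem lp_pp_bounds : ∀ᶠ n : ℕ in atTop,
    Real.exp (CC * lam n) ≤ 8 * Real.pi * Real.sqrt 2 * lam n ^ 3 * pp n ∧
    (pp n : ℝ) ≤ Real.exp (CC * lam n) := by
  obtain ⟨K, hK, h⟩ := pp_asymp
  have hC := lp_CC_pos
  have hpi := Real.pi_pos
  have hs0 : 0 < Real.sqrt 2 := Real.sqrt_pos.2 (by norm_num)
  -- the error term
  have hy : Tendsto (fun n : ℕ => 2 * CC / 3 * lam n) atTop atTop :=
    Tendsto.const_mul_atTop (by positivity) lp_tendsto_lam
  have ht := (Real.tendsto_pow_mul_exp_neg_atTop_nhds_zero 3).comp hy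
  have ht0 := (Real.tendsto_pow_mul_exp_neg_atTop_nhds_zero 0).comp hy
  set B : ℝ := K * Real.exp (CC / 3) with hB
  have hB0 : 0 < B := by positivity
  have ev1 : ∀ᶠ n : ℕ in atTop, (2 * CC / 3 * lam n) ^ 3 * Real.exp (-(2 * CC / 3 * lam n)) <
      (2 * CC / 3) ^ 3 / (8 * Real.pi * Real.sqrt 2 * B) :=
    ht.eventually_lt_const (by positivity)
  have ev2 : ∀ᶠ n : ℕ in atTop, (2 * CC / 3 * lam n) ^ 0 * Real.exp (-(2 * CC / 3 * lam n)) <
      1 / (2 * B) :=
    ht0.eventually_lt_const (by positivity)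
  filter_upwards [ev1, ev2, eventually_ge_atTop 1, lp_tendsto_lam.eventually_ge_atTop (4 / CC),
    lp_tendsto_lam.eventually_ge_atTop 1, lp_tendsto_lam.eventually_ge_atTop CC]
    with n h1 h2 hn h4 hl1 hlC
  have h4' : 4 ≤ CC * lam n := by
    rw [div_le_iff₀ hC] at h4
    linarith
  obtain ⟨b1, b2⟩ := lp_FF_bounds (σ := (-1) ^ n) (by simp) n h4'
  have hl : 0 < lam n := by linarith
  have herr : K * Real.exp (CC * Real.sqrt n / 3) ≤
      B * Real.exp (-(2 * CC / 3 * lam n)) * Real.exp (CC * lam n) := by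
    rw [hB, mul_assoc, mul_assoc, ← Real.exp_add, ← Real.exp_add]
    refine mul_le_mul_of_nonneg_left (Real.exp_le_exp.2 ?_) hK.le
    have := lp_le_lam hn
    nlinarith
  have hb := abs_le.1 (h n hn)
  set X := Real.exp (CC * lam n) with hX
  have hX0 : 0 < X := Real.exp_pos _
  set Z := Real.exp (-(2 * CC / 3 * lam n)) with hZ
  have hZ0 : 0 < Z := Real.exp_pos _
  -- `8 π √2 λ³ B Z ≤ 1`
  have h1' : 8 * Real.pi * Real.sqrt 2 * lam n ^ 3 * (B * Z) ≤ 1 := by
    rw [lt_div_iff₀ (by positivity), mul_pow] at h1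
    have h5 : 0 < (2 * CC / 3) ^ 3 := by positivity
    have h6 : (2 * CC / 3) ^ 3 * (8 * Real.pi * Real.sqrt 2 * lam n ^ 3 * (B * Z)) ≤
        (2 * CC / 3) ^ 3 * 1 := by
      calc _ = (2 * CC / 3) ^ 3 * lam n ^ 3 * Z * (8 * Real.pi * Real.sqrt 2 * B) := by ring
        _ ≤ _ := by rw [mul_one]; exact h1.le
    exact le_of_mul_le_mul_left h6 h5
  have h2' : B * Z ≤ 1 / 2 := by
    rw [pow_zero, one_mul, lt_div_iff₀ (by positivity)] at h2
    linarith
  have hD : 0 < 4 * Real.pi * Real.sqrt 2 * lam n ^ 3 := by positivity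
  constructor
  · -- lower bound
    have h5 : FF ((-1) ^ n) n - B * Z * X ≤ pp n := by linarith [hb.1]
    have h6 : 8 * Real.pi * Real.sqrt 2 * lam n ^ 3 * (FF ((-1) ^ n) n - B * Z * X) ≤
        8 * Real.pi * Real.sqrt 2 * lam n ^ 3 * pp n :=
      mul_le_mul_of_nonneg_left h5 (by positivity)
    have h7 : 8 * Real.pi * Real.sqrt 2 * lam n ^ 3 * (FF ((-1) ^ n) n - B * Z * X) =
        2 * (4 * Real.pi * Real.sqrt 2 * lam n ^ 3 * FF ((-1) ^ n) n) -
          8 * Real.pi * Real.sqrt 2 * lam n ^ 3 * (B * Z) * X := by ring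
    have h8 : 8 * Real.pi * Real.sqrt 2 * lam n ^ 3 * (B * Z) * X ≤ 1 * X :=
      mul_le_mul_of_nonneg_right h1' hX0.le
    linarith
  · -- upper bound
    have h5 : (pp n : ℝ) ≤ FF ((-1) ^ n) n + B * Z * X := by linarith [hb.2]
    have h6 : B * Z * X ≤ 1 / 2 * X := mul_le_mul_of_nonneg_right h2' hX0.le
    have h7 : FF ((-1) ^ n) n ≤ 1 / 2 * X := by
      have h8 : 4 * Real.pi * Real.sqrt 2 * lam n ^ 3 * FF ((-1) ^ n) n ≤
          4 * Real.pi * Real.sqrt 2 * lam n ^ 3 * (1 / 2 * X) := by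
        refine b2.trans ?_
        have hpi3 := Real.pi_gt_three
        have hs1 : 1 ≤ Real.sqrt 2 := by rw [Real.one_le_sqrt]; norm_num
        have h9 : CC * lam n ≤ 4 * Real.pi * Real.sqrt 2 * lam n ^ 3 * (1 / 2) := by
          have h10 : CC ≤ lam n ^ 2 := by nlinarith
          have h11 : (1 : ℝ) ≤ 4 * Real.pi * Real.sqrt 2 * (1 / 2) := by nlinarith
          calc CC * lam n ≤ lam n ^ 2 * lam n := by gcongr
            _ = 1 * lam n ^ 3 := by ring
            _ ≤ (4 * Real.pi * Real.sqrt 2 * (1 / 2)) * lam n ^ 3 := by gcongr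
            _ = _ := by ring
        calc CC * lam n * X ≤ 4 * Real.pi * Real.sqrt 2 * lam n ^ 3 * (1 / 2) * X := by gcongr
          _ = _ := by ring
      exact le_of_mul_le_mul_left h8 hD
    linarith

theorem log_pp : Tendsto (fun n : ℕ => Real.log (pp n) / Real.sqrt n) atTop (𝓝 CC) := by
  have hC := lp_CC_pos
  have hpi := Real.pi_pos
  have hs0 : 0 < Real.sqrt 2 := Real.sqrt_pos.2 (by norm_num)
  have hsq : Tendsto (fun n : ℕ => Real.sqrt n) atTop atTop :=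
    Real.tendsto_sqrt_atTop.comp tendsto_natCast_atTop_atTop
  set D : ℝ := Real.log (8 * Real.pi * Real.sqrt 2) with hD
  have hlow : Tendsto (fun n : ℕ => CC - (CC + D) * (Real.sqrt n)⁻¹ -
      3 * (Real.log (Real.sqrt n) / Real.sqrt n)) atTop (𝓝 CC) := by
    have h1 : Tendsto (fun n : ℕ => (Real.sqrt n)⁻¹) atTop (𝓝 0) := tendsto_inv_atTop_zero.comp hsq
    have h2 : Tendsto (fun n : ℕ => Real.log (Real.sqrt n) / Real.sqrt n) atTop (𝓝 0) :=
      (Real.isLittleO_log_id_atTop.tendsto_div_nhds_zero).comp hsq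
    have h3 := ((h1.const_mul (CC + D)).const_sub CC).sub (h2.const_mul 3)
    simpa using h3
  refine tendsto_of_tendsto_of_tendsto_of_le_of_le' hlow tendsto_const_nhds ?_ ?_
  · filter_upwards [lp_pp_bounds, eventually_ge_atTop 1, lp_tendsto_lam.eventually_ge_atTop 1]
      with n hb hn hl
    have hp : (0 : ℝ) < pp n := by exact_mod_cast pp_pos n
    have hn' : (1 : ℝ) ≤ n := by exact_mod_cast hn
    have hs : 0 < Real.sqrt n := Real.sqrt_pos.2 (by linarith)
    have hl0 : 0 < lam n := by linarith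
    have h1 := Real.log_le_log (Real.exp_pos _) hb.1
    rw [Real.log_exp, Real.log_mul (by positivity) hp.ne', Real.log_mul (by positivity)
      (by positivity), Real.log_pow, ← hD] at h1
    have h2 : Real.log (lam n) ≤ Real.log (Real.sqrt n) := Real.log_le_log hl0 (lp_lam_le n)
    have h3 := lp_le_lam hn
    rw [le_div_iff₀ hs]
    have e1 : (CC - (CC + D) * (Real.sqrt n)⁻¹ - 3 * (Real.log (Real.sqrt n) / Real.sqrt n)) *
        Real.sqrt n = CC * Real.sqrt n - (CC + D) - 3 * Real.log (Real.sqrt n) := by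
      field_simp
    rw [e1]
    push_cast at h1
    nlinarith
  · filter_upwards [lp_pp_bounds, eventually_ge_atTop 1] with n hb hn
    have hp : (0 : ℝ) < pp n := by exact_mod_cast pp_pos n
    have hn' : (1 : ℝ) ≤ n := by exact_mod_cast hn
    have hs : 0 < Real.sqrt n := Real.sqrt_pos.2 (by linarith)
    have h1 := Real.log_le_log hp hb.2
    rw [Real.log_exp] at h1
    rw [div_le_iff₀ hs]
    have := lp_lam_le n
    nlinarith

theorem lp_pow_sub_le {a m : ℝ} (hm : 0 ≤ m) (hma : m ≤ a) (k : ℕ) :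
    a ^ (k + 1) - m ^ (k + 1) ≤ (k + 1) * a ^ k * (a - m) := by
  induction k with
  | zero => simp
  | succ k ih =>
    have ha : 0 ≤ a := hm.trans hma
    have h1 : m ^ (k + 1) ≤ a ^ (k + 1) := pow_le_pow_left₀ hm hma _
    have h2 : 0 ≤ a - m := by linarith
    calc a ^ (k + 1 + 1) - m ^ (k + 1 + 1)
        = a * (a ^ (k + 1) - m ^ (k + 1)) + m ^ (k + 1) * (a - m) := by ring
      _ ≤ a * ((k + 1) * a ^ k * (a - m)) + a ^ (k + 1) * (a - m) := by gcongr
      _ = _ := by push_cast; ring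

theorem Dk_upper (k : ℕ) (hk : 1 ≤ k) (n : ℕ) :
    (Dk k n : ℝ) ≤ k * (pp n : ℝ) ^ (1 - 1 / (k : ℝ)) := by
  obtain ⟨l, rfl⟩ : ∃ l, k = l + 1 := ⟨k - 1, by omega⟩
  have hp : (0 : ℝ) < pp n := by exact_mod_cast pp_pos n
  set a : ℝ := (pp n : ℝ) ^ (1 / ((l + 1 : ℕ) : ℝ)) with ha
  have ha0 : 0 < a := Real.rpow_pos_of_pos hp _
  have hak : a ^ (l + 1) = pp n := by
    rw [ha, ← Real.rpow_natCast, ← Real.rpow_mul hp.le, one_div, inv_mul_cancel₀ (by positivity),
      Real.rpow_one]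
  have hal : a ^ l = (pp n : ℝ) ^ (1 - 1 / ((l + 1 : ℕ) : ℝ)) := by
    rw [ha, ← Real.rpow_natCast, ← Real.rpow_mul hp.le]
    congr 1
    have : ((l + 1 : ℕ) : ℝ) ≠ 0 := by positivity
    field_simp
    push_cast
    ring
  set m : ℕ := ⌊a⌋₊ with hm
  have hm1 : (m : ℝ) ≤ a := Nat.floor_le ha0.le
  have hm2 : a < m + 1 := Nat.lt_floor_add_one a
  have h1 := Dk_le (l + 1) n m
  have h2 : ((Dk (l + 1) n : ℕ) : ℝ) ≤ |(pp n : ℝ) - (m : ℝ) ^ (l + 1)| := by
    have h3 : ((Dk (l + 1) n : ℕ) : ℝ) ≤ ((((pp n : ℤ) - (m : ℤ) ^ (l + 1)).natAbs : ℕ) : ℝ) := by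
      exact_mod_cast h1
    refine h3.trans (le_of_eq ?_)
    rw [Nat.cast_natAbs]
    push_cast
    rfl
  have h3 : (m : ℝ) ^ (l + 1) ≤ pp n := by
    rw [← hak]
    exact pow_le_pow_left₀ (by positivity) hm1 _
  rw [abs_of_nonneg (by linarith), ← hak] at h2
  refine h2.trans ((lp_pow_sub_le (by positivity) hm1 l).trans ?_)
  rw [← hal]
  push_cast
  have h4 : a - m ≤ 1 := by linarith
  calc ((l : ℝ) + 1) * a ^ l * (a - m) ≤ ((l : ℝ) + 1) * a ^ l * 1 := by gcongr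
    _ = _ := mul_one _

end PK
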