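import Pool.Agent.helper90.PK.GammaInv

/-!
# PK-A8a: the main integral

With `s = sp y θ`, `s^(1/2) e^(a/s)` is expanded in the powers `s^(1/2-j)` (uniformly convergent on
the compact arc since the norm of `s` is at least `y`). The terms `j = 0, 1` are bounded by a
constant times `e^(ν y)`; for `j ≥ 2` the integral over the arc is the full integral `gamma_inv`
minus a tail.
-/

namespace PK

open MeasureTheory Set Filter Topology Interval

private lemma sp_re' (y θ : ℝ) : (sp y θ).re = y := by simp [sp]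

private lemma sp_ne' {y θ : ℝ} (hy : 0 < y) : sp y θ ≠ 0 := by
  intro h
  have := sp_re' y θ
  rw [h] at this
  simp at this
  linarith

private lemma norm_sp_sq' (y θ : ℝ) : ‖sp y θ‖ ^ 2 = y ^ 2 + θ ^ 2 := by
  rw [← Complex.normSq_eq_norm_sq, Complex.normSq_apply]
  simp [sp]
  ring

private lemma sp_slit' {y θ : ℝ} (hy : 0 < y) : sp y θ ∈ Complex.slitPlane := by
  left
  rw [sp_re']
  exact hy

private lemma cont_sp' (y : ℝ) : Continuous fun θ : ℝ => sp y θ := by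
  unfold sp
  fun_prop

private lemma cont_sp_cpow' {y : ℝ} (hy : 0 < y) (c : ℂ) :
    Continuous fun θ : ℝ => (sp y θ) ^ c := by
  rw [continuous_iff_continuousAt]
  intro θ
  exact (cont_sp' y).continuousAt.cpow continuousAt_const (sp_slit' hy)

private lemma norm_sp_cpow' {y θ : ℝ} (hy : 0 < y) (b : ℝ) :
    ‖(sp y θ) ^ (b : ℂ)‖ = (y ^ 2 + θ ^ 2) ^ (b / 2) := by
  rw [Complex.norm_cpow_of_ne_zero (sp_ne' hy)]
  simp only [Complex.ofReal_re, Complex.ofReal_im, mul_zero, Real.exp_zero, div_one]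
  rw [← norm_sp_sq' y θ, ← Real.rpow_natCast, ← Real.rpow_mul (norm_nonneg _)]
  congr 1
  push_cast
  ring

private lemma norm_exp_sp' (ν y θ : ℝ) :
    ‖Complex.exp ((ν : ℂ) * sp y θ)‖ = Real.exp (ν * y) := by
  rw [Complex.norm_exp]
  simp [sp]

private lemma le_norm_sp (y θ : ℝ) : y ≤ ‖sp y θ‖ := by
  have := Complex.re_le_norm (sp y θ)
  rwa [sp_re'] at this

/-- norm bound of a negative power of `s` by the power of `θ` -/
private lemma norm_neg_cpow_le {y θ α : ℝ} (hy : 0 < y) (hα : 0 < α) (hθ : 0 < θ) :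
    ‖(sp y θ) ^ (-(α : ℂ))‖ ≤ θ ^ (-α) := by
  have e : (-(α : ℂ)) = ((-α : ℝ) : ℂ) := by push_cast; rfl
  rw [e, norm_sp_cpow' hy]
  calc (y ^ 2 + θ ^ 2) ^ (-α / 2) ≤ (θ ^ 2) ^ (-α / 2) :=
        Real.rpow_le_rpow_of_nonpos (by positivity) (by nlinarith [sq_nonneg y]) (by linarith)
    _ = θ ^ (-α) := by
        rw [← Real.rpow_natCast, ← Real.rpow_mul hθ.le]
        congr 1
        push_cast
        ring

private lemma norm_neg_cpow_le' {y θ α : ℝ} (hy : 0 < y) (hα : 0 < α) (hθ : 0 < θ) :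
    ‖(sp y (-θ)) ^ (-(α : ℂ))‖ ≤ θ ^ (-α) := by
  have e : (-(α : ℂ)) = ((-α : ℝ) : ℂ) := by push_cast; rfl
  have h := norm_neg_cpow_le hy hα hθ
  rw [e, norm_sp_cpow' hy] at h ⊢
  rwa [neg_sq]

/-- the tail of the integral of `gamma_inv` -/
private lemma tail_bound {α ν y θ0 : ℝ} (hα : 1 < α) (hν : 0 < ν) (hy : 0 < y) (hθ : 0 < θ0) :
    ‖(∫ θ in (-θ0)..θ0, (sp y θ) ^ (-(α : ℂ)) * Complex.exp ((ν : ℂ) * sp y θ)) -
      ((2 * Real.pi * (ν ^ (α - 1) / Real.Gamma α) : ℝ) : ℂ)‖ ≤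
      2 * (θ0 ^ (1 - α) / (α - 1)) * Real.exp (ν * y) := by
  have hint := integrable_sp hα hν hy
  rw [← gamma_inv hα hν hy]
  obtain ⟨f, hf⟩ : ∃ f : ℝ → ℂ, ∀ θ, f θ =
      (sp y θ) ^ (-(α : ℂ)) * Complex.exp ((ν : ℂ) * sp y θ) := ⟨_, fun _ => rfl⟩
  simp only [← hf] at hint ⊢
  have h1 := intervalIntegral.integral_Iic_sub_Iic (a := -θ0) (b := θ0) (f := f) (μ := volume)
    hint.integrableOn hint.integrableOn
  have h2 := intervalIntegral.integral_Iic_add_Ioi (b := θ0) (f := f) (μ := volume)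
    hint.integrableOn hint.integrableOn
  have h3 : (∫ θ in (-θ0)..θ0, f θ) - ∫ θ, f θ =
      -((∫ θ in Iic (-θ0), f θ) + ∫ θ in Ioi θ0, f θ) := by
    rw [← h1, ← h2]
    ring
  rw [h3, norm_neg, ← integral_comp_neg_Ioi]
  have hg : IntegrableOn (fun θ : ℝ => θ ^ (-α) * Real.exp (ν * y)) (Ioi θ0) :=
    (integrableOn_Ioi_rpow_of_lt (by linarith) hθ).mul_const _
  have hgi : (∫ θ in Ioi θ0, θ ^ (-α) * Real.exp (ν * y)) =
      θ0 ^ (1 - α) / (α - 1) * Real.exp (ν * y) := by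
    rw [integral_mul_const, integral_Ioi_rpow_of_lt (by linarith) hθ]
    congr 1
    rw [show -α + 1 = 1 - α by ring, show (α - 1 : ℝ) = -(1 - α) by ring, div_neg, neg_div]
  have b1 : ‖∫ θ in Ioi θ0, f θ‖ ≤ θ0 ^ (1 - α) / (α - 1) * Real.exp (ν * y) := by
    rw [← hgi]
    refine norm_integral_le_of_norm_le hg ?_
    refine (ae_restrict_iff' measurableSet_Ioi).2 (Eventually.of_forall fun θ h => ?_)
    have h0 : 0 < θ := hθ.trans h
    rw [hf, norm_mul, norm_exp_sp']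
    exact mul_le_mul_of_nonneg_right (norm_neg_cpow_le hy (by linarith) h0) (Real.exp_pos _).le
  have b2 : ‖∫ θ in Ioi θ0, f (-θ)‖ ≤ θ0 ^ (1 - α) / (α - 1) * Real.exp (ν * y) := by
    rw [← hgi]
    refine norm_integral_le_of_norm_le hg ?_
    refine (ae_restrict_iff' measurableSet_Ioi).2 (Eventually.of_forall fun θ h => ?_)
    have h0 : 0 < θ := hθ.trans h
    rw [hf, norm_mul, norm_exp_sp']
    exact mul_le_mul_of_nonneg_right (norm_neg_cpow_le' hy (by linarith) h0) (Real.exp_pos _).le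
  calc ‖(∫ θ in Ioi θ0, f (-θ)) + ∫ θ in Ioi θ0, f θ‖ ≤ _ + _ := norm_add_le_of_le b2 b1
    _ = 2 * (θ0 ^ (1 - α) / (α - 1)) * Real.exp (ν * y) := by ring

/-- `Γ(j + 3/2) ≥ Γ(3/2)` -/
private lemma gamma_ge (j : ℕ) : Real.Gamma (3 / 2) ≤ Real.Gamma ((j : ℝ) + 3 / 2) := by
  induction j with
  | zero => simp
  | succ n ih =>
    have h : ((n + 1 : ℕ) : ℝ) + 3 / 2 = ((n : ℝ) + 3 / 2) + 1 := by push_cast; ring
    rw [h, Real.Gamma_add_one (by positivity)]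
    have h0 : 0 < Real.Gamma ((n : ℝ) + 3 / 2) := Real.Gamma_pos_of_pos (by positivity)
    have hn : (0 : ℝ) ≤ n := Nat.cast_nonneg n
    nlinarith

private lemma summable_shift (x : ℝ) :
    Summable fun j : ℕ => x ^ j / (Nat.factorial (j + 2) : ℝ) := by
  have h := (Real.summable_pow_div_factorial |x|)
  refine Summable.of_norm_bounded h fun j => ?_
  rw [norm_div, norm_pow, Real.norm_eq_abs, Real.norm_natCast]
  have h1 : (Nat.factorial j : ℝ) ≤ (Nat.factorial (j + 2) : ℝ) := by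
    exact_mod_cast Nat.factorial_le (by omega)
  have h2 : (0 : ℝ) < Nat.factorial j := by exact_mod_cast Nat.factorial_pos j
  exact div_le_div_of_nonneg_left (by positivity) h2 h1

theorem summable_TT {a ν : ℝ} (ha : 0 < a) (hν : 0 < ν) :
    Summable fun j : ℕ => a ^ (j + 2) * ν ^ ((j : ℝ) + 1 / 2) /
      ((Nat.factorial (j + 2) : ℝ) * Real.Gamma ((j : ℝ) + 3 / 2)) := by
  have hΓ : 0 < Real.Gamma (3 / 2) := Real.Gamma_pos_of_pos (by norm_num)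
  refine Summable.of_norm_bounded
    ((summable_shift (a * ν)).mul_left (a ^ 2 * ν ^ (1 / 2 : ℝ) / Real.Gamma (3 / 2))) fun j => ?_
  have h0 : 0 < Real.Gamma ((j : ℝ) + 3 / 2) := Real.Gamma_pos_of_pos (by positivity)
  have h2 : (0 : ℝ) < Nat.factorial (j + 2) := by exact_mod_cast Nat.factorial_pos _
  rw [Real.norm_of_nonneg (by positivity)]
  have e : a ^ 2 * ν ^ (1 / 2 : ℝ) / Real.Gamma (3 / 2) *
      ((a * ν) ^ j / (Nat.factorial (j + 2) : ℝ)) =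
      a ^ (j + 2) * ν ^ ((j : ℝ) + 1 / 2) /
        ((Nat.factorial (j + 2) : ℝ) * Real.Gamma (3 / 2)) := by
    rw [Real.rpow_add hν, Real.rpow_natCast, mul_pow, pow_add a j 2]
    field_simp
  rw [e]
  exact div_le_div_of_nonneg_left (by positivity) (by positivity)
    (mul_le_mul_of_nonneg_left (gamma_ge j) h2.le)

/-- the integral of the `n`-th power -/
private noncomputable def JJ (ν y θ0 : ℝ) (n : ℕ) : ℂ :=
  ∫ θ in (-θ0)..θ0, (sp y θ) ^ (1 / 2 : ℂ) * (1 / sp y θ) ^ n * Complex.exp ((ν : ℂ) * sp y θ)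

private lemma norm_half_le {y θ θ0 : ℝ} (hy : 0 < y) (hy1 : y ≤ 1) (h : |θ| ≤ θ0) :
    ‖(sp y θ) ^ (1 / 2 : ℂ)‖ ≤ (1 + θ0 ^ 2) ^ (1 / 4 : ℝ) := by
  have e : (1 / 2 : ℂ) = ((1 / 2 : ℝ) : ℂ) := by push_cast; rfl
  rw [e, norm_sp_cpow' hy]
  rw [show (1 / 2 / 2 : ℝ) = 1 / 4 by norm_num]
  refine Real.rpow_le_rpow (by positivity) ?_ (by norm_num)
  have h1 : θ ^ 2 ≤ θ0 ^ 2 := by
    rw [← sq_abs θ]
    exact pow_le_pow_left₀ (abs_nonneg _) h 2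
  nlinarith

private lemma abs_le_of_mem {θ θ0 : ℝ} (hθ : 0 < θ0) (h : θ ∈ Ι (-θ0) θ0) : |θ| ≤ θ0 := by
  rw [uIoc_of_le (by linarith)] at h
  exact abs_le.2 ⟨h.1.le, h.2⟩

private lemma meas_term {y : ℝ} (hy : 0 < y) (ν : ℝ) (n : ℕ) :
    Continuous fun θ : ℝ =>
      (sp y θ) ^ (1 / 2 : ℂ) * (1 / sp y θ) ^ n * Complex.exp ((ν : ℂ) * sp y θ) := by
  refine ((cont_sp_cpow' hy _).mul (Continuous.pow ?_ n)).mul
    (Complex.continuous_exp.comp (continuous_const.mul (cont_sp' y)))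
  exact continuous_const.div (cont_sp' y) fun θ => sp_ne' hy

private lemma hasSum_main {a ν y θ0 : ℝ} (ha : 0 < a) (hθ : 0 < θ0) (hy : 0 < y) (hy1 : y ≤ 1) :
    HasSum (fun n : ℕ => ((a ^ n / (Nat.factorial n : ℝ) : ℝ) : ℂ) * JJ ν y θ0 n)
      (∫ θ in (-θ0)..θ0, (sp y θ) ^ (1 / 2 : ℂ) *
          Complex.exp ((a : ℂ) / sp y θ + (ν : ℂ) * sp y θ)) := by
  have hM : 0 ≤ (1 + θ0 ^ 2) ^ (1 / 4 : ℝ) := by positivity
  have key := intervalIntegral.hasSum_integral_of_dominated_convergence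
    (μ := volume) (a := -θ0) (b := θ0)
    (F := fun (n : ℕ) (θ : ℝ) => ((a ^ n / (Nat.factorial n : ℝ) : ℝ) : ℂ) *
      ((sp y θ) ^ (1 / 2 : ℂ) * (1 / sp y θ) ^ n * Complex.exp ((ν : ℂ) * sp y θ)))
    (f := fun θ => (sp y θ) ^ (1 / 2 : ℂ) *
          Complex.exp ((a : ℂ) / sp y θ + (ν : ℂ) * sp y θ))
    (fun (n : ℕ) (_ : ℝ) => ((a / y) ^ n / (Nat.factorial n : ℝ)) *
      ((1 + θ0 ^ 2) ^ (1 / 4 : ℝ) * Real.exp (ν * y))) ?_ ?_ ?_ ?_ ?_
  · simp only [intervalIntegral.integral_const_mul] at key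
    exact key
  · intro n
    exact (continuous_const.mul (meas_term hy ν n)).aestronglyMeasurable
  · intro n
    refine Eventually.of_forall fun θ h => ?_
    have hθ' := abs_le_of_mem hθ h
    have hf : (0 : ℝ) < Nat.factorial n := by exact_mod_cast Nat.factorial_pos n
    have hn := le_norm_sp y θ
    rw [norm_mul, norm_mul, norm_mul, norm_exp_sp', Complex.norm_real,
      Real.norm_of_nonneg (by positivity), norm_pow, norm_div, norm_one]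
    have h1 := norm_half_le hy hy1 hθ'
    have h2 : (1 / ‖sp y θ‖) ^ n ≤ (1 / y) ^ n :=
      pow_le_pow_left₀ (by positivity) (one_div_le_one_div_of_le hy hn) n
    calc a ^ n / (Nat.factorial n : ℝ) * (‖sp y θ ^ (1 / 2 : ℂ)‖ * (1 / ‖sp y θ‖) ^ n *
          Real.exp (ν * y))
        ≤ a ^ n / (Nat.factorial n : ℝ) * ((1 + θ0 ^ 2) ^ (1 / 4 : ℝ) * (1 / y) ^ n *
          Real.exp (ν * y)) := by
          gcongr
      _ = ((a / y) ^ n / (Nat.factorial n : ℝ)) *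
          ((1 + θ0 ^ 2) ^ (1 / 4 : ℝ) * Real.exp (ν * y)) := by
          rw [div_pow, div_pow, one_pow]
          ring
  · refine Eventually.of_forall fun θ _ => ?_
    exact (Real.summable_pow_div_factorial _).mul_right _
  · exact intervalIntegrable_const
  · refine Eventually.of_forall fun θ _ => ?_
    have h1 : HasSum (fun n : ℕ => (Nat.factorial n : ℂ)⁻¹ • ((a : ℂ) / sp y θ) ^ n)
        (NormedSpace.exp ((a : ℂ) / sp y θ)) := NormedSpace.exp_series_hasSum_exp' _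
    rw [← Complex.exp_eq_exp_ℂ] at h1
    have h2 := (h1.mul_left ((sp y θ) ^ (1 / 2 : ℂ))).mul_right (Complex.exp ((ν : ℂ) * sp y θ))
    rw [Complex.exp_add, ← mul_assoc]
    have e : (fun n : ℕ => ((a ^ n / (Nat.factorial n : ℝ) : ℝ) : ℂ) *
        ((sp y θ) ^ (1 / 2 : ℂ) * (1 / sp y θ) ^ n * Complex.exp ((ν : ℂ) * sp y θ))) =
        fun n : ℕ => (sp y θ) ^ (1 / 2 : ℂ) *
          ((Nat.factorial n : ℂ)⁻¹ • ((a : ℂ) / sp y θ) ^ n) *
          Complex.exp ((ν : ℂ) * sp y θ) := by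
      funext n
      rw [smul_eq_mul, div_pow, div_pow, one_pow]
      push_cast
      ring
    rw [e]
    exact h2

/-- The term `n = 0`. -/
private lemma JJ_zero {ν y θ0 : ℝ} (hθ : 0 < θ0) (hy : 0 < y) (hy1 : y ≤ 1) :
    ‖JJ ν y θ0 0‖ ≤ (1 + θ0 ^ 2) ^ (1 / 4 : ℝ) * (2 * θ0) * Real.exp (ν * y) := by
  unfold JJ
  have h := intervalIntegral.norm_integral_le_of_norm_le_const (a := -θ0) (b := θ0)
    (C := (1 + θ0 ^ 2) ^ (1 / 4 : ℝ) * Real.exp (ν * y))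
    (f := fun θ : ℝ => (sp y θ) ^ (1 / 2 : ℂ) * (1 / sp y θ) ^ 0 *
      Complex.exp ((ν : ℂ) * sp y θ)) ?_
  · refine h.trans (le_of_eq ?_)
    rw [show θ0 - -θ0 = 2 * θ0 by ring, abs_of_pos (by linarith)]
    ring
  · intro θ h
    rw [pow_zero, mul_one, norm_mul, norm_exp_sp']
    exact mul_le_mul_of_nonneg_right (norm_half_le hy hy1 (abs_le_of_mem hθ h)) (Real.exp_pos _).le

private lemma cpow_shift {y θ : ℝ} (hy : 0 < y) (n : ℕ) (α : ℝ) (hα : (n : ℝ) = α + 1 / 2) :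
    (sp y θ) ^ (1 / 2 : ℂ) * (1 / sp y θ) ^ n = (sp y θ) ^ (-(α : ℂ)) := by
  have h0 := sp_ne' (θ := θ) hy
  have e : (-(α : ℂ)) = (1 / 2 : ℂ) + (-(n : ℂ)) := by
    have : (n : ℂ) = (α : ℂ) + 1 / 2 := by
      have h := congrArg (fun x : ℝ => (x : ℂ)) hα
      push_cast at h
      exact h
    rw [this]
    ring
  rw [e, Complex.cpow_add _ _ h0, Complex.cpow_neg, Complex.cpow_natCast, one_div_pow,
    one_div (sp y θ ^ n)]

/-- The term `n = 1`. -/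
private lemma JJ_one {ν y θ0 : ℝ} (hθ : 0 < θ0) (hy : 0 < y) :
    ‖JJ ν y θ0 1‖ ≤ 4 * θ0 ^ (1 / 2 : ℝ) * Real.exp (ν * y) := by
  obtain ⟨f, hf⟩ : ∃ f : ℝ → ℂ, ∀ θ, f θ =
      (sp y θ) ^ (1 / 2 : ℂ) * (1 / sp y θ) ^ 1 * Complex.exp ((ν : ℂ) * sp y θ) :=
    ⟨_, fun _ => rfl⟩
  have hfc : Continuous f := by
    have : f = fun θ => (sp y θ) ^ (1 / 2 : ℂ) * (1 / sp y θ) ^ 1 *
        Complex.exp ((ν : ℂ) * sp y θ) := funext hf
    rw [this]
    exact meas_term hy ν 1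
  have hJ : JJ ν y θ0 1 = (∫ θ in (0 : ℝ)..θ0, f (-θ)) + ∫ θ in (0 : ℝ)..θ0, f θ := by
    unfold JJ
    simp only [← hf]
    rw [intervalIntegral.integral_comp_neg, neg_zero,
      intervalIntegral.integral_add_adjacent_intervals (hfc.intervalIntegrable _ _)
        (hfc.intervalIntegrable _ _)]
  have hg : IntervalIntegrable (fun θ : ℝ => θ ^ (-(1 / 2) : ℝ) * Real.exp (ν * y)) volume
      0 θ0 := (intervalIntegral.intervalIntegrable_rpow' (by norm_num)).mul_const _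
  have hgi : (∫ θ in (0 : ℝ)..θ0, θ ^ (-(1 / 2) : ℝ) * Real.exp (ν * y)) =
      2 * θ0 ^ (1 / 2 : ℝ) * Real.exp (ν * y) := by
    rw [intervalIntegral.integral_mul_const, integral_rpow (Or.inl (by norm_num))]
    rw [show (-(1 / 2) + 1 : ℝ) = 1 / 2 by norm_num, Real.zero_rpow (by norm_num)]
    ring
  have b1 : ‖∫ θ in (0 : ℝ)..θ0, f θ‖ ≤ 2 * θ0 ^ (1 / 2 : ℝ) * Real.exp (ν * y) := by
    rw [← hgi]
    refine intervalIntegral.norm_integral_le_of_norm_le hθ.le ?_ hg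
    refine Eventually.of_forall fun θ h => ?_
    rw [hf, norm_mul, norm_exp_sp', cpow_shift hy 1 (1 / 2) (by norm_num)]
    exact mul_le_mul_of_nonneg_right (norm_neg_cpow_le hy (by norm_num) h.1) (Real.exp_pos _).le
  have b2 : ‖∫ θ in (0 : ℝ)..θ0, f (-θ)‖ ≤ 2 * θ0 ^ (1 / 2 : ℝ) * Real.exp (ν * y) := by
    rw [← hgi]
    refine intervalIntegral.norm_integral_le_of_norm_le hθ.le ?_ hg
    refine Eventually.of_forall fun θ h => ?_
    rw [hf, norm_mul, norm_exp_sp', cpow_shift hy 1 (1 / 2) (by norm_num)]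
    exact mul_le_mul_of_nonneg_right (norm_neg_cpow_le' hy (by norm_num) h.1) (Real.exp_pos _).le
  rw [hJ]
  calc ‖(∫ θ in (0 : ℝ)..θ0, f (-θ)) + ∫ θ in (0 : ℝ)..θ0, f θ‖ ≤ _ + _ :=
        norm_add_le_of_le b2 b1
    _ = 4 * θ0 ^ (1 / 2 : ℝ) * Real.exp (ν * y) := by ring

/-- The terms `n = j + 2`. -/
private lemma JJ_tail {ν y θ0 : ℝ} (hν : 0 < ν) (hθ : 0 < θ0) (hy : 0 < y) (j : ℕ) :
    ‖JJ ν y θ0 (j + 2) -
      ((2 * Real.pi * (ν ^ ((j : ℝ) + 1 / 2) / Real.Gamma ((j : ℝ) + 3 / 2)) : ℝ) : ℂ)‖ ≤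
      4 * θ0 ^ (-(1 / 2) : ℝ) * (1 / θ0) ^ j * Real.exp (ν * y) := by
  have hj : (0 : ℝ) ≤ j := Nat.cast_nonneg j
  have h := tail_bound (α := (j : ℝ) + 3 / 2) (by linarith) hν hy hθ
  have e1 : JJ ν y θ0 (j + 2) = ∫ θ in (-θ0)..θ0,
      (sp y θ) ^ (-(((j : ℝ) + 3 / 2 : ℝ) : ℂ)) * Complex.exp ((ν : ℂ) * sp y θ) := by
    unfold JJ
    refine intervalIntegral.integral_congr fun θ _ => ?_
    rw [cpow_shift hy (j + 2) ((j : ℝ) + 3 / 2) (by push_cast; ring)]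
  rw [e1]
  rw [show (j : ℝ) + 3 / 2 - 1 = (j : ℝ) + 1 / 2 by ring] at h
  refine h.trans (mul_le_mul_of_nonneg_right ?_ (Real.exp_pos _).le)
  have e2 : θ0 ^ (1 - ((j : ℝ) + 3 / 2)) = θ0 ^ (-(1 / 2) : ℝ) * (1 / θ0) ^ j := by
    rw [show 1 - ((j : ℝ) + 3 / 2) = (-(1 / 2) : ℝ) + (-(j : ℝ)) by ring, Real.rpow_add hθ,
      Real.rpow_neg hθ.le (j : ℝ), Real.rpow_natCast, one_div_pow, one_div (θ0 ^ j)]
  rw [e2]
  have h3 : 0 < θ0 ^ (-(1 / 2) : ℝ) * (1 / θ0) ^ j := by positivity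
  have h4 : θ0 ^ (-(1 / 2) : ℝ) * (1 / θ0) ^ j / ((j : ℝ) + 1 / 2) ≤
      2 * (θ0 ^ (-(1 / 2) : ℝ) * (1 / θ0) ^ j) := by
    rw [div_le_iff₀ (by positivity)]
    nlinarith
  linarith

theorem main_series {a θ0 : ℝ} (ha : 0 < a) (hθ : 0 < θ0) :
    ∃ K : ℝ, 0 < K ∧ ∀ y ν : ℝ, 0 < y → y ≤ 1 → 0 < ν →
      ‖(∫ θ in (-θ0)..θ0, (sp y θ) ^ (1 / 2 : ℂ) *
          Complex.exp ((a : ℂ) / sp y θ + (ν : ℂ) * sp y θ)) -
        ((2 * Real.pi * TT a ν : ℝ) : ℂ)‖ ≤ K * Real.exp (ν * y) := by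
  obtain ⟨B, hB⟩ := (summable_shift (a / θ0)).mul_left (4 * θ0 ^ (-(1 / 2) : ℝ) * a ^ 2)
  refine ⟨(1 + θ0 ^ 2) ^ (1 / 4 : ℝ) * (2 * θ0) + a * (4 * θ0 ^ (1 / 2 : ℝ)) + |B| + 1,
    by positivity, fun y ν hy hy1 hν => ?_⟩
  obtain ⟨I, hI⟩ : ∃ I : ℂ, I = ∫ θ in (-θ0)..θ0, (sp y θ) ^ (1 / 2 : ℂ) *
          Complex.exp ((a : ℂ) / sp y θ + (ν : ℂ) * sp y θ) := ⟨_, rfl⟩
  have hS := hasSum_main (ν := ν) ha hθ hy hy1
  rw [← hI] at hS ⊢
  have hS2 := (hasSum_nat_add_iff' 2).2 hS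
  have hT : HasSum (fun j : ℕ => ((2 * Real.pi * (a ^ (j + 2) * ν ^ ((j : ℝ) + 1 / 2) /
      ((Nat.factorial (j + 2) : ℝ) * Real.Gamma ((j : ℝ) + 3 / 2))) : ℝ) : ℂ))
      ((2 * Real.pi * TT a ν : ℝ) : ℂ) := by
    have := ((summable_TT ha hν).hasSum.mul_left (2 * Real.pi))
    exact_mod_cast (Complex.hasSum_ofReal.2 this)
  have hD := hS2.sub hT
  have hG : HasSum (fun j : ℕ => 4 * θ0 ^ (-(1 / 2) : ℝ) * a ^ 2 *
      ((a / θ0) ^ j / (Nat.factorial (j + 2) : ℝ)) * Real.exp (ν * y)) (B * Real.exp (ν * y)) :=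
    hB.mul_right _
  have hN := hD.norm_le_of_bounded hG fun j => ?_
  · have h0 := JJ_zero (ν := ν) hθ hy hy1
    have h1 := JJ_one (ν := ν) hθ hy
    have hE := Real.exp_pos (ν * y)
    have e1 : I - ((2 * Real.pi * TT a ν : ℝ) : ℂ) =
        (I - ∑ i ∈ Finset.range 2, ((a ^ i / (Nat.factorial i : ℝ) : ℝ) : ℂ) * JJ ν y θ0 i -
          ((2 * Real.pi * TT a ν : ℝ) : ℂ)) + (JJ ν y θ0 0 + (a : ℂ) * JJ ν y θ0 1) := by
      simp only [Finset.sum_range_succ, Finset.sum_range_zero]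
      simp
      ring
    rw [e1]
    have h2 : ‖JJ ν y θ0 0 + (a : ℂ) * JJ ν y θ0 1‖ ≤
        (1 + θ0 ^ 2) ^ (1 / 4 : ℝ) * (2 * θ0) * Real.exp (ν * y) +
        a * (4 * θ0 ^ (1 / 2 : ℝ) * Real.exp (ν * y)) := by
      refine norm_add_le_of_le h0 ?_
      rw [norm_mul, Complex.norm_real, Real.norm_of_nonneg ha.le]
      exact mul_le_mul_of_nonneg_left h1 ha.le
    refine (norm_add_le_of_le hN h2).trans ?_
    have h3 : B * Real.exp (ν * y) ≤ |B| * Real.exp (ν * y) :=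
      mul_le_mul_of_nonneg_right (le_abs_self B) hE.le
    nlinarith
  · have hf : (0 : ℝ) < Nat.factorial (j + 2) := by exact_mod_cast Nat.factorial_pos _
    have e2 : ((a ^ (j + 2) / (Nat.factorial (j + 2) : ℝ) : ℝ) : ℂ) * JJ ν y θ0 (j + 2) -
        ((2 * Real.pi * (a ^ (j + 2) * ν ^ ((j : ℝ) + 1 / 2) /
          ((Nat.factorial (j + 2) : ℝ) * Real.Gamma ((j : ℝ) + 3 / 2))) : ℝ) : ℂ) =
        ((a ^ (j + 2) / (Nat.factorial (j + 2) : ℝ) : ℝ) : ℂ) * (JJ ν y θ0 (j + 2) -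
          ((2 * Real.pi * (ν ^ ((j : ℝ) + 1 / 2) / Real.Gamma ((j : ℝ) + 3 / 2)) : ℝ) : ℂ)) := by
      rw [mul_sub, ← Complex.ofReal_mul]
      congr 2
      field_simp
    rw [e2, norm_mul, Complex.norm_real, Real.norm_of_nonneg (by positivity)]
    calc a ^ (j + 2) / (Nat.factorial (j + 2) : ℝ) * _
        ≤ a ^ (j + 2) / (Nat.factorial (j + 2) : ℝ) *
          (4 * θ0 ^ (-(1 / 2) : ℝ) * (1 / θ0) ^ j * Real.exp (ν * y)) :=
          mul_le_mul_of_nonneg_left (JJ_tail hν hθ hy j) (by positivity)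
      _ = 4 * θ0 ^ (-(1 / 2) : ℝ) * a ^ 2 *
          ((a / θ0) ^ j / (Nat.factorial (j + 2) : ℝ)) * Real.exp (ν * y) := by
          rw [pow_add, div_pow, div_pow, one_pow]
          ring

end PK
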