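import Pool.Agent.helper90.PK.Defs

/-!
# PK-B5a: basic asymptotics for `cI α N = ⌈α √N / log N⌉` and factorials

Proof sketches. `√N/log N → ∞`, so `α√N/log N ≤ cI α N ≤ α√N/log N + 1 ≤ (α+δ)√N/log N`.
`log n! ≥ n log n - n` (`Real.exp` series or Stirling: `n^n/n! ≤ e^n`). `sfact_lower`: induction, see
`(I+1/2) log (I+1) - I log I ≤ 1 + I/2`.
`log_cI_lower`: `log cI ≥ log α + L/2 - log L ≥ L/2 - 2 log L` eventually (`L = log N`);
`o(√N)` statements: `loglog_small : (√N/log N) * log log N ≤ δ √N` eventually.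
-/

namespace PK

open Filter

lemma logN_tendsto : Tendsto (fun N : ℕ => Real.log (N : ℝ)) atTop atTop :=
  Real.tendsto_log_atTop.comp tendsto_natCast_atTop_atTop

lemma sqrtN_tendsto : Tendsto (fun N : ℕ => Real.sqrt (N : ℝ)) atTop atTop :=
  Real.tendsto_sqrt_atTop.comp tendsto_natCast_atTop_atTop

/-- `log N ≤ δ √N` eventually -/
lemma log_le_sqrt {δ : ℝ} (hδ : 0 < δ) :
    ∀ᶠ N : ℕ in atTop, Real.log (N : ℝ) ≤ δ * Real.sqrt N := by
  have h := isLittleO_log_rpow_atTop (r := 1 / 2) (by norm_num)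
  have h1 := h.def hδ
  have h2 := tendsto_natCast_atTop_atTop (R := ℝ) |>.eventually h1
  filter_upwards [h2, eventually_ge_atTop 1] with N hN hN1
  have hN' : (1 : ℝ) ≤ N := by exact_mod_cast hN1
  have h3 : 0 ≤ Real.log (N : ℝ) := Real.log_nonneg hN'
  rw [Real.norm_eq_abs, abs_of_nonneg h3, Real.norm_eq_abs, ← Real.sqrt_eq_rpow,
    abs_of_nonneg (Real.sqrt_nonneg _)] at hN
  exact hN

theorem sqrt_div_log_tendsto :
    Tendsto (fun N : ℕ => Real.sqrt N / Real.log N) atTop atTop := by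
  rw [tendsto_atTop]
  intro b
  have hb : 0 < 1 / (|b| + 1) := by positivity
  filter_upwards [log_le_sqrt hb, logN_tendsto.eventually_gt_atTop 0] with N h1 h2
  rw [le_div_iff₀ h2]
  have h3 : 0 < |b| + 1 := by positivity
  have h4 : (|b| + 1) * Real.log N ≤ Real.sqrt N := by
    calc (|b| + 1) * Real.log N ≤ (|b| + 1) * (1 / (|b| + 1) * Real.sqrt N) := by gcongr
      _ = Real.sqrt N := by field_simp
  have h5 : b ≤ |b| + 1 := (le_abs_self b).trans (by linarith)
  calc b * Real.log N ≤ (|b| + 1) * Real.log N := by gcongr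
    _ ≤ _ := h4

theorem cI_lower (α : ℝ) (N : ℕ) : α * Real.sqrt N / Real.log N ≤ (cI α N : ℝ) :=
  Nat.le_ceil _

theorem cI_upper {α δ : ℝ} (hα : 0 < α) (hδ : 0 < δ) :
    ∀ᶠ N : ℕ in atTop, (cI α N : ℝ) ≤ (α + δ) * Real.sqrt N / Real.log N := by
  filter_upwards [sqrt_div_log_tendsto.eventually_ge_atTop (1 / δ),
    logN_tendsto.eventually_gt_atTop 0] with N h1 h2
  have h0 : 0 ≤ α * Real.sqrt N / Real.log N := by positivity
  have h3 := (Nat.ceil_lt_add_one h0).le
  have h4 : 1 ≤ δ * (Real.sqrt N / Real.log N) := by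
    rw [div_le_iff₀ hδ] at h1
    linarith
  calc (cI α N : ℝ) ≤ α * Real.sqrt N / Real.log N + 1 := h3
    _ ≤ α * Real.sqrt N / Real.log N + δ * (Real.sqrt N / Real.log N) := by linarith
    _ = _ := by ring

theorem cI_tendsto {α : ℝ} (hα : 0 < α) : Tendsto (fun N : ℕ => cI α N) atTop atTop := by
  refine tendsto_nat_ceil_atTop.comp ?_
  have := sqrt_div_log_tendsto.const_mul_atTop hα
  refine this.congr fun N => ?_
  ring

theorem loglog_small {δ : ℝ} (hδ : 0 < δ) :
    ∀ᶠ N : ℕ in atTop, Real.log (Real.log N) ≤ δ * Real.log N := by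
  have h := Real.isLittleO_log_id_atTop.def hδ
  have h2 := logN_tendsto.eventually h
  filter_upwards [h2, logN_tendsto.eventually_ge_atTop 1] with N hN h1
  have h3 : 0 ≤ Real.log (Real.log (N : ℝ)) := Real.log_nonneg h1
  rw [Real.norm_eq_abs, abs_of_nonneg h3, Real.norm_eq_abs, id,
    abs_of_nonneg (by linarith)] at hN
  exact hN

theorem log_cI_lower {α : ℝ} (hα : 0 < α) :
    ∀ᶠ N : ℕ in atTop, Real.log N / 2 - 2 * Real.log (Real.log N) ≤ Real.log (cI α N) := by
  have h := (Real.tendsto_log_atTop.comp logN_tendsto).eventually_ge_atTop (-Real.log α)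
  filter_upwards [h, logN_tendsto.eventually_gt_atTop 0, eventually_ge_atTop 1] with N h1 h2 h3
  have hN : (0 : ℝ) < N := by
    have : (1 : ℝ) ≤ N := by exact_mod_cast h3
    linarith
  have hs : 0 < Real.sqrt N := Real.sqrt_pos.2 hN
  have h4 := cI_lower α N
  have h5 : 0 < α * Real.sqrt N / Real.log N := by positivity
  have h6 := Real.log_le_log h5 h4
  rw [Real.log_div (by positivity) h2.ne', Real.log_mul hα.ne' hs.ne',
    Real.log_sqrt hN.le] at h6
  simp only [Function.comp_apply] at h1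
  linarith

theorem log_cI_upper {α : ℝ} (hα : 0 < α) :
    ∀ᶠ N : ℕ in atTop, Real.log (cI α N) ≤ Real.log N / 2 := by
  filter_upwards [cI_upper hα one_pos, logN_tendsto.eventually_ge_atTop (α + 1),
    (cI_tendsto hα).eventually_ge_atTop 1, eventually_ge_atTop 1] with N h1 h2 h3 h4
  have hN : (0 : ℝ) < N := by
    have : (1 : ℝ) ≤ N := by exact_mod_cast h4
    linarith
  have hL : 0 < Real.log N := by linarith
  have h5 : (cI α N : ℝ) ≤ Real.sqrt N := by
    refine h1.trans ?_
    rw [div_le_iff₀ hL]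
    have := Real.sqrt_nonneg (N : ℝ)
    nlinarith
  have h6 : (0 : ℝ) < cI α N := by exact_mod_cast h3
  have h7 := Real.log_le_log h6 h5
  rwa [Real.log_sqrt hN.le] at h7

theorem log_factorial_lower (n : ℕ) :
    (n : ℝ) * Real.log n - n ≤ Real.log (Nat.factorial n : ℝ) := by
  rcases Nat.eq_zero_or_pos n with rfl | hn
  · simp
  · have hn' : (0 : ℝ) < n := by exact_mod_cast hn
    have h := Real.pow_div_factorial_le_exp (n : ℝ) hn'.le n
    have hf : (0 : ℝ) < (Nat.factorial n : ℝ) := by exact_mod_cast Nat.factorial_pos n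
    have h1 := Real.log_le_log (by positivity) h
    rw [Real.log_div (by positivity) hf.ne', Real.log_pow, Real.log_exp] at h1
    linarith

/-- `∑_{a<I} log a! ≥ (I²/2) log I - 2 I²` -/
theorem sfact_lower (I : ℕ) :
    (I : ℝ) ^ 2 / 2 * Real.log I - 2 * (I : ℝ) ^ 2 ≤
      ∑ a ∈ Finset.range I, Real.log (Nat.factorial a : ℝ) := by
  induction I with
  | zero => simp
  | succ I ih =>
    rw [Finset.sum_range_succ]
    have h1 := log_factorial_lower I
    push_cast
    rcases Nat.eq_zero_or_pos I with rfl | hI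
    · simp
    · have hI' : (0 : ℝ) < I := by exact_mod_cast hI
      have hI1 : (1 : ℝ) ≤ I := by exact_mod_cast hI
      have h2 : Real.log ((I : ℝ) + 1) ≤ Real.log I + 1 / I := by
        have e1 : ((I : ℝ) + 1) = I * (1 + 1 / I) := by field_simp
        have h3 : Real.log (1 + 1 / (I : ℝ)) ≤ 1 / I := by
          have := Real.log_le_sub_one_of_pos (show (0 : ℝ) < 1 + 1 / I by positivity)
          linarith
        rw [e1, Real.log_mul hI'.ne' (by positivity)]
        linarith
      have h4 : Real.log I ≤ I := by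
        have := Real.log_le_sub_one_of_pos hI'
        linarith
      have h5 : ((I : ℝ) + 1) ^ 2 / 2 * Real.log ((I : ℝ) + 1) ≤
          ((I : ℝ) + 1) ^ 2 / 2 * (Real.log I + 1 / I) := by gcongr
      have h6 : ((I : ℝ) + 1) ^ 2 / 2 * (1 / I) ≤ (I + 3) / 2 := by
        rw [mul_one_div, div_le_iff₀ hI']
        nlinarith
      nlinarith

/-- `log (cI α N - 1)! ≥ (α/2 - δ) √N` eventually -/
theorem log_fact_cI {α δ : ℝ} (hα : 0 < α) (hδ : 0 < δ) :
    ∀ᶠ N : ℕ in atTop, (α / 2 - δ) * Real.sqrt N ≤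
      Real.log (Nat.factorial (cI α N - 1) : ℝ) := by
  set ε : ℝ := min (1 / 4) (δ / (2 * α)) with hε
  have hε0 : 0 < ε := by
    rw [hε]
    exact lt_min (by norm_num) (by positivity)
  have hε1 : ε ≤ 1 / 4 := min_le_left _ _
  have hε2 : α * ε ≤ δ / 2 := by
    have : ε ≤ δ / (2 * α) := min_le_right _ _
    calc α * ε ≤ α * (δ / (2 * α)) := by gcongr
      _ = δ / 2 := by field_simp
  have hε4 : 0 < ε / 4 := by positivity
  filter_upwards [log_cI_lower hα, log_cI_upper hα, loglog_small hε4,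
    logN_tendsto.eventually_ge_atTop (2 / ε), log_le_sqrt hδ,
    (cI_tendsto hα).eventually_ge_atTop 1, logN_tendsto.eventually_gt_atTop 0]
    with N h1 h2 h3 h4 h5 h6 h7
  set I := cI α N with hI
  obtain ⟨n, hn⟩ : ∃ n, I = n + 1 := ⟨I - 1, by omega⟩
  have hI0 : (0 : ℝ) < I := by exact_mod_cast h6
  have h8 := log_factorial_lower I
  have h9 : Real.log (Nat.factorial I : ℝ) =
      Real.log I + Real.log (Nat.factorial (I - 1) : ℝ) := by
    rw [hn, Nat.factorial_succ, Nat.add_sub_cancel]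
    push_cast
    rw [Real.log_mul (by positivity) (by positivity)]
  have h10 : 1 ≤ ε / 2 * Real.log N := by
    rw [div_le_iff₀ hε0] at h4
    linarith
  have h11 : (1 / 2 - ε) * Real.log N ≤ Real.log I - 1 := by
    nlinarith
  have h12 : 0 ≤ (1 / 2 - ε) * Real.log N := by
    have : 0 ≤ 1 / 2 - ε := by linarith
    positivity
  have h13 : α * Real.sqrt N / Real.log N * ((1 / 2 - ε) * Real.log N) ≤
      I * (Real.log I - 1) := by
    have := cI_lower α N
    have h0 : 0 ≤ α * Real.sqrt N / Real.log N := by positivity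
    exact mul_le_mul this h11 h12 hI0.le
  have h14 : α * Real.sqrt N / Real.log N * ((1 / 2 - ε) * Real.log N) =
      α * (1 / 2 - ε) * Real.sqrt N := by
    field_simp
  rw [h14] at h13
  have h15 : 0 ≤ Real.sqrt (N : ℝ) := Real.sqrt_nonneg _
  nlinarith

end PK
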