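import Pool.Agent.helper90.PK.Defs

/-!
# PK-A8b: closed form of `TT`

Proof sketch. `Γ(j+1/2) = (2j)! √π/(4^j j!)` (`Real.Gamma_nat_add_half`-style lemma, or induct with
`Real.Gamma_add_one`, `Real.Gamma_one_half_eq`), so for `j ≥ 0`,
`1/(j! Γ(j-1/2)) = (j-1/2)/(j! Γ(j+1/2)) = (j-1/2) 4^j/((2j)! √π)`. With `λ = √ν`, `x = 2√a λ`
(`x² = 4aν`): the `j`-th term (true index `j ≥ 2`) is
`(j - 1/2) x^(2j)/((2j)! √π λ³)`. Now `∑_{j≥0} x^(2j)/(2j)! = cosh x`,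
`∑_{j≥0} 2j x^(2j)/(2j)! = x sinh x` (`Real.hasSum_cosh`, `Real.hasSum_sinh`), so
`∑_{j ≥ 0} (j-1/2) x^(2j)/(2j)! = (x sinh x - cosh x)/2` and
`TT a ν = [(x sinh x - cosh x)/2 + 1/2 - x²/4]/(√π λ³)` (remove `j = 0`: `-1/2`, `j = 1`: `x²/4`).
Finally `(x sinh x - cosh x)/2 = (x-1)e^x/4 - (x+1) e^(-x)/4`, and for `ν ≥ 1/2` the rest
`(1/2 - x²/4 - (x+1)e^(-x)/4)/(√π λ³)` is bounded (`x²/λ³ = 4a/λ`).
-/

namespace PK

theorem Gamma_half_key (i : ℕ) :
    Real.Gamma ((i : ℝ) + 1 / 2) * (4 : ℝ) ^ i * (Nat.factorial i : ℝ) =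
      (Nat.factorial (2 * i) : ℝ) * Real.sqrt Real.pi := by
  induction i with
  | zero =>
    have := Real.Gamma_one_half_eq
    norm_num at this ⊢
    exact this
  | succ i ih =>
    have h1 : Real.Gamma (((i + 1 : ℕ) : ℝ) + 1 / 2) =
        ((i : ℝ) + 1 / 2) * Real.Gamma ((i : ℝ) + 1 / 2) := by
      rw [← Real.Gamma_add_one (by positivity)]
      congr 1
      push_cast
      ring
    have h2 : (Nat.factorial (2 * (i + 1)) : ℝ) =
        (2 * (i : ℝ) + 2) * ((2 * (i : ℝ) + 1) * (Nat.factorial (2 * i) : ℝ)) := by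
      have : 2 * (i + 1) = (2 * i + 1) + 1 := by ring
      rw [this, Nat.factorial_succ, Nat.factorial_succ]
      push_cast
      ring
    rw [h1, h2, Nat.factorial_succ, pow_succ]
    push_cast
    have : ((i : ℝ) + 1 / 2) * Real.Gamma ((i : ℝ) + 1 / 2) * ((4 : ℝ) ^ i * 4) *
        (((i : ℝ) + 1) * (Nat.factorial i : ℝ)) = ((i : ℝ) + 1 / 2) * 4 * ((i : ℝ) + 1) *
        (Real.Gamma ((i : ℝ) + 1 / 2) * (4 : ℝ) ^ i * (Nat.factorial i : ℝ)) := by ring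
    rw [this, ih]
    ring

theorem hasSum_two_mul (x : ℝ) :
    HasSum (fun i : ℕ => 2 * (i : ℝ) * (x ^ (2 * i) / (Nat.factorial (2 * i) : ℝ)))
      (x * Real.sinh x) := by
  have h := (Real.hasSum_sinh x).mul_left x
  have h2 : (fun i : ℕ => x * (x ^ (2 * i + 1) / (Nat.factorial (2 * i + 1) : ℝ))) =
      fun i : ℕ => (fun i : ℕ => 2 * (i : ℝ) * (x ^ (2 * i) / (Nat.factorial (2 * i) : ℝ)))
        (i + 1) := by
    funext i
    have h3 : (Nat.factorial (2 * (i + 1)) : ℝ) =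
        (2 * (i : ℝ) + 2) * (Nat.factorial (2 * i + 1) : ℝ) := by
      have : 2 * (i + 1) = (2 * i + 1) + 1 := by ring
      rw [this, Nat.factorial_succ]
      push_cast
      ring
    have h4 : x ^ (2 * (i + 1)) = x * x ^ (2 * i + 1) := by ring
    simp only
    rw [h3, h4]
    have h5 : (0 : ℝ) < (Nat.factorial (2 * i + 1) : ℝ) := by positivity
    push_cast
    field_simp
  rw [h2] at h
  have := (hasSum_nat_add_iff (f := fun i : ℕ =>
    2 * (i : ℝ) * (x ^ (2 * i) / (Nat.factorial (2 * i) : ℝ))) 1).1 h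
  simpa using this

theorem TT_eq {a ν : ℝ} (ha : 0 < a) (hν : 0 < ν) :
    TT a ν = (((2 * Real.sqrt a * Real.sqrt ν) * Real.sinh (2 * Real.sqrt a * Real.sqrt ν) -
      Real.cosh (2 * Real.sqrt a * Real.sqrt ν)) / 2 + 1 / 2 - a * ν) /
      (Real.sqrt Real.pi * Real.sqrt ν ^ 3) := by
  set x : ℝ := 2 * Real.sqrt a * Real.sqrt ν with hx
  have hx2 : x ^ 2 = 4 * a * ν := by
    rw [hx, mul_pow, mul_pow, Real.sq_sqrt ha.le, Real.sq_sqrt hν.le]
    ring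
  have h1 : HasSum (fun i : ℕ => ((i : ℝ) - 1 / 2) * (x ^ (2 * i) / (Nat.factorial (2 * i) : ℝ)))
      ((x * Real.sinh x - Real.cosh x) / 2) := by
    have := ((hasSum_two_mul x).sub (Real.hasSum_cosh x)).mul_left (1 / 2 : ℝ)
    have e0 : (1 / 2 : ℝ) * (x * Real.sinh x - Real.cosh x) =
        (x * Real.sinh x - Real.cosh x) / 2 := by ring
    rw [← e0]
    refine this.congr_fun fun i => ?_
    ring
  have h2 := (hasSum_nat_add_iff' (f := fun i : ℕ =>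
    ((i : ℝ) - 1 / 2) * (x ^ (2 * i) / (Nat.factorial (2 * i) : ℝ))) 2).2 h1
  have h3 : (x * Real.sinh x - Real.cosh x) / 2 - ∑ i ∈ Finset.range 2,
      ((i : ℝ) - 1 / 2) * (x ^ (2 * i) / (Nat.factorial (2 * i) : ℝ)) =
      (x * Real.sinh x - Real.cosh x) / 2 + 1 / 2 - a * ν := by
    rw [Finset.sum_range_succ, Finset.sum_range_succ, Finset.sum_range_zero]
    have : x ^ (2 * 1) = 4 * a * ν := by simpa using hx2
    rw [this]
    norm_num
    ring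
  rw [h3] at h2
  have h4 := h2.div_const (Real.sqrt Real.pi * Real.sqrt ν ^ 3)
  rw [← h4.tsum_eq, TT]
  congr 1
  funext j
  have hpi : 0 < Real.sqrt Real.pi := Real.sqrt_pos.2 Real.pi_pos
  have hsν : 0 < Real.sqrt ν := Real.sqrt_pos.2 hν
  have hG := Gamma_half_key (j + 2)
  have hG1 : Real.Gamma (((j + 2 : ℕ) : ℝ) + 1 / 2) =
      ((j : ℝ) + 3 / 2) * Real.Gamma ((j : ℝ) + 3 / 2) := by
    rw [← Real.Gamma_add_one (by positivity)]
    congr 1
    push_cast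
    ring
  rw [hG1] at hG
  have hGpos : 0 < Real.Gamma ((j : ℝ) + 3 / 2) := Real.Gamma_pos_of_pos (by positivity)
  have hpow : ν ^ ((j : ℝ) + 1 / 2) * Real.sqrt ν ^ 3 = ν ^ (j + 2) := by
    have e1 : Real.sqrt ν ^ 3 = ν ^ (3 / 2 : ℝ) := by
      rw [Real.sqrt_eq_rpow, ← Real.rpow_natCast, ← Real.rpow_mul hν.le]
      norm_num
    rw [e1, ← Real.rpow_add hν, ← Real.rpow_natCast]
    congr 1
    push_cast
    ring
  have hxp : x ^ (2 * (j + 2)) = 4 ^ (j + 2) * a ^ (j + 2) * ν ^ (j + 2) := by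
    rw [pow_mul, hx2, mul_pow, mul_pow]
  rw [hxp]
  have hfac : (0 : ℝ) < (Nat.factorial (2 * (j + 2)) : ℝ) := by positivity
  have hfac2 : (0 : ℝ) < (Nat.factorial (j + 2) : ℝ) := by positivity
  rw [div_eq_div_iff (by positivity) (by positivity)]
  have e2 : a ^ (j + 2) * ν ^ ((j : ℝ) + 1 / 2) * (Real.sqrt Real.pi * Real.sqrt ν ^ 3) =
      a ^ (j + 2) * Real.sqrt Real.pi * ν ^ (j + 2) := by
    rw [← hpow]; ring
  rw [e2]
  have e3 : (((j + 2 : ℕ) : ℝ) - 1 / 2) * (4 ^ (j + 2) * a ^ (j + 2) * ν ^ (j + 2) /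
      (Nat.factorial (2 * (j + 2)) : ℝ)) *
      ((Nat.factorial (j + 2) : ℝ) * Real.Gamma ((j : ℝ) + 3 / 2)) =
      a ^ (j + 2) * ν ^ (j + 2) * (((j : ℝ) + 3 / 2) * Real.Gamma ((j : ℝ) + 3 / 2) *
        4 ^ (j + 2) * (Nat.factorial (j + 2) : ℝ)) / (Nat.factorial (2 * (j + 2)) : ℝ) := by
    push_cast
    field_simp
    ring
  rw [e3, hG]
  field_simp

theorem T_closed {a : ℝ} (ha : 0 < a) :
    ∃ K : ℝ, 0 < K ∧ ∀ ν : ℝ, 1 / 2 ≤ ν →
      |TT a ν - (2 * Real.sqrt a * Real.sqrt ν - 1) *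
        Real.exp (2 * Real.sqrt a * Real.sqrt ν) /
        (4 * Real.sqrt Real.pi * Real.sqrt ν ^ 3)| ≤ K := by
  have hpi : 0 < Real.sqrt Real.pi := Real.sqrt_pos.2 Real.pi_pos
  have hpi1 : 1 ≤ Real.sqrt Real.pi := by
    rw [Real.one_le_sqrt]
    linarith [Real.pi_gt_three]
  refine ⟨8 + 2 * a, by positivity, fun ν hν => ?_⟩
  have hν0 : 0 < ν := by linarith
  have hsν : 0 < Real.sqrt ν := Real.sqrt_pos.2 hν0
  have hsν2 : Real.sqrt ν ^ 2 = ν := Real.sq_sqrt hν0.le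
  have hsh : 1 / 2 ≤ Real.sqrt ν := by
    apply Real.le_sqrt_of_sq_le
    linarith
  rw [TT_eq ha hν0]
  set x : ℝ := 2 * Real.sqrt a * Real.sqrt ν with hx
  have hx0 : 0 ≤ x := by positivity
  have e1 : ((x * Real.sinh x - Real.cosh x) / 2 + 1 / 2 - a * ν) /
      (Real.sqrt Real.pi * Real.sqrt ν ^ 3) -
      (x - 1) * Real.exp x / (4 * Real.sqrt Real.pi * Real.sqrt ν ^ 3) =
      (1 / 2 - a * ν - (x + 1) * Real.exp (-x) / 4) / (Real.sqrt Real.pi * Real.sqrt ν ^ 3) := by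
    rw [Real.sinh_eq, Real.cosh_eq]
    field_simp
    ring
  rw [e1, abs_div, abs_of_pos (show 0 < Real.sqrt Real.pi * Real.sqrt ν ^ 3 by positivity),
    div_le_iff₀ (by positivity)]
  have h3 : (x + 1) * Real.exp (-x) ≤ 1 := by
    have h4 : x + 1 ≤ Real.exp x := Real.add_one_le_exp x
    rw [Real.exp_neg, ← div_eq_mul_inv, div_le_one (Real.exp_pos x)]
    exact h4
  have h3' : 0 ≤ (x + 1) * Real.exp (-x) := by positivity
  have h5 : |1 / 2 - a * ν - (x + 1) * Real.exp (-x) / 4| ≤ 1 + a * ν := by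
    rw [abs_le]
    have : 0 < a * ν := by positivity
    constructor <;> linarith
  refine h5.trans ?_
  have h6 : (1 : ℝ) ≤ 8 * Real.sqrt ν ^ 3 := by
    have : (1 / 2 : ℝ) ^ 3 ≤ Real.sqrt ν ^ 3 := by gcongr
    linarith
  have h7 : a * ν ≤ 2 * a * Real.sqrt ν ^ 3 := by
    have : Real.sqrt ν ^ 3 = ν * Real.sqrt ν := by
      rw [pow_succ, hsν2]
    rw [this]
    have : a * ν ≤ 2 * (a * ν) * Real.sqrt ν := by
      have h8 : 0 < a * ν := by positivity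
      nlinarith
    linarith
  have h8 : (8 + 2 * a) * Real.sqrt ν ^ 3 ≤
      (8 + 2 * a) * (Real.sqrt Real.pi * Real.sqrt ν ^ 3) := by
    have : Real.sqrt ν ^ 3 ≤ Real.sqrt Real.pi * Real.sqrt ν ^ 3 := by
      have : 0 < Real.sqrt ν ^ 3 := by positivity
      nlinarith
    have h9 : 0 < 8 + 2 * a := by positivity
    nlinarith
  linarith

end PK
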