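import Pool.Agent.helper90.PK.Arcs
import Pool.Agent.helper90.PK.ArcErr
import Pool.Agent.helper90.PK.MainSer
import Pool.Agent.helper90.PK.TClosed

/-!
# PK-A9: two-term asymptotics of the partition numbers

Proof sketch. `n ≥ 1`, `ν = n - 1/24 ≥ 1/2`, `y = π/(3√(6n)) ∈ (0,1]`. By `pp_eq_arcs`,
`2π pp n = ∫_{|θ| ≤ 2π/3} P(e^(-s)) e^(ns) + (-1)^n ∫_{|θ| ≤ π/3} P(-e^(-s)) e^(ns)`. Replace `P` by
the main terms (`arc1`, `arc2`): error `≤ (2π) K exp(π²/(54y) + n y) = (2π) K exp(C√n/3)`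
because `n y = C √n/6`, `π²/(54 y) = C√n/6` (`C = 2π/√6`). Now
`(s/2π)^(1/2) exp(π²/(6s) - s/24 + ns) = (2π)^(-1/2) s^(1/2) exp(a/s + νs)`, `a = π²/6`, and
`(s/π)^(1/2) exp(π²/(24s) - s/24 + ns) = π^(-1/2) s^(1/2) exp(a'/s + νs)`, `a' = π²/24`; apply
`main_series` (error `K e^(νy) ≤ K e^(C√n/3)`) and `T_closed`
(`2√a = C`, `2√a' = C/2`): `pp n = (2π)^(-1/2) TT a ν + (-1)^n π^(-1/2) TT a' ν + error` and
`(2π)^(-1/2)/(4√π) = 1/(4π√2)`, `π^(-1/2)/(4√π) = √2/(4π√2)`.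
-/

namespace PK

theorem cpow_scale {d : ℝ} (hd : 0 < d) {s : ℂ} (hs : s ≠ 0) :
    (s / (d : ℂ)) ^ (1 / 2 : ℂ) = ((1 / Real.sqrt d : ℝ) : ℂ) * s ^ (1 / 2 : ℂ) := by
  have h1 : s / (d : ℂ) = ((d⁻¹ : ℝ) : ℂ) * s := by
    push_cast; rw [div_eq_mul_inv]; ring
  have hne : ((d⁻¹ : ℝ) : ℂ) * s ≠ 0 := by
    apply mul_ne_zero _ hs
    exact_mod_cast (inv_pos.mpr hd).ne'
  rw [h1, Complex.cpow_def_of_ne_zero hne, Complex.cpow_def_of_ne_zero hs,
    Complex.log_ofReal_mul (inv_pos.mpr hd) hs, add_mul, Complex.exp_add]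
  congr 1
  have h2 : ((Real.log d⁻¹ : ℝ) : ℂ) * (1 / 2 : ℂ) = ((Real.log d⁻¹ * (1 / 2) : ℝ) : ℂ) := by
    push_cast; ring
  rw [h2, ← Complex.ofReal_exp]
  congr 1
  rw [Real.sqrt_eq_rpow, ← Real.rpow_def_of_pos (inv_pos.mpr hd), Real.inv_rpow hd.le]
  exact (one_div _).symm

/-- The value `y = π/(3 √(6n))`. -/
noncomputable def yy (n : ℕ) : ℝ := Real.pi / (3 * Real.sqrt (6 * n))

theorem yy_pos {n : ℕ} (hn : 1 ≤ n) : 0 < yy n := by
  unfold yy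
  have : (0 : ℝ) < n := by exact_mod_cast hn
  positivity

theorem yy_le_one {n : ℕ} (hn : 1 ≤ n) : yy n ≤ 1 := by
  unfold yy
  have h1 : (1 : ℝ) ≤ n := by exact_mod_cast hn
  have h2 : (2 : ℝ) ≤ Real.sqrt (6 * n) := by
    apply Real.le_sqrt_of_sq_le; linarith
  rw [div_le_one (by positivity)]
  have := Real.pi_lt_four
  linarith

theorem sqrt_six_n (n : ℕ) : Real.sqrt (6 * n) = Real.sqrt 6 * Real.sqrt n :=
  Real.sqrt_mul (by norm_num) _

theorem CC_eq : CC = Real.pi * Real.sqrt 6 / 3 := by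
  unfold CC
  have : (2 / 3 : ℝ) = 6 / 3 ^ 2 := by norm_num
  rw [this, Real.sqrt_div (by norm_num), Real.sqrt_sq (by norm_num)]
  ring

theorem n_mul_yy {n : ℕ} (hn : 1 ≤ n) : (n : ℝ) * yy n = CC * Real.sqrt n / 6 := by
  have h0 : (0 : ℝ) < n := by exact_mod_cast hn
  have h1 : 0 < Real.sqrt n := Real.sqrt_pos.mpr h0
  have h6 : 0 < Real.sqrt 6 := Real.sqrt_pos.mpr (by norm_num)
  have h66 : Real.sqrt 6 ^ 2 = 6 := Real.sq_sqrt (by norm_num)
  have hnn : Real.sqrt n ^ 2 = n := Real.sq_sqrt h0.le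
  unfold yy
  rw [sqrt_six_n, CC_eq]
  rw [mul_div_assoc', div_eq_div_iff (by positivity) (by norm_num)]
  have e : (n : ℝ) = Real.sqrt n ^ 2 := hnn.symm
  calc (n : ℝ) * Real.pi * 6 = Real.sqrt n ^ 2 * Real.pi * 6 := by rw [hnn]
    _ = Real.pi * Real.sqrt 6 ^ 2 / 3 * Real.sqrt n ^ 2 * 3 := by rw [h66]; ring
    _ = _ := by ring

theorem pi_div_yy {n : ℕ} (hn : 1 ≤ n) : Real.pi ^ 2 / (54 * yy n) = CC * Real.sqrt n / 6 := by
  have h0 : (0 : ℝ) < n := by exact_mod_cast hn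
  have h1 : 0 < Real.sqrt n := Real.sqrt_pos.mpr h0
  have h6 : 0 < Real.sqrt 6 := Real.sqrt_pos.mpr (by norm_num)
  have hpi := Real.pi_pos
  unfold yy
  rw [sqrt_six_n, CC_eq]
  field_simp
  norm_num

theorem exp_combine {n : ℕ} (hn : 1 ≤ n) :
    Real.exp (Real.pi ^ 2 / (54 * yy n)) * Real.exp (n * yy n) =
      Real.exp (CC * Real.sqrt n / 3) := by
  rw [← Real.exp_add, pi_div_yy hn, n_mul_yy hn]
  congr 1; ring

theorem CC_pos : 0 < CC := by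
  unfold CC; have := Real.pi_pos; positivity

/-- closed form of the main term -/
noncomputable def GG (a ν : ℝ) : ℝ :=
  (2 * Real.sqrt a * Real.sqrt ν - 1) * Real.exp (2 * Real.sqrt a * Real.sqrt ν) /
    (4 * Real.sqrt Real.pi * Real.sqrt ν ^ 3)

theorem arc_total {d θ0 a : ℝ} (hd : 0 < d) (hθ0 : 0 < θ0) (ha : 0 < a)
    (F : ℝ → ℝ → ℂ)
    (hcont : ∀ (n : ℕ) (y : ℝ), 0 < y →
      Continuous fun θ : ℝ => F y θ * Complex.exp ((n : ℂ) * sp y θ))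
    (harc : ∃ K1 : ℝ, 0 < K1 ∧ ∀ y θ : ℝ, 0 < y → y ≤ 1 → |θ| ≤ θ0 →
      ‖F y θ - (sp y θ / (d : ℂ)) ^ (1 / 2 : ℂ) *
        Complex.exp ((a : ℂ) / sp y θ - sp y θ / 24)‖ ≤ K1 * Real.exp (Real.pi ^ 2 / (54 * y))) :
    ∃ K : ℝ, 0 < K ∧ ∀ n : ℕ, 1 ≤ n →
      ‖(∫ θ in (-θ0)..θ0, F (yy n) θ * Complex.exp ((n : ℂ) * sp (yy n) θ)) -
        ((2 * Real.pi / Real.sqrt d * GG a ((n : ℝ) - 1 / 24) : ℝ) : ℂ)‖ ≤
        K * Real.exp (CC * Real.sqrt n / 3) := by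
  obtain ⟨K1, hK1, h1⟩ := harc
  obtain ⟨K2, hK2, h2⟩ := main_series (a := a) ha hθ0
  obtain ⟨K3, hK3, h3⟩ := T_closed (a := a) ha
  have hpi := Real.pi_pos
  have hsd : 0 < Real.sqrt d := Real.sqrt_pos.mpr hd
  refine ⟨K1 * (2 * θ0) + 1 / Real.sqrt d * K2 + 2 * Real.pi / Real.sqrt d * K3, by positivity,
    fun n hn => ?_⟩
  set y := yy n with hydef
  have hy : 0 < y := yy_pos hn
  have hy1 : y ≤ 1 := yy_le_one hn
  have hn1 : (1 : ℝ) ≤ n := by exact_mod_cast hn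
  set ν : ℝ := (n : ℝ) - 1 / 24 with hν
  have hν2 : 1 / 2 ≤ ν := by rw [hν]; linarith
  have hν0 : 0 < ν := by linarith
  set E := Real.exp (CC * Real.sqrt n / 3) with hE
  have hEcomb : Real.exp (Real.pi ^ 2 / (54 * y)) * Real.exp (n * y) = E := exp_combine hn
  have hE1 : 1 ≤ E := by
    apply Real.one_le_exp
    have := CC_pos
    positivity
  have hEn : Real.exp (ν * y) ≤ E := by
    rw [← hEcomb]
    have e1 : Real.exp (ν * y) ≤ Real.exp (n * y) := by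
      apply Real.exp_le_exp.mpr
      apply mul_le_mul_of_nonneg_right _ hy.le
      rw [hν]; linarith
    have e2 : 1 ≤ Real.exp (Real.pi ^ 2 / (54 * y)) := by
      apply Real.one_le_exp; positivity
    calc _ ≤ Real.exp (n * y) := e1
      _ = 1 * Real.exp (n * y) := (one_mul _).symm
      _ ≤ _ := mul_le_mul_of_nonneg_right e2 (Real.exp_pos _).le
  -- the main term function
  set M : ℝ → ℂ := fun θ => (sp y θ) ^ (1 / 2 : ℂ) *
    Complex.exp ((a : ℂ) / sp y θ + (ν : ℂ) * sp y θ) with hM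
  have hMcont : Continuous M := by
    have hs := continuous_sp y
    have hne : ∀ θ, sp y θ ≠ 0 := fun θ => sp_ne_zero hy
    rw [hM]
    apply Continuous.mul
    · apply Continuous.cpow hs continuous_const
      intro θ
      left
      rw [sp_re]; exact hy
    · apply Complex.continuous_exp.comp
      exact (continuous_const.div hs hne).add (continuous_const.mul hs)
  have hMeq : ∀ θ, ((sp y θ / (d : ℂ)) ^ (1 / 2 : ℂ) *
      Complex.exp ((a : ℂ) / sp y θ - sp y θ / 24)) * Complex.exp ((n : ℂ) * sp y θ) =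
      ((1 / Real.sqrt d : ℝ) : ℂ) * M θ := by
    intro θ
    rw [cpow_scale hd (sp_ne_zero hy), hM]
    simp only
    rw [mul_assoc, mul_assoc, ← Complex.exp_add]
    congr 3
    rw [hν]
    push_cast
    ring
  have hA : ‖(∫ θ in (-θ0)..θ0, F y θ * Complex.exp ((n : ℂ) * sp y θ)) -
      ((1 / Real.sqrt d : ℝ) : ℂ) * ∫ θ in (-θ0)..θ0, M θ‖ ≤ K1 * (2 * θ0) * E := by
    have hMc : Continuous fun θ : ℝ => ((1 / Real.sqrt d : ℝ) : ℂ) * M θ :=
      continuous_const.mul hMcont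
    rw [← intervalIntegral.integral_const_mul, ← intervalIntegral.integral_sub
      ((hcont n y hy).intervalIntegrable _ _) (hMc.intervalIntegrable _ _)]
    have hb : ∀ θ ∈ Set.uIoc (-θ0) θ0, ‖F y θ * Complex.exp ((n : ℂ) * sp y θ) -
        ((1 / Real.sqrt d : ℝ) : ℂ) * M θ‖ ≤ K1 * E := by
      intro θ hθ
      rw [Set.uIoc_of_le (by linarith)] at hθ
      have hθ' : |θ| ≤ θ0 := abs_le.mpr ⟨hθ.1.le, hθ.2⟩
      rw [← hMeq, ← sub_mul, norm_mul]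
      have e1 : ‖Complex.exp ((n : ℂ) * sp y θ)‖ = Real.exp (n * y) := by
        rw [Complex.norm_exp]
        congr 1
        rw [Complex.mul_re, sp_re]
        simp
      rw [e1, ← hEcomb, ← mul_assoc]
      exact mul_le_mul_of_nonneg_right (h1 y θ hy hy1 hθ') (Real.exp_pos _).le
    have := intervalIntegral.norm_integral_le_of_norm_le_const hb
    calc _ ≤ _ := this
      _ = K1 * (2 * θ0) * E := by
        rw [abs_of_nonneg (by linarith)]; ring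
  have hB : ‖((1 / Real.sqrt d : ℝ) : ℂ) * (∫ θ in (-θ0)..θ0, M θ) -
      ((1 / Real.sqrt d : ℝ) : ℂ) * ((2 * Real.pi * TT a ν : ℝ) : ℂ)‖ ≤
      1 / Real.sqrt d * K2 * E := by
    rw [← mul_sub, norm_mul, Complex.norm_real, Real.norm_of_nonneg (by positivity)]
    have hb : ‖(∫ θ in (-θ0)..θ0, M θ) - ((2 * Real.pi * TT a ν : ℝ) : ℂ)‖ ≤ K2 * E :=
      calc _ ≤ K2 * Real.exp (ν * y) := h2 y ν hy hy1 hν0
        _ ≤ K2 * E := mul_le_mul_of_nonneg_left hEn hK2.le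
    calc _ ≤ 1 / Real.sqrt d * (K2 * E) := mul_le_mul_of_nonneg_left hb (by positivity)
      _ = _ := by ring
  have hC : ‖((1 / Real.sqrt d : ℝ) : ℂ) * ((2 * Real.pi * TT a ν : ℝ) : ℂ) -
      ((2 * Real.pi / Real.sqrt d * GG a ν : ℝ) : ℂ)‖ ≤
      2 * Real.pi / Real.sqrt d * K3 * E := by
    rw [← Complex.ofReal_mul, ← Complex.ofReal_sub, Complex.norm_real]
    have e1 : 1 / Real.sqrt d * (2 * Real.pi * TT a ν) - 2 * Real.pi / Real.sqrt d * GG a ν =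
        2 * Real.pi / Real.sqrt d * (TT a ν - GG a ν) := by ring
    rw [e1, norm_mul, Real.norm_of_nonneg (by positivity), mul_assoc]
    apply mul_le_mul_of_nonneg_left _ (by positivity)
    rw [Real.norm_eq_abs]
    calc _ ≤ K3 := h3 ν hν2
      _ = K3 * 1 := (mul_one _).symm
      _ ≤ K3 * E := mul_le_mul_of_nonneg_left hE1 hK3.le
  have htri : ∀ A B C D : ℂ, ‖A - D‖ ≤ ‖A - B‖ + ‖B - C‖ + ‖C - D‖ := by
    intro A B C D
    have : A - D = (A - B) + (B - C) + (C - D) := by ring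
    rw [this]
    exact norm_add₃_le
  calc _ ≤ _ := htri _ _ _ _
    _ ≤ K1 * (2 * θ0) * E + 1 / Real.sqrt d * K2 * E + 2 * Real.pi / Real.sqrt d * K3 * E :=
        add_le_add (add_le_add hA hB) hC
    _ = _ := by ring

theorem pp_asymp : ∃ K : ℝ, 0 < K ∧ ∀ n : ℕ, 1 ≤ n →
    |(pp n : ℝ) - FF ((-1) ^ n) n| ≤ K * Real.exp (CC * Real.sqrt n / 3) := by
  have hpi := Real.pi_pos
  obtain ⟨K1, hK1, h1⟩ := arc_total (d := 2 * Real.pi) (θ0 := 2 * Real.pi / 3)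
    (a := Real.pi ^ 2 / 6) (by positivity) (by positivity) (by positivity)
    (fun y θ => P (Complex.exp (-(sp y θ)))) (fun n y hy => continuous_arc n hy) (by
      obtain ⟨K, hK, h⟩ := arc1
      refine ⟨K, hK, fun y θ hy hy1 hθ => ?_⟩
      have := h y θ hy hy1 hθ
      have e : ((Real.pi ^ 2 / 6 : ℝ) : ℂ) / sp y θ = (Real.pi : ℂ) ^ 2 / (6 * sp y θ) := by
        push_cast
        rw [div_div]
      rw [e]
      push_cast
      exact this)
  obtain ⟨K2, hK2, h2⟩ := arc_total (d := Real.pi) (θ0 := Real.pi / 3)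
    (a := Real.pi ^ 2 / 24) (by positivity) (by positivity) (by positivity)
    (fun y θ => P (-Complex.exp (-(sp y θ)))) (fun n y hy => continuous_arc_neg n hy) (by
      obtain ⟨K, hK, h⟩ := arc2
      refine ⟨K, hK, fun y θ hy hy1 hθ => ?_⟩
      have := h y θ hy hy1 hθ
      have e : ((Real.pi ^ 2 / 24 : ℝ) : ℂ) / sp y θ = (Real.pi : ℂ) ^ 2 / (24 * sp y θ) := by
        push_cast
        rw [div_div]
      rw [e]
      exact this)
  refine ⟨(K1 + K2) / (2 * Real.pi), by positivity, fun n hn => ?_⟩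
  have hn1 : (1 : ℝ) ≤ n := by exact_mod_cast hn
  set ν : ℝ := (n : ℝ) - 1 / 24 with hν
  have hν0 : 0 < ν := by rw [hν]; linarith
  have H1 := h1 n hn
  have H2 := h2 n hn
  have hpp := pp_eq_arcs n (yy_pos hn)
  set I1 := ∫ θ in (-(2 * Real.pi / 3))..(2 * Real.pi / 3),
        P (Complex.exp (-(sp (yy n) θ))) * Complex.exp ((n : ℂ) * sp (yy n) θ) with hI1
  set I2 := ∫ θ in (-(Real.pi / 3))..(Real.pi / 3),
        P (-Complex.exp (-(sp (yy n) θ))) * Complex.exp ((n : ℂ) * sp (yy n) θ) with hI2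
  have hlam : lam n = Real.sqrt ν := rfl
  have hlampos : 0 < Real.sqrt ν := Real.sqrt_pos.mpr hν0
  have hs6 : Real.sqrt 6 * Real.sqrt 6 = 6 := Real.mul_self_sqrt (by norm_num)
  have hs6p : 0 < Real.sqrt 6 := Real.sqrt_pos.mpr (by norm_num)
  have ha1 : 2 * Real.sqrt (Real.pi ^ 2 / 6) = CC := by
    rw [CC_eq, Real.sqrt_div (by positivity), Real.sqrt_sq hpi.le]
    field_simp
    nlinarith
  have ha2 : 2 * Real.sqrt (Real.pi ^ 2 / 24) = CC / 2 := by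
    have : Real.pi ^ 2 / 24 = (Real.pi ^ 2 / 6) / 2 ^ 2 := by ring
    rw [this, Real.sqrt_div (by positivity), Real.sqrt_sq (by norm_num), ← ha1]
    ring
  have hFF : FF ((-1) ^ n) n = 1 / (2 * Real.pi) * (2 * Real.pi / Real.sqrt (2 * Real.pi) *
      GG (Real.pi ^ 2 / 6) ν + (-1) ^ n * (2 * Real.pi / Real.sqrt Real.pi *
      GG (Real.pi ^ 2 / 24) ν)) := by
    unfold FF GG
    rw [ha1, ha2, hlam, Real.sqrt_mul (by norm_num)]
    have hsp : 0 < Real.sqrt Real.pi := Real.sqrt_pos.mpr hpi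
    have hs2 : 0 < Real.sqrt 2 := Real.sqrt_pos.mpr (by norm_num)
    have hsp2 : Real.sqrt Real.pi ^ 2 = Real.pi := Real.sq_sqrt hpi.le
    have hs22 : Real.sqrt 2 ^ 2 = 2 := Real.sq_sqrt (by norm_num)
    rw [← hsp2, Real.sqrt_sq hsp.le]
    field_simp
  have hnorm : ‖((2 * Real.pi : ℝ) : ℂ) * (((pp n : ℝ) - FF ((-1) ^ n) n : ℝ) : ℂ)‖ ≤
      (K1 + K2) * Real.exp (CC * Real.sqrt n / 3) := by
    have e : ((2 * Real.pi : ℝ) : ℂ) * (((pp n : ℝ) - FF ((-1) ^ n) n : ℝ) : ℂ) =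
        (I1 - ((2 * Real.pi / Real.sqrt (2 * Real.pi) * GG (Real.pi ^ 2 / 6) ν : ℝ) : ℂ)) +
        (-1) ^ n * (I2 - ((2 * Real.pi / Real.sqrt Real.pi *
          GG (Real.pi ^ 2 / 24) ν : ℝ) : ℂ)) := by
      have e1 : ((2 * Real.pi : ℝ) : ℂ) * (((pp n : ℝ) - FF ((-1) ^ n) n : ℝ) : ℂ) =
          (2 * Real.pi : ℂ) * (pp n : ℂ) - ((2 * Real.pi * FF ((-1) ^ n) n : ℝ) : ℂ) := by
        push_cast; ring
      have e2 : 2 * Real.pi * FF ((-1) ^ n) n = 2 * Real.pi / Real.sqrt (2 * Real.pi) *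
          GG (Real.pi ^ 2 / 6) ν + (-1) ^ n * (2 * Real.pi / Real.sqrt Real.pi *
          GG (Real.pi ^ 2 / 24) ν) := by
        rw [hFF]; field_simp
      rw [e1, hpp, e2]
      push_cast
      ring
    rw [e]
    calc _ ≤ _ := norm_add_le _ _
      _ = ‖I1 - ((2 * Real.pi / Real.sqrt (2 * Real.pi) * GG (Real.pi ^ 2 / 6) ν : ℝ) : ℂ)‖ +
        ‖I2 - ((2 * Real.pi / Real.sqrt Real.pi * GG (Real.pi ^ 2 / 24) ν : ℝ) : ℂ)‖ := by
          rw [norm_mul, norm_pow, norm_neg, norm_one, one_pow, one_mul]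
      _ ≤ K1 * Real.exp (CC * Real.sqrt n / 3) + K2 * Real.exp (CC * Real.sqrt n / 3) :=
          add_le_add H1 H2
      _ = _ := by ring
  rw [norm_mul, Complex.norm_real, Complex.norm_real, Real.norm_of_nonneg (by positivity),
    Real.norm_eq_abs] at hnorm
  rw [div_mul_eq_mul_div, le_div_iff₀ (by positivity)]
  linarith

end PK
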