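import Pool.Agent.helper90.PK.Defs

/-!
# PK-B0: weights, polynomial bounds by interpolation

Proof sketch. `sum_weights_le`: `|x l - x j| ≥ h |l - j|`, `∏_{j ≠ l, j ≤ n} |l - j| = l! (n-l)!`,
`∑_l 1/(l! (n-l)!) = 2^n/n!` (`Nat.choose`, `Nat.sum_range_choose`).
`lag_bound`: Lagrange interpolation at `x 0..x n` (`Lagrange.eq_interpolate`, `p.degree < n+1`):
`p(z) = ∑_l p(x_l) ∏_{j≠l} (z - x_j)/(x_l - x_j)`, so `‖p(z)‖ ≤ B R^n ∑_l ∏ |x_l - x_j|⁻¹`.
`poly_growth`: `n = 0`: constant polynomial, `‖Q‖ ≤ 1`. `n ≥ 1`: nodes `x_j = N + j ε N/n`, spacing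
`h = ε N/n`, `‖z - x_j‖ ≤ N/2 + ε N ≤ N`, `lag_bound` gives `(2 n/ε)^n/n! ≤ (2 e/ε)^n`
(`n^n/n! ≤ e^n`, from the exponential series: `Real.pow_div_factorial_le_exp` or similar).
-/

namespace PK

open Polynomial

theorem prod_dist_eq (l n : ℕ) (hl : l ≤ n) :
    ∏ j ∈ (Finset.range (n + 1)).erase l, |(l : ℝ) - j| =
      (Nat.factorial l : ℝ) * (Nat.factorial (n - l) : ℝ) := by
  induction n, hl using Nat.le_induction with
  | base =>
    rw [Finset.range_add_one, Finset.erase_insert Finset.notMem_range_self]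
    have h1 := Finset.prod_range_reflect (fun j : ℕ => ((j : ℝ) + 1)) l
    have h2 : ∏ j ∈ Finset.range l, |(l : ℝ) - j| =
        ∏ j ∈ Finset.range l, (((l - 1 - j : ℕ) : ℝ) + 1) := by
      refine Finset.prod_congr rfl fun j hj => ?_
      have hj' := Finset.mem_range.1 hj
      have h3 : ((l - 1 - j : ℕ) : ℝ) + 1 = (l : ℝ) - j := by
        have h4 : (l - 1 - j) + 1 + j = l := by omega
        have h5 : (((l - 1 - j) + 1 + j : ℕ) : ℝ) = (l : ℝ) := by rw [h4]
        push_cast at h5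
        linarith
      rw [h3, abs_of_nonneg]
      have : (j : ℝ) ≤ l := by exact_mod_cast hj'.le
      linarith
    rw [h2, h1, Nat.sub_self, Nat.factorial_zero, Nat.cast_one, mul_one]
    have h6 := Finset.prod_range_add_one_eq_factorial l
    rw [← h6]
    push_cast
    rfl
  | succ n hn ih =>
    have hne : l ≠ n + 1 := by omega
    rw [Finset.range_add_one, Finset.erase_insert_of_ne hne.symm, Finset.prod_insert, ih]
    · have h1 : |(l : ℝ) - ((n + 1 : ℕ) : ℝ)| = ((n - l : ℕ) : ℝ) + 1 := by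
        have h2 : ((n - l : ℕ) : ℝ) = (n : ℝ) - l := by
          rw [Nat.cast_sub hn]
        rw [h2, abs_sub_comm, abs_of_nonneg]
        · push_cast; ring
        · have : (l : ℝ) ≤ n := by exact_mod_cast hn
          push_cast; linarith
      have h3 : n + 1 - l = (n - l) + 1 := by omega
      rw [h1, h3, Nat.factorial_succ]
      push_cast
      ring
    · intro h
      have := Finset.mem_range.1 (Finset.mem_of_mem_erase h)
      omega

theorem dist_nodes (n : ℕ) (x : ℕ → ℝ) (h : ℝ) (_hh : 0 < h)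
    (hx : ∀ i j : ℕ, i < j → j ≤ n → h * ((j : ℝ) - i) ≤ x j - x i) (l j : ℕ) (hl : l ≤ n)
    (hj : j ≤ n) : h * |(l : ℝ) - j| ≤ |x l - x j| := by
  rcases lt_trichotomy l j with hlt | heq | hgt
  · have h1 := hx l j hlt hj
    have h2 : (l : ℝ) ≤ j := by exact_mod_cast hlt.le
    rw [abs_sub_comm (l : ℝ), abs_of_nonneg (by linarith : 0 ≤ (j : ℝ) - l), abs_sub_comm (x l)]
    exact h1.trans (le_abs_self _)
  · subst heq; simp
  · have h1 := hx j l hgt hl
    have h2 : (j : ℝ) ≤ l := by exact_mod_cast hgt.le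
    rw [abs_of_nonneg (by linarith : 0 ≤ (l : ℝ) - j)]
    exact h1.trans (le_abs_self _)

theorem sum_weights_le (n : ℕ) (x : ℕ → ℝ) (h : ℝ) (hh : 0 < h)
    (hx : ∀ i j : ℕ, i < j → j ≤ n → h * ((j : ℝ) - i) ≤ x j - x i) :
    ∑ l ∈ Finset.range (n + 1), ∏ j ∈ (Finset.range (n + 1)).erase l, |x l - x j|⁻¹ ≤
      (2 / h) ^ n / (Nat.factorial n : ℝ) := by
  have hkey : ∀ l ∈ Finset.range (n + 1),
      ∏ j ∈ (Finset.range (n + 1)).erase l, |x l - x j|⁻¹ ≤
        (1 / h) ^ n * ((n.choose l : ℝ) / (Nat.factorial n : ℝ)) := by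
    intro l hl
    have hl' : l ≤ n := by have := Finset.mem_range.1 hl; omega
    have h1 : ∏ j ∈ (Finset.range (n + 1)).erase l, |x l - x j|⁻¹ ≤
        ∏ j ∈ (Finset.range (n + 1)).erase l, ((1 / h) * |(l : ℝ) - j|⁻¹) := by
      refine Finset.prod_le_prod (fun j _ => by positivity) fun j hj => ?_
      have hj1 := Finset.ne_of_mem_erase hj
      have hj2 : j ≤ n := by
        have := Finset.mem_range.1 (Finset.mem_of_mem_erase hj); omega
      have h2 := dist_nodes n x h hh hx l j hl' hj2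
      have h3 : 0 < |(l : ℝ) - j| := by
        rw [abs_pos, sub_ne_zero]
        exact_mod_cast hj1.symm
      have h4 : (1 / h) * |(l : ℝ) - j|⁻¹ = (h * |(l : ℝ) - j|)⁻¹ := by
        rw [mul_inv, one_div]
      rw [h4]
      exact inv_anti₀ (by positivity) h2
    refine h1.trans (le_of_eq ?_)
    rw [Finset.prod_mul_distrib, Finset.prod_const, Finset.card_erase_of_mem hl, Finset.card_range,
      Nat.add_sub_cancel, Finset.prod_inv_distrib, prod_dist_eq l n hl']
    congr 1
    have h5 := Nat.choose_mul_factorial_mul_factorial hl'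
    have h6 : (n.choose l : ℝ) * (Nat.factorial l : ℝ) * (Nat.factorial (n - l) : ℝ) =
        (Nat.factorial n : ℝ) := by exact_mod_cast h5
    have h7 : (Nat.factorial l : ℝ) ≠ 0 := by positivity
    have h8 : (Nat.factorial (n - l) : ℝ) ≠ 0 := by positivity
    have h9 : (Nat.factorial n : ℝ) ≠ 0 := by positivity
    rw [eq_div_iff h9, ← h6]
    field_simp
  refine (Finset.sum_le_sum hkey).trans (le_of_eq ?_)
  rw [← Finset.mul_sum, ← Finset.sum_div]
  have h1 : ∑ l ∈ Finset.range (n + 1), (n.choose l : ℝ) = 2 ^ n := by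
    have := Nat.sum_range_choose n
    exact_mod_cast this
  rw [h1, div_pow, div_pow, one_pow]
  ring

theorem lag_bound (n : ℕ) (x : ℕ → ℝ) (h : ℝ) (hh : 0 < h)
    (hx : ∀ i j : ℕ, i < j → j ≤ n → h * ((j : ℝ) - i) ≤ x j - x i)
    (p : ℂ[X]) (hp : p.degree < (n + 1 : ℕ)) (B R : ℝ)
    (hB : ∀ l ≤ n, ‖p.eval (x l : ℂ)‖ ≤ B) (z : ℂ) (hz : ∀ l ≤ n, ‖z - (x l : ℂ)‖ ≤ R) :
    ‖p.eval z‖ ≤ B * (2 * R / h) ^ n / (Nat.factorial n : ℝ) := by
  have hB0 : 0 ≤ B := (norm_nonneg _).trans (hB 0 (Nat.zero_le n))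
  have hR0 : 0 ≤ R := (norm_nonneg _).trans (hz 0 (Nat.zero_le n))
  have hinj : Set.InjOn (fun l : ℕ => (x l : ℂ)) (Finset.range (n + 1) : Finset ℕ) := by
    intro a ha b hb hab
    have ha' : a ≤ n := by have := Finset.mem_range.1 (Finset.mem_coe.1 ha); omega
    have hb' : b ≤ n := by have := Finset.mem_range.1 (Finset.mem_coe.1 hb); omega
    have h1 := dist_nodes n x h hh hx a b ha' hb'
    have h2 : x a = x b := by
      have : ((x a : ℝ) : ℂ) = ((x b : ℝ) : ℂ) := hab
      exact_mod_cast this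
    rw [h2, sub_self, abs_zero] at h1
    have h3 : |(a : ℝ) - b| ≤ 0 := by
      by_contra hc
      push Not at hc
      have := mul_pos hh hc
      linarith
    have h4 : (a : ℝ) - b = 0 := abs_eq_zero.1 (le_antisymm h3 (abs_nonneg _))
    exact_mod_cast sub_eq_zero.1 h4
  have hdeg : p.degree < ((Finset.range (n + 1)).card : ℕ) := by
    rw [Finset.card_range]; exact hp
  have hint := Lagrange.eq_interpolate hinj hdeg
  have heval : p.eval z = ∑ l ∈ Finset.range (n + 1), p.eval (x l : ℂ) *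
      ∏ j ∈ (Finset.range (n + 1)).erase l, (((x l : ℂ) - (x j : ℂ))⁻¹ * (z - (x j : ℂ))) := by
    conv_lhs => rw [hint]
    rw [Lagrange.interpolate_apply, Polynomial.eval_finsetSum]
    refine Finset.sum_congr rfl fun l _ => ?_
    rw [Polynomial.eval_mul, Polynomial.eval_C, Lagrange.basis, Polynomial.eval_prod]
    congr 1
    refine Finset.prod_congr rfl fun j _ => ?_
    simp [Lagrange.basisDivisor]
  rw [heval]
  refine (norm_sum_le _ _).trans ?_
  have hterm : ∀ l ∈ Finset.range (n + 1), ‖p.eval (x l : ℂ) *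
      ∏ j ∈ (Finset.range (n + 1)).erase l, (((x l : ℂ) - (x j : ℂ))⁻¹ * (z - (x j : ℂ)))‖ ≤
      B * R ^ n * ∏ j ∈ (Finset.range (n + 1)).erase l, |x l - x j|⁻¹ := by
    intro l hl
    have hl' : l ≤ n := by have := Finset.mem_range.1 hl; omega
    rw [norm_mul, norm_prod, mul_assoc]
    refine mul_le_mul (hB l hl') ?_ (Finset.prod_nonneg fun _ _ => norm_nonneg _) hB0
    have h1 : ∀ j ∈ (Finset.range (n + 1)).erase l,
        ‖((x l : ℂ) - (x j : ℂ))⁻¹ * (z - (x j : ℂ))‖ ≤ R * |x l - x j|⁻¹ := by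
      intro j hj
      have hj2 : j ≤ n := by
        have := Finset.mem_range.1 (Finset.mem_of_mem_erase hj); omega
      rw [norm_mul, norm_inv, ← Complex.ofReal_sub, Complex.norm_real, Real.norm_eq_abs, mul_comm]
      exact mul_le_mul_of_nonneg_right (hz j hj2) (by positivity)
    refine (Finset.prod_le_prod (fun _ _ => norm_nonneg _) h1).trans (le_of_eq ?_)
    rw [Finset.prod_mul_distrib, Finset.prod_const, Finset.card_erase_of_mem hl, Finset.card_range,
      Nat.add_sub_cancel]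
  refine (Finset.sum_le_sum hterm).trans ?_
  rw [← Finset.mul_sum]
  have hw := sum_weights_le n x h hh hx
  calc B * R ^ n * ∑ l ∈ Finset.range (n + 1),
        ∏ j ∈ (Finset.range (n + 1)).erase l, |x l - x j|⁻¹
      ≤ B * R ^ n * ((2 / h) ^ n / (Nat.factorial n : ℝ)) :=
        mul_le_mul_of_nonneg_left hw (by positivity)
    _ = B * (2 * R / h) ^ n / (Nat.factorial n : ℝ) := by
        have : (2 * R / h) = R * (2 / h) := by ring
        rw [this, mul_pow]
        ring

theorem poly_growth (n : ℕ) (Q : ℂ[X]) (hQ : Q.degree < (n + 1 : ℕ)) (N ε : ℝ) (hN : 0 < N)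
    (hε : 0 < ε) (hε2 : ε ≤ 1 / 2)
    (hb : ∀ x ∈ Set.Icc N (N + ε * N), ‖Q.eval (x : ℂ)‖ ≤ 1)
    (z : ℂ) (hz : z ∈ Metric.closedBall (N : ℂ) (N / 2)) :
    ‖Q.eval z‖ ≤ (2 * Real.exp 1 / ε) ^ n := by
  have hεN : 0 < ε * N := mul_pos hε hN
  rcases Nat.eq_zero_or_pos n with hn | hn
  · subst hn
    have h1 : Q.degree ≤ 0 := by
      have : Q.degree < (1 : ℕ) := by simpa using hQ
      exact Order.le_of_lt_succ this
    have h2 := Polynomial.eq_C_of_degree_le_zero h1
    have h3 := hb N ⟨le_refl _, by linarith⟩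
    rw [h2, Polynomial.eval_C] at h3
    rw [h2, Polynomial.eval_C, pow_zero]
    exact h3
  · have hn' : (0 : ℝ) < n := by exact_mod_cast hn
    have hh : 0 < ε * N / n := by positivity
    have h1 := lag_bound n (fun j : ℕ => N + j * (ε * N / n)) (ε * N / n) hh
      (fun i j _ _ => by
        have : (N + (j : ℝ) * (ε * N / n)) - (N + (i : ℝ) * (ε * N / n)) =
          (ε * N / n) * ((j : ℝ) - i) := by ring
        exact this.ge) Q hQ 1 N
      (fun l hl => by
        refine hb _ ⟨by have : 0 ≤ (l : ℝ) * (ε * N / n) := by positivity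
                        linarith, ?_⟩
        have hl' : (l : ℝ) ≤ n := by exact_mod_cast hl
        have h2 : (l : ℝ) * (ε * N / n) ≤ n * (ε * N / n) :=
          mul_le_mul_of_nonneg_right hl' hh.le
        have h3 : (n : ℝ) * (ε * N / n) = ε * N := by field_simp
        linarith) z
      (fun l hl => by
        have hl' : (l : ℝ) ≤ n := by exact_mod_cast hl
        have h2 : (l : ℝ) * (ε * N / n) ≤ n * (ε * N / n) :=
          mul_le_mul_of_nonneg_right hl' hh.le
        have h3 : (n : ℝ) * (ε * N / n) = ε * N := by field_simp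
        have h4 : ‖z - (N : ℂ)‖ ≤ N / 2 := by
          have := hz
          rwa [Metric.mem_closedBall, dist_eq_norm] at this
        have h5 : z - ((N + (l : ℝ) * (ε * N / n) : ℝ) : ℂ) =
            (z - (N : ℂ)) - (((l : ℝ) * (ε * N / n) : ℝ) : ℂ) := by
          push_cast; ring
        have h6 : ‖(((l : ℝ) * (ε * N / n) : ℝ) : ℂ)‖ = (l : ℝ) * (ε * N / n) := by
          rw [Complex.norm_real, Real.norm_eq_abs, abs_of_nonneg (by positivity)]
        have h7 : ε * N ≤ N / 2 := by nlinarith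
        calc ‖z - ((N + (l : ℝ) * (ε * N / n) : ℝ) : ℂ)‖ ≤
            ‖z - (N : ℂ)‖ + ‖(((l : ℝ) * (ε * N / n) : ℝ) : ℂ)‖ := by
              rw [h5]; exact norm_sub_le _ _
          _ ≤ N := by rw [h6]; linarith)
    refine h1.trans ?_
    have h8 : 1 * (2 * N / (ε * N / n)) ^ n / (Nat.factorial n : ℝ) =
        (2 / ε) ^ n * ((n : ℝ) ^ n / (Nat.factorial n : ℝ)) := by
      have h9 : 2 * N / (ε * N / n) = (2 / ε) * n := by field_simp
      rw [h9, mul_pow]; ring
    have h10 := Real.pow_div_factorial_le_exp (n : ℝ) hn'.le n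
    rw [h8]
    have h11 : (2 * Real.exp 1 / ε) ^ n = (2 / ε) ^ n * Real.exp n := by
      have : 2 * Real.exp 1 / ε = (2 / ε) * Real.exp 1 := by ring
      rw [this, mul_pow, ← Real.exp_nat_mul, mul_one]
    rw [h11]
    exact mul_le_mul_of_nonneg_left h10 (by positivity)

end PK
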